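import Pool.Agent.PalF.BoxTools

/-!
# PALF-BX2: the density of a divergence free field in a flow box does not depend on the time
-/

set_option autoImplicit false

open scoped Manifold ContDiff Topology
open MeasureTheory Set Filter Bundle Asymptotics Metric Pool.Agent.Palis

namespace Pool.Agent.PalF

namespace BX2_

/-- a function whose derivative has integral zero against all bump functions -/
lemma deriv_zero {F : Type} [NormedAddCommGroup F] [NormedSpace ℝ F] [FiniteDimensional ℝ F]
    [MeasurableSpace F] [BorelSpace F] {ν : Measure F} [ν.IsAddHaarMeasure] {Ω : Set F}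
    (hΩ : IsOpen Ω) {g : F → ℝ} (hg : ContDiffOn ℝ ∞ g Ω) (v : F)
    (h : ∀ f : F → ℝ, ContDiff ℝ ∞ f → HasCompactSupport f → tsupport f ⊆ Ω →
      ∫ z in Ω, g z * fderiv ℝ f z v ∂ν = 0) : ∀ z ∈ Ω, fderiv ℝ g z v = 0 := by
  -- one sided version
  have key : ∀ (g : F → ℝ), ContDiffOn ℝ ∞ g Ω → (∀ f : F → ℝ, ContDiff ℝ ∞ f →
      HasCompactSupport f → tsupport f ⊆ Ω → ∫ z in Ω, g z * fderiv ℝ f z v ∂ν = 0) →
      ∀ z ∈ Ω, ¬ 0 < fderiv ℝ g z v := by
    intro g hg h z hz hlt
    have hc : ContinuousAt (fun w => fderiv ℝ g w v) z := by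
      have h1 := (hg.continuousOn_fderiv_of_isOpen hΩ (by simp)).continuousAt (hΩ.mem_nhds hz)
      exact h1.clm_apply continuousAt_const
    have hev : ∀ᶠ w in 𝓝 z, w ∈ Ω ∧ 0 < fderiv ℝ g w v :=
      (hΩ.eventually_mem hz).and (hc.eventually (lt_mem_nhds hlt))
    obtain ⟨r, hr, hball⟩ := Metric.eventually_nhds_iff_ball.1 hev
    let b : ContDiffBump z := ⟨r / 4, r / 2, by positivity, by linarith⟩
    have hbs : tsupport (b : F → ℝ) ⊆ ball z r := by
      rw [b.tsupport_eq]
      exact closedBall_subset_ball (by show r / 2 < r; linarith)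
    have hbΩ : tsupport (b : F → ℝ) ⊆ Ω := fun w hw => (hball w (hbs hw)).1
    have h0 := h b b.contDiff b.hasCompactSupport hbΩ
    obtain ⟨g', hg', hgg⟩ := BoxT_.cutoff hΩ (isClosed_tsupport (b : F → ℝ)) hbΩ hg
    have e1 : ∫ w in Ω, g w * fderiv ℝ b w v ∂ν = ∫ w, g' w * fderiv ℝ b w v ∂ν := by
      have hb0 : ∀ w, w ∉ tsupport (b : F → ℝ) → fderiv ℝ (b : F → ℝ) w = 0 := by
        intro w hw
        exact image_eq_zero_of_notMem_tsupport fun h' => hw (tsupport_fderiv_subset ℝ h')
      rw [← setIntegral_eq_integral_of_forall_compl_eq_zero (s := Ω) (f := fun w =>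
        g' w * fderiv ℝ b w v)]
      · refine setIntegral_congr_fun hΩ.measurableSet fun w _ => ?_
        by_cases hw : w ∈ tsupport (b : F → ℝ)
        · simp only [(hgg w hw).self_of_nhds]
        · simp only [hb0 w hw, _root_.zero_apply, mul_zero]
      · intro w hw
        rw [hb0 w (fun h' => hw (hbΩ h')), _root_.zero_apply, mul_zero]
    have hg'1 : Continuous (fun w => fderiv ℝ g' w v) :=
      (hg'.continuous_fderiv (by simp)).clm_apply continuous_const
    have hb1 : Continuous (fun w => fderiv ℝ (b : F → ℝ) w v) :=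
      ((b.contDiff (n := ⊤)).continuous_fderiv (by simp)).clm_apply continuous_const
    have hbc : HasCompactSupport (b : F → ℝ) := b.hasCompactSupport
    have hbc1 : HasCompactSupport (fun w => fderiv ℝ (b : F → ℝ) w v) :=
      (hbc.fderiv ℝ).comp_left (g := fun L : F →L[ℝ] ℝ => L v) (by simp)
    have i1 : Integrable (fun w => fderiv ℝ g' w v * b w) ν :=
      (hg'1.mul b.continuous).integrable_of_hasCompactSupport hbc.mul_left
    have i2 : Integrable (fun w => g' w * fderiv ℝ b w v) ν :=
      (hg'.continuous.mul hb1).integrable_of_hasCompactSupport hbc1.mul_left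
    have i3 : Integrable (fun w => g' w * b w) ν :=
      (hg'.continuous.mul b.continuous).integrable_of_hasCompactSupport hbc.mul_left
    have e2 := integral_mul_fderiv_eq_neg_fderiv_mul_of_integrable i1 i2 i3
      (fun x _ => hg'.differentiable (by simp) x)
      (fun x _ => (b.contDiff (n := ⊤)).differentiable (by simp) x)
    rw [e1, e2, neg_eq_zero] at h0
    have hpos : ∀ w, 0 ≤ fderiv ℝ g' w v * b w := by
      intro w
      by_cases hw : w ∈ tsupport (b : F → ℝ)
      · rw [(hgg w hw).fderiv_eq]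
        exact mul_nonneg (hball w (hbs hw)).2.le b.nonneg
      · rw [image_eq_zero_of_notMem_tsupport hw, mul_zero]
    have h2 := (integral_eq_zero_iff_of_nonneg hpos i1).1 h0
    have h3 := (Continuous.ae_eq_iff_eq ν (hg'1.mul b.continuous) continuous_const).1 h2
    have hzs : z ∈ tsupport (b : F → ℝ) := by
      apply subset_tsupport
      show b z ≠ 0
      rw [b.one_of_mem_closedBall (mem_closedBall_self b.rIn_pos.le)]
      exact one_ne_zero
    have h4 : fderiv ℝ g' z v * b z = 0 := congrFun h3 z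
    rw [(hgg z hzs).fderiv_eq, b.one_of_mem_closedBall (mem_closedBall_self b.rIn_pos.le), mul_one] at h4
    exact hlt.ne' h4
  intro z hz
  have h1 := key g hg h z hz
  have h2 := key (fun w => -g w) hg.neg (by
    intro f h1 h2 h3
    have := h f h1 h2 h3
    simp only [neg_mul, integral_neg, this, neg_zero]) z hz
  have h3 : fderiv ℝ (fun w => -g w) z v = - fderiv ℝ g z v := by
    rw [fderiv_fun_neg]; rfl
  rw [h3] at h2
  linarith

end BX2_

open BX2_ in
theorem bx21 : T_BX2 := by
  intro E _ _ _ _ _ M _ _ _ _ _ _ _ μ X Φ h g hdiv hB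
  classical
  have hpos := hB.pos
  have hHaar : (volume : Measure (ℝ × E2)).IsAddHaarMeasure := by
    rw [Measure.volume_eq_prod]; infer_instance
  have hd : ∀ z ∈ Φ.target, fderiv ℝ g z ((1, 0) : ℝ × E2) = 0 := by
    refine BX2_.deriv_zero (ν := (volume : Measure (ℝ × E2))) Φ.open_target hB.gsmooth _ ?_
    intro f hf hfc hfs
    obtain ⟨η, hηdef⟩ : ∃ η : M → ℝ, η = fun x => if x ∈ Φ.source then f (Φ x) else 0 := ⟨_, rfl⟩
    have hη : ContMDiff 𝓘(ℝ, E) 𝓘(ℝ, ℝ) ∞ η := by
      refine BoxT_.push_contMDiff hB.smooth hf hfc hfs (fun z hz =>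
        image_eq_zero_of_notMem_tsupport hz) ?_ ?_
      · intro x hx; rw [hηdef]; simp only [if_pos hx]
      · intro x hx; rw [hηdef]; simp only [if_neg hx]
    -- the derivative along `X`
    obtain ⟨f', hf'⟩ : ∃ f' : ℝ × E2 → ℝ, f' = fun z => fderiv ℝ f z (1, 0) := ⟨_, rfl⟩
    have hf's : ContDiff ℝ ∞ f' := by
      rw [hf']
      exact (hf.fderiv_right (m := ∞) (by simp)).clm_apply contDiff_const
    have hf'0 : ∀ z, z ∉ tsupport f → f' z = 0 := by
      intro z hz
      have h0 : fderiv ℝ f z = 0 :=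
        image_eq_zero_of_notMem_tsupport fun h' => hz (tsupport_fderiv_subset ℝ h')
      rw [hf']
      simp only [h0, _root_.zero_apply]
    have hXη1 : ∀ x ∈ Φ.source, lieD η X x = f' (Φ x) := by
      intro x hx
      have h1 := BoxT_.lieD_box hB.smooth hB.smooth_symm hη X (Φ.map_source hx)
      rw [Φ.left_inv hx, hB.field x hx] at h1
      rw [h1, hf']
      have h2 : (fun w => η (Φ.symm w)) =ᶠ[𝓝 (Φ x)] f := by
        filter_upwards [Φ.open_target.mem_nhds (Φ.map_source hx)] with w hw
        rw [hηdef]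
        simp only [if_pos (Φ.map_target hw), Φ.right_inv hw]
      rw [h2.fderiv_eq]
    have hXη2 : ∀ x ∉ Φ.source, lieD η X x = 0 := by
      intro x hx
      have hc : IsCompact (Φ.symm '' tsupport f) :=
        hfc.isCompact.image_of_continuousOn (Φ.continuousOn_symm.mono hfs)
      have hxK : x ∈ (Φ.symm '' tsupport f)ᶜ := by
        rintro ⟨z, hz, rfl⟩
        exact hx (Φ.map_target (hfs hz))
      have h2 : η =ᶠ[𝓝 x] fun _ => (0 : ℝ) := by
        filter_upwards [hc.isClosed.isOpen_compl.mem_nhds hxK] with y hy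
        rw [hηdef]
        simp only
        split_ifs with hys
        · apply image_eq_zero_of_notMem_tsupport
          intro hyK
          exact hy ⟨_, hyK, Φ.left_inv hys⟩
        · rfl
      have h3 := h2.mfderiv_eq (I := 𝓘(ℝ, E)) (I' := 𝓘(ℝ, ℝ))
      unfold lieD
      rw [h3, mfderiv_const]
      rfl
    have hXc : Continuous (lieD η X) :=
      (BoxT_.push_contMDiff hB.smooth hf's hfc hfs hf'0 hXη1 hXη2).continuous
    have h0 : ∫ x, lieD η X x ∂μ = 0 := hdiv η hη
    rw [← setIntegral_eq_integral_of_forall_compl_eq_zero (s := Φ.source) hXη2,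
      BoxT_.integral_box (ν := (volume : Measure (ℝ × E2))) hB.gsmooth.continuousOn hB.gpos
        hB.meas hXc] at h0
    rw [← h0]
    refine setIntegral_congr_fun Φ.open_target.measurableSet fun z hz => ?_
    show g z * fderiv ℝ f z (1, 0) = g z * lieD η X (Φ.symm z)
    rw [hXη1 _ (Φ.map_target hz), Φ.right_inv hz, hf']
  rintro ⟨t, y⟩ hz
  rw [hB.target] at hz
  have hy : y ∈ ball (0 : E2) h := hz.2
  have hmem : ∀ s ∈ Ioo (-h) h, ((s, y) : ℝ × E2) ∈ Φ.target := by
    intro s hs
    rw [hB.target]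
    exact ⟨hs, hy⟩
  have hder : ∀ s ∈ Ioo (-h) h, HasDerivAt (fun s : ℝ => g (s, y)) 0 s := by
    intro s hs
    have h1 : DifferentiableAt ℝ g (s, y) :=
      ((hB.gsmooth).contDiffAt (Φ.open_target.mem_nhds (hmem s hs))).differentiableAt (by simp)
    have h2 : HasDerivAt (fun s : ℝ => ((s, y) : ℝ × E2)) (1, 0) s :=
      (hasDerivAt_id s).prodMk (hasDerivAt_const s y)
    have h3 := h1.hasFDerivAt.comp_hasDerivAt s h2
    rw [hd _ (hmem s hs)] at h3
    exact h3
  have h1 := isOpen_Ioo.is_const_of_deriv_eq_zero isPreconnected_Ioo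
    (fun s hs => (hder s hs).differentiableAt.differentiableWithinAt)
    (fun s hs => (hder s hs).deriv) hz.1 (show (0 : ℝ) ∈ Ioo (-h) h from ⟨by linarith, hpos⟩)
  exact h1

end Pool.Agent.PalF
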