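import Pool.Agent.PalF.Targets2
import Pool.Agent.Pal.LIN

/-!
# PALF, job BX3: straightening of the area in a flow box
-/

set_option autoImplicit false

open scoped Manifold ContDiff Topology
open MeasureTheory Set Filter Bundle Asymptotics Metric Pool.Agent.Palis

namespace Pool.Agent.PalF

namespace BX3_

/-- Parametric integrals. -/
lemma param (n : ℕ) : ∀ {E G : Type} [NormedAddCommGroup E] [NormedSpace ℝ E]
    [FiniteDimensional ℝ E] [NormedAddCommGroup G] [NormedSpace ℝ G] [CompleteSpace G]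
    (F : E × ℝ → G), ContDiff ℝ n F → ContDiff ℝ n (fun x => ∫ s in (0 : ℝ)..1, F (x, s)) := by
  induction n with
  | zero =>
    intro E G _ _ _ _ _ _ F hF
    rw [Nat.cast_zero, contDiff_zero] at hF ⊢
    exact intervalIntegral.continuous_parametric_intervalIntegral_of_continuous'
      (f := fun x s => F (x, s)) hF 0 1
  | succ n ih =>
    intro E G _ _ _ _ _ _ F hF
    have : ProperSpace E := FiniteDimensional.proper ℝ E
    set F' : E × ℝ → E →L[ℝ] G := fun p => (fderiv ℝ F p).comp (ContinuousLinearMap.inl ℝ E ℝ)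
      with hF'
    have hF'c : ContDiff ℝ n F' := by
      have h1 : ContDiff ℝ n (fderiv ℝ F) := hF.fderiv_right (by norm_cast)
      exact h1.clm_comp contDiff_const
    have hc : Continuous F' := hF'c.continuous
    have hFd : Differentiable ℝ F := hF.differentiable (by simp)
    have key : ∀ x₀, HasFDerivAt (fun x => ∫ s in (0 : ℝ)..1, F (x, s))
        (∫ s in (0 : ℝ)..1, F' (x₀, s)) x₀ := by
      intro x₀
      obtain ⟨C, hC⟩ := ((isCompact_closedBall x₀ 1).prod
        (isCompact_Icc (a := (0 : ℝ)) (b := 1))).exists_bound_of_continuousOn (f := F')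
        hc.continuousOn
      refine intervalIntegral.hasFDerivAt_integral_of_dominated_of_fderiv_le
        (F := fun x s => F (x, s)) (F' := fun x s => F' (x, s)) (s := Metric.ball x₀ 1)
        (bound := fun _ => C) (Metric.ball_mem_nhds x₀ one_pos) ?_ ?_ ?_ ?_ ?_ ?_
      · refine Eventually.of_forall fun x => ?_
        exact (hF.continuous.comp
          (by fun_prop : Continuous fun s : ℝ => (x, s))).aestronglyMeasurable
      · exact (hF.continuous.comp
          (by fun_prop : Continuous fun s : ℝ => (x₀, s))).intervalIntegrable _ _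
      · exact (hc.comp (by fun_prop : Continuous fun s : ℝ => (x₀, s))).aestronglyMeasurable
      · refine Eventually.of_forall fun t ht x hx => hC (x, t) ⟨?_, ?_⟩
        · exact Metric.ball_subset_closedBall hx
        · rw [uIoc_of_le zero_le_one] at ht
          exact ⟨ht.1.le, ht.2⟩
      · exact continuous_const.intervalIntegrable _ _
      · refine Eventually.of_forall fun t _ x _ => ?_
        have h1 : HasFDerivAt F (fderiv ℝ F (x, t)) (x, t) := (hFd (x, t)).hasFDerivAt
        have h2 : HasFDerivAt (fun y : E => (y, t)) (ContinuousLinearMap.inl ℝ E ℝ) x :=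
          hasFDerivAt_prodMk_left x t
        exact h1.comp x h2
    rw [Nat.cast_succ, contDiff_succ_iff_fderiv]
    refine ⟨fun x => (key x).differentiableAt, by simp, ?_⟩
    have h2 : fderiv ℝ (fun x => ∫ s in (0 : ℝ)..1, F (x, s)) =
        fun x => ∫ s in (0 : ℝ)..1, F' (x, s) := by
      funext x
      exact (key x).fderiv
    rw [h2]
    exact ih F' hF'c

/-- A positive smooth extension. -/
lemma extend {h : ℝ} (hh : 0 < h) {G : E2 → ℝ} (hG : ContDiffOn ℝ ∞ G (ball 0 h))
    (hpos : ∀ y ∈ ball (0 : E2) h, 0 < G y) :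
    ∃ ρ : E2 → ℝ, ContDiff ℝ ∞ ρ ∧ (∀ y, 0 < ρ y) ∧ ∀ y ∈ ball (0 : E2) (h / 2), ρ y = G y := by
  let χ : ContDiffBump (0 : E2) := ⟨h / 2, 3 * h / 4, by linarith, by linarith⟩
  refine ⟨fun y => χ y * (G y - 1) + 1, ?_, ?_, ?_⟩
  · rw [contDiff_iff_contDiffAt]
    intro y
    by_cases hy : y ∈ ball (0 : E2) h
    · have h1 : ContDiffAt ℝ ∞ G y := hG.contDiffAt (isOpen_ball.mem_nhds hy)
      exact (χ.contDiff.contDiffAt.mul (h1.sub contDiffAt_const)).add contDiffAt_const
    · have h1 : (fun y => χ y * (G y - 1) + 1) =ᶠ[𝓝 y] fun _ => 1 := by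
        have h2 : ∀ᶠ z in 𝓝 y, z ∉ closedBall (0 : E2) (3 * h / 4) := by
          apply isClosed_closedBall.isOpen_compl.mem_nhds
          intro h3
          apply hy
          exact closedBall_subset_ball (by linarith) h3
        filter_upwards [h2] with z hz
        have h3 : χ z = 0 := by
          apply χ.zero_of_le_dist
          rw [mem_closedBall] at hz
          push Not at hz
          exact hz.le
        rw [h3]
        ring
      exact contDiffAt_const.congr_of_eventuallyEq h1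
  · intro y
    simp only
    by_cases hy : y ∈ ball (0 : E2) h
    · have h1 := hpos y hy
      have h2 : 0 ≤ χ y := χ.nonneg
      have h3 : χ y ≤ 1 := χ.le_one
      have h4 : χ y * (G y - 1) + 1 = χ y * G y + (1 - χ y) := by ring
      rw [h4]
      rcases h3.lt_or_eq with h5 | h5
      · have : 0 ≤ χ y * G y := mul_nonneg h2 h1.le
        linarith
      · rw [h5]
        linarith
    · have h3 : χ y = 0 := by
        apply χ.zero_of_le_dist
        rw [mem_ball] at hy
        push Not at hy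
        show 3 * h / 4 ≤ dist y 0
        linarith
      rw [h3]
      norm_num
  · intro y hy
    have h1 : χ y = 1 := by
      apply χ.one_of_mem_closedBall
      exact ball_subset_closedBall hy
    simp only [h1]
    ring

lemma coord_contDiff (i : Fin 2) {n : WithTop ℕ∞} : ContDiff ℝ n (fun y : E2 => y i) :=
  (contDiff_euclidean.1 contDiff_id) i

/-- The vector with given coordinates. -/
noncomputable def vec (a b : ℝ) : E2 := WithLp.toLp 2 ![a, b]

@[simp] lemma vec_zero (a b : ℝ) : vec a b 0 = a := rfl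
@[simp] lemma vec_one (a b : ℝ) : vec a b 1 = b := rfl

lemma vec_contDiff {X : Type} [NormedAddCommGroup X] [NormedSpace ℝ X] {n : WithTop ℕ∞}
    {a b : X → ℝ} (ha : ContDiff ℝ n a) (hb : ContDiff ℝ n b) :
    ContDiff ℝ n (fun x => vec (a x) (b x)) := by
  rw [contDiff_euclidean]
  intro i
  fin_cases i
  · exact ha
  · exact hb

lemma vec_eta (y : E2) : vec (y 0) (y 1) = y := by
  apply Pal.LIN_.ext_e
  · rfl
  · rfl

/-- The straightening of a positive density of the plane. -/
lemma plane {ρ : E2 → ℝ} (hρ : ContDiff ℝ ∞ ρ) (hpos : ∀ y, 0 < ρ y) :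
    ∃ H : E2 → E2, ContDiff ℝ ∞ H ∧ Function.Injective H ∧ H 0 = 0 ∧
      ∀ y, (fderiv ℝ H y).det = ρ y := by
  set I : E2 → ℝ := fun y => ∫ t in (0 : ℝ)..y 0, ρ (vec t (y 1)) with hI
  have hcont : ∀ b : ℝ, Continuous fun t : ℝ => ρ (vec t b) := by
    intro b
    exact hρ.continuous.comp (vec_contDiff (n := 0) contDiff_id contDiff_const).continuous
  have hI2 : ∀ y, I y = y 0 * ∫ s in (0 : ℝ)..1, ρ (vec (y 0 * s) (y 1)) := by
    intro y
    have h := intervalIntegral.mul_integral_comp_mul_left (a := 0) (b := 1)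
      (f := fun t => ρ (vec t (y 1))) (y 0)
    rw [mul_zero, mul_one] at h
    exact h.symm
  have hIs : ContDiff ℝ ∞ I := by
    have h1 : I = fun y => y 0 * ∫ s in (0 : ℝ)..1, ρ (vec (y 0 * s) (y 1)) := funext hI2
    rw [h1]
    apply (coord_contDiff 0).mul
    rw [contDiff_infty]
    intro n
    apply param n (fun p : E2 × ℝ => ρ (vec (p.1 0 * p.2) (p.1 1)))
    have h2 : ContDiff ℝ n ρ := hρ.of_le (by exact_mod_cast le_top)
    apply h2.comp
    apply vec_contDiff
    · exact ((coord_contDiff 0).comp contDiff_fst).mul contDiff_snd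
    · exact (coord_contDiff 1).comp contDiff_fst
  set H : E2 → E2 := fun y => vec (I y) (y 1) with hH
  have hHs : ContDiff ℝ ∞ H := vec_contDiff hIs (coord_contDiff 1)
  refine ⟨H, hHs, ?_, ?_, ?_⟩
  · intro y z hyz
    have h1 : y 1 = z 1 := by
      have := congrArg (fun v : E2 => v 1) hyz
      simpa [hH] using this
    have h0 : I y = I z := by
      have := congrArg (fun v : E2 => v 0) hyz
      simpa [hH] using this
    apply Pal.LIN_.ext_e _ h1
    -- strict monotonicity of the integral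
    have hmono : StrictMono (fun a : ℝ => ∫ t in (0 : ℝ)..a, ρ (vec t (y 1))) := by
      apply strictMono_of_deriv_pos
      intro a
      rw [((hcont (y 1)).deriv_integral _ 0 a)]
      exact hpos _
    apply hmono.injective
    show I y = _
    rw [h0, hI]
    simp only [h1]
  · apply Pal.LIN_.ext_e
    · show I 0 = (0 : E2) 0
      rw [hI]
      simp
    · rfl
  · intro y
    have hd : DifferentiableAt ℝ H y := hHs.differentiable (by simp) y
    rw [Pal.LIN_.det_eq]
    have hderiv : ∀ (i j : Fin 2) (d : ℝ),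
        HasDerivAt (fun t : ℝ => H (y + t • Pal.LIN_.e i) j) d 0 →
        (fderiv ℝ H y (Pal.LIN_.e i)) j = d := by
      intro i j d h1
      have h2 : HasDerivAt (fun t : ℝ => y + t • Pal.LIN_.e i) (Pal.LIN_.e i) 0 := by
        have := ((hasDerivAt_id (0 : ℝ)).smul_const (Pal.LIN_.e i)).const_add y
        simpa using this
      have h3 : HasDerivAt (H ∘ fun t : ℝ => y + t • Pal.LIN_.e i)
          (fderiv ℝ H y (Pal.LIN_.e i)) 0 := by
        apply HasFDerivAt.comp_hasDerivAt (0 : ℝ) _ h2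
        simp only [zero_smul, add_zero]
        exact hd.hasFDerivAt
      have h4 := (EuclideanSpace.proj (𝕜 := ℝ) (ι := Fin 2) j).hasFDerivAt.comp_hasDerivAt
        (0 : ℝ) h3
      exact h4.unique h1
    have e0 : ∀ t : ℝ, (y + t • Pal.LIN_.e 0) 0 = y 0 + t := by
      intro t
      simp [Pal.LIN_.e_apply]
    have e01 : ∀ t : ℝ, (y + t • Pal.LIN_.e 0) 1 = y 1 := by
      intro t
      simp [Pal.LIN_.e_apply]
    have e1 : ∀ t : ℝ, (y + t • Pal.LIN_.e 1) 1 = y 1 + t := by
      intro t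
      simp [Pal.LIN_.e_apply]
    have d00 : (fderiv ℝ H y (Pal.LIN_.e 0)) 0 = ρ y := by
      apply hderiv
      have h1 : (fun t : ℝ => H (y + t • Pal.LIN_.e 0) 0) =
          fun t : ℝ => ∫ s in (0 : ℝ)..(y 0 + t), ρ (vec s (y 1)) := by
        funext t
        show I (y + t • Pal.LIN_.e 0) = _
        rw [hI]
        simp only [e0, e01]
      rw [h1]
      have h2 : HasDerivAt (fun a : ℝ => ∫ s in (0 : ℝ)..a, ρ (vec s (y 1)))
          (ρ (vec (y 0) (y 1))) (y 0 + 0) := by
        rw [add_zero]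
        exact intervalIntegral.integral_hasDerivAt_right ((hcont _).intervalIntegrable _ _)
          ((hcont _).stronglyMeasurableAtFilter _ _) (hcont _).continuousAt
      have h3 := h2.comp_const_add (y 0) 0
      rw [vec_eta] at h3
      exact h3
    have d01 : (fderiv ℝ H y (Pal.LIN_.e 0)) 1 = 0 := by
      apply hderiv
      have h1 : (fun t : ℝ => H (y + t • Pal.LIN_.e 0) 1) = fun t : ℝ => y 1 := by
        funext t
        exact e01 t
      rw [h1]
      exact hasDerivAt_const _ _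
    have d11 : (fderiv ℝ H y (Pal.LIN_.e 1)) 1 = 1 := by
      apply hderiv
      have h1 : (fun t : ℝ => H (y + t • Pal.LIN_.e 1) 1) = fun t : ℝ => y 1 + t := by
        funext t
        exact e1 t
      rw [h1]
      exact (hasDerivAt_id (0 : ℝ)).const_add (y 1)
    rw [d00, d01, d11]
    ring

/-- The product of the identity and a map. -/
def KK (H : E2 → E2) (p : ℝ × E2) : ℝ × E2 := (p.1, H p.2)

lemma KK_contDiff {H : E2 → E2} (hH : ContDiff ℝ ∞ H) : ContDiff ℝ ∞ (KK H) :=
  contDiff_fst.prodMk (hH.comp contDiff_snd)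

/-- The derivative of `KK H`. -/
noncomputable def DK (H : E2 → E2) (p : ℝ × E2) : (ℝ × E2) →L[ℝ] (ℝ × E2) :=
  (ContinuousLinearMap.id ℝ ℝ).prodMap (fderiv ℝ H p.2)

lemma KK_hasFDerivAt {H : E2 → E2} (hH : ContDiff ℝ ∞ H) (p : ℝ × E2) :
    HasFDerivAt (KK H) (DK H p) p := by
  have h1 : HasFDerivAt H (fderiv ℝ H p.2) p.2 := (hH.differentiable (by simp) p.2).hasFDerivAt
  exact HasFDerivAt.prodMap p (hasFDerivAt_id p.1) h1

lemma DK_det (H : E2 → E2) (p : ℝ × E2) : (DK H p).det = (fderiv ℝ H p.2).det := by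
  have h1 : (DK H p).det = LinearMap.det ((LinearMap.id : ℝ →ₗ[ℝ] ℝ).prodMap
      (fderiv ℝ H p.2 : E2 →ₗ[ℝ] E2)) := rfl
  rw [h1, LinearMap.det_prodMap, LinearMap.det_id, one_mul]

lemma KK_embed {H : E2 → E2} (hH : ContDiff ℝ ∞ H) (hinj : Function.Injective H)
    (hdet : ∀ y, (fderiv ℝ H y).det ≠ 0) : Topology.IsOpenEmbedding (KK H) := by
  refine Topology.IsOpenEmbedding.of_continuous_injective_isOpenMap (KK_contDiff hH).continuous
    ?_ ?_
  · intro p q hpq
    have h1 := congrArg Prod.fst hpq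
    have h2 := congrArg Prod.snd hpq
    exact Prod.ext h1 (hinj h2)
  · apply isOpenMap_of_hasStrictFDerivAt_equiv (𝕜 := ℝ)
      (f' := fun p => (DK H p).toContinuousLinearEquivOfDetNeZero (by rw [DK_det]; exact hdet _))
    intro p
    have h1 : HasStrictFDerivAt (KK H) (DK H p) p :=
      ((KK_contDiff hH).contDiffAt (x := p)).hasStrictFDerivAt' (KK_hasFDerivAt hH p) (by simp)
    rw [ContinuousLinearMap.coe_toContinuousLinearEquivOfDetNeZero]
    exact h1

end BX3_

open BX3_ in
theorem bx31 : T_BX3 := by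
  intro E _ _ _ _ _ M _ _ _ _ _ _ _ μ X p Φ h g hΦ hg hp hp0
  have hh := hΦ.pos
  have htar := hΦ.target
  -- the density of the plane
  have hmem : ∀ y ∈ ball (0 : E2) h, ((0 : ℝ), y) ∈ Φ.target := by
    intro y hy
    rw [htar]
    exact ⟨⟨by simpa using hh, hh⟩, hy⟩
  have hG : ContDiffOn ℝ ∞ (fun y : E2 => g (0, y)) (ball 0 h) := by
    apply hΦ.gsmooth.comp (contDiff_const.prodMk contDiff_id).contDiffOn
    exact fun y hy => hmem y hy
  obtain ⟨ρ, hρs, hρpos, hρg⟩ := extend hh hG fun y hy => hΦ.gpos _ (hmem y hy)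
  obtain ⟨H, hHs, hHinj, hH0, hHdet⟩ := plane hρs hρpos
  have hdet : ∀ y, (fderiv ℝ H y).det ≠ 0 := fun y => by rw [hHdet]; exact (hρpos y).ne'
  have hemb := KK_embed hHs hHinj hdet
  have hK0 : KK H 0 = 0 := by
    show ((0 : ℝ × E2).1, H (0 : ℝ × E2).2) = 0
    rw [Prod.snd_zero, hH0]
    rfl
  have hKs := KK_contDiff hHs
  set e : OpenPartialHomeomorph (ℝ × E2) (ℝ × E2) := hemb.toOpenPartialHomeomorph (KK H) with he
  have hecoe : ∀ z, e z = KK H z := fun z => rfl
  have hesource : e.source = univ := rfl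
  have hetarget : e.target = range (KK H) := by
    rw [he, Topology.IsOpenEmbedding.toOpenPartialHomeomorph_target]
  have hesymm : ∀ a ∈ e.target, ContDiffAt ℝ ∞ e.symm a := by
    intro a ha
    apply e.contDiffAt_symm ha
      (f₀' := (DK H (e.symm a)).toContinuousLinearEquivOfDetNeZero (by rw [DK_det]; exact hdet _))
    · rw [ContinuousLinearMap.coe_toContinuousLinearEquivOfDetNeZero]
      exact KK_hasFDerivAt hHs _
    · exact hKs.contDiffAt
  -- the small box
  set O : Set (ℝ × E2) := Φ.target ∩ (Prod.snd ⁻¹' ball (0 : E2) (h / 2)) with hO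
  have hOopen : IsOpen O := Φ.open_target.inter (isOpen_ball.preimage continuous_snd)
  have h0O : (0 : ℝ × E2) ∈ O := by
    refine ⟨hmem 0 (mem_ball_self hh), ?_⟩
    exact mem_ball_self (by linarith)
  have hKO : IsOpen (KK H '' O) := hemb.isOpenMap O hOopen
  obtain ⟨h', hh', hball⟩ : ∃ h' : ℝ, 0 < h' ∧ Ioo (-h') h' ×ˢ ball (0 : E2) h' ⊆ KK H '' O := by
    obtain ⟨δ, hδ, hδ2⟩ := Metric.isOpen_iff.1 hKO 0 ⟨0, h0O, hK0⟩
    refine ⟨δ, hδ, ?_⟩
    rintro ⟨t, y⟩ ⟨ht, hy⟩
    apply hδ2
    rw [mem_ball, Prod.dist_eq, max_lt_iff]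
    refine ⟨?_, hy⟩
    show dist t 0 < δ
    rw [Real.dist_eq, sub_zero, abs_lt]
    exact ht
  set S : Set (ℝ × E2) := Ioo (-h') h' ×ˢ ball (0 : E2) h' with hS
  have hSo : IsOpen S := isOpen_Ioo.prod isOpen_ball
  have hSe : S ⊆ e.target := by
    rw [hetarget]
    exact hball.trans (image_subset_range _ _)
  have hSinv : ∀ z ∈ S, e.symm z ∈ O := by
    intro z hz
    obtain ⟨w, hw, rfl⟩ := hball hz
    have : e.symm (KK H w) = w := e.left_inv (by rw [hesource]; trivial)
    rw [this]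
    exact hw
  set Φ' : OpenPartialHomeomorph M (ℝ × E2) :=
    (Φ.trans e).trans (OpenPartialHomeomorph.ofSet S hSo) with hΦ'
  have hcoe : ∀ x, Φ' x = KK H (Φ x) := fun x => rfl
  have hcoesymm : ∀ z, Φ'.symm z = Φ.symm (e.symm z) := fun z => rfl
  have hsource : ∀ x, x ∈ Φ'.source ↔ x ∈ Φ.source ∧ KK H (Φ x) ∈ S := by
    intro x
    rw [hΦ', OpenPartialHomeomorph.trans_source, OpenPartialHomeomorph.trans_source,
      OpenPartialHomeomorph.ofSet_source, hesource]
    simp only [preimage_univ, inter_univ, mem_inter_iff, mem_preimage]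
    rfl
  have htarget : Φ'.target = S := by
    rw [hΦ', OpenPartialHomeomorph.trans_target, OpenPartialHomeomorph.trans_target,
      OpenPartialHomeomorph.ofSet_target]
    ext z
    simp only [mem_inter_iff, mem_preimage]
    constructor
    · exact fun hz => hz.1
    · intro hz
      exact ⟨hz, hSe hz, (hSinv z hz).1⟩
  have hSource2 : ∀ x ∈ Φ'.source, Φ x ∈ O := by
    intro x hx
    obtain ⟨hx1, hx2⟩ := (hsource x).1 hx
    obtain ⟨w, hw, hw2⟩ := hball hx2
    rw [← hemb.injective hw2]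
    exact hw
  refine ⟨Φ', h', ?_, ?_, ?_⟩
  · refine ⟨hh', htarget, ?_, ?_, ?_, contDiffOn_const, fun _ _ => one_pos, ?_⟩
    · -- smoothness
      have h1 : ContMDiffOn 𝓘(ℝ, E) 𝓘(ℝ, ℝ × E2) ∞ (KK H ∘ Φ) Φ.source :=
        hKs.contMDiff.comp_contMDiffOn hΦ.smooth
      exact h1.mono fun x hx => ((hsource x).1 hx).1
    · have h1 : ContMDiffOn 𝓘(ℝ, ℝ × E2) 𝓘(ℝ, ℝ × E2) ∞ e.symm S := by
        rw [contMDiffOn_iff_contDiffOn]
        exact fun z hz => (hesymm z (hSe hz)).contDiffWithinAt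
      rw [htarget]
      exact hΦ.smooth_symm.comp h1 fun z hz => (hSinv z hz).1
    · intro x hx
      have hx1 := ((hsource x).1 hx).1
      have h1 : MDifferentiableAt 𝓘(ℝ, E) 𝓘(ℝ, ℝ × E2) Φ x :=
        ((hΦ.smooth x hx1).contMDiffAt (Φ.open_source.mem_nhds hx1)).mdifferentiableAt (by simp)
      have h2 : HasMFDerivAt 𝓘(ℝ, ℝ × E2) 𝓘(ℝ, ℝ × E2) (KK H) (Φ x) (DK H (Φ x)) :=
        (KK_hasFDerivAt hHs _).hasMFDerivAt
      have h3 : mfderiv 𝓘(ℝ, E) 𝓘(ℝ, ℝ × E2) (KK H ∘ Φ) x =
          (DK H (Φ x)).comp (mfderiv 𝓘(ℝ, E) 𝓘(ℝ, ℝ × E2) Φ x) :=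
        (h2.comp x h1.hasMFDerivAt).mfderiv
      show (mfderiv 𝓘(ℝ, E) 𝓘(ℝ, ℝ × E2) (KK H ∘ Φ) x (X x) : ℝ × E2) = (1, 0)
      rw [h3]
      show DK H (Φ x) (mfderiv 𝓘(ℝ, E) 𝓘(ℝ, ℝ × E2) Φ x (X x)) = (1, 0)
      rw [hΦ.field x hx1]
      show ((1 : ℝ), fderiv ℝ H (Φ x).2 0) = (1, 0)
      rw [map_zero]
    · intro A hA hAm
      have hA1 : A ⊆ Φ.source := fun x hx => ((hsource x).1 (hA hx)).1
      have hAim : MeasurableSet (Φ '' A) := by
        have h1 : Φ '' A = ((↑) : Φ.target → ℝ × E2) '' ((Φ.target.domRestrict Φ.symm) ⁻¹' A) := by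
          ext z
          constructor
          · rintro ⟨x, hx, rfl⟩
            refine ⟨⟨Φ x, Φ.map_source (hA1 hx)⟩, ?_, rfl⟩
            show Φ.symm (Φ x) ∈ A
            rw [Φ.left_inv (hA1 hx)]
            exact hx
          · rintro ⟨⟨z, hz⟩, hz2, rfl⟩
            exact ⟨Φ.symm z, hz2, Φ.right_inv hz⟩
        rw [h1]
        apply Φ.open_target.measurableSet.subtype_image
        exact (Φ.continuousOn_symm.domRestrict).measurable hAm
      have : (volume : Measure (ℝ × E2)).IsAddHaarMeasure := by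
        rw [Measure.volume_eq_prod]
        infer_instance
      have himage : Φ' '' A = KK H '' (Φ '' A) := by
        rw [image_image]
        rfl
      rw [himage, hΦ.meas A hA1 hAm]
      have h1 : ∫⁻ z in KK H '' (Φ '' A), ENNReal.ofReal 1 = volume (KK H '' (Φ '' A)) := by
        simp
      rw [h1, ← lintegral_abs_det_fderiv_eq_addHaar_image (f' := DK H) volume hAim
        (fun z _ => (KK_hasFDerivAt hHs z).hasFDerivWithinAt) (hemb.injective.injOn)]
      apply setLIntegral_congr_fun hAim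
      rintro z ⟨x, hx, rfl⟩
      have hxO := hSource2 x (hA hx)
      simp only
      rw [hg _ hxO.1, DK_det, hHdet, abs_of_pos (hρpos _), hρg _ hxO.2]
  · rw [hsource, hp0, hK0]
    refine ⟨hp, ?_⟩
    exact ⟨⟨by simpa using hh', hh'⟩, mem_ball_self hh'⟩
  · rw [hcoe, hp0, hK0]

end Pool.Agent.PalF
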