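import Pool.Agent.PalF.Targets
import Pool.Agent.Palis.Fin

/-!
# The engine: assembly
-/

set_option autoImplicit false
set_option linter.unusedSectionVars false

open scoped Manifold ContDiff Topology
open MeasureTheory Set Filter Bundle Asymptotics Metric Pool.Agent.Palis

namespace Pool.Agent.PalF

namespace ENG_

variable {E : Type} [NormedAddCommGroup E] [NormedSpace ℝ E] [FiniteDimensional ℝ E]
  {M : Type} [TopologicalSpace M] [ChartedSpace E M] [IsManifold 𝓘(ℝ, E) ∞ M]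

theorem transfer {X Y : ∀ x : M, TangentSpace 𝓘(ℝ, E) x} {Λ : Set M} (h : ∀ x ∈ Λ, Y x = X x)
    {γ : ℝ → M} (hγ : IsMIntegralCurve γ X) (hΛ : ∀ t, γ t ∈ Λ) : IsMIntegralCurve γ Y := by
  intro t
  have := hγ t
  rw [← h _ (hΛ t)] at this
  exact this

theorem curve_uniq [T2Space M] {Y : ∀ x : M, TangentSpace 𝓘(ℝ, E) x} (hY : IsSmoothField E Y)
    {γ γ' : ℝ → M} (h : IsMIntegralCurve γ Y) (h' : IsMIntegralCurve γ' Y) (h0 : γ 0 = γ' 0) :
    γ = γ' := by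
  have : IsManifold 𝓘(ℝ, E) 1 M := IsManifold.of_le (n := ∞) (by norm_cast)
  exact isMIntegralCurve_Ioo_eq_of_contMDiff_boundaryless (t₀ := 0)
    (ContMDiff.of_le hY (by norm_cast)) h h' h0

theorem invariant_transfer [CompactSpace M] [T2Space M] {X Y : ∀ x : M, TangentSpace 𝓘(ℝ, E) x}
    {Λ : Set M} (hX : IsSmoothField E X) (hY : IsSmoothField E Y) (h : ∀ x ∈ Λ, Y x = X x)
    (hi : Invariant E X Λ) : Invariant E Y Λ := by
  intro γ hγ h0 t
  have hX1 : ContMDiff 𝓘(ℝ, E) 𝓘(ℝ, E).tangent 1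
      (fun x => (⟨x, X x⟩ : TangentBundle 𝓘(ℝ, E) M)) := ContMDiff.of_le hX (by norm_cast)
  obtain ⟨c, hc0, hc⟩ := exists_global hX1 (γ 0)
  have hcΛ : ∀ t, c t ∈ Λ := hi c hc (by rw [hc0]; exact h0)
  have hcY := transfer h hc hcΛ
  have : γ = c := curve_uniq hY hγ hcY hc0.symm
  rw [this]
  exact hcΛ t

theorem transitive_transfer {X Y : ∀ x : M, TangentSpace 𝓘(ℝ, E) x} {Λ : Set M}
    (h : ∀ x ∈ Λ, Y x = X x) (hi : Invariant E X Λ) (ht : Transitive E X Λ) :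
    Transitive E Y Λ := by
  obtain ⟨γ, hγ, h0, hd⟩ := ht
  exact ⟨γ, transfer h hγ (hi γ hγ h0), h0, hd⟩

theorem lieD_add (I : M → ℝ) (X Y : ∀ x : M, TangentSpace 𝓘(ℝ, E) x) (x : M) :
    lieD I (fun z => X z + Y z) x = lieD I X x + lieD I Y x := map_add _ _ _

theorem lieD_smul (I : M → ℝ) (g : M → ℝ) (X : ∀ x : M, TangentSpace 𝓘(ℝ, E) x) (x : M) :
    lieD I (fun z => g z • X z) x = g x * lieD I X x := map_smul _ _ _

theorem size_bound {R : ∀ x : M, TangentSpace 𝓘(ℝ, E) x} (hR : IsSmoothField E R) (r : ℕ)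
    (x₀ : M) {K : Set M} (hK : IsCompact K) (hKs : K ⊆ (extChartAt 𝓘(ℝ, E) x₀).source) :
    ∃ B : ℝ, 0 ≤ B ∧ ∀ x ∈ K, ∀ k ≤ r,
      ‖iteratedFDeriv ℝ k (localRep E R x₀) (extChartAt 𝓘(ℝ, E) x₀ x)‖ ≤ B := by
  let R' : VField E M ⊤ := ⟨R, hR⟩
  have h : ∀ k : ℕ, ∃ B : ℝ, ∀ x ∈ K,
      ‖iteratedFDeriv ℝ k (localRep E R x₀) (extChartAt 𝓘(ℝ, E) x₀ x)‖ ≤ B := by
    intro k
    obtain ⟨B, hB⟩ := hK.exists_bound_of_continuousOn
      (jet_continuousOn x₀ (k := k) (le_top : (k : ℕ∞) ≤ ⊤) R' hKs)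
    refine ⟨B, fun x hx => ?_⟩
    have := hB x hx
    rw [norm_norm] at this
    exact this
  choose B hB using h
  refine ⟨∑ k ∈ Finset.range (r + 1), |B k|, Finset.sum_nonneg fun _ _ => abs_nonneg _,
    fun x hx k hk => ?_⟩
  refine (hB k x hx).trans ((le_abs_self _).trans ?_)
  exact Finset.single_le_sum (f := fun k => |B k|) (fun _ _ => abs_nonneg _)
    (Finset.mem_range.mpr (by omega))

end ENG_

open ENG_

theorem eng1 (hVOL : T_VOL) (hDVX : T_DVX) (hDVR : T_DVR) (hEXP : T_EXP) (hPRF : T_PRF)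
    (hREP : T_REP) (hGRD : T_GRD) (hSZM : T_SZM) (hTRP : T_TRP) (hDVP : T_DVP) (hDYN : T_DYN) :
    T_ENG := by
  intro E _ _ _ _ _ M _ _ _ _ _ _ _ _ μ X r Λ I₀ hr hμ hX hdiv hΛc hΛn hinv htr hQ hA
  obtain ⟨hfin, hopen, -⟩ := hVOL E M μ hμ
  obtain ⟨I, hQ, hA, hI0, hIz⟩ := hREP E M X r Λ I₀ hΛc hQ hA
  have hIs : ContMDiff 𝓘(ℝ, E) 𝓘(ℝ, ℝ) ∞ I := hQ.1
  have hIc : Continuous I := hIs.continuous
  obtain ⟨W, c₀, c₁, hW, hc₀, hc₁, hWpos, hWΛ, hWI, hWK⟩ := hGRD E M Λ I hΛc hQ hI0 hIz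
  obtain ⟨DW, hDW⟩ := hDVX E M μ W hμ hW
  obtain ⟨C₂, hC₂0, hC₂⟩ : ∃ C₂ : ℝ, 0 < C₂ ∧ ∀ x, |DW x| ≤ C₂ := by
    obtain ⟨B, hB⟩ := isCompact_univ.exists_bound_of_continuousOn hDW.1.continuousOn
    exact ⟨|B| + 1, by positivity, fun x => (hB x trivial).trans (by
      linarith [le_abs_self B])⟩
  obtain ⟨χ, hχs, hχ0, hχ4, hχpos, hχa, hχ⟩ := hPRF c₁ C₂ hc₁ hC₂0
  intro N x₀ K ε hK hε
  choose C hC using fun i => hWK (x₀ i) (K i) (hK i).1 (hK i).2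
  choose B hB using fun i => hSZM E M I W χ r (C i) (x₀ i) (K i) hr hIs hI0 hW hχs hχ4
    (hK i).1 (hK i).2 (hC i)
  set Bm : ℝ := 1 + ∑ i, |B i| with hBm
  have hBm0 : 0 < Bm := by positivity
  have hBi : ∀ i, |B i| < Bm := fun i => by
    have := Finset.single_le_sum (f := fun i => |B i|) (fun _ _ => abs_nonneg _)
      (Finset.mem_univ i)
    rw [hBm]
    linarith
  set ε' : ℝ := ε / (2 * Bm) with hε'
  have hε'0 : 0 < ε' := by positivity
  obtain ⟨ρ₀, hρ₀, hρ₀'⟩ := hTRP E M X W r Λ I χ c₀ c₁ ε' hr hIs hA hI0 hIz hc₀ hc₁ hWI hχ0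
    hχpos hχa hε'0
  obtain ⟨ρ, hρ, hρρ₀, hρ1, hρc⟩ : ∃ ρ : ℝ, 0 < ρ ∧ ρ < ρ₀ ∧ ρ ≤ 1 ∧ 4 * ρ ^ 2 ≤ c₀ := by
    refine ⟨min (ρ₀ / 2) (min 1 (Real.sqrt c₀ / 2)), by positivity, ?_, ?_, ?_⟩
    · exact (min_le_left _ _).trans_lt (by linarith)
    · exact (min_le_right _ _).trans (min_le_left _ _)
    · have h1 : min (ρ₀ / 2) (min 1 (Real.sqrt c₀ / 2)) ≤ Real.sqrt c₀ / 2 :=
        (min_le_right _ _).trans (min_le_right _ _)
      have h2 : 0 < min (ρ₀ / 2) (min 1 (Real.sqrt c₀ / 2)) := by positivity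
      have h3 := Real.sq_sqrt hc₀.le
      nlinarith
  set κ : ℝ := ε' * ρ ^ (r - 1) with hκ
  have hκ0 : 0 ≤ κ := by positivity
  obtain ⟨hY0s, D0, hD0, hD0p⟩ := hDVP E M μ X W DW I χ c₀ c₁ C₂ κ ρ hX hW hIs hdiv hDW hC₂
    hWpos hWI hχs hχ0 hχ4 hχa hχ hκ0 hρ hρc
  have htrap : ∀ x, 0 < I x → I x ≤ 2 * ρ ^ 2 →
      lieD I (fun z => X z + (-κ * χ (I z / ρ ^ 2)) • W z) x < 0 := hρ₀' ρ hρ hρρ₀
  set Y0 : ∀ x : M, TangentSpace 𝓘(ℝ, E) x := fun z => X z + (-κ * χ (I z / ρ ^ 2)) • W z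
    with hY0
  have hρ2 : 0 < ρ ^ 2 := by positivity
  obtain ⟨R, DR, hR, hDR, hRA, hDRp⟩ := hEXP E M μ {x | I x ≤ ρ ^ 2 / 4} {x | I x < ρ ^ 2} hμ
    (isClosed_le hIc continuous_const) (by
      obtain ⟨q, hq⟩ := hΛn
      exact ⟨q, by
        show I q ≤ _
        rw [(hIz q).mpr hq]; positivity⟩)
    (isOpen_lt hIc continuous_const) (fun x hx => by
      have : I x ≤ ρ ^ 2 / 4 := hx
      show I x < _
      linarith)
  -- the bound for the second perturbation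
  have hcontL : ∀ {V : ∀ x : M, TangentSpace 𝓘(ℝ, E) x}, IsSmoothField E V →
      Continuous (lieD I V) := by
    intro V hV
    exact (contMDiff_lieD (k := 0) (m := 1) (hIs.of_le (by norm_cast)) (by norm_num)
      (ContMDiff.of_le hV (by norm_cast))).continuous
  obtain ⟨δ₁, hδ₁, hδ₁'⟩ : ∃ δ₁ : ℝ, 0 < δ₁ ∧ ∀ δ, 0 < δ → δ ≤ δ₁ →
      ∀ x, ρ ^ 2 / 4 ≤ I x → I x ≤ 2 * ρ ^ 2 → lieD I Y0 x + δ * lieD I R x < 0 := by
    set S : Set M := {x | ρ ^ 2 / 4 ≤ I x ∧ I x ≤ 2 * ρ ^ 2} with hS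
    have hSc : IsCompact S :=
      ((isClosed_le continuous_const hIc).inter (isClosed_le hIc continuous_const)).isCompact
    rcases S.eq_empty_or_nonempty with hSe | hSn
    · refine ⟨1, one_pos, fun δ _ _ x h1 h2 => ?_⟩
      have : x ∈ S := ⟨h1, h2⟩
      rw [hSe] at this
      exact absurd this (notMem_empty x)
    · obtain ⟨x₁, hx₁, hmax⟩ := hSc.exists_isMaxOn hSn (hcontL hY0s).continuousOn
      have hneg : lieD I Y0 x₁ < 0 := htrap x₁ (by linarith [hx₁.1]) hx₁.2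
      obtain ⟨b, hb⟩ := hSc.exists_bound_of_continuousOn (hcontL hR).continuousOn
      refine ⟨-(lieD I Y0 x₁) / (2 * (|b| + 1)), by
        apply div_pos (by linarith); positivity, fun δ hδ hδ' x h1 h2 => ?_⟩
      have hx : x ∈ S := ⟨h1, h2⟩
      have e1 : lieD I Y0 x ≤ lieD I Y0 x₁ := hmax hx
      have e2 : lieD I R x ≤ |b| + 1 := by
        have := (le_abs_self _).trans ((Real.norm_eq_abs (lieD I R x)).symm.le.trans (hb x hx))
        linarith [le_abs_self b]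
      have e3 : δ * (2 * (|b| + 1)) ≤ -(lieD I Y0 x₁) := by
        rw [le_div_iff₀ (by positivity)] at hδ'
        exact hδ'
      have e4 : δ * lieD I R x ≤ δ * (|b| + 1) := mul_le_mul_of_nonneg_left e2 hδ.le
      nlinarith
  choose BR hBR0 hBR using fun i => size_bound hR r (x₀ i) (hK i).1 (hK i).2
  set Bn : ℝ := 1 + ∑ i, BR i with hBn
  have hsum0 : 0 ≤ ∑ i, BR i := Finset.sum_nonneg fun i _ => hBR0 i
  have hBn0 : 0 < Bn := by linarith
  have hBRi : ∀ i, BR i < Bn := fun i => by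
    have := Finset.single_le_sum (f := fun i => BR i) (fun i _ => hBR0 i) (Finset.mem_univ i)
    rw [hBn]
    linarith
  obtain ⟨δ, hδ, hδδ₁, hδB⟩ : ∃ δ : ℝ, 0 < δ ∧ δ ≤ δ₁ ∧ δ * Bn ≤ ε / 2 := by
    refine ⟨min δ₁ (ε / (2 * Bn)), by positivity, min_le_left _ _, ?_⟩
    calc min δ₁ (ε / (2 * Bn)) * Bn ≤ (ε / (2 * Bn)) * Bn :=
          mul_le_mul_of_nonneg_right (min_le_right _ _) hBn0.le
      _ = ε / 2 := by field_simp
  -- the field
  set Y : ∀ x : M, TangentSpace 𝓘(ℝ, E) x := fun z => Y0 z + δ • R z with hY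
  have hRδ := (hDVR E M μ R R DR DR hR hR hDR hDR).2.2 (fun _ => δ) contMDiff_const
  obtain ⟨hYs, hDY, -⟩ := hDVR E M μ Y0 (fun z => δ • R z) D0
    (fun x => δ * DR x + lieD (fun _ => δ) R x) hY0s hRδ.1 hD0 hRδ.2
  have hlc : ∀ x, lieD (fun _ : M => δ) R x = 0 := by
    intro x
    unfold lieD
    rw [mfderiv_const]
    rfl
  have hYX : ∀ x ∈ Λ, Y x = X x := by
    intro x hx
    have h1 : W x = 0 := hWΛ x hx
    have h2 : R x = 0 := hRA x (by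
      show I x ≤ _
      rw [(hIz x).mpr hx]; positivity)
    show X x + (-κ * χ (I x / ρ ^ 2)) • W x + δ • R x = X x
    rw [h1, h2, smul_zero, smul_zero, add_zero, add_zero]
  refine ⟨Y, ⟨hYs, hYX, ?_⟩, ?_⟩
  · refine hDYN E M μ Y (fun x => D0 x + (δ * DR x + lieD (fun _ => δ) R x)) Λ I (2 * ρ ^ 2) hμ
      hYs hDY hΛn (invariant_transfer hX hYs hYX hinv) (transitive_transfer hYX hinv htr) hIs hI0
      hIz (by positivity) ?_ ?_
    · intro x hx1 hx2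
      have e : lieD I Y x = lieD I Y0 x + δ * lieD I R x := by
        have h1 := lieD_add I Y0 (fun z => δ • R z) x
        have h2 := lieD_smul I (fun _ => δ) R x
        rw [← h2]
        exact h1
      rw [e]
      by_cases hx3 : ρ ^ 2 / 4 ≤ I x
      · exact hδ₁' δ hδ hδδ₁ x hx3 hx2
      · have h2 : R x = 0 := hRA x (by show I x ≤ _; linarith)
        have h3 : lieD I R x = 0 := by
          unfold lieD
          rw [h2]
          exact map_zero _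
        rw [h3, mul_zero, add_zero]
        exact htrap x hx1 hx2
    · intro x hx
      have h1 : 0 ≤ D0 x := hD0p x (by linarith)
      have h2 : 0 < DR x := hDRp x (by
        show ¬ (I x < ρ ^ 2)
        linarith)
      rw [hlc]
      have := mul_pos hδ h2
      linarith
  · intro i x hx k hk
    have hxs := (hK i).2 hx
    have hy : extChartAt 𝓘(ℝ, E) (x₀ i) x ∈ (extChartAt 𝓘(ℝ, E) (x₀ i)).target :=
      (extChartAt 𝓘(ℝ, E) (x₀ i)).map_source hxs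
    set χW : ∀ x : M, TangentSpace 𝓘(ℝ, E) x := fun z => χ (I z / ρ ^ 2) • W z with hχW
    have hχWs : IsSmoothField E χW := by
      refine ((hDVR E M μ W W DW DW hW hW hDW hDW).2.2 (fun z => χ (I z / ρ ^ 2)) ?_).1
      exact hχs.contMDiff.comp (contMDiff_const.mul hIs |>.congr fun z => by
        show I z / ρ ^ 2 = (ρ ^ 2)⁻¹ * I z
        rw [div_eq_inv_mul])
    have e1 : localRep E (fun z => Y z - X z) (x₀ i) =
        (-κ) • localRep E χW (x₀ i) + δ • localRep E R (x₀ i) := by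
      rw [← localRep_smul, ← localRep_smul, ← localRep_add]
      congr 1
      funext z
      show X z + (-κ * χ (I z / ρ ^ 2)) • W z + δ • R z - X z =
        (-κ) • (χ (I z / ρ ^ 2) • W z) + δ • R z
      rw [smul_smul]
      abel
    have c1 : ContDiffAt ℝ k (localRep E χW (x₀ i)) (extChartAt 𝓘(ℝ, E) (x₀ i) x) :=
      localRep_contDiffAt (r := ⊤) (⟨χW, hχWs⟩ : VField E M ⊤) (x₀ i) le_top hy
    have c2 : ContDiffAt ℝ k (localRep E R (x₀ i)) (extChartAt 𝓘(ℝ, E) (x₀ i) x) :=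
      localRep_contDiffAt (r := ⊤) (⟨R, hR⟩ : VField E M ⊤) (x₀ i) le_top hy
    have c1' : ContDiffAt ℝ k ((-κ) • localRep E χW (x₀ i)) (extChartAt 𝓘(ℝ, E) (x₀ i) x) :=
      c1.const_smul _
    have c2' : ContDiffAt ℝ k (δ • localRep E R (x₀ i)) (extChartAt 𝓘(ℝ, E) (x₀ i) x) :=
      c2.const_smul _
    rw [e1, iteratedFDeriv_add_apply c1' c2',
      iteratedFDeriv_const_smul_apply c1, iteratedFDeriv_const_smul_apply c2]
    have b1 := hB i ρ hρ hρ1 x hx k hk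
    have b2 := hBR i x hx k hk
    refine (norm_add_le _ _).trans_lt ?_
    rw [norm_smul, norm_smul, Real.norm_eq_abs, Real.norm_eq_abs, abs_neg, abs_of_nonneg hκ0,
      abs_of_pos hδ]
    have b3 : κ * ‖iteratedFDeriv ℝ k (localRep E χW (x₀ i)) (extChartAt 𝓘(ℝ, E) (x₀ i) x)‖
        < ε / 2 := by
      calc _ = ε' * (ρ ^ (r - 1) *
            ‖iteratedFDeriv ℝ k (localRep E χW (x₀ i)) (extChartAt 𝓘(ℝ, E) (x₀ i) x)‖) := by
            rw [hκ]; ring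
        _ ≤ ε' * |B i| := mul_le_mul_of_nonneg_left (b1.trans (le_abs_self _)) hε'0.le
        _ < ε' * Bm := mul_lt_mul_of_pos_left (hBi i) hε'0
        _ = ε / 2 := by rw [hε']; field_simp
    have b4 : δ * ‖iteratedFDeriv ℝ k (localRep E R (x₀ i)) (extChartAt 𝓘(ℝ, E) (x₀ i) x)‖
        ≤ ε / 2 := by
      calc _ ≤ δ * BR i := mul_le_mul_of_nonneg_left b2 hδ.le
        _ ≤ δ * Bn := mul_le_mul_of_nonneg_left (hBRi i).le hδ.le
        _ ≤ ε / 2 := hδB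
    linarith

end Pool.Agent.PalF
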