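import Pool.Agent.PalF.Targets2
import Pool.Agent.PalF.ENG

/-!
# The flow in a flow box is a translation
-/

set_option autoImplicit false
set_option linter.unusedSectionVars false

open scoped Manifold ContDiff Topology
open MeasureTheory Set Filter Bundle Asymptotics Metric Pool.Agent.Palis

namespace Pool.Agent.PalF

namespace BXF_

variable {E : Type} [NormedAddCommGroup E] [NormedSpace ℝ E] [FiniteDimensional ℝ E]
  {M : Type} [TopologicalSpace M] [ChartedSpace E M] [IsManifold 𝓘(ℝ, E) ∞ M]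
  [MeasurableSpace M] {μ : Measure M} {X : ∀ x : M, TangentSpace 𝓘(ℝ, E) x}
  {Φ : OpenPartialHomeomorph M (ℝ × E2)} {h : ℝ} {g : ℝ × E2 → ℝ}

theorem symm_field (hb : PreBox E μ X Φ h g) {x : M} (hx : x ∈ Φ.source) :
    HasMFDerivAt 𝓘(ℝ, ℝ × E2) 𝓘(ℝ, E) Φ.symm (Φ x)
      (mfderiv 𝓘(ℝ, ℝ × E2) 𝓘(ℝ, E) Φ.symm (Φ x)) ∧
    mfderiv 𝓘(ℝ, ℝ × E2) 𝓘(ℝ, E) Φ.symm (Φ x) (1, 0) = X x := by
  have h1 : MDifferentiableAt 𝓘(ℝ, E) 𝓘(ℝ, ℝ × E2) Φ x :=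
    ((hb.smooth x hx).contMDiffAt (Φ.open_source.mem_nhds hx)).mdifferentiableAt (by norm_num)
  have h2 : MDifferentiableAt 𝓘(ℝ, ℝ × E2) 𝓘(ℝ, E) Φ.symm (Φ x) :=
    ((hb.smooth_symm _ (Φ.map_source hx)).contMDiffAt
      (Φ.open_target.mem_nhds (Φ.map_source hx))).mdifferentiableAt (by norm_num)
  refine ⟨h2.hasMFDerivAt, ?_⟩
  have h3 : HasMFDerivAt 𝓘(ℝ, E) 𝓘(ℝ, E) (Φ.symm ∘ Φ) x
      ((mfderiv 𝓘(ℝ, ℝ × E2) 𝓘(ℝ, E) Φ.symm (Φ x)).comp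
        (mfderiv 𝓘(ℝ, E) 𝓘(ℝ, ℝ × E2) Φ x)) := h2.hasMFDerivAt.comp x h1.hasMFDerivAt
  have h4 : (Φ.symm ∘ Φ) =ᶠ[𝓝 x] id := by
    filter_upwards [Φ.open_source.mem_nhds hx] with z hz
    exact Φ.left_inv hz
  have h5 : HasMFDerivAt 𝓘(ℝ, E) 𝓘(ℝ, E) (Φ.symm ∘ Φ) x
      (ContinuousLinearMap.id ℝ (TangentSpace 𝓘(ℝ, E) x)) :=
    (hasMFDerivAt_id x).congr_of_eventuallyEq h4
  have h6 := hasMFDerivAt_unique h3 h5
  have h7 := congrArg (fun L => L (X x)) h6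
  have h8 := hb.field x hx
  rw [← h8]
  exact h7

theorem line_curve (hb : PreBox E μ X Φ h g) {t : ℝ} {y : E2} (hy : y ∈ ball (0 : E2) h) :
    IsMIntegralCurveOn (fun u => Φ.symm (t + u, y)) X (Ioo (-h - t) (h - t)) := by
  intro u hu
  have hz : ((t + u, y) : ℝ × E2) ∈ Φ.target := by
    rw [hb.target]
    exact ⟨⟨by linarith [hu.1], by linarith [hu.2]⟩, hy⟩
  set x := Φ.symm (t + u, y) with hx
  have hxs : x ∈ Φ.source := Φ.map_target hz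
  have hΦx : Φ x = (t + u, y) := Φ.right_inv hz
  obtain ⟨h1, h2⟩ := symm_field hb hxs
  rw [hΦx] at h1
  have h3 : HasMFDerivAt 𝓘(ℝ, ℝ) 𝓘(ℝ, ℝ × E2) (fun u : ℝ => ((t + u, y) : ℝ × E2)) u
      ((1 : ℝ →L[ℝ] ℝ).smulRight ((1, 0) : ℝ × E2)) := by
    have h4 : HasDerivAt (fun u : ℝ => ((t + u, y) : ℝ × E2)) ((1, 0) : ℝ × E2) u :=
      ((hasDerivAt_id u).const_add t).prodMk (hasDerivAt_const u y)
    exact h4.hasFDerivAt.hasMFDerivAt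
  have h5 := h1.comp u h3
  apply HasMFDerivAt.hasMFDerivWithinAt
  refine h5.congr_mfderiv ?_
  ext
  have h6 : mfderiv 𝓘(ℝ, ℝ × E2) 𝓘(ℝ, E) Φ.symm (t + u, y) ((1, 0) : ℝ × E2) = X x := by
    rw [← h2, hΦx]
  show mfderiv 𝓘(ℝ, ℝ × E2) 𝓘(ℝ, E) Φ.symm (t + u, y) ((1 : ℝ) • ((1, 0) : ℝ × E2)) =
    (1 : ℝ) • X x
  rw [one_smul, one_smul]
  exact h6

end BXF_

open BXF_

theorem bxf1 : T_BXF := by
  intro E _ _ _ M _ _ _ _ _ _ μ X Φ h g φ hX hb hφ x hx s hs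
  have : IsManifold 𝓘(ℝ, E) 1 M := IsManifold.of_le (n := ∞) (by norm_cast)
  have hΦx := Φ.map_source hx
  rw [hb.target] at hΦx
  obtain ⟨ht, hy⟩ := hΦx
  set t := (Φ x).1 with ht'
  set y := (Φ x).2 with hy'
  rw [abs_lt] at hs
  have h1 : IsMIntegralCurveOn (fun u => Φ.symm (t + u, y)) X (Ioo (-h - t) (h - t)) :=
    line_curve hb hy
  have h2 : IsMIntegralCurveOn (fun u => φ u x) X (Ioo (-h - t) (h - t)) :=
    (hφ.curve x).isMIntegralCurveOn _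
  have h3 := isMIntegralCurveOn_Ioo_eqOn_of_contMDiff_boundaryless (t₀ := 0)
    ⟨by linarith [ht.1], by linarith [ht.2]⟩ (ContMDiff.of_le hX (by norm_cast)) h2 h1
    (by
      show φ 0 x = Φ.symm (t + 0, y)
      rw [hφ.zero, add_zero, ht', hy']
      exact (Φ.left_inv hx).symm)
  have h4 : φ s x = Φ.symm (t + s, y) := h3 ⟨by linarith, by linarith⟩
  have hz : ((t + s, y) : ℝ × E2) ∈ Φ.target := by
    rw [hb.target]
    exact ⟨⟨by linarith, by linarith⟩, hy⟩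
  rw [h4]
  exact ⟨Φ.map_target hz, Φ.right_inv hz⟩

end Pool.Agent.PalF
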