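import Pool.Agent.PalF.Targets2

/-!
# Tools for smooth charts with values in an arbitrary model space
-/

set_option autoImplicit false

open scoped Manifold ContDiff Topology
open MeasureTheory Set Filter Bundle Asymptotics Metric Pool.Agent.Palis

namespace Pool.Agent.PalF

namespace BoxT_

set_option linter.unusedSectionVars false

variable {E : Type} [NormedAddCommGroup E] [NormedSpace ℝ E] [FiniteDimensional ℝ E]
  {M : Type} [TopologicalSpace M] [ChartedSpace E M] [IsManifold 𝓘(ℝ, E) ∞ M]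
  {F : Type} [NormedAddCommGroup F] [NormedSpace ℝ F] [FiniteDimensional ℝ F]

/-- a smooth function of the manifold read in the chart -/
lemma pull_contDiffOn {G : Type} [NormedAddCommGroup G] [NormedSpace ℝ G]
    {Φ : OpenPartialHomeomorph M F} (h2 : ContMDiffOn 𝓘(ℝ, F) 𝓘(ℝ, E) ∞ Φ.symm Φ.target)
    {η : M → G} (hη : ContMDiff 𝓘(ℝ, E) 𝓘(ℝ, G) ∞ η) :
    ContDiffOn ℝ ∞ (fun z => η (Φ.symm z)) Φ.target := by
  rw [← contMDiffOn_iff_contDiffOn]
  exact hη.comp_contMDiffOn h2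

/-- the derivative along a field in the chart -/
lemma lieD_box {Φ : OpenPartialHomeomorph M F}
    (h1 : ContMDiffOn 𝓘(ℝ, E) 𝓘(ℝ, F) ∞ Φ Φ.source)
    (h2 : ContMDiffOn 𝓘(ℝ, F) 𝓘(ℝ, E) ∞ Φ.symm Φ.target)
    {η : M → ℝ} (hη : ContMDiff 𝓘(ℝ, E) 𝓘(ℝ, ℝ) ∞ η)
    (Y : ∀ x : M, TangentSpace 𝓘(ℝ, E) x) {z : F} (hz : z ∈ Φ.target) :
    lieD η Y (Φ.symm z) =
      fderiv ℝ (fun w => η (Φ.symm w)) z
        (mfderiv 𝓘(ℝ, E) 𝓘(ℝ, F) Φ (Φ.symm z) (Y (Φ.symm z)) : F) := by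
  have hx : Φ.symm z ∈ Φ.source := Φ.map_target hz
  have hex : Φ (Φ.symm z) = z := Φ.right_inv hz
  have h3 : DifferentiableAt ℝ (fun w => η (Φ.symm w)) z :=
    ((pull_contDiffOn h2 hη).contDiffAt (Φ.open_target.mem_nhds hz)).differentiableAt (by simp)
  have h4 : MDifferentiableAt 𝓘(ℝ, E) 𝓘(ℝ, F) Φ (Φ.symm z) :=
    ((h1 _ hx).contMDiffAt (Φ.open_source.mem_nhds hx)).mdifferentiableAt (by simp)
  have h5 : MDifferentiableAt 𝓘(ℝ, F) 𝓘(ℝ, ℝ) (fun w => η (Φ.symm w)) (Φ (Φ.symm z)) := by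
    rw [hex]; exact h3.mdifferentiableAt
  have h6 := mfderiv_comp (Φ.symm z) h5 h4
  have h7 : ((fun w => η (Φ.symm w)) ∘ Φ) =ᶠ[𝓝 (Φ.symm z)] η := by
    filter_upwards [Φ.open_source.mem_nhds hx] with x hx'
    show η (Φ.symm (Φ x)) = η x
    rw [Φ.left_inv hx']
  have h8 := h7.mfderiv_eq (I := 𝓘(ℝ, E)) (I' := 𝓘(ℝ, ℝ))
  show mfderiv 𝓘(ℝ, E) 𝓘(ℝ, ℝ) η (Φ.symm z) (Y (Φ.symm z)) = _
  rw [← h8, h6]
  show mfderiv 𝓘(ℝ, F) 𝓘(ℝ, ℝ) (fun w => η (Φ.symm w)) (Φ (Φ.symm z)) _ = _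
  rw [mfderiv_eq_fderiv, hex]
  rfl

/-- cutting off a smooth function -/
lemma cutoff {G : Type} [NormedAddCommGroup G] [NormedSpace ℝ G] {Ω K : Set F} {u : F → G}
    (hΩ : IsOpen Ω) (hK : IsClosed K) (hKΩ : K ⊆ Ω) (hu : ContDiffOn ℝ ∞ u Ω) :
    ∃ u' : F → G, ContDiff ℝ ∞ u' ∧ ∀ z ∈ K, u' =ᶠ[𝓝 z] u := by
  classical
  have : ProperSpace F := FiniteDimensional.proper ℝ F
  obtain ⟨χ, hχ0, hχ1, -⟩ := exists_contMDiffMap_zero_one_nhds_of_isClosed (n := ⊤) 𝓘(ℝ, F)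
    hΩ.isClosed_compl hK (by
      rw [Set.disjoint_left]; intro x hx hx'; exact hx (hKΩ hx'))
  have hχ : ContDiff ℝ ∞ (fun z => χ z) := χ.contMDiff.contDiff
  rw [eventually_nhdsSet_iff_forall] at hχ0 hχ1
  refine ⟨fun z => χ z • u z, ?_, fun z hz => ?_⟩
  · rw [contDiff_iff_contDiffAt]
    intro z
    by_cases hz : z ∈ Ω
    · exact hχ.contDiffAt.smul (hu.contDiffAt (hΩ.mem_nhds hz))
    · refine (contDiffAt_const (c := (0 : G))).congr_of_eventuallyEq ?_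
      filter_upwards [hχ0 z hz] with w hw
      rw [hw, zero_smul]
  · filter_upwards [hχ1 z hz] with w hw
    rw [hw, one_smul]

/-- a smooth function with compact support in the chart is a smooth function on the manifold -/
lemma push_contMDiff [T2Space M] {Φ : OpenPartialHomeomorph M F}
    (h1 : ContMDiffOn 𝓘(ℝ, E) 𝓘(ℝ, F) ∞ Φ Φ.source) {f : F → ℝ} (hf : ContDiff ℝ ∞ f)
    {K : Set F} (hK : IsCompact K) (hKt : K ⊆ Φ.target) (hfK : ∀ z, z ∉ K → f z = 0)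
    {η : M → ℝ} (hη1 : ∀ x ∈ Φ.source, η x = f (Φ x)) (hη2 : ∀ x ∉ Φ.source, η x = 0) :
    ContMDiff 𝓘(ℝ, E) 𝓘(ℝ, ℝ) ∞ η := by
  intro x
  by_cases hx : x ∈ Φ.source
  · have h2 : ContMDiffAt 𝓘(ℝ, E) 𝓘(ℝ, ℝ) ∞ (fun x => f (Φ x)) x :=
      hf.contMDiff.contMDiffAt.comp x ((h1 _ hx).contMDiffAt (Φ.open_source.mem_nhds hx))
    refine h2.congr_of_eventuallyEq ?_
    filter_upwards [Φ.open_source.mem_nhds hx] with y hy
    exact hη1 y hy
  · have hc : IsCompact (Φ.symm '' K) := hK.image_of_continuousOn (Φ.continuousOn_symm.mono hKt)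
    have hxK : x ∈ (Φ.symm '' K)ᶜ := by
      rintro ⟨z, hz, rfl⟩
      exact hx (Φ.map_target (hKt hz))
    refine (contMDiffAt_const (c := (0 : ℝ))).congr_of_eventuallyEq ?_
    filter_upwards [hc.isClosed.isOpen_compl.mem_nhds hxK] with y hy
    by_cases hys : y ∈ Φ.source
    · rw [hη1 y hys]
      apply hfK
      intro hyK
      exact hy ⟨_, hyK, Φ.left_inv hys⟩
    · exact hη2 y hys

/-- change of variables -/
lemma integral_box [CompactSpace M] [MeasurableSpace M] [BorelSpace M] [MeasurableSpace F]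
    [BorelSpace F] {ν : Measure F} [SFinite ν] {μ : Measure M} {Φ : OpenPartialHomeomorph M F}
    {g : F → ℝ} (hg : ContinuousOn g Φ.target) (hg0 : ∀ z ∈ Φ.target, 0 < g z)
    (hg3 : ∀ A ⊆ Φ.source, MeasurableSet A → μ A = ∫⁻ z in Φ '' A, ENNReal.ofReal (g z) ∂ν)
    {f : M → ℝ} (hf : Continuous f) :
    ∫ x in Φ.source, f x ∂μ = ∫ z in Φ.target, g z * f (Φ.symm z) ∂ν := by
  have hΩ : MeasurableSet Φ.target := Φ.open_target.measurableSet
  have hS : MeasurableSet Φ.source := Φ.open_source.measurableSet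
  have hgm : AEMeasurable (fun y => ENNReal.ofReal (g y)) (ν.restrict Φ.target) :=
    (hg.aemeasurable hΩ).ennreal_ofReal
  have hsm : AEMeasurable Φ.symm ((ν.restrict Φ.target).withDensity
      (fun y => ENNReal.ofReal (g y))) :=
    (Φ.continuousOn_symm.aemeasurable hΩ).mono_ac (withDensity_absolutelyContinuous _ _)
  have hμ : μ.restrict Φ.source = Measure.map Φ.symm
      ((ν.restrict Φ.target).withDensity (fun y => ENNReal.ofReal (g y))) := by
    ext A hA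
    have h1 : Φ '' (Φ.source ∩ A) = Φ.target ∩ Φ.symm ⁻¹' A :=
      Φ.toPartialEquiv.image_source_inter_eq' A
    rw [Measure.restrict_apply hA, Measure.map_apply_of_aemeasurable hsm hA,
      withDensity_apply', Measure.restrict_restrict' hΩ,
      hg3 _ inter_subset_right (hA.inter hS), inter_comm A, h1, inter_comm]
  rw [hμ, integral_map hsm hf.aestronglyMeasurable,
    integral_withDensity_eq_integral_toReal_smul₀ hgm (by simp)]
  refine setIntegral_congr_fun hΩ fun y hy => ?_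
  show (ENNReal.ofReal (g y)).toReal • f (Φ.symm y) = g y * f (Φ.symm y)
  rw [ENNReal.toReal_ofReal (hg0 y hy).le, smul_eq_mul]

end BoxT_

end Pool.Agent.PalF
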