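import Pool.Agent.PalF.Targets

/-!
# PALF-CLO: from approximation to closure
-/

set_option autoImplicit false

open scoped Manifold ContDiff Topology
open MeasureTheory Set Filter Bundle Pool.Agent.Palis

namespace Pool.Agent.PalF

namespace CLO_

variable {E : Type} [NormedAddCommGroup E] [NormedSpace ℝ E] [FiniteDimensional ℝ E]
  {M : Type} [TopologicalSpace M] [ChartedSpace E M] [IsManifold 𝓘(ℝ, E) ∞ M]

/-- A generating neighbourhood of `X` contains all fields close to `X` on a compact set. -/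
theorem key {r : ℕ∞} (X : VField E M r) (U : Set (VField E M r))
    (hU : ∃ (X₀ : VField E M r) (x₀ : M) (K : Set M) (k : ℕ) (ε : ℝ),
      IsCompact K ∧ K ⊆ (extChartAt 𝓘(ℝ, E) x₀).source ∧ (k : ℕ∞) ≤ r ∧
      U = {X | ∀ x ∈ K,
        ‖iteratedFDeriv ℝ k (localRep E (fun z => X z - X₀ z) x₀)
          (extChartAt 𝓘(ℝ, E) x₀ x)‖ < ε}) (hX : X ∈ U) :
    ∃ (x₀ : M) (K : Set M) (k : ℕ) (δ : ℝ), (IsCompact K ∧ K ⊆ (extChartAt 𝓘(ℝ, E) x₀).source) ∧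
      (k : ℕ∞) ≤ r ∧ 0 < δ ∧ ∀ Y : VField E M r,
      (∀ x ∈ K, ‖iteratedFDeriv ℝ k (localRep E (fun z => Y z - X z) x₀)
        (extChartAt 𝓘(ℝ, E) x₀ x)‖ < δ) → Y ∈ U := by
  obtain ⟨X₀, x₀, K, k, ε, hK, hKs, hk, rfl⟩ := hU
  rcases K.eq_empty_or_nonempty with rfl | hne
  · exact ⟨x₀, ∅, k, 1, ⟨hK, hKs⟩, hk, one_pos, fun Y _ x hx => absurd hx (notMem_empty x)⟩
  have hX' : ∀ x ∈ K, ‖iteratedFDeriv ℝ k (localRep E (X - X₀ : VField E M r) x₀)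
      (extChartAt 𝓘(ℝ, E) x₀ x)‖ < ε := hX
  obtain ⟨x₁, hx₁, hmax⟩ := hK.exists_isMaxOn hne (jet_continuousOn x₀ hk (X - X₀) hKs)
  set a := ‖iteratedFDeriv ℝ k (localRep E (X - X₀ : VField E M r) x₀)
      (extChartAt 𝓘(ℝ, E) x₀ x₁)‖ with ha
  have haε : a < ε := hX' x₁ hx₁
  refine ⟨x₀, K, k, ε - a, ⟨hK, hKs⟩, hk, by linarith, fun Y hY x hx => ?_⟩
  have hy : extChartAt 𝓘(ℝ, E) x₀ x ∈ (extChartAt 𝓘(ℝ, E) x₀).target :=
    (extChartAt 𝓘(ℝ, E) x₀).map_source (hKs hx)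
  have h1 : iteratedFDeriv ℝ k (localRep E (fun z => Y z - X₀ z) x₀)
      (extChartAt 𝓘(ℝ, E) x₀ x) = jetMap x₀ hk hy (Y - X₀) := rfl
  have h2 : jetMap x₀ hk hy (Y - X₀) = jetMap x₀ hk hy (Y - X) + jetMap x₀ hk hy (X - X₀) := by
    rw [← map_add]
    congr 1
    abel
  have h3 : ‖jetMap x₀ hk hy (Y - X)‖ < ε - a := hY x hx
  have h4 : ‖jetMap x₀ hk hy (X - X₀)‖ ≤ a := hmax hx
  rw [h1, h2]
  calc ‖jetMap x₀ hk hy (Y - X) + jetMap x₀ hk hy (X - X₀)‖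
      ≤ ‖jetMap x₀ hk hy (Y - X)‖ + ‖jetMap x₀ hk hy (X - X₀)‖ := norm_add_le _ _
    _ < ε := by linarith

end CLO_

open CLO_ in
theorem clo1 : T_CLO := by
  intro E _ _ _ M _ _ _ _ _ r X S hS hA
  let _ : TopologicalSpace (VField E M r) := crTopology E M r
  have hb := TopologicalSpace.isTopologicalBasis_of_subbasis
    (t := crTopology E M r) (rfl : crTopology E M r = TopologicalSpace.generateFrom _)
  rw [hb.mem_closure_iff]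
  rintro _ ⟨f, ⟨hfin, hfs⟩, rfl⟩ hX
  have : Finite f := hfin
  obtain ⟨N, ⟨e⟩⟩ := Finite.exists_equiv_fin f
  have hkey : ∀ i : Fin N, ∃ (x₀ : M) (K : Set M) (k : ℕ) (δ : ℝ),
      (IsCompact K ∧ K ⊆ (extChartAt 𝓘(ℝ, E) x₀).source) ∧
      (k : ℕ∞) ≤ r ∧ 0 < δ ∧ ∀ Y : VField E M r,
      (∀ x ∈ K, ‖iteratedFDeriv ℝ k (localRep E (fun z => Y z - toCr E M r X z) x₀)
        (extChartAt 𝓘(ℝ, E) x₀ x)‖ < δ) → Y ∈ (e.symm i : Set (VField E M r)) := by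
    intro i
    exact key (toCr E M r X) _ (hfs (e.symm i).2) (hX _ (e.symm i).2)
  choose x₀ K k δ hK hk hδ hY using hkey
  obtain ⟨m, hm, hkm⟩ : ∃ m : ℕ, (m : ℕ∞) ≤ r ∧ ∀ i, k i ≤ m := by
    rcases isEmpty_or_nonempty (Fin N) with h | h
    · exact ⟨0, by simp, fun i => (h.false i).elim⟩
    · obtain ⟨i₀, hi₀⟩ := Finite.exists_max k
      exact ⟨k i₀, hk i₀, hi₀⟩
  obtain ⟨η, hη, hηδ⟩ : ∃ η : ℝ, 0 < η ∧ ∀ i, η ≤ δ i := by
    rcases isEmpty_or_nonempty (Fin N) with h | h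
    · exact ⟨1, one_pos, fun i => (h.false i).elim⟩
    · obtain ⟨i₀, hi₀⟩ := Finite.exists_min δ
      exact ⟨δ i₀, hδ i₀, hi₀⟩
  obtain ⟨Y, hYS, hnear⟩ := hA m hm N x₀ K η hK hη
  have hYsm := hS Y hYS
  refine ⟨⟨Y, hYsm.of_le (by exact_mod_cast (le_top : r ≤ ⊤))⟩, ?_, hYS⟩
  intro U hU
  have h1 := hY (e ⟨U, hU⟩) ⟨Y, hYsm.of_le (by exact_mod_cast (le_top : r ≤ ⊤))⟩ ?_
  · simpa using h1
  · intro x hx
    exact (hnear _ x hx _ (hkm _)).trans_le (hηδ _)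

end Pool.Agent.PalF
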