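import Pool.Agent.PalF.Defs
import Pool.Agent.Palis.Dyn
import Pool.Agent.Palis.Topo
import Pool.Agent.Pal.Targets

/-!
# Working definitions
-/

set_option autoImplicit false

open scoped Manifold ContDiff Topology
open MeasureTheory Set Filter Bundle Pool.Agent.Palis

namespace Pool.Agent.PalF

/-- The plane. -/
abbrev E2 : Type := Pal.E 2

section Core

variable (E : Type) [NormedAddCommGroup E] [NormedSpace ℝ E] {M : Type} [TopologicalSpace M]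
  [ChartedSpace E M]

/-- `g` is the density of `μ` in the preferred chart at `x₀`. -/
def IsDensity [FiniteDimensional ℝ E] [MeasurableSpace E] [BorelSpace E] [MeasurableSpace M]
    (μ : Measure M) (x₀ : M) (g : E → ℝ) : Prop :=
  ContDiffOn ℝ ∞ g (extChartAt 𝓘(ℝ, E) x₀).target ∧
    (∀ y ∈ (extChartAt 𝓘(ℝ, E) x₀).target, 0 < g y) ∧
    ∀ A ⊆ (extChartAt 𝓘(ℝ, E) x₀).source, MeasurableSet A →
      μ A = ∫⁻ y in extChartAt 𝓘(ℝ, E) x₀ '' A, ENNReal.ofReal (g y) ∂Measure.addHaar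

/-- `D` is the (weak) divergence of `Y` with respect to `μ`. -/
def HasDiv [MeasurableSpace M] (μ : Measure M) (Y : ∀ x : M, TangentSpace 𝓘(ℝ, E) x)
    (D : M → ℝ) : Prop :=
  Continuous D ∧ ∀ η : M → ℝ, ContMDiff 𝓘(ℝ, E) 𝓘(ℝ, ℝ) ∞ η →
    ∫ x, (lieD η Y x + η x * D x) ∂μ = 0

/-- `φ` is the flow of `Y`. -/
structure IsFlow (Y : ∀ x : M, TangentSpace 𝓘(ℝ, E) x) (φ : ℝ → M → M) : Prop where
  zero : ∀ x, φ 0 x = x
  add : ∀ s t x, φ s (φ t x) = φ (s + t) x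
  curve : ∀ x, IsMIntegralCurve (fun t => φ t x) Y
  smooth : ContMDiff (𝓘(ℝ, ℝ).prod 𝓘(ℝ, E)) 𝓘(ℝ, E) ∞ (fun p : ℝ × M => φ p.1 p.2)

/-- In the preferred chart at `x₀` the derivatives of order at most `r` of `Y - X` are smaller
than `ε` on `K`. -/
def CrNear (r : ℕ) (X Y : ∀ x : M, TangentSpace 𝓘(ℝ, E) x) (x₀ : M) (K : Set M) (ε : ℝ) :
    Prop :=
  ∀ x ∈ K, ∀ k ≤ r,
    ‖iteratedFDeriv ℝ k (localRep E (fun z => Y z - X z) x₀) (extChartAt 𝓘(ℝ, E) x₀ x)‖ < ε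

/-- `X` can be approximated by elements of `S` in the `C^r` topology. -/
def Approx (r : ℕ) (X : ∀ x : M, TangentSpace 𝓘(ℝ, E) x)
    (S : Set (∀ x : M, TangentSpace 𝓘(ℝ, E) x)) : Prop :=
  ∀ (N : ℕ) (x₀ : Fin N → M) (K : Fin N → Set M) (ε : ℝ),
    (∀ i, IsCompact (K i) ∧ K i ⊆ (extChartAt 𝓘(ℝ, E) (x₀ i)).source) → 0 < ε →
    ∃ Y ∈ S, ∀ i, CrNear E r X Y (x₀ i) (K i) ε

/-- A flow box: in the coordinates `Φ` the field is constant; `g` is the density of `μ`. -/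
structure PreBox [MeasurableSpace M] (μ : Measure M) (X : ∀ x : M, TangentSpace 𝓘(ℝ, E) x)
    (Φ : OpenPartialHomeomorph M (ℝ × E2)) (h : ℝ) (g : ℝ × E2 → ℝ) : Prop where
  pos : 0 < h
  target : Φ.target = Ioo (-h) h ×ˢ Metric.ball 0 h
  smooth : ContMDiffOn 𝓘(ℝ, E) 𝓘(ℝ, ℝ × E2) ∞ Φ Φ.source
  smooth_symm : ContMDiffOn 𝓘(ℝ, ℝ × E2) 𝓘(ℝ, E) ∞ Φ.symm Φ.target
  field : ∀ x ∈ Φ.source, (mfderiv 𝓘(ℝ, E) 𝓘(ℝ, ℝ × E2) Φ x (X x) : ℝ × E2) = (1, 0)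
  gsmooth : ContDiffOn ℝ ∞ g Φ.target
  gpos : ∀ z ∈ Φ.target, 0 < g z
  meas : ∀ A ⊆ Φ.source, MeasurableSet A → μ A = ∫⁻ z in Φ '' A, ENNReal.ofReal (g z)

/-- A flow box in which `μ` is Lebesgue measure. -/
def Box [MeasurableSpace M] (μ : Measure M) (X : ∀ x : M, TangentSpace 𝓘(ℝ, E) x)
    (Φ : OpenPartialHomeomorph M (ℝ × E2)) (h : ℝ) : Prop :=
  PreBox E μ X Φ h (fun _ => 1)

/-- A flow box that meets the closed orbit `γ` only in its axis. -/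
def OrbitBox [MeasurableSpace M] (μ : Measure M) (X : ∀ x : M, TangentSpace 𝓘(ℝ, E) x)
    (γ : ℝ → M) (τ : ℝ) (Φ : OpenPartialHomeomorph M (ℝ × E2)) (h : ℝ) : Prop :=
  Box E μ X Φ h ∧ γ 0 ∈ Φ.source ∧ Φ (γ 0) = 0 ∧ (∀ s, γ s ∈ Φ.source → (Φ (γ s)).2 = 0) ∧
    8 * h < τ

end Core

/-- The return map to the section `{0} × ℝ²` of the flow box (second coordinate of the time `τ`
map). -/
def pm {M : Type} [TopologicalSpace M] (φ : ℝ → M → M) (Φ : OpenPartialHomeomorph M (ℝ × E2))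
    (τ : ℝ) (y : E2) : E2 :=
  (Φ (φ τ (Φ.symm (0, y)))).2

end Pool.Agent.PalF
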