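import Pool.Agent.PalF.Targets

/-!
PALF-DVR: rules for the divergence.
-/

set_option autoImplicit false

open scoped Manifold ContDiff Topology
open MeasureTheory Set Filter Bundle Pool.Agent.Palis

namespace Pool.Agent.PalF

namespace DVR_

variable {E : Type} [NormedAddCommGroup E] [NormedSpace ℝ E] [FiniteDimensional ℝ E]
  {M : Type} [TopologicalSpace M] [ChartedSpace E M] [IsManifold 𝓘(ℝ, E) ∞ M]

set_option linter.unusedSectionVars false

lemma lieD_add_field (η : M → ℝ) (Y Z : ∀ x : M, TangentSpace 𝓘(ℝ, E) x) (x : M) :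
    lieD η (fun x => Y x + Z x) x = lieD η Y x + lieD η Z x := by
  unfold lieD
  exact map_add _ _ _

lemma lieD_smul_field (η g : M → ℝ) (Y : ∀ x : M, TangentSpace 𝓘(ℝ, E) x) (x : M) :
    lieD η (fun x => g x • Y x) x = g x * lieD η Y x := by
  unfold lieD
  exact map_smul (mfderiv 𝓘(ℝ, E) 𝓘(ℝ, ℝ) η x) (g x) (Y x)

lemma lieD_mul {η g : M → ℝ} {x : M} (hη : MDifferentiableAt 𝓘(ℝ, E) 𝓘(ℝ, ℝ) η x)
    (hg : MDifferentiableAt 𝓘(ℝ, E) 𝓘(ℝ, ℝ) g x) (Y : ∀ x : M, TangentSpace 𝓘(ℝ, E) x) :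
    lieD (fun x => η x * g x) Y x = η x * lieD g Y x + g x * lieD η Y x := by
  have h := (hη.hasMFDerivAt.mul hg.hasMFDerivAt).mfderiv
  unfold lieD
  have e : (fun x => η x * g x) = η * g := rfl
  rw [e, h]
  rfl

lemma integrable_of_continuous [CompactSpace M] [MeasurableSpace M] [BorelSpace M]
    (μ : Measure M) [IsFiniteMeasure μ] {f : M → ℝ} (hf : Continuous f) : Integrable f μ :=
  hf.integrable_of_hasCompactSupport (HasCompactSupport.of_compactSpace f)

lemma continuous_lieD {η : M → ℝ} {Y : ∀ x : M, TangentSpace 𝓘(ℝ, E) x}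
    (hη : ContMDiff 𝓘(ℝ, E) 𝓘(ℝ, ℝ) ∞ η) (hY : IsSmoothField E Y) : Continuous (lieD η Y) :=
  (contMDiff_lieD hη (by norm_cast) hY).continuous

end DVR_

open DVR_

theorem dvr1 : T_DVR := by
  intro E _ _ _ _ _ M _ _ _ _ _ _ _ μ _ Y Z D D' hY hZ hD hD'
  refine ⟨ContMDiff.add_section hY hZ, ⟨hD.1.add hD'.1, fun η hη => ?_⟩, fun g hg => ⟨?_, ?_, ?_⟩⟩
  · have e : ∀ x, lieD η (fun x => Y x + Z x) x + η x * (D x + D' x) =
        (lieD η Y x + η x * D x) + (lieD η Z x + η x * D' x) := by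
      intro x
      rw [lieD_add_field]; ring
    simp only [e]
    rw [integral_add, hD.2 η hη, hD'.2 η hη, add_zero]
    · exact integrable_of_continuous μ ((continuous_lieD hη hY).add (hη.continuous.mul hD.1))
    · exact integrable_of_continuous μ ((continuous_lieD hη hZ).add (hη.continuous.mul hD'.1))
  · exact ContMDiff.smul_section hg hY
  · exact (hg.continuous.mul hD.1).add (continuous_lieD hg hY)
  · intro η hη
    have e : ∀ x, lieD η (fun x => g x • Y x) x + η x * (g x * D x + lieD g Y x) =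
        lieD (fun x => η x * g x) Y x + (η x * g x) * D x := by
      intro x
      rw [lieD_smul_field, lieD_mul ((hη x).mdifferentiableAt (by norm_num))
        ((hg x).mdifferentiableAt (by norm_num))]
      ring
    simp only [e]
    exact hD.2 _ (hη.mul hg)

end Pool.Agent.PalF
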