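import Pool.Agent.PalF.Targets
import Pool.Agent.PalF.DVR

/-!
PALF-DER: transport of a function along the flow.
-/

set_option autoImplicit false

open scoped Manifold ContDiff Topology
open MeasureTheory Set Filter Bundle Pool.Agent.Palis

namespace Pool.Agent.PalF

namespace DER_

open DVR_

variable {E : Type} [NormedAddCommGroup E] [NormedSpace ℝ E] [FiniteDimensional ℝ E]
  {M : Type} [TopologicalSpace M] [ChartedSpace E M] [IsManifold 𝓘(ℝ, E) ∞ M]

set_option linter.unusedSectionVars false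

lemma smooth_flow {Y : ∀ x : M, TangentSpace 𝓘(ℝ, E) x} {φ : ℝ → M → M} (hφ : IsFlow E Y φ)
    (t : ℝ) : ContMDiff 𝓘(ℝ, E) 𝓘(ℝ, E) ∞ (φ t) :=
  hφ.smooth.comp (contMDiff_const.prodMk contMDiff_id)

lemma continuous_flow {Y : ∀ x : M, TangentSpace 𝓘(ℝ, E) x} {φ : ℝ → M → M}
    (hφ : IsFlow E Y φ) : Continuous (fun p : ℝ × M => φ p.1 p.2) := hφ.smooth.continuous

lemma lieD_comp_flow {Y : ∀ x : M, TangentSpace 𝓘(ℝ, E) x} {φ : ℝ → M → M}
    (hφ : IsFlow E Y φ) {v : M → ℝ} (hv : ContMDiff 𝓘(ℝ, E) 𝓘(ℝ, ℝ) ∞ v) (t : ℝ) (x : M) :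
    lieD (fun z => v (φ t z)) Y x = lieD v Y (φ t x) := by
  have h1 := hasDerivAt_comp_curve (h := fun z => v (φ t z))
    ((hv.comp (smooth_flow hφ t)).of_le (by norm_cast)) (hφ.curve x) 0
  have h2 := hasDerivAt_comp_curve (hv.of_le (by norm_cast)) (hφ.curve x) t
  have h3 : HasDerivAt (fun s => v (φ (t + s) x)) (lieD v Y (φ t x)) 0 := by
    have h4 : HasDerivAt (fun s : ℝ => t + s) 1 0 := by
      simpa using (hasDerivAt_id (0 : ℝ)).const_add t
    have h5 : HasDerivAt (fun s => v (φ s x)) (lieD v Y (φ t x)) (t + 0) := by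
      rw [add_zero]; exact h2
    have h6 := h5.comp (0 : ℝ) h4
    rw [mul_one] at h6
    exact h6
  have e : (fun s => v (φ t (φ s x))) = fun s => v (φ (t + s) x) := by
    funext s
    rw [hφ.add]
  rw [e, hφ.zero] at h1
  exact h1.unique h3

end DER_

open DER_ DVR_

theorem der1 : T_DER := by
  intro E _ _ _ _ _ M _ _ _ _ _ _ _ μ _ Y D φ v t hY hD hφ hv
  have hc : Continuous (lieD v Y) := continuous_lieD hv hY
  obtain ⟨C, hC⟩ := isCompact_univ.exists_bound_of_continuousOn hc.continuousOn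
  have hcont : ∀ s, Continuous (φ s) := fun s => (smooth_flow hφ s).continuous
  have key := hasDerivAt_integral_of_dominated_loc_of_deriv_le (μ := μ)
    (F := fun s x => v (φ s x)) (F' := fun s x => lieD v Y (φ s x)) (x₀ := t) (s := univ)
    (bound := fun _ => C) univ_mem
    (Eventually.of_forall fun s => (hv.continuous.comp (hcont s)).aestronglyMeasurable)
    (integrable_of_continuous μ (hv.continuous.comp (hcont t)))
    (hc.comp (hcont t)).aestronglyMeasurable
    (Eventually.of_forall fun x s _ => hC _ (mem_univ _)) (integrable_const C)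
    (Eventually.of_forall fun x s _ =>
      hasDerivAt_comp_curve (hv.of_le (by norm_cast)) (hφ.curve x) s)
  refine key.2.congr_deriv ?_
  have hvt : ContMDiff 𝓘(ℝ, E) 𝓘(ℝ, ℝ) ∞ (fun z => v (φ t z)) := hv.comp (smooth_flow hφ t)
  have h1 := hD.2 _ hvt
  have i2 : Integrable (fun x => v (φ t x) * D x) μ :=
    integrable_of_continuous μ (hvt.continuous.mul hD.1)
  rw [integral_add (integrable_of_continuous μ (continuous_lieD hvt hY)) i2] at h1
  have e : ∀ x, lieD (fun z => v (φ t z)) Y x = lieD v Y (φ t x) := lieD_comp_flow hφ hv t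
  simp only [e] at h1
  linarith

end Pool.Agent.PalF
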