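import Pool.Agent.PalF.Targets

/-!
PALF-DVF: the formula for the divergence in charts.
-/

set_option autoImplicit false

open scoped Manifold ContDiff Topology
open MeasureTheory Set Filter Bundle Pool.Agent.Palis

namespace Pool.Agent.PalF

namespace DVF_

variable {E : Type} [NormedAddCommGroup E] [NormedSpace ℝ E] [FiniteDimensional ℝ E]
  {M : Type} [TopologicalSpace M] [ChartedSpace E M] [IsManifold 𝓘(ℝ, E) ∞ M]

set_option linter.unusedSectionVars false

/-- A function in the chart, extended by zero. -/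
noncomputable def ex (x₀ : M) (ψ : E → ℝ) : M → ℝ :=
  (extChartAt 𝓘(ℝ, E) x₀).source.indicator (fun x => ψ (extChartAt 𝓘(ℝ, E) x₀ x))

theorem ex_of_mem {x₀ : M} {ψ : E → ℝ} {x : M} (hx : x ∈ (extChartAt 𝓘(ℝ, E) x₀).source) :
    ex x₀ ψ x = ψ (extChartAt 𝓘(ℝ, E) x₀ x) := indicator_of_mem hx _

theorem tsupport_ex [T2Space M] {x₀ : M} {ψ : E → ℝ} (hc : HasCompactSupport ψ)
    (hs : tsupport ψ ⊆ (extChartAt 𝓘(ℝ, E) x₀).target) :
    tsupport (ex x₀ ψ) ⊆ (extChartAt 𝓘(ℝ, E) x₀).source := by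
  set e := extChartAt 𝓘(ℝ, E) x₀ with he
  have hK : IsCompact (e.symm '' tsupport ψ) :=
    hc.isCompact.image_of_continuousOn ((continuousOn_extChartAt_symm x₀).mono hs)
  have h1 : Function.support (ex x₀ ψ) ⊆ e.symm '' tsupport ψ := by
    intro x hx
    rw [Function.mem_support] at hx
    by_cases hxs : x ∈ e.source
    · rw [ex_of_mem hxs] at hx
      exact ⟨e x, subset_tsupport ψ hx, e.left_inv hxs⟩
    · exact absurd (indicator_of_notMem hxs _) hx
  have h2 : tsupport (ex x₀ ψ) ⊆ e.symm '' tsupport ψ :=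
    closure_minimal h1 hK.isClosed
  refine h2.trans ?_
  rintro _ ⟨y, hy, rfl⟩
  exact e.map_target (hs hy)

theorem ex_eventually {x₀ : M} {ψ : E → ℝ} {x : M}
    (hx : x ∈ (extChartAt 𝓘(ℝ, E) x₀).source) :
    ex x₀ ψ =ᶠ[𝓝 x] ψ ∘ (extChartAt 𝓘(ℝ, E) x₀) := by
  filter_upwards [(isOpen_extChartAt_source x₀).mem_nhds hx] with z hz
  exact ex_of_mem hz

theorem smooth_ex [T2Space M] {x₀ : M} {ψ : E → ℝ} (hψ : ContDiff ℝ ∞ ψ)
    (hc : HasCompactSupport ψ) (hs : tsupport ψ ⊆ (extChartAt 𝓘(ℝ, E) x₀).target) :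
    ContMDiff 𝓘(ℝ, E) 𝓘(ℝ, ℝ) ∞ (ex x₀ ψ) := by
  refine contMDiff_of_tsupport fun x hx => ?_
  have hxs := tsupport_ex hc hs hx
  have hxc : x ∈ (chartAt E x₀).source := by rwa [extChartAt_source] at hxs
  have h1 : ContMDiffAt 𝓘(ℝ, E) 𝓘(ℝ, E) ∞ (extChartAt 𝓘(ℝ, E) x₀) x :=
    contMDiffAt_extChartAt' hxc
  have h2 : ContMDiffAt 𝓘(ℝ, E) 𝓘(ℝ, ℝ) ∞ ψ (extChartAt 𝓘(ℝ, E) x₀ x) :=
    hψ.contMDiff.contMDiffAt
  exact (h2.comp x h1).congr_of_eventuallyEq (ex_eventually hxs)

theorem lieD_ex_mem {x₀ : M} {ψ : E → ℝ} (hψ : ContDiff ℝ ∞ ψ) {x : M}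
    (hxs : x ∈ (extChartAt 𝓘(ℝ, E) x₀).source) (Y : ∀ x : M, TangentSpace 𝓘(ℝ, E) x) :
    lieD (ex x₀ ψ) Y x = fderiv ℝ ψ (extChartAt 𝓘(ℝ, E) x₀ x)
      (localRep E Y x₀ (extChartAt 𝓘(ℝ, E) x₀ x)) := by
  have hxc : x ∈ (chartAt E x₀).source := by rwa [extChartAt_source] at hxs
  have h1 : MDifferentiableAt 𝓘(ℝ, E) 𝓘(ℝ, E) (extChartAt 𝓘(ℝ, E) x₀) x :=
    (contMDiffAt_extChartAt' (n := ∞) hxc).mdifferentiableAt (by norm_num)
  have h2 : MDifferentiableAt 𝓘(ℝ, E) 𝓘(ℝ, ℝ) ψ (extChartAt 𝓘(ℝ, E) x₀ x) :=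
    (hψ.contMDiff.contMDiffAt).mdifferentiableAt (by norm_num)
  have h3 : mfderiv 𝓘(ℝ, E) 𝓘(ℝ, ℝ) (ex x₀ ψ) x =
      (mfderiv 𝓘(ℝ, E) 𝓘(ℝ, ℝ) ψ (extChartAt 𝓘(ℝ, E) x₀ x)).comp
        (mfderiv 𝓘(ℝ, E) 𝓘(ℝ, E) (extChartAt 𝓘(ℝ, E) x₀) x) := by
    rw [(ex_eventually hxs).mfderiv_eq]
    exact mfderiv_comp x h2 h1
  have h4 : localRep E Y x₀ (extChartAt 𝓘(ℝ, E) x₀ x) =
      mfderiv 𝓘(ℝ, E) 𝓘(ℝ, E) (extChartAt 𝓘(ℝ, E) x₀) x (Y x) := by
    unfold localRep
    rw [(extChartAt 𝓘(ℝ, E) x₀).left_inv hxs]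
  unfold lieD
  rw [h3, h4, mfderiv_eq_fderiv]
  rfl

theorem ex_notMem [T2Space M] {x₀ : M} {ψ : E → ℝ} {x : M}
    (hxs : x ∉ (extChartAt 𝓘(ℝ, E) x₀).source) : ex x₀ ψ x = 0 := indicator_of_notMem hxs _

theorem lieD_ex_notMem [T2Space M] {x₀ : M} {ψ : E → ℝ} (hc : HasCompactSupport ψ)
    (hs : tsupport ψ ⊆ (extChartAt 𝓘(ℝ, E) x₀).target) {x : M}
    (hxs : x ∉ (extChartAt 𝓘(ℝ, E) x₀).source) (Y : ∀ x : M, TangentSpace 𝓘(ℝ, E) x) :
    lieD (ex x₀ ψ) Y x = 0 := by
  have h1 : x ∉ tsupport (ex x₀ ψ) := fun h => hxs (tsupport_ex hc hs h)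
  have h2 : ex x₀ ψ =ᶠ[𝓝 x] fun _ => 0 := notMem_tsupport_iff_eventuallyEq.1 h1
  unfold lieD
  rw [h2.mfderiv_eq, mfderiv_const]
  rfl

theorem integral_chart [MeasurableSpace E] [BorelSpace E] [MeasurableSpace M] [BorelSpace M]
    {μ : Measure M} {x₀ : M} {g : E → ℝ} (hg : IsDensity E μ x₀ g) {G : M → ℝ} {F : E → ℝ}
    (hF : ContinuousOn F (extChartAt 𝓘(ℝ, E) x₀).target)
    (h0 : ∀ x, x ∉ (extChartAt 𝓘(ℝ, E) x₀).source → G x = 0)
    (h1 : ∀ x ∈ (extChartAt 𝓘(ℝ, E) x₀).source, G x = F (extChartAt 𝓘(ℝ, E) x₀ x)) :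
    ∫ x, G x ∂μ = ∫ z in (extChartAt 𝓘(ℝ, E) x₀).target, g z * F z ∂Measure.addHaar := by
  set e := extChartAt 𝓘(ℝ, E) x₀ with he
  have hSo : IsOpen e.source := isOpen_extChartAt_source x₀
  have hTo : IsOpen e.target := isOpen_extChartAt_target x₀
  have hSm : MeasurableSet e.source := hSo.measurableSet
  have hTm : MeasurableSet e.target := hTo.measurableSet
  have hem : AEMeasurable e (μ.restrict e.source) :=
    (continuousOn_extChartAt x₀).aemeasurable hSm
  have hgm : AEMeasurable (fun z => ENNReal.ofReal (g z))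
      ((Measure.addHaar : Measure E).restrict e.target) :=
    (hg.1.continuousOn.aemeasurable hTm).ennreal_ofReal
  have hmap : (μ.restrict e.source).map e =
      ((Measure.addHaar : Measure E).restrict e.target).withDensity
        (fun z => ENNReal.ofReal (g z)) := by
    ext B hB
    have hpre : MeasurableSet (e.source ∩ e ⁻¹' B) := by
      obtain ⟨C, hC, hCe⟩ := (continuousOn_iff_continuous_domRestrict.1
        (continuousOn_extChartAt (I := 𝓘(ℝ, E)) x₀)).measurable hB
      have : e.source ∩ e ⁻¹' B = e.source ∩ C := by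
        ext x
        constructor
        · rintro ⟨hx, hx2⟩
          have : (⟨x, hx⟩ : e.source) ∈ (Subtype.val ⁻¹' C : Set e.source) := by
            rw [hCe]; exact hx2
          exact ⟨hx, this⟩
        · rintro ⟨hx, hx2⟩
          have : (⟨x, hx⟩ : e.source) ∈ (Subtype.val ⁻¹' C : Set e.source) := hx2
          rw [hCe] at this
          exact ⟨hx, this⟩
      rw [this]
      exact hSm.inter hC
    have him : e '' (e.source ∩ e ⁻¹' B) = e.target ∩ B := by
      ext z
      constructor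
      · rintro ⟨x, ⟨hx, hxB⟩, rfl⟩
        exact ⟨e.map_source hx, hxB⟩
      · rintro ⟨hz, hzB⟩
        exact ⟨e.symm z, ⟨e.map_target hz, by rw [mem_preimage, e.right_inv hz]; exact hzB⟩,
          e.right_inv hz⟩
    rw [Measure.map_apply_of_aemeasurable hem hB, withDensity_apply _ hB,
      Measure.restrict_restrict hB, Measure.restrict_apply']
    · rw [show e ⁻¹' B ∩ e.source = e.source ∩ e ⁻¹' B from inter_comm _ _,
        hg.2.2 _ inter_subset_left hpre, him, inter_comm]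
    · exact hSm
  have hFm : AEStronglyMeasurable F ((μ.restrict e.source).map e) := by
    rw [hmap]
    exact (hF.aestronglyMeasurable hTm).mono_ac (withDensity_absolutelyContinuous _ _)
  calc ∫ x, G x ∂μ = ∫ x in e.source, G x ∂μ :=
        (setIntegral_eq_integral_of_forall_compl_eq_zero fun x hx => h0 x hx).symm
    _ = ∫ x in e.source, F (e x) ∂μ := setIntegral_congr_fun hSm fun x hx => h1 x hx
    _ = ∫ z, F z ∂((μ.restrict e.source).map e) := (integral_map hem hFm).symm
    _ = ∫ z, (ENNReal.ofReal (g z)).toReal • F z ∂((Measure.addHaar : Measure E).restrict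
          e.target) := by
        rw [hmap]
        exact integral_withDensity_eq_integral_toReal_smul₀ hgm
          (Eventually.of_forall fun z => ENNReal.ofReal_lt_top) F
    _ = _ := by
        refine setIntegral_congr_fun hTm fun z hz => ?_
        simp only [smul_eq_mul]
        rw [ENNReal.toReal_ofReal (hg.2.1 z hz).le]

theorem exists_cut [MeasurableSpace E] [BorelSpace E] {T : Set E} (hT : IsOpen T) {K : Set E}
    (hK : IsCompact K) (hKT : K ⊆ T) : ∃ κ : E → ℝ, ContDiff ℝ ∞ κ ∧ HasCompactSupport κ ∧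
      tsupport κ ⊆ T ∧ ∀ z ∈ K, ∀ᶠ y in 𝓝 z, κ y = 1 := by
  obtain ⟨K', hK', h1, h2⟩ := exists_compact_between hK hT hKT
  obtain ⟨κ, hκ1, hκ0, -⟩ := exists_contMDiffMap_one_nhds_of_subset_interior (n := ⊤) 𝓘(ℝ, E)
    hK.isClosed h1
  have hsupp : tsupport κ ⊆ K' := by
    refine closure_minimal ?_ hK'.isClosed
    intro z hz
    by_contra hzn
    exact hz (hκ0 z hzn)
  refine ⟨κ, κ.contMDiff.contDiff, HasCompactSupport.of_support_subset_isCompact hK'
    ((subset_tsupport _).trans hsupp), hsupp.trans h2, fun z hz => ?_⟩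
  exact (eventually_nhdsSet_iff_forall.1 hκ1) z hz

theorem pair_eq [MeasurableSpace E] [BorelSpace E] (hI : T_IBP) {T : Set E} (hT : IsOpen T)
    {w : E → E} (hw : ContDiffOn ℝ ∞ w T) {ψ : E → ℝ} (hψ : ContDiff ℝ ∞ ψ)
    (hc : HasCompactSupport ψ) (hs : tsupport ψ ⊆ T) :
    ∫ z in T, fderiv ℝ ψ z (w z) ∂(Measure.addHaar : Measure E) =
      -∫ z in T, ψ z * LinearMap.trace ℝ E (fderiv ℝ w z) ∂(Measure.addHaar : Measure E) := by
  obtain ⟨κ, hκ, hκc, hκT, hκ1⟩ := exists_cut hT hc.isCompact hs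
  set W : E → E := fun z => κ z • w z with hW
  have hWd : ContDiff ℝ ∞ W := by
    rw [contDiff_iff_contDiffAt]
    intro z
    by_cases hz : z ∈ T
    · exact hκ.contDiffAt.smul (hw.contDiffAt (hT.mem_nhds hz))
    · have hz2 : z ∉ tsupport κ := fun h => hz (hκT h)
      have h3 : W =ᶠ[𝓝 z] fun _ => 0 := by
        filter_upwards [notMem_tsupport_iff_eventuallyEq.1 hz2] with y hy
        simp only [hW, hy, Pi.zero_apply, zero_smul]
      exact (contDiffAt_const (c := (0 : E))).congr_of_eventuallyEq h3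
  have hWc : HasCompactSupport W := by
    refine HasCompactSupport.of_support_subset_isCompact hκc.isCompact ?_
    intro z hz
    refine subset_tsupport κ ?_
    intro h0
    exact hz (by simp only [hW, h0, zero_smul])
  have h := hI E ψ W (hψ.of_le (by norm_num)) (hWd.of_le (by norm_num)) hWc
  have h1 : ∀ z, fderiv ℝ ψ z (W z) = T.indicator (fun z => fderiv ℝ ψ z (w z)) z := by
    intro z
    by_cases hz : z ∈ tsupport ψ
    · rw [indicator_of_mem (hs hz)]
      simp only [hW]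
      rw [(hκ1 z hz).self_of_nhds, one_smul]
    · have h2 : fderiv ℝ ψ z = 0 := by
        rw [(notMem_tsupport_iff_eventuallyEq.1 hz).fderiv_eq]
        simp
      by_cases hz2 : z ∈ T
      · rw [indicator_of_mem hz2, h2]; rfl
      · rw [indicator_of_notMem hz2, h2]; rfl
  have h2 : ∀ z, ψ z * LinearMap.trace ℝ E (fderiv ℝ W z) =
      T.indicator (fun z => ψ z * LinearMap.trace ℝ E (fderiv ℝ w z)) z := by
    intro z
    by_cases hz : z ∈ tsupport ψ
    · rw [indicator_of_mem (hs hz)]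
      have h3 : W =ᶠ[𝓝 z] w := by
        filter_upwards [hκ1 z hz] with y hy
        simp only [hW, hy, one_smul]
      rw [h3.fderiv_eq]
    · have h3 : ψ z = 0 := image_eq_zero_of_notMem_tsupport hz
      by_cases hz2 : z ∈ T
      · rw [indicator_of_mem hz2, h3, zero_mul, zero_mul]
      · rw [indicator_of_notMem hz2, h3, zero_mul]
  simp_rw [h1, h2] at h
  rw [integral_indicator hT.measurableSet, integral_indicator hT.measurableSet] at h
  exact h

end DVF_

open DVF_

theorem dvf1 (hI : T_IBP) : T_DVF := by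
  intro E _ _ _ _ _ M _ _ _ _ _ _ _ μ Y D x₀ g hμ hY hD hg
  set e := extChartAt 𝓘(ℝ, E) x₀ with he
  have hTo : IsOpen e.target := isOpen_extChartAt_target x₀
  set w : E → E := fun z => g z • localRep E Y x₀ z with hw
  have hYr : ContDiffOn ℝ ∞ (localRep E Y x₀) e.target := localRep_contDiffOn (k := ⊤) hY x₀
  have hwd : ContDiffOn ℝ ∞ w e.target := hg.1.smul hYr
  have hDc : ContinuousOn (fun z => D (e.symm z)) e.target :=
    hD.1.comp_continuousOn (continuousOn_extChartAt_symm x₀)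
  have htr : ContinuousOn (fun z => LinearMap.trace ℝ E (fderiv ℝ w z)) e.target := by
    have h1 : ContinuousOn (fun z => fderiv ℝ w z) e.target :=
      hwd.continuousOn_fderiv_of_isOpen hTo (by norm_num)
    have h2 : Continuous (fun A : E →L[ℝ] E => LinearMap.trace ℝ E (A : E →ₗ[ℝ] E)) :=
      ((LinearMap.trace ℝ E) ∘ₗ (ContinuousLinearMap.coeLM ℝ)).continuous_of_finiteDimensional
    exact h2.comp_continuousOn h1
  set f : E → ℝ := fun z => D (e.symm z) * g z - LinearMap.trace ℝ E (fderiv ℝ w z) with hf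
  have hfc : ContinuousOn f e.target := (hDc.mul hg.1.continuousOn).sub htr
  have hae : ∀ᵐ z ∂(Measure.addHaar : Measure E), z ∈ e.target → f z = 0 := by
    refine hTo.ae_eq_zero_of_integral_contDiff_smul_eq_zero
      (hfc.locallyIntegrableOn hTo.measurableSet) fun ψ hψ hψc hψs => ?_
    have hη := smooth_ex hψ hψc hψs
    have h1 := hD.2 _ hη
    have hFc : ContinuousOn (fun z => fderiv ℝ ψ z (localRep E Y x₀ z) + ψ z * D (e.symm z))
        e.target := by
      refine ContinuousOn.add ?_ (hψ.continuous.continuousOn.mul hDc)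
      exact ((hψ.continuous_fderiv (by norm_num)).continuousOn).clm_apply hYr.continuousOn
    rw [integral_chart hg hFc (fun x hx => by
        rw [lieD_ex_notMem hψc hψs hx, ex_notMem hx]; simp)
      (fun x hx => by
        rw [lieD_ex_mem hψ hx, ex_of_mem hx]
        rw [← he, e.left_inv hx])] at h1
    -- integrability
    have hint : ∀ {u : E → ℝ}, ContinuousOn u e.target → (∀ z, z ∉ tsupport ψ → u z = 0) →
        IntegrableOn u e.target (Measure.addHaar : Measure E) := by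
      intro u hu hu0
      have h2 : IntegrableOn u (tsupport ψ) (Measure.addHaar : Measure E) :=
        (hu.mono hψs).integrableOn_compact hψc.isCompact
      have h3 : Function.support u ⊆ tsupport ψ := by
        intro z hz
        by_contra hn
        exact hz (hu0 z hn)
      exact ((integrableOn_iff_integrable_of_support_subset h3).1 h2).integrableOn
    have hfd0 : ∀ z, z ∉ tsupport ψ → fderiv ℝ ψ z = 0 := by
      intro z hz
      rw [(notMem_tsupport_iff_eventuallyEq.1 hz).fderiv_eq]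
      simp
    have hi1 : IntegrableOn (fun z => fderiv ℝ ψ z (w z)) e.target
        (Measure.addHaar : Measure E) := by
      refine hint (((hψ.continuous_fderiv (by norm_num)).continuousOn).clm_apply
        hwd.continuousOn) fun z hz => ?_
      rw [hfd0 z hz]; rfl
    have hi2 : IntegrableOn (fun z => ψ z * (D (e.symm z) * g z)) e.target
        (Measure.addHaar : Measure E) := by
      refine hint (hψ.continuous.continuousOn.mul (hDc.mul hg.1.continuousOn)) fun z hz => ?_
      rw [image_eq_zero_of_notMem_tsupport hz, zero_mul]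
    have hi3 : IntegrableOn (fun z => ψ z * LinearMap.trace ℝ E (fderiv ℝ w z)) e.target
        (Measure.addHaar : Measure E) := by
      refine hint (hψ.continuous.continuousOn.mul htr) fun z hz => ?_
      rw [image_eq_zero_of_notMem_tsupport hz, zero_mul]
    have h4 : ∀ z, g z * (fderiv ℝ ψ z (localRep E Y x₀ z) + ψ z * D (e.symm z)) =
        fderiv ℝ ψ z (w z) + ψ z * (D (e.symm z) * g z) := by
      intro z
      simp only [hw, map_smul, smul_eq_mul]
      ring
    simp_rw [h4] at h1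
    rw [integral_add hi1 hi2, pair_eq hI hTo hwd hψ hψc hψs] at h1
    have h5 : ∫ z, ψ z • f z ∂(Measure.addHaar : Measure E) =
        ∫ z in e.target, ψ z • f z ∂(Measure.addHaar : Measure E) := by
      refine (setIntegral_eq_integral_of_forall_compl_eq_zero fun z hz => ?_).symm
      rw [image_eq_zero_of_notMem_tsupport (fun h => hz (hψs h)), zero_smul]
    have h6 : ∀ z, ψ z • f z = ψ z * (D (e.symm z) * g z) -
        ψ z * LinearMap.trace ℝ E (fderiv ℝ w z) := by
      intro z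
      simp only [hf, smul_eq_mul]
      ring
    rw [h5]
    simp_rw [h6]
    rw [integral_sub hi2 hi3]
    linarith
  have h7 : f =ᵐ[(Measure.addHaar : Measure E).restrict e.target] fun _ => 0 :=
    (ae_restrict_iff' hTo.measurableSet).2 hae
  have h8 := Measure.eqOn_open_of_ae_eq h7 hTo hfc continuousOn_const
  intro y hy
  have h9 := h8 hy
  simp only [hf] at h9
  linarith

end Pool.Agent.PalF
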