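import Pool.Agent.PalF.Targets

/-!
PALF-DVP: the divergence of the contracting field.
-/

set_option autoImplicit false

open scoped Manifold ContDiff Topology
open MeasureTheory Set Filter Bundle Pool.Agent.Palis

namespace Pool.Agent.PalF

namespace DVP_

variable {E : Type} [NormedAddCommGroup E] [NormedSpace ℝ E]
  {M : Type} [TopologicalSpace M] [ChartedSpace E M]

lemma hasDiv_zero [MeasurableSpace M] (μ : Measure M) (X : ∀ x : M, TangentSpace 𝓘(ℝ, E) x)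
    (h : DivFree E μ X) : HasDiv E μ X (fun _ => 0) := by
  refine ⟨continuous_const, fun η hη => ?_⟩
  have : ∫ x, lieD η X x ∂μ = 0 := h η hη
  simpa only [mul_zero, add_zero] using this

/-- The chain rule. -/
lemma lieD_comp {I : M → ℝ} {φ : ℝ → ℝ} {x : M} (hI : MDifferentiableAt 𝓘(ℝ, E) 𝓘(ℝ, ℝ) I x)
    (hφ : DifferentiableAt ℝ φ (I x)) (W : ∀ x : M, TangentSpace 𝓘(ℝ, E) x) :
    lieD (fun z => φ (I z)) W x = deriv φ (I x) * lieD I W x := by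
  have h1 : HasMFDerivAt 𝓘(ℝ, ℝ) 𝓘(ℝ, ℝ) φ (I x) (fderiv ℝ φ (I x)) :=
    hφ.hasFDerivAt.hasMFDerivAt
  have h2 := (h1.comp x hI.hasMFDerivAt).mfderiv
  unfold lieD
  have e : (fun z => φ (I z)) = φ ∘ I := rfl
  rw [e, h2]
  change fderiv ℝ φ (I x) (mfderiv 𝓘(ℝ, E) 𝓘(ℝ, ℝ) I x (W x)) = _
  exact fderiv_eq_deriv_mul

end DVP_

open DVP_

theorem dvp1 (hR : T_DVR) : T_DVP := by
  intro E _ _ _ _ _ M _ _ _ _ _ _ _ μ _ X W DW I χ c₀ c₁ C₂ κ ρ hX hW hI hdiv hDW hC₂ hpos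
    hlow hχ hχ0 hχ4 hanti hprof hκ hρ hρc
  have hφs : ContDiff ℝ ∞ (fun t : ℝ => -κ * χ (t / ρ ^ 2)) := by
    have : ContDiff ℝ ∞ (fun t : ℝ => t / ρ ^ 2) := contDiff_id.div_const _
    exact contDiff_const.mul (hχ.comp this)
  have hg : ContMDiff 𝓘(ℝ, E) 𝓘(ℝ, ℝ) ∞ (fun z => -κ * χ (I z / ρ ^ 2)) :=
    hφs.contMDiff.comp hI
  have hX0 := hasDiv_zero μ X hdiv
  obtain ⟨-, -, h1⟩ := hR E M μ W X DW (fun _ => 0) hW hX hDW hX0
  obtain ⟨h2, h3⟩ := h1 _ hg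
  obtain ⟨h4, h5, -⟩ := hR E M μ X (fun x => (-κ * χ (I x / ρ ^ 2)) • W x) (fun _ => 0) _
    hX h2 hX0 h3
  refine ⟨h4, _, h5, fun x hx => ?_⟩
  have hρ2 : 0 < ρ ^ 2 := by positivity
  have hd : deriv (fun t : ℝ => -κ * χ (t / ρ ^ 2)) (I x) =
      -κ * (deriv χ (I x / ρ ^ 2) / ρ ^ 2) := by
    have hχd : DifferentiableAt ℝ χ (I x / ρ ^ 2) :=
      (hχ.differentiable (by simp)).differentiableAt
    have h6 : HasDerivAt (fun t : ℝ => t / ρ ^ 2) (1 / ρ ^ 2) (I x) :=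
      (hasDerivAt_id (I x)).div_const _
    have h7 := (HasDerivAt.comp (I x) hχd.hasDerivAt h6).const_mul (-κ)
    have h8 := h7.deriv
    simp only [Function.comp_def] at h8
    rw [h8]; ring
  have hL : lieD (fun z => -κ * χ (I z / ρ ^ 2)) W x =
      -κ * (deriv χ (I x / ρ ^ 2) / ρ ^ 2) * lieD I W x := by
    have h6 := lieD_comp (φ := fun t : ℝ => -κ * χ (t / ρ ^ 2))
      ((hI x).mdifferentiableAt (by simp)) (hφs.differentiable (by simp)).differentiableAt W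
    rw [hd] at h6
    exact h6
  rw [hL, zero_add]
  have hχ' : deriv χ (I x / ρ ^ 2) ≤ 0 := hanti.deriv_nonpos
  have ht1 : 1 ≤ I x / ρ ^ 2 := (one_le_div hρ2).2 hx
  have hDWx := abs_le.1 (hC₂ x)
  have key : 0 ≤ -(χ (I x / ρ ^ 2) * DW x + deriv χ (I x / ρ ^ 2) / ρ ^ 2 * lieD I W x) := by
    by_cases ht : I x / ρ ^ 2 < 4
    · have hIc : I x ≤ c₀ := by
        have := (div_lt_iff₀ hρ2).1 ht
        linarith
      have h6 := hlow x hIc
      have h7 := hprof _ ht1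
      have h8 : -(deriv χ (I x / ρ ^ 2) / ρ ^ 2) * (c₁ * I x) ≤
          -(deriv χ (I x / ρ ^ 2) / ρ ^ 2) * lieD I W x := by
        apply mul_le_mul_of_nonneg_left h6
        have := div_nonpos_of_nonpos_of_nonneg hχ' hρ2.le
        linarith
      have h9 : -(deriv χ (I x / ρ ^ 2) / ρ ^ 2) * (c₁ * I x) =
          -(c₁ * (I x / ρ ^ 2) * deriv χ (I x / ρ ^ 2)) := by
        field_simp
      have h10 : χ (I x / ρ ^ 2) * DW x ≤ C₂ * χ (I x / ρ ^ 2) := by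
        rw [mul_comm C₂]
        exact mul_le_mul_of_nonneg_left hDWx.2 (hχ0 _)
      linarith
    · have h6 := hχ4 _ (not_lt.1 ht)
      rw [h6, zero_mul, zero_add]
      have h7 := div_nonpos_of_nonpos_of_nonneg hχ' hρ2.le
      have h8 := mul_nonneg (neg_nonneg.2 h7) (hpos x)
      linarith
  have := mul_nonneg hκ key
  calc (0 : ℝ) ≤ κ * -(χ (I x / ρ ^ 2) * DW x +
        deriv χ (I x / ρ ^ 2) / ρ ^ 2 * lieD I W x) := this
    _ = _ := by ring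

end Pool.Agent.PalF
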