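import Pool.Agent.PalF.Targets

/-!
# PALF-DVX: every smooth field has a divergence
-/

set_option autoImplicit false

open scoped Manifold ContDiff Topology
open MeasureTheory Set Filter Bundle Asymptotics Metric Pool.Agent.Palis

namespace Pool.Agent.PalF

namespace DVX_

set_option linter.unusedSectionVars false

variable {E : Type} [NormedAddCommGroup E] [NormedSpace ℝ E] [FiniteDimensional ℝ E]
  {M : Type} [TopologicalSpace M] [ChartedSpace E M] [IsManifold 𝓘(ℝ, E) ∞ M]

/-- a function of the manifold read in a chart -/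
lemma pull_contDiffOn {F : Type} [NormedAddCommGroup F] [NormedSpace ℝ F] {η : M → F}
    (hη : ContMDiff 𝓘(ℝ, E) 𝓘(ℝ, F) ∞ η) (x₀ : M) :
    ContDiffOn ℝ ∞ (fun z => η ((extChartAt 𝓘(ℝ, E) x₀).symm z))
      (extChartAt 𝓘(ℝ, E) x₀).target := by
  rw [← contMDiffOn_iff_contDiffOn]
  exact hη.comp_contMDiffOn (contMDiffOn_extChartAt_symm (n := ∞) x₀)

/-- the derivative along a field in a chart -/
lemma lieD_chart {η : M → ℝ} (hη : ContMDiff 𝓘(ℝ, E) 𝓘(ℝ, ℝ) ∞ η)
    (Y : ∀ x : M, TangentSpace 𝓘(ℝ, E) x) (x₀ : M) {y : E}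
    (hy : y ∈ (extChartAt 𝓘(ℝ, E) x₀).target) :
    lieD η Y ((extChartAt 𝓘(ℝ, E) x₀).symm y) =
      fderiv ℝ (fun z => η ((extChartAt 𝓘(ℝ, E) x₀).symm z)) y (localRep E Y x₀ y) := by
  have hM1 : IsManifold 𝓘(ℝ, E) 1 M := IsManifold.of_le (n := ∞) (by norm_cast)
  set e := extChartAt 𝓘(ℝ, E) x₀ with he
  have hx : e.symm y ∈ e.source := e.map_target hy
  have hex : e (e.symm y) = y := e.right_inv hy
  have h1 : DifferentiableAt ℝ (fun z => η (e.symm z)) y :=
    ((pull_contDiffOn hη x₀).contDiffAt ((isOpen_extChartAt_target x₀).mem_nhds hy)).differentiableAt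
      (by simp)
  have h2 : MDifferentiableAt 𝓘(ℝ, E) 𝓘(ℝ, E) e (e.symm y) :=
    mdifferentiableAt_extChartAt (by rwa [extChartAt_source] at hx)
  have h3 : MDifferentiableAt 𝓘(ℝ, E) 𝓘(ℝ, ℝ) (fun z => η (e.symm z)) (e (e.symm y)) := by
    rw [hex]; exact h1.mdifferentiableAt
  have h4 := mfderiv_comp (e.symm y) h3 h2
  have h5 : ((fun z => η (e.symm z)) ∘ e) =ᶠ[𝓝 (e.symm y)] η := by
    filter_upwards [(isOpen_extChartAt_source x₀).mem_nhds hx] with x hx'
    show η (e.symm (e x)) = η x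
    rw [e.left_inv hx']
  have h6 := h5.mfderiv_eq (I := 𝓘(ℝ, E)) (I' := 𝓘(ℝ, ℝ))
  show mfderiv 𝓘(ℝ, E) 𝓘(ℝ, ℝ) η (e.symm y) (Y (e.symm y)) = _
  rw [← h6, h4]
  show mfderiv 𝓘(ℝ, E) 𝓘(ℝ, ℝ) (fun z => η (e.symm z)) (e (e.symm y)) _ = _
  rw [mfderiv_eq_fderiv, hex]
  rfl

/-- the image of the support in the chart -/
lemma image_compact [CompactSpace M] {x₀ : M} {u : M → ℝ}
    (hs : tsupport u ⊆ (extChartAt 𝓘(ℝ, E) x₀).source) :
    IsCompact (extChartAt 𝓘(ℝ, E) x₀ '' tsupport u) ∧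
      extChartAt 𝓘(ℝ, E) x₀ '' tsupport u ⊆ (extChartAt 𝓘(ℝ, E) x₀).target := by
  constructor
  · exact (isClosed_tsupport u).isCompact.image_of_continuousOn
      ((continuousOn_extChartAt x₀).mono hs)
  · rintro _ ⟨x, hx, rfl⟩
    exact (extChartAt 𝓘(ℝ, E) x₀).map_source (hs hx)

lemma zero_of_notMem {x₀ : M} {u : M → ℝ} {y : E}
    (hy : y ∈ (extChartAt 𝓘(ℝ, E) x₀).target) (h : y ∉ extChartAt 𝓘(ℝ, E) x₀ '' tsupport u) :
    u ((extChartAt 𝓘(ℝ, E) x₀).symm y) = 0 := by
  by_contra hne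
  apply h
  exact ⟨_, subset_tsupport _ hne, (extChartAt 𝓘(ℝ, E) x₀).right_inv hy⟩

open Classical in
/-- a product of a function supported in the chart and a function in the chart -/
noncomputable def push {F : Type} [NormedAddCommGroup F] [NormedSpace ℝ F] (x₀ : M) (u : M → ℝ)
    (w : E → F) (y : E) : F :=
  if y ∈ (extChartAt 𝓘(ℝ, E) x₀).target then u ((extChartAt 𝓘(ℝ, E) x₀).symm y) • w y else 0

lemma push_of_mem {F : Type} [NormedAddCommGroup F] [NormedSpace ℝ F] {x₀ : M} {u : M → ℝ}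
    {w : E → F} {y : E} (hy : y ∈ (extChartAt 𝓘(ℝ, E) x₀).target) :
    push x₀ u w y = u ((extChartAt 𝓘(ℝ, E) x₀).symm y) • w y := by
  unfold push; rw [if_pos hy]

lemma push_zero {F : Type} [NormedAddCommGroup F] [NormedSpace ℝ F] {x₀ : M} {u : M → ℝ}
    {w : E → F} {y : E} (h : y ∉ extChartAt 𝓘(ℝ, E) x₀ '' tsupport u) :
    push x₀ u w y = 0 := by
  unfold push
  split_ifs with hy
  · rw [zero_of_notMem hy h, zero_smul]
  · rfl

lemma push_contDiff [CompactSpace M] {F : Type} [NormedAddCommGroup F] [NormedSpace ℝ F]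
    {x₀ : M} {u : M → ℝ} {w : E → F} (hu : ContMDiff 𝓘(ℝ, E) 𝓘(ℝ, ℝ) ∞ u)
    (hs : tsupport u ⊆ (extChartAt 𝓘(ℝ, E) x₀).source)
    (hw : ContDiffOn ℝ ∞ w (extChartAt 𝓘(ℝ, E) x₀).target) :
    ContDiff ℝ ∞ (push x₀ u w) := by
  rw [contDiff_iff_contDiffAt]
  intro y
  by_cases hy : y ∈ (extChartAt 𝓘(ℝ, E) x₀).target
  · have ho := (isOpen_extChartAt_target (I := 𝓘(ℝ, E)) x₀).mem_nhds hy
    have h1 : ContDiffOn ℝ ∞ (fun z => u ((extChartAt 𝓘(ℝ, E) x₀).symm z) • w z)
        (extChartAt 𝓘(ℝ, E) x₀).target := (pull_contDiffOn hu x₀).smul hw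
    refine (h1.contDiffAt ho).congr_of_eventuallyEq ?_
    filter_upwards [ho] with z hz
    exact push_of_mem hz
  · have hK := (image_compact hs).1.isClosed.isOpen_compl
    have hyK : y ∈ (extChartAt 𝓘(ℝ, E) x₀ '' tsupport u)ᶜ := fun h => hy ((image_compact hs).2 h)
    refine (contDiffAt_const (c := (0 : F))).congr_of_eventuallyEq ?_
    filter_upwards [hK.mem_nhds hyK] with z hz
    exact push_zero hz

lemma push_compact [CompactSpace M] {F : Type} [NormedAddCommGroup F] [NormedSpace ℝ F]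
    {x₀ : M} {u : M → ℝ} {w : E → F}
    (hs : tsupport u ⊆ (extChartAt 𝓘(ℝ, E) x₀).source) :
    HasCompactSupport (push x₀ u w) :=
  HasCompactSupport.intro (image_compact hs).1 fun _ hy => push_zero hy

/-- the trace of the derivative of the pushed field -/
lemma trace_continuous {Z : E → E} (hZ : ContDiff ℝ ∞ Z) :
    Continuous (fun y => LinearMap.trace ℝ E (fderiv ℝ Z y)) := by
  have h1 : Continuous (fderiv ℝ Z) := hZ.continuous_fderiv (by simp)
  have h2 : Continuous ((LinearMap.trace ℝ E).comp (ContinuousLinearMap.coeLM ℝ) :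
      (E →L[ℝ] E) →ₗ[ℝ] ℝ) := LinearMap.continuous_of_finiteDimensional _
  exact h2.comp h1

variable [MeasurableSpace E] [BorelSpace E] [CompactSpace M] [MeasurableSpace M] [BorelSpace M]

/-- change of variables -/
lemma integral_chart {μ : Measure M} {x₀ : M} {g : E → ℝ} (hg : IsDensity E μ x₀ g) {f : M → ℝ}
    (hf : Continuous f) :
    ∫ x in (extChartAt 𝓘(ℝ, E) x₀).source, f x ∂μ =
      ∫ y in (extChartAt 𝓘(ℝ, E) x₀).target, g y * f ((extChartAt 𝓘(ℝ, E) x₀).symm y)
        ∂(Measure.addHaar : Measure E) := by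
  obtain ⟨hg1, hg2, hg3⟩ := hg
  set e := extChartAt 𝓘(ℝ, E) x₀ with he
  have hΩ : MeasurableSet e.target := (isOpen_extChartAt_target x₀).measurableSet
  have hS : MeasurableSet e.source := (isOpen_extChartAt_source x₀).measurableSet
  have hgm : AEMeasurable (fun y => ENNReal.ofReal (g y))
      ((Measure.addHaar : Measure E).restrict e.target) :=
    (hg1.continuousOn.aemeasurable hΩ).ennreal_ofReal
  have hsm : AEMeasurable e.symm (((Measure.addHaar : Measure E).restrict e.target).withDensity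
      (fun y => ENNReal.ofReal (g y))) :=
    ((continuousOn_extChartAt_symm x₀).aemeasurable hΩ).mono_ac
      (withDensity_absolutelyContinuous _ _)
  have hμ : μ.restrict e.source = Measure.map e.symm
      (((Measure.addHaar : Measure E).restrict e.target).withDensity
      (fun y => ENNReal.ofReal (g y))) := by
    ext A hA
    rw [Measure.restrict_apply hA, Measure.map_apply_of_aemeasurable hsm hA,
      withDensity_apply', Measure.restrict_restrict' hΩ,
      hg3 _ inter_subset_right (hA.inter hS), inter_comm A, e.image_source_inter_eq', inter_comm]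
  rw [hμ, integral_map hsm hf.aestronglyMeasurable,
    integral_withDensity_eq_integral_toReal_smul₀ hgm (by simp)]
  refine setIntegral_congr_fun hΩ fun y hy => ?_
  show (ENNReal.ofReal (g y)).toReal • f (e.symm y) = g y * f (e.symm y)
  rw [ENNReal.toReal_ofReal (hg2 y hy).le, smul_eq_mul]

/-- the local divergence -/
lemma local_div [T2Space M] (hIBP : T_IBP) {μ : Measure M} {x₀ : M} {g : E → ℝ}
    (hg : IsDensity E μ x₀ g) {Y : ∀ x : M, TangentSpace 𝓘(ℝ, E) x} (hY : IsSmoothField E Y)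
    {ρ : M → ℝ} (hρ : ContMDiff 𝓘(ℝ, E) 𝓘(ℝ, ℝ) ∞ ρ)
    (hs : tsupport ρ ⊆ (extChartAt 𝓘(ℝ, E) x₀).source) :
    ∃ D : M → ℝ, Continuous D ∧ ∀ η : M → ℝ, ContMDiff 𝓘(ℝ, E) 𝓘(ℝ, ℝ) ∞ η →
      ∫ x, (ρ x * lieD η Y x + η x * D x) ∂μ = 0 := by
  classical
  set e := extChartAt 𝓘(ℝ, E) x₀ with he
  have hΩ : IsOpen e.target := isOpen_extChartAt_target x₀
  have hS : IsOpen e.source := isOpen_extChartAt_source x₀
  have hYl : ContDiffOn ℝ ∞ (localRep E Y x₀) e.target := localRep_contDiffOn (k := ⊤) hY x₀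
  obtain ⟨Z, hZdef⟩ : ∃ Z : E → E, Z = push x₀ ρ (fun y => g y • localRep E Y x₀ y) := ⟨_, rfl⟩
  have hZ : ContDiff ℝ ∞ Z := by
    rw [hZdef]; exact push_contDiff hρ hs (hg.1.smul hYl)
  have hZc : HasCompactSupport Z := by rw [hZdef]; exact push_compact hs
  have hK := image_compact hs
  have hTc := trace_continuous hZ
  have hT0 : ∀ y, y ∉ e '' tsupport ρ → LinearMap.trace ℝ E (fderiv ℝ Z y) = 0 := by
    intro y hy
    have h1 : Z =ᶠ[𝓝 y] fun _ => 0 := by
      filter_upwards [hK.1.isClosed.isOpen_compl.mem_nhds hy] with z hz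
      rw [hZdef]; exact push_zero hz
    rw [h1.fderiv_eq]
    simp
  obtain ⟨D, hD⟩ : ∃ D : M → ℝ, D = fun x => if x ∈ e.source then
    LinearMap.trace ℝ E (fderiv ℝ Z (e x)) / g (e x) else 0 := ⟨_, rfl⟩
  have hD0 : ∀ x, x ∉ tsupport ρ → D x = 0 := by
    intro x hx
    rw [hD]
    simp only
    split_ifs with h
    · rw [hT0 (e x) ?_, zero_div]
      rintro ⟨x', hx', hxx⟩
      rw [e.injOn (hs hx') h hxx] at hx'
      exact hx hx'
    · rfl
  have hDc : Continuous D := by
    rw [continuous_iff_continuousAt]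
    intro x
    by_cases hx : x ∈ e.source
    · have h1 : ContinuousAt (fun x => LinearMap.trace ℝ E (fderiv ℝ Z (e x)) / g (e x)) x := by
        have he1 : ContinuousAt e x := (continuousOn_extChartAt x₀).continuousAt (hS.mem_nhds hx)
        have hy := e.map_source hx
        have hg1 : ContinuousAt g (e x) := hg.1.continuousOn.continuousAt (hΩ.mem_nhds hy)
        have hT1 : ContinuousAt (fun x => LinearMap.trace ℝ E (fderiv ℝ Z (e x))) x :=
          hTc.continuousAt.comp (f := e) he1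
        exact hT1.div (hg1.comp he1) (hg.2.1 _ hy).ne'
      refine h1.congr ?_
      filter_upwards [hS.mem_nhds hx] with z hz
      rw [hD]; simp only [if_pos hz]
    · have hx' : x ∈ (tsupport ρ)ᶜ := fun h => hx (hs h)
      refine (continuousAt_const (y := (0 : ℝ))).congr ?_
      filter_upwards [(isClosed_tsupport ρ).isOpen_compl.mem_nhds hx'] with z hz
      exact (hD0 z hz).symm
  refine ⟨D, hDc, fun η hη => ?_⟩
  have hfc : Continuous (fun x => ρ x * lieD η Y x + η x * D x) := by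
    have h1 : Continuous (lieD η Y) := (contMDiff_lieD hη (k := ∞) (by simp) hY).continuous
    exact (hρ.continuous.mul h1).add (hη.continuous.mul hDc)
  have hsupp : ∀ x, x ∉ e.source → ρ x * lieD η Y x + η x * D x = 0 := by
    intro x hx
    have hx' : x ∉ tsupport ρ := fun h => hx (hs h)
    rw [hD0 x hx', image_eq_zero_of_notMem_tsupport hx']
    ring
  rw [← setIntegral_eq_integral_of_forall_compl_eq_zero (s := e.source) hsupp,
    integral_chart hg hfc]
  -- the cut off
  obtain ⟨χ, hχ0, hχ1, -⟩ := exists_contMDiffMap_zero_one_nhds_of_isClosed (n := ⊤) 𝓘(ℝ, E)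
    hS.isClosed_compl (isClosed_tsupport ρ) (by
      rw [Set.disjoint_left]; intro x hx hx'; exact hx (hs hx'))
  have hχs : tsupport (fun x => χ x) ⊆ e.source := by
    intro x hx
    by_contra hxs
    rw [eventually_nhdsSet_iff_forall] at hχ0
    have h1 := hχ0 x hxs
    apply notMem_tsupport_iff_eventuallyEq.2 _ hx
    exact h1
  have hχη : ContMDiff 𝓘(ℝ, E) 𝓘(ℝ, ℝ) ∞ (fun x => χ x * η x) := χ.contMDiff.mul hη
  have hχηs : tsupport (fun x => χ x * η x) ⊆ e.source :=
    (tsupport_mul_subset_left (f := fun x => χ x) (g := η)).trans hχs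
  obtain ⟨η', hη'⟩ : ∃ η' : E → ℝ, η' = push x₀ (fun x => χ x * η x) (fun _ => (1 : ℝ)) := ⟨_, rfl⟩
  have hη's : ContDiff ℝ ∞ η' := by
    rw [hη']; exact push_contDiff hχη hχηs contDiffOn_const
  have hgerm : ∀ y ∈ e '' tsupport ρ, η' =ᶠ[𝓝 y] fun z => η (e.symm z) := by
    rintro _ ⟨x, hx, rfl⟩
    rw [eventually_nhdsSet_iff_forall] at hχ1
    have h1 := hχ1 x hx
    have hxs := hs hx
    have h2 : Tendsto e.symm (𝓝 (e x)) (𝓝 x) := by
      have := (continuousOn_extChartAt_symm (I := 𝓘(ℝ, E)) x₀).continuousAt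
        (hΩ.mem_nhds (e.map_source hxs))
      have h3 := this.tendsto
      rwa [← he, e.left_inv hxs] at h3
    filter_upwards [h2.eventually h1, hΩ.mem_nhds (e.map_source hxs)] with z hz hzΩ
    rw [hη', push_of_mem hzΩ]
    simp only [← he, hz]
    simp
  have hpt : ∀ y ∈ e.target, g y * (ρ (e.symm y) * lieD η Y (e.symm y) +
      η (e.symm y) * D (e.symm y)) = fderiv ℝ η' y (Z y) +
        η' y * LinearMap.trace ℝ E (fderiv ℝ Z y) := by
    intro y hy
    by_cases hyK : y ∈ e '' tsupport ρ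
    · have h1 := hgerm y hyK
      have h2 : D (e.symm y) = LinearMap.trace ℝ E (fderiv ℝ Z y) / g y := by
        rw [hD]
        simp only [if_pos (e.map_target hy), e.right_inv hy]
      have h3 : Z y = (g y * ρ (e.symm y)) • localRep E Y x₀ y := by
        rw [hZdef, push_of_mem hy, smul_smul, mul_comm]
      rw [h1.fderiv_eq, h1.self_of_nhds, h2, h3, map_smul, ← lieD_chart hη Y x₀ hy, smul_eq_mul, ← he]
      have := (hg.2.1 y hy).ne'
      field_simp
    · have h1 : Z y = 0 := by rw [hZdef]; exact push_zero hyK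
      have h2 := hT0 y hyK
      have h3 : ρ (e.symm y) = 0 := zero_of_notMem hy hyK
      have h4 : D (e.symm y) = 0 := by
        rw [hD]
        simp only [if_pos (e.map_target hy), e.right_inv hy, h2, zero_div]
      rw [h1, h2, h3, h4, map_zero]
      ring
  rw [setIntegral_congr_fun hΩ.measurableSet hpt]
  have hout : ∀ y, y ∉ e.target → fderiv ℝ η' y (Z y) +
        η' y * LinearMap.trace ℝ E (fderiv ℝ Z y) = 0 := by
    intro y hy
    have hyK : y ∉ e '' tsupport ρ := fun h => hy (hK.2 h)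
    have h1 : Z y = 0 := by rw [hZdef]; exact push_zero hyK
    rw [h1, hT0 y hyK, map_zero]; ring
  rw [setIntegral_eq_integral_of_forall_compl_eq_zero hout]
  have hi1 : Integrable (fun y => fderiv ℝ η' y (Z y)) (Measure.addHaar : Measure E) := by
    apply Continuous.integrable_of_hasCompactSupport
    · exact (hη's.continuous_fderiv (by simp)).clm_apply hZ.continuous
    · refine HasCompactSupport.intro hK.1 fun y hy => ?_
      have h1 : Z y = 0 := by rw [hZdef]; exact push_zero hy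
      rw [h1, map_zero]
  have hi2 : Integrable (fun y => η' y * LinearMap.trace ℝ E (fderiv ℝ Z y))
      (Measure.addHaar : Measure E) := by
    apply Continuous.integrable_of_hasCompactSupport
    · exact hη's.continuous.mul hTc
    · refine HasCompactSupport.intro hK.1 fun y hy => ?_
      rw [hT0 y hy, mul_zero]
  rw [integral_add hi1 hi2, hIBP E η' Z (hη's.of_le (by simp)) (hZ.of_le (by simp)) hZc]
  ring

end DVX_

open DVX_ in
theorem dvx1 (hIBP : T_IBP) (hVOL : T_VOL) : T_DVX := by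
  intro E _ _ _ _ _ M _ _ _ _ _ _ _ μ Y hμ hY
  classical
  obtain ⟨hfin, -, -⟩ := hVOL E M μ hμ
  obtain ⟨ρ, hρ⟩ := SmoothPartitionOfUnity.exists_isSubordinate 𝓘(ℝ, E) (s := (univ : Set M))
    isClosed_univ (fun i : M => (extChartAt 𝓘(ℝ, E) i).source)
    (fun i => isOpen_extChartAt_source i) (fun x _ => mem_iUnion.2 ⟨x, mem_extChartAt_source x⟩)
  have hfs : {i | (Function.support (ρ i)).Nonempty}.Finite :=
    ρ.locallyFinite.finite_nonempty_of_compact
  have hloc : ∀ i : M, ∃ D : M → ℝ, Continuous D ∧ ∀ η : M → ℝ,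
      ContMDiff 𝓘(ℝ, E) 𝓘(ℝ, ℝ) ∞ η →
      ∫ x, (ρ i x * lieD η Y x + η x * D x) ∂μ = 0 := by
    intro i
    obtain ⟨g, hg⟩ := hμ i
    exact local_div hIBP (g := g) hg hY (ρ i).contMDiff (hρ i)
  choose D hDc hD using hloc
  refine ⟨fun x => ∑ i ∈ hfs.toFinset, D i x, continuous_finsetSum _ fun i _ => hDc i,
    fun η hη => ?_⟩
  have hsum : ∀ x, ∑ i ∈ hfs.toFinset, ρ i x = 1 := by
    intro x
    have h1 := ρ.sum_eq_one (mem_univ x)
    rw [← h1, finsum_eq_sum_of_support_subset]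
    intro i hi
    simp only [Set.Finite.coe_toFinset, mem_ofPred_eq]
    exact ⟨x, hi⟩
  have hpt : ∀ x, lieD η Y x + η x * ∑ i ∈ hfs.toFinset, D i x =
      ∑ i ∈ hfs.toFinset, (ρ i x * lieD η Y x + η x * D i x) := by
    intro x
    rw [Finset.sum_add_distrib, ← Finset.sum_mul, hsum, one_mul, Finset.mul_sum]
  have hint : ∀ i ∈ hfs.toFinset, Integrable (fun x => ρ i x * lieD η Y x + η x * D i x) μ := by
    intro i _
    have h1 : Continuous (lieD η Y) := (contMDiff_lieD hη (k := ∞) (by simp) hY).continuous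
    have h2 : Continuous (fun x => ρ i x * lieD η Y x + η x * D i x) :=
      ((ρ i).contMDiff.continuous.mul h1).add (hη.continuous.mul (hDc i))
    exact h2.integrable_of_hasCompactSupport (HasCompactSupport.of_compactSpace _)
  calc ∫ x, (lieD η Y x + η x * ∑ i ∈ hfs.toFinset, D i x) ∂μ
      = ∫ x, ∑ i ∈ hfs.toFinset, (ρ i x * lieD η Y x + η x * D i x) ∂μ := by
        congr 1; ext x; exact hpt x
    _ = ∑ i ∈ hfs.toFinset, ∫ x, (ρ i x * lieD η Y x + η x * D i x) ∂μ :=
        integral_finsetSum _ hint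
    _ = 0 := Finset.sum_eq_zero fun i _ => hD i η hη

end Pool.Agent.PalF
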