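import Pool.Agent.PalF.Targets
import Pool.Agent.Palis.Fin
import Pool.Agent.Palis.Symp

/-!
# The dynamics of a field with a Lyapunov function near `Λ` and positive divergence elsewhere
-/

set_option autoImplicit false

open scoped Manifold ContDiff Topology
open MeasureTheory Set Filter Bundle Asymptotics Metric Pool.Agent.Palis

namespace Pool.Agent.PalF

namespace DYN_

variable {E : Type} [NormedAddCommGroup E] [NormedSpace ℝ E] [FiniteDimensional ℝ E] {M : Type} [TopologicalSpace M]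
  [ChartedSpace E M] [IsManifold 𝓘(ℝ, E) ∞ M]

theorem deriv_I {Y : ∀ x : M, TangentSpace 𝓘(ℝ, E) x} {φ : ℝ → M → M} (hφ : IsFlow E Y φ)
    {I : M → ℝ} (hI : ContMDiff 𝓘(ℝ, E) 𝓘(ℝ, ℝ) ∞ I) (x : M) (t : ℝ) :
    HasDerivAt (fun s => I (φ s x)) (lieD I Y (φ t x)) t :=
  hasDerivAt_comp_curve (hI.of_le (by norm_cast)) (hφ.curve x) t

/-- the function decreases once it is at most `c` -/
theorem le_of_le {Y : ∀ x : M, TangentSpace 𝓘(ℝ, E) x} {φ : ℝ → M → M} (hφ : IsFlow E Y φ)
    {I : M → ℝ} {Λ : Set M} {c : ℝ} (hI : ContMDiff 𝓘(ℝ, E) 𝓘(ℝ, ℝ) ∞ I)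
    (hinv : Invariant E Y Λ) (hpos : ∀ x, 0 ≤ I x) (hzero : ∀ x, I x = 0 ↔ x ∈ Λ)
    (hdec : ∀ x, 0 < I x → I x ≤ c → lieD I Y x < 0) (x : M) (s t : ℝ) (hst : s ≤ t)
    (hs : I (φ s x) ≤ c) : I (φ t x) ≤ I (φ s x) := by
  by_cases hx : φ s x ∈ Λ
  · have h1 := hinv (fun u => φ u (φ s x)) (hφ.curve (φ s x))
      (by simpa only [hφ.zero] using hx) (t - s)
    simp only [hφ.add, sub_add_cancel] at h1
    rw [(hzero _).2 h1]
    exact hpos _
  · have hne : ∀ u, φ u x ∉ Λ := by
      intro u hu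
      apply hx
      have h1 := hinv (fun w => φ w (φ u x)) (hφ.curve (φ u x))
        (by simpa only [hφ.zero] using hu) (s - u)
      simpa only [hφ.add, sub_add_cancel] using h1
    have hpos' : ∀ u, 0 < I (φ u x) := fun u =>
      lt_of_le_of_ne (hpos _) (fun h => hne u ((hzero _).1 h.symm))
    have key := image_le_of_deriv_right_lt_deriv_boundary' (f := fun u => I (φ u x))
      (f' := fun u => lieD I Y (φ u x)) (a := s) (b := t)
      (fun u _ => (deriv_I hφ hI x u).continuousAt.continuousWithinAt)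
      (fun u _ => (deriv_I hφ hI x u).hasDerivWithinAt)
      (B := fun _ => I (φ s x)) (B' := fun _ => 0) le_rfl continuousOn_const
      (fun u _ => hasDerivWithinAt_const _ _ _)
      (fun u _ hu => hdec _ (hpos' u) (by
        have hu' : I (φ u x) = I (φ s x) := hu
        rw [hu']
        exact hs))
    exact key ⟨hst, le_rfl⟩

/-- cluster points of curves that enter the region `I ≤ c` belong to `Λ` -/
theorem omega {Y : ∀ x : M, TangentSpace 𝓘(ℝ, E) x} {φ : ℝ → M → M} (hφ : IsFlow E Y φ)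
    {I : M → ℝ} {Λ : Set M} {c : ℝ} (hI : ContMDiff 𝓘(ℝ, E) 𝓘(ℝ, ℝ) ∞ I)
    (hinv : Invariant E Y Λ) (hpos : ∀ x, 0 ≤ I x) (hzero : ∀ x, I x = 0 ↔ x ∈ Λ)
    (hdec : ∀ x, 0 < I x → I x ≤ c → lieD I Y x < 0) (x : M) (s : ℝ)
    (hs : I (φ s x) ≤ c) (q : M) (hq : MapClusterPt q atTop (fun t => φ t x)) : q ∈ Λ := by
  have hφc : Continuous (fun p : ℝ × M => φ p.1 p.2) := hφ.smooth.continuous
  have hIc : Continuous I := hI.continuous
  -- the limit
  set f : ℝ → ℝ := fun t => I (φ (max t s) x) with hf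
  have hfa : Antitone f := by
    intro a b hab
    have h1 : I (φ (max a s) x) ≤ c :=
      (le_of_le hφ hI hinv hpos hzero hdec x s (max a s) (le_max_right _ _) hs).trans hs
    exact le_of_le hφ hI hinv hpos hzero hdec x (max a s) (max b s) (max_le_max_right s hab) h1
  have hbd : BddBelow (range f) := ⟨0, by
    rintro _ ⟨t, rfl⟩
    exact hpos _⟩
  obtain ⟨l, hl⟩ : ∃ l, Tendsto f atTop (𝓝 l) := ⟨_, tendsto_atTop_ciInf hfa hbd⟩
  have hl' : Tendsto (fun t => I (φ t x)) atTop (𝓝 l) := by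
    refine hl.congr' ?_
    filter_upwards [eventually_ge_atTop s] with t ht
    simp [hf, ht]
  have hlc : l ≤ c := by
    refine le_of_tendsto hl (Eventually.of_forall fun t => ?_)
    exact (le_of_le hφ hI hinv hpos hzero hdec x s (max t s) (le_max_right _ _) hs).trans hs
  have hval : ∀ u : ℝ, I (φ u q) = l := by
    intro u
    have h1 : MapClusterPt (I (φ u q)) atTop (fun t => I (φ u (φ t x))) := by
      have h2 : ContinuousAt (fun y => I (φ u y)) q := by
        have h3 : Continuous (fun y => I (φ u y)) :=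
          hIc.comp (hφc.comp (continuous_const.prodMk continuous_id))
        exact h3.continuousAt
      exact MapClusterPt.continuousAt_comp (f := fun y => I (φ u y)) h2 hq
    have h2 : Tendsto (fun t => I (φ u (φ t x))) atTop (𝓝 l) := by
      have h3 := hl'.comp (tendsto_atTop_add_const_left atTop u tendsto_id)
      refine h3.congr fun t => ?_
      simp [hφ.add]
    exact eq_of_nhds_neBot (ClusterPt.mono h1 h2)
  have hq0 : I q = l := by
    have := hval 0
    rwa [hφ.zero] at this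
  by_contra hqΛ
  have hqpos : 0 < I q := lt_of_le_of_ne (hpos q) (fun h => hqΛ ((hzero q).1 h.symm))
  have h1 := hdec q hqpos (hq0 ▸ hlc)
  have h2 := deriv_I hφ hI q 0
  rw [hφ.zero] at h2
  have h3 : (fun u => I (φ u q)) = fun _ => l := funext hval
  rw [h3] at h2
  have h4 := h2.unique (hasDerivAt_const 0 l)
  rw [h4] at h1
  exact lt_irrefl _ h1

end DYN_

open DYN_ in
theorem dyn1 (h1 : T_FLM) (h2 : T_VOL) (h3 : T_NUL) : T_DYN := by
  intro E _ _ _ _ _ M _ _ _ _ _ _ _ μ Y D Λ I c hμ hY hD hne hinv htr hI hpos hzero hc hdec hdiv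
  obtain ⟨φ, hφ⟩ := h1 E M Y hY
  obtain ⟨hfin, -, hnull⟩ := h2 E M μ hμ
  have hφc : Continuous (fun p : ℝ × M => φ p.1 p.2) := hφ.smooth.continuous
  have hIc : Continuous I := hI.continuous
  have hY1 : ContMDiff 𝓘(ℝ, E) 𝓘(ℝ, E).tangent 1
      (fun x => (⟨x, Y x⟩ : TangentBundle 𝓘(ℝ, E) M)) := hY.of_le (by norm_cast)
  -- points that enter the region belong to the basin
  have hbasin : ∀ (x : M) (s : ℝ), I (φ s x) ≤ c → x ∈ basin E Y Λ := by
    intro x s hs
    refine ⟨⟨fun t => φ t x, hφ.zero x, hφ.curve x⟩, ?_⟩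
    rintro q ⟨γ, hγ0, hγ, hq⟩
    have h4 : γ = fun t => φ t x :=
      curve_unique hY1 hγ (hφ.curve x) (by rw [hγ0, hφ.zero])
    rw [h4] at hq
    exact omega hφ hI hinv hpos hzero hdec x s hs q hq
  set L : Set M := {x | ∀ t, 0 ≤ t → c ≤ I (φ t x)} with hL
  have hLc : IsClosed L := by
    have h4 : L = ⋂ t : ℝ, ⋂ _ : 0 ≤ t, {x | c ≤ I (φ t x)} := by
      ext x
      simp [hL]
    rw [h4]
    refine isClosed_iInter fun t => isClosed_iInter fun _ => ?_
    exact isClosed_le continuous_const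
      (hIc.comp (hφc.comp (continuous_const.prodMk continuous_id)))
  have hLinv : ∀ t, ∀ x ∈ L, φ t x ∈ L := by
    intro t x hx u hu
    rw [hφ.add]
    by_cases h5 : 0 ≤ u + t
    · exact hx _ h5
    · by_contra h6
      have h7 := lt_of_not_ge h6
      have h8 := le_of_le hφ hI hinv hpos hzero hdec x (u + t) 0 (le_of_not_ge h5) h7.le
      have h9 := hx 0 le_rfl
      linarith
  have hLD : ∀ x ∈ L, 0 < D x := by
    intro x hx
    refine hdiv x ?_
    have := hx 0 le_rfl
    rwa [hφ.zero] at this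
  have hLμ : μ L = 0 := h3 E M μ Y D φ L hY hD hφ hLc hLinv hLD
  have hcompl : (basin E Y Λ)ᶜ ⊆ L := by
    intro x hx t ht
    by_contra h6
    exact hx (hbasin x t (lt_of_not_ge h6).le)
  refine ⟨⟨hinv, htr, ?_⟩, null_mono hcompl (hnull L hLμ)⟩
  intro hn
  have hopen : IsOpen {x | I x < c} := isOpen_lt hIc continuous_const
  obtain ⟨p, hp⟩ := hne
  refine not_null_of_isOpen (E := E) hopen ⟨p, ?_⟩ (null_mono ?_ hn)
  · show I p < c
    rw [(hzero p).2 hp]
    exact hc
  · intro x hx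
    refine hbasin x 0 ?_
    rw [hφ.zero]
    exact le_of_lt hx

end Pool.Agent.PalF
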