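import Mathlib
import Pool.Agent.Palis.Defs

/-!
# Conservative vector fields with a non-hyperbolic closed orbit: statement level definitions
-/

set_option autoImplicit false

open scoped Manifold ContDiff Topology
open MeasureTheory Set Filter Bundle Pool.Agent.Palis

namespace Pool.Agent.PalF

section Defs

variable (E : Type) [NormedAddCommGroup E] [NormedSpace ℝ E] {M : Type} [TopologicalSpace M]
  [ChartedSpace E M]

/-- `μ` is a smooth volume on `M`: in every preferred chart it has a smooth positive density. -/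
def IsSmoothVolume [FiniteDimensional ℝ E] [MeasurableSpace E] [BorelSpace E] [MeasurableSpace M]
    (μ : Measure M) : Prop :=
  ∀ x₀ : M, ∃ g : E → ℝ, ContDiffOn ℝ ∞ g (extChartAt 𝓘(ℝ, E) x₀).target ∧
    (∀ y ∈ (extChartAt 𝓘(ℝ, E) x₀).target, 0 < g y) ∧
    ∀ A ⊆ (extChartAt 𝓘(ℝ, E) x₀).source, MeasurableSet A →
      μ A = ∫⁻ y in extChartAt 𝓘(ℝ, E) x₀ '' A, ENNReal.ofReal (g y) ∂Measure.addHaar

/-- `X` is divergence free with respect to the volume `μ`: the derivatives of smooth functions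
along `X` have integral zero. -/
def DivFree [MeasurableSpace M] (μ : Measure M) (X : ∀ x : M, TangentSpace 𝓘(ℝ, E) x) : Prop :=
  ∀ η : M → ℝ, ContMDiff 𝓘(ℝ, E) 𝓘(ℝ, ℝ) ∞ η → ∫ x, diff E η x (X x) ∂μ = 0

/-- `Λ` is an attractor of the flow of `Y` whose basin has full measure. -/
def AttractsAlmostAll [FiniteDimensional ℝ E] [MeasurableSpace E] [BorelSpace E]
    (Y : ∀ x : M, TangentSpace 𝓘(ℝ, E) x) (Λ : Set M) : Prop :=
  IsAttractor E Y Λ ∧ Null E (basin E Y Λ)ᶜ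

/-- `γ` is a closed orbit of `X` of minimal period `τ`. -/
def IsClosedOrbit (X : ∀ x : M, TangentSpace 𝓘(ℝ, E) x) (γ : ℝ → M) (τ : ℝ) : Prop :=
  IsMIntegralCurve γ X ∧ X (γ 0) ≠ 0 ∧ 0 < τ ∧ γ τ = γ 0 ∧ ∀ t, 0 < t → t < τ → γ t ≠ γ 0

/-- `F` is the time `τ` map of the flow of `X`. -/
def IsTimeMap (X : ∀ x : M, TangentSpace 𝓘(ℝ, E) x) (τ : ℝ) (F : M → M) : Prop :=
  ∀ x, ∃ c : ℝ → M, IsMIntegralCurve c X ∧ c 0 = x ∧ c τ = F x

/-- The value of the field `X` at `p` as a vector of the model space (the tangent space at `p` is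
identified with the model space by the preferred chart at `p`). -/
def val (X : ∀ x : M, TangentSpace 𝓘(ℝ, E) x) (p : M) : E := X p

/-- The derivative at `p` of a map `F` with `F p = p`, as a linear map of the model space. -/
noncomputable def der (F : M → M) (p : M) : E →L[ℝ] E := mfderiv 𝓘(ℝ, E) 𝓘(ℝ, E) F p

/-- The derivative `A` of the time `τ` map at `p = γ 0` acts on the tangent space modulo the
direction of `X`; this action (the linear Poincaré map) has no real eigenvalue (the orbit is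
elliptic) or only the eigenvalue `1` or only the eigenvalue `-1` (it is parabolic). -/
def NonHyperbolic (X : ∀ x : M, TangentSpace 𝓘(ℝ, E) x) (γ : ℝ → M) (τ : ℝ) : Prop :=
  ∃ (F : M → M) (c : ℝ), IsTimeMap E X τ F ∧ (c = 1 ∨ c = -1) ∧ ∀ (v : E) (a b : ℝ),
    (∀ d : ℝ, v ≠ d • val E X (γ 0)) → der E F (γ 0) v = a • v + b • val E X (γ 0) → a = c

/-- `I` is a smooth function that vanishes on `Λ` and grows at least like the square of the
distance from `Λ` near `Λ`. -/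
def QuadMin (I : M → ℝ) (Λ : Set M) : Prop :=
  ContMDiff 𝓘(ℝ, E) 𝓘(ℝ, ℝ) ∞ I ∧ ∀ q ∈ Λ, I q = 0 ∧ ∃ b > (0 : ℝ), ∀ᶠ x in 𝓝 q,
    b * Metric.infDist (extChartAt 𝓘(ℝ, E) q x)
      (extChartAt 𝓘(ℝ, E) q '' (Λ ∩ (extChartAt 𝓘(ℝ, E) q).source)) ^ 2 ≤ I x

/-- The derivative of `I` along `X` is `o(I ^ ((r + 1) / 2))` near `Λ`. -/
def AlmostInvariant (r : ℕ) (X : ∀ x : M, TangentSpace 𝓘(ℝ, E) x) (I : M → ℝ) (Λ : Set M) :
    Prop :=
  ∀ ε > (0 : ℝ), ∀ᶠ x in 𝓝ˢ Λ, |diff E I x (X x)| ≤ ε * |I x| ^ (((r : ℝ) + 1) / 2)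

variable (M) in
/-- A `C^∞` field as an element of the space of `C^r` fields. -/
noncomputable def toCr [IsManifold 𝓘(ℝ, E) ∞ M] (r : ℕ∞) (X : VField E M ⊤) : VField E M r :=
  ⟨X, X.contMDiff.of_le (by exact_mod_cast (le_top : r ≤ ⊤))⟩

/-- The field `Y` is of class `C^∞`. -/
def IsSmoothField [IsManifold 𝓘(ℝ, E) ∞ M] (Y : ∀ x : M, TangentSpace 𝓘(ℝ, E) x) : Prop :=
  ContMDiff 𝓘(ℝ, E) 𝓘(ℝ, E).tangent ∞ (fun x => (⟨x, Y x⟩ : TangentBundle 𝓘(ℝ, E) M))

end Defs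

end Pool.Agent.PalF
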