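import Pool.Agent.PalF.Targets

/-!
# Fields with positive divergence off an open set
-/

set_option autoImplicit false

open scoped Manifold ContDiff Topology
open MeasureTheory Set Filter Bundle Asymptotics Metric Pool.Agent.Palis

namespace Pool.Agent.PalF

namespace EXP_

set_option linter.unusedSectionVars false

variable {E : Type} [NormedAddCommGroup E] [NormedSpace ℝ E] [FiniteDimensional ℝ E]
  [MeasurableSpace E] [BorelSpace E] {M : Type} [TopologicalSpace M] [ChartedSpace E M]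
  [IsManifold 𝓘(ℝ, E) ∞ M] [T2Space M] [CompactSpace M] [MeasurableSpace M] [BorelSpace M]

/-- the divergence vanishes where the field vanishes locally -/
theorem div_zero_of_eventually (hV : T_DVF) {μ : Measure M} (hμ : IsSmoothVolume E μ)
    {R : ∀ x : M, TangentSpace 𝓘(ℝ, E) x} {D : M → ℝ} (hR : IsSmoothField E R)
    (hD : HasDiv E μ R D) {x : M} (hx : ∀ᶠ z in 𝓝 x, R z = 0) : D x = 0 := by
  obtain ⟨g, hg⟩ := hμ x
  have hmem := mem_extChartAt_target (I := 𝓘(ℝ, E)) x
  have h1 := hV E M μ R D x g hμ hR hD hg _ hmem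
  rw [(extChartAt 𝓘(ℝ, E) x).left_inv (mem_extChartAt_source x)] at h1
  have h2 : (fun z => g z • localRep E R x z) =ᶠ[𝓝 (extChartAt 𝓘(ℝ, E) x x)] fun _ => 0 := by
    have hc : Tendsto (extChartAt 𝓘(ℝ, E) x).symm (𝓝 (extChartAt 𝓘(ℝ, E) x x)) (𝓝 x) := by
      have := (continuousAt_extChartAt_symm (I := 𝓘(ℝ, E)) x).tendsto
      rwa [(extChartAt 𝓘(ℝ, E) x).left_inv (mem_extChartAt_source x)] at this
    filter_upwards [hc.eventually hx] with z hz
    have h3 : localRep E R x z = 0 := by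
      rw [localRep, hz]
      exact map_zero _
    rw [h3, smul_zero]
  rw [h2.fderiv_eq] at h1
  have h3 : fderiv ℝ (fun _ : E => (0 : E)) (extChartAt 𝓘(ℝ, E) x x) = 0 := by simp
  rw [h3] at h1
  have h4 : 0 < g (extChartAt 𝓘(ℝ, E) x x) := hg.2.1 _ hmem
  have h5 : D x * g (extChartAt 𝓘(ℝ, E) x x) = 0 := by
    rw [h1]
    simp
  exact (mul_eq_zero.1 h5).resolve_right h4.ne'

/-- a local transport field -/
theorem local_field (hP : T_PUL) (hV : T_DVF) (hX : T_DVX) (hT : T_TRV) {μ : Measure M}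
    (hμ : IsSmoothVolume E μ) (x₀ : M) (g : E → ℝ) (hg : IsDensity E μ x₀ g) (y₀ y₁ : E) (s : ℝ)
    (hs : 0 < s)
    (hseg : cthickening s (segment ℝ y₀ y₁) ⊆ (extChartAt 𝓘(ℝ, E) x₀).target) :
    ∃ (R : ∀ x : M, TangentSpace 𝓘(ℝ, E) x) (D : M → ℝ) (β : E → ℝ), IsSmoothField E R ∧
      HasDiv E μ R D ∧ Continuous β ∧ (∀ y, 0 ≤ β y) ∧ 0 < β 0 ∧ (∀ y, s ≤ ‖y‖ → β y = 0) ∧
      (∀ y ∈ (extChartAt 𝓘(ℝ, E) x₀).target,
        D ((extChartAt 𝓘(ℝ, E) x₀).symm y) * g y = β (y - y₀) - β (y - y₁)) ∧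
      ∀ x, (x ∉ (extChartAt 𝓘(ℝ, E) x₀).source ∨
        extChartAt 𝓘(ℝ, E) x₀ x ∉ cthickening s (segment ℝ y₀ y₁)) → R x = 0 ∧ D x = 0 := by
  obtain ⟨Z, β, hZ, hZc, hZs, hβ, hβ0, hβ1, hβ2, htr⟩ := hT E y₀ y₁ s hs
  have hopen : IsOpen (extChartAt 𝓘(ℝ, E) x₀).target := isOpen_extChartAt_target x₀
  have hZt : tsupport Z ⊆ (extChartAt 𝓘(ℝ, E) x₀).target := hZs.trans hseg
  let W : E → E := fun y => (g y)⁻¹ • Z y
  have hWs : tsupport W ⊆ tsupport Z := tsupport_smul_subset_right _ _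
  have hW : ContDiff ℝ ∞ W := by
    rw [contDiff_iff_contDiffAt]
    intro y
    by_cases hy : y ∈ (extChartAt 𝓘(ℝ, E) x₀).target
    · have h1 : ContDiffAt ℝ ∞ g y := hg.1.contDiffAt (hopen.mem_nhds hy)
      exact (h1.inv (hg.2.1 y hy).ne').smul hZ.contDiffAt
    · have h1 : y ∉ tsupport Z := fun h => hy (hZt h)
      have h2 : W =ᶠ[𝓝 y] fun _ => 0 := by
        filter_upwards [(isClosed_tsupport _).isOpen_compl.mem_nhds h1] with z hz
        have : Z z = 0 := image_eq_zero_of_notMem_tsupport hz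
        simp [W, this]
      exact contDiffAt_const.congr_of_eventuallyEq h2
  have hWc : HasCompactSupport W := hZc.of_isClosed_subset (isClosed_tsupport _) hWs
  obtain ⟨R, hR, hR1, hR2⟩ := hP E M E (chartAt E x₀) W contMDiffOn_chart contMDiffOn_chart_symm
    hW hWc (by
      have := hWs.trans hZt
      simpa using this)
  obtain ⟨D, hD⟩ := hX E M μ R hμ hR
  have hloc : ∀ y ∈ (extChartAt 𝓘(ℝ, E) x₀).target, localRep E R x₀ y = W y := by
    intro y hy
    have h1 : (extChartAt 𝓘(ℝ, E) x₀).symm y ∈ (chartAt E x₀).source := by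
      have := (extChartAt 𝓘(ℝ, E) x₀).map_target hy
      rwa [extChartAt_source] at this
    have h2 := hR1 _ h1
    have h3 : (chartAt E x₀) ((extChartAt 𝓘(ℝ, E) x₀).symm y) = y :=
      (extChartAt 𝓘(ℝ, E) x₀).right_inv hy
    rw [h3] at h2
    exact h2
  refine ⟨R, D, β, hR, hD, hβ.continuous, hβ0, hβ1, hβ2, ?_, ?_⟩
  · intro y hy
    rw [hV E M μ R D x₀ g hμ hR hD hg y hy, ← htr y]
    congr 2
    apply Filter.EventuallyEq.fderiv_eq
    filter_upwards [hopen.mem_nhds hy] with z hz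
    rw [hloc z hz]
    simp only [W]
    rw [smul_inv_smul₀ (hg.2.1 z hz).ne']
  · intro x hx
    have hS : IsClosed ((extChartAt 𝓘(ℝ, E) x₀).symm '' tsupport W) := by
      refine IsCompact.isClosed ?_
      refine IsCompact.image_of_continuousOn hWc.isCompact ?_
      exact (continuousOn_extChartAt_symm (I := 𝓘(ℝ, E)) x₀).mono (hWs.trans hZt)
    have hxS : x ∉ (extChartAt 𝓘(ℝ, E) x₀).symm '' tsupport W := by
      rintro ⟨y, hy, rfl⟩
      have hyt : y ∈ (extChartAt 𝓘(ℝ, E) x₀).target := hZt (hWs hy)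
      rcases hx with h | h
      · exact h ((extChartAt 𝓘(ℝ, E) x₀).map_target hyt)
      · rw [(extChartAt 𝓘(ℝ, E) x₀).right_inv hyt] at h
        exact h (hZs (hWs hy))
    have hR0 : ∀ z, z ∉ (extChartAt 𝓘(ℝ, E) x₀).symm '' tsupport W → R z = 0 := by
      intro z hz
      apply hR2
      by_contra hcon
      push Not at hcon
      apply hz
      have hzs : z ∈ (extChartAt 𝓘(ℝ, E) x₀).source := by
        rw [extChartAt_source]
        exact hcon.1
      exact ⟨extChartAt 𝓘(ℝ, E) x₀ z, hcon.2, (extChartAt 𝓘(ℝ, E) x₀).left_inv hzs⟩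
    refine ⟨hR0 x hxS, ?_⟩
    refine div_zero_of_eventually hV hμ hR hD ?_
    filter_upwards [hS.isOpen_compl.mem_nhds hxS] with z hz
    exact hR0 z hz

/-- admissible pairs -/
def Adm (μ : Measure M) (A O : Set M) (R : ∀ x : M, TangentSpace 𝓘(ℝ, E) x) (D : M → ℝ) :
    Prop :=
  IsSmoothField E R ∧ HasDiv E μ R D ∧ (∀ x ∈ A, R x = 0) ∧ ∀ x, x ∉ O → 0 ≤ D x

/-- good points -/
def Good (E : Type) [NormedAddCommGroup E] [NormedSpace ℝ E] [FiniteDimensional ℝ E]
    [MeasurableSpace E] [BorelSpace E] {M : Type} [TopologicalSpace M] [ChartedSpace E M]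
    [IsManifold 𝓘(ℝ, E) ∞ M] [MeasurableSpace M]
    (μ : Measure M) (A O : Set M) : Set M :=
  {x | ∃ (R : ∀ x : M, TangentSpace 𝓘(ℝ, E) x) (D : M → ℝ), Adm μ A O R D ∧ 0 < D x}

theorem smooth_const_smul (hR : T_DVR) {μ : Measure M} [IsFiniteMeasure μ]
    {Y : ∀ x : M, TangentSpace 𝓘(ℝ, E) x} {D : M → ℝ} (hY : IsSmoothField E Y)
    (hD : HasDiv E μ Y D) (c : ℝ) :
    IsSmoothField E (fun x => c • Y x) ∧ HasDiv E μ (fun x => c • Y x) (fun x => c * D x) := by
  have h1 := (hR E M μ Y Y D D hY hY hD hD).2.2 (fun _ => c) contMDiff_const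
  refine ⟨h1.1, ?_⟩
  have h2 : ∀ x, lieD (fun _ : M => c) Y x = 0 := by
    intro x
    rw [lieD, mfderiv_const]
    rfl
  simpa only [h2, add_zero] using h1.2

theorem adm_add (hR : T_DVR) {μ : Measure M} [IsFiniteMeasure μ] {A O : Set M}
    {Y Z : ∀ x : M, TangentSpace 𝓘(ℝ, E) x} {D D' : M → ℝ} (h1 : Adm μ A O Y D)
    (h2 : Adm μ A O Z D') : Adm μ A O (fun x => Y x + Z x) (fun x => D x + D' x) := by
  have h3 := hR E M μ Y Z D D' h1.1 h2.1 h1.2.1 h2.2.1
  refine ⟨h3.1, h3.2.1, fun x hx => ?_, fun x hx => add_nonneg (h1.2.2.2 x hx) (h2.2.2.2 x hx)⟩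
  show Y x + Z x = 0
  rw [h1.2.2.1 x hx, h2.2.2.1 x hx]
  exact add_zero _

theorem isOpen_good {μ : Measure M} {A O : Set M} : IsOpen (Good E μ A O) := by
  rw [isOpen_iff_mem_nhds]
  rintro x ⟨R, D, h1, h2⟩
  filter_upwards [h1.2.1.1.continuousAt.eventually (lt_mem_nhds h2)] with z hz
  exact ⟨R, D, h1, hz⟩

theorem cthick_sub {y₀ y₁ : E} {r s : ℝ} (hy : ‖y₁ - y₀‖ < r) (hs0 : 0 < s) (hs : s ≤ r) :
    cthickening s (segment ℝ y₀ y₁) ⊆ closedBall y₀ (2 * r) := by
  have h1 : segment ℝ y₀ y₁ ⊆ closedBall y₀ r := by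
    refine (convex_closedBall y₀ r).segment_subset ?_ ?_
    · exact mem_closedBall_self (by linarith)
    · rw [mem_closedBall, dist_eq_norm]
      exact hy.le
  intro z hz
  have hc : IsCompact (segment ℝ y₀ y₁) := by
    rw [segment_eq_image_lineMap]
    exact isCompact_Icc.image (AffineMap.lineMap_continuous)
  rw [hc.cthickening_eq_biUnion_closedBall hs0.le] at hz
  simp only [mem_iUnion, exists_prop] at hz
  obtain ⟨w, hw, hz⟩ := hz
  have h2 := h1 hw
  rw [mem_closedBall] at h2 hz ⊢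
  have := dist_triangle z w y₀
  linarith

/-- points of `O` off `A` are good -/
theorem good_of_mem (hP : T_PUL) (hV : T_DVF) (hX : T_DVX) (hT : T_TRV)
    {μ : Measure M} (hμ : IsSmoothVolume E μ) {A O : Set M} (hA : IsClosed A) (hO : IsOpen O)
    [Nontrivial E] {x : M} (hx : x ∈ O) (hxA : x ∉ A) : x ∈ Good E μ A O := by
  obtain ⟨g, hg⟩ := hμ x
  set e := extChartAt 𝓘(ℝ, E) x with he
  have hc : Tendsto e.symm (𝓝 (e x)) (𝓝 x) := by
    have := (continuousAt_extChartAt_symm (I := 𝓘(ℝ, E)) x).tendsto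
    rwa [(extChartAt 𝓘(ℝ, E) x).left_inv (mem_extChartAt_source x)] at this
  have h1 : ∀ᶠ y in 𝓝 (e x), y ∈ e.target ∧ e.symm y ∈ O ∧ e.symm y ∉ A := by
    refine Filter.Eventually.and ((isOpen_extChartAt_target (I := 𝓘(ℝ, E)) x).mem_nhds
      (mem_extChartAt_target x)) ?_
    exact hc.eventually (Filter.Eventually.and (hO.mem_nhds hx) (hA.isOpen_compl.mem_nhds hxA))
  obtain ⟨r, hr, hr1⟩ := Metric.nhds_basis_closedBall.mem_iff.1 h1
  obtain ⟨v, hv⟩ := exists_ne (0 : E)
  have hv0 : 0 < ‖v‖ := norm_pos_iff.2 hv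
  set y₁ : E := e x + (r / 4 / ‖v‖) • v with hy₁
  have hd : ‖y₁ - e x‖ = r / 4 := by
    rw [hy₁, add_sub_cancel_left, norm_smul, Real.norm_of_nonneg (by positivity)]
    field_simp
  have hseg : cthickening (r / 4) (segment ℝ (e x) y₁) ⊆ closedBall (e x) r := by
    have := cthick_sub (y₀ := e x) (y₁ := y₁) (r := r / 2) (s := r / 4) (by rw [hd]; linarith)
      (by positivity) (by linarith)
    rwa [mul_div_cancel₀ r two_ne_zero] at this
  obtain ⟨R, D, β, hR, hD, -, hβ0, hβ1, hβ2, hDf, hz⟩ := local_field hP hV hX hT hμ x g hg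
    (e x) y₁ (r / 4) (by positivity) (fun y hy => (hr1 (hseg hy)).1)
  have hxt : e x ∈ e.target := mem_extChartAt_target x
  refine ⟨R, D, ⟨hR, hD, ?_, ?_⟩, ?_⟩
  · intro z hzA
    refine (hz z ?_).1
    by_contra hcon
    push Not at hcon
    have h2 := (hr1 (hseg hcon.2)).2.2
    rw [e.left_inv hcon.1] at h2
    exact h2 hzA
  · intro z hzO
    refine (hz z ?_).2.ge
    by_contra hcon
    push Not at hcon
    have h2 := (hr1 (hseg hcon.2)).2.1
    rw [e.left_inv hcon.1] at h2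
    exact hzO h2
  · have h2 := hDf (e x) hxt
    have h3 : β (e x - y₁) = 0 := hβ2 _ (by rw [norm_sub_rev, hd])
    rw [e.left_inv (mem_extChartAt_source x), sub_self, h3, sub_zero] at h2
    have h4 := hg.2.1 _ hxt
    by_contra hcon
    rw [not_lt] at hcon
    have := mul_nonpos_of_nonpos_of_nonneg hcon h4.le
    linarith

/-- limits of good points are good -/
theorem good_of_closure (hV0 : T_VOL) (hP : T_PUL) (hV : T_DVF) (hX : T_DVX) (hR : T_DVR)
    (hT : T_TRV) {μ : Measure M} (hμ : IsSmoothVolume E μ) {A O : Set M} (hA : IsClosed A)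
    (hO : IsOpen O) (hAO : A ⊆ O) {x : M} (hx : x ∈ closure (O ∪ Good E μ A O)) (hxO : x ∉ O) :
    x ∈ Good E μ A O := by
  have := (hV0 E M μ hμ).1
  have hxA : x ∉ A := fun h => hxO (hAO h)
  obtain ⟨g, hg⟩ := hμ x
  set e := extChartAt 𝓘(ℝ, E) x with he
  have hxt : e x ∈ e.target := mem_extChartAt_target x
  have hxs : x ∈ e.source := mem_extChartAt_source x
  have hc : Tendsto e.symm (𝓝 (e x)) (𝓝 x) := by
    have := (continuousAt_extChartAt_symm (I := 𝓘(ℝ, E)) x).tendsto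
    rwa [(extChartAt 𝓘(ℝ, E) x).left_inv (mem_extChartAt_source x)] at this
  have h1 : ∀ᶠ y in 𝓝 (e x), y ∈ e.target ∧ e.symm y ∉ A := by
    refine Filter.Eventually.and ((isOpen_extChartAt_target (I := 𝓘(ℝ, E)) x).mem_nhds
      (mem_extChartAt_target x)) ?_
    exact hc.eventually (hA.isOpen_compl.mem_nhds hxA)
  obtain ⟨r, hr, hr1⟩ := Metric.nhds_basis_closedBall.mem_iff.1 h1
  -- a nearby point
  have h2 : ∀ᶠ z in 𝓝 x, z ∈ e.source ∧ e z ∈ ball (e x) (r / 2) ∧ z ∉ A := by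
    refine Filter.Eventually.and (extChartAt_source_mem_nhds (I := 𝓘(ℝ, E)) x) ?_
    exact ((continuousAt_extChartAt x).eventually_mem (ball_mem_nhds _ (by positivity))).and
      (hA.isOpen_compl.mem_nhds hxA)
  obtain ⟨x', hx', ⟨hx's, hx'b, hx'A⟩⟩ := (mem_closure_iff_frequently.1 hx).and_eventually h2
    |>.exists
  by_cases hxx : e x' = e x
  · have : x' = x := by rw [← e.left_inv hx's, hxx, e.left_inv hxs]
    rw [this] at hx'
    exact hx'.resolve_left hxO
  have hnt : Nontrivial E := ⟨e x', e x, hxx⟩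
  have hgood : x' ∈ Good E μ A O := by
    rcases hx' with h | h
    · exact good_of_mem hP hV hX hT hμ hA hO h hx'A
    · exact h
  obtain ⟨R', D', hadm, hD'⟩ := hgood
  have hyy : 0 < ‖e x' - e x‖ := norm_pos_iff.2 (sub_ne_zero.2 hxx)
  rw [mem_ball, dist_eq_norm] at hx'b
  -- the radius
  have hx't : e x' ∈ e.target := e.map_source hx's
  have h3 : ∀ᶠ y in 𝓝 (e x'), y ∈ e.target ∧ D' x' / 2 < D' (e.symm y) := by
    refine Filter.Eventually.and
      ((isOpen_extChartAt_target (I := 𝓘(ℝ, E)) x).mem_nhds hx't) ?_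
    have h4 : ContinuousAt (fun y => D' (e.symm y)) (e x') := by
      refine hadm.2.1.1.continuousAt.comp ?_
      exact (continuousOn_extChartAt_symm x).continuousAt
        ((isOpen_extChartAt_target (I := 𝓘(ℝ, E)) x).mem_nhds hx't)
    refine h4.eventually (lt_mem_nhds ?_)
    show D' x' / 2 < D' (e.symm (e x'))
    rw [e.left_inv hx's]
    linarith
  obtain ⟨s', hs', hs1⟩ := Metric.nhds_basis_closedBall.mem_iff.1 h3
  set s : ℝ := min (min s' (r / 2)) ‖e x' - e x‖ with hs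
  have hs0 : 0 < s := lt_min (lt_min hs' (by positivity)) hyy
  have hss' : s ≤ s' := (min_le_left _ _).trans (min_le_left _ _)
  have hsr : s ≤ r / 2 := (min_le_left _ _).trans (min_le_right _ _)
  have hsy : s ≤ ‖e x' - e x‖ := min_le_right _ _
  have hseg : cthickening s (segment ℝ (e x) (e x')) ⊆ closedBall (e x) r := by
    have := cthick_sub (y₀ := e x) (y₁ := e x') (r := r / 2) (s := s) hx'b hs0 hsr
    rwa [mul_div_cancel₀ r two_ne_zero] at this
  obtain ⟨R, D, β, hR0, hD, hβc, hβ0, hβ1, hβ2, hDf, hz⟩ := local_field hP hV hX hT hμ x g hg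
    (e x) (e x') s hs0 (fun y hy => (hr1 (hseg hy)).1)
  -- bounds on the ball
  have hK : IsCompact (closedBall (e x') s) := isCompact_closedBall _ _
  have hKt : closedBall (e x') s ⊆ e.target := fun y hy =>
    (hs1 (closedBall_subset_closedBall hss' hy)).1
  have hcont : ContinuousOn (fun y => β (y - e x') / g y) (closedBall (e x') s) := by
    refine ContinuousOn.div ?_ (hg.1.continuousOn.mono hKt) fun y hy => (hg.2.1 y (hKt hy)).ne'
    exact (hβc.comp (continuous_id.sub continuous_const)).continuousOn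
  obtain ⟨B, hB⟩ := hK.exists_bound_of_continuousOn hcont
  set c : ℝ := 2 * |B| / D' x' with hcdef
  have hc0 : 0 ≤ c := by positivity
  obtain ⟨k1, k2⟩ := smooth_const_smul hR hadm.1 hadm.2.1 c
  have k3 := hR E M μ R (fun x => c • R' x) D (fun x => c * D' x) hR0 k1 hD k2
  -- lower bound for the divergence
  have key : ∀ z, z ∉ O → 0 ≤ D z + c * D' z := by
    intro z hzO
    have hcD : 0 ≤ c * D' z := mul_nonneg hc0 (hadm.2.2.2 z hzO)
    by_cases hzs : z ∈ e.source
    · have hzt : e z ∈ e.target := e.map_source hzs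
      have h5 := hDf (e z) hzt
      rw [e.left_inv hzs] at h5
      have h6 := hg.2.1 _ hzt
      have h7 : D z = (β (e z - e x) - β (e z - e x')) / g (e z) := by
        rw [← h5]
        field_simp
      by_cases hzb : e z ∈ closedBall (e x') s
      · have h8 := hB _ hzb
        have h9 := (hs1 (closedBall_subset_closedBall hss' hzb)).2
        rw [e.left_inv hzs] at h9
        have h10 : |B| ≤ c * D' z := by
          calc |B| = c * (D' x' / 2) := by
                rw [hcdef]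
                field_simp
            _ ≤ c * D' z := mul_le_mul_of_nonneg_left h9.le hc0
        have h11 : β (e z - e x') / g (e z) ≤ |B| :=
          (le_abs_self _).trans ((Real.norm_eq_abs _ ▸ h8).trans (le_abs_self B))
        have h12 : 0 ≤ β (e z - e x) / g (e z) := div_nonneg (hβ0 _) h6.le
        rw [h7, sub_div]
        linarith
      · have h8 : β (e z - e x') = 0 := by
          apply hβ2
          rw [mem_closedBall, dist_eq_norm, not_le] at hzb
          exact hzb.le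
        have h12 : 0 ≤ β (e z - e x) / g (e z) := div_nonneg (hβ0 _) h6.le
        rw [h7, h8, sub_zero]
        linarith
    · rw [(hz z (Or.inl hzs)).2, zero_add]
      exact hcD
  refine ⟨_, _, ⟨k3.1, k3.2.1, ?_, key⟩, ?_⟩
  · intro z hzA
    have h5 : R z = 0 := by
      refine (hz z ?_).1
      by_contra hcon
      push Not at hcon
      have h2 := (hr1 (hseg hcon.2)).2
      rw [e.left_inv hcon.1] at h2
      exact h2 hzA
    show R z + c • R' z = 0
    rw [h5, hadm.2.2.1 z hzA, smul_zero]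
    exact add_zero _
  · show 0 < D x + c * D' x
    have h5 := hDf (e x) hxt
    have h6 : β (e x - e x') = 0 := hβ2 _ (by rwa [norm_sub_rev])
    rw [e.left_inv hxs, sub_self, h6, sub_zero] at h5
    have h7 := hg.2.1 _ hxt
    have h8 : 0 < D x := by
      by_contra hcon
      rw [not_lt] at hcon
      have := mul_nonpos_of_nonpos_of_nonneg hcon h7.le
      linarith
    have := mul_nonneg hc0 (hadm.2.2.2 x hxO)
    linarith

end EXP_

open EXP_ in
theorem exp1 (hV0 : T_VOL) (hP : T_PUL) (hV : T_DVF) (hX : T_DVX) (hR : T_DVR) (hT : T_TRV) :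
    T_EXP := by
  intro E _ _ _ _ _ M _ _ _ _ _ _ _ _ μ A O hμ hA hAne hO hAO
  have := (hV0 E M μ hμ).1
  have hG : O ∪ Good E μ A O = univ := by
    refine IsClopen.eq_univ ⟨?_, hO.union isOpen_good⟩ ?_
    · refine isClosed_of_closure_subset fun x hx => ?_
      by_cases hxO : x ∈ O
      · exact Or.inl hxO
      · exact Or.inr (good_of_closure hV0 hP hV hX hR hT hμ hA hO hAO hx hxO)
    · exact (hAne.mono hAO).inl
  have hcomp : IsCompact (Oᶜ : Set M) := hO.isClosed_compl.isCompact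
  have key : ∃ (R : ∀ x : M, TangentSpace 𝓘(ℝ, E) x) (D : M → ℝ), Adm μ A O R D ∧
      ∀ x ∈ (Oᶜ : Set M), x ∉ O → 0 < D x := by
    refine hcomp.induction_on (p := fun S => ∃ (R : ∀ x : M, TangentSpace 𝓘(ℝ, E) x)
      (D : M → ℝ), Adm μ A O R D ∧ ∀ x ∈ S, x ∉ O → 0 < D x) ?_ ?_ ?_ ?_
    · obtain ⟨D, hD⟩ := hX E M μ (fun x => 0) hμ
        (Bundle.contMDiff_zeroSection ℝ (TangentSpace 𝓘(ℝ, E) : M → Type))
      refine ⟨fun x => 0, D, ⟨Bundle.contMDiff_zeroSection ℝ (TangentSpace 𝓘(ℝ, E) : M → Type),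
        hD, fun x _ => rfl, fun x _ => ?_⟩, fun x hx => absurd hx (notMem_empty x)⟩
      refine (div_zero_of_eventually hV hμ
        (Bundle.contMDiff_zeroSection ℝ (TangentSpace 𝓘(ℝ, E) : M → Type)) hD ?_).ge
      exact Eventually.of_forall fun z => rfl
    · rintro S T hST ⟨R, D, h1, h2⟩
      exact ⟨R, D, h1, fun x hx hxO => h2 x (hST hx) hxO⟩
    · rintro S T ⟨R, D, h1, h2⟩ ⟨R', D', h1', h2'⟩
      refine ⟨_, _, adm_add hR h1 h1', ?_⟩
      rintro x (hx | hx) hxO
      · exact add_pos_of_pos_of_nonneg (h2 x hx hxO) (h1'.2.2.2 x hxO)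
      · exact add_pos_of_nonneg_of_pos (h1.2.2.2 x hxO) (h2' x hx hxO)
    · intro x hx
      have hxG : x ∈ Good E μ A O := by
        have : x ∈ O ∪ Good E μ A O := by rw [hG]; trivial
        exact this.resolve_left hx
      obtain ⟨R, D, h1, h2⟩ := hxG
      refine ⟨{z | 0 < D z}, ?_, R, D, h1, fun z hz _ => hz⟩
      exact mem_nhdsWithin_of_mem_nhds (h1.2.1.1.continuousAt.eventually (lt_mem_nhds h2))
  obtain ⟨R, D, h1, h2⟩ := key
  exact ⟨R, D, h1.1, h1.2.1, h1.2.2.1, fun x hx => h2 x hx hx⟩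

end Pool.Agent.PalF
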