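import Pool.Agent.PalF.Targets
import Pool.Agent.SteinFill.FlowL

/-!
# Joint smoothness of the flow of a compactly supported field
-/

set_option autoImplicit false

open scoped Manifold ContDiff Topology
open MeasureTheory Set Filter Bundle Asymptotics Metric Pool.Agent.Palis

namespace Pool.Agent.PalF

theorem flj1 : T_FLJ := by
  intro F _ _ _ Z hZ hZc
  obtain ⟨Φ, hΦ0, -, hΦ, -, -⟩ := SteinFill.tFlow F Z hZ hZc
  refine ⟨Φ, hΦ0, hΦ, ?_⟩
  rw [contDiff_infty]
  intro n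
  rw [contDiff_iff_contDiffAt]
  rintro ⟨s₀, x₀⟩
  let χ : ContDiffBump (0 : ℝ) := ⟨|s₀| + 1, |s₀| + 2, by positivity, by linarith⟩
  have hχ : ContDiff ℝ ∞ (χ : ℝ → ℝ) := χ.contDiff
  let W : ℝ × F → ℝ × F := fun p => (0, (p.1 * χ p.1) • Z p.2)
  let Ψ : ℝ → ℝ × F → ℝ × F := fun t p => (p.1, Φ (t * (p.1 * χ p.1)) p.2)
  have hW : ContDiff ℝ ∞ W := by
    refine contDiff_const.prodMk ?_
    exact (contDiff_fst.mul (hχ.comp contDiff_fst)).smul (hZ.comp contDiff_snd)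
  have hWc : HasCompactSupport W := by
    refine HasCompactSupport.intro (χ.hasCompactSupport.isCompact.prod hZc.isCompact) ?_
    rintro ⟨s, x⟩ hsx
    rw [mem_prod, not_and_or] at hsx
    rcases hsx with hs | hx
    · have h1 : χ s = 0 := image_eq_zero_of_notMem_tsupport hs
      simp [W, h1]
    · have h1 : Z x = 0 := image_eq_zero_of_notMem_tsupport hx
      simp [W, h1]
  have hΨ0 : ∀ p, Ψ 0 p = p := by
    rintro ⟨s, x⟩
    simp [Ψ, hΦ0]
  have hΨ : ∀ t p, HasDerivAt (fun s => Ψ s p) (W (Ψ t p)) t := by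
    rintro t ⟨s, x⟩
    have h1 := (hΦ (t * (s * χ s)) x).scomp t ((hasDerivAt_id t).mul_const (s * χ s))
    have h2 := (hasDerivAt_const t s).prodMk h1
    refine h2.congr_deriv ?_
    simp [W, Ψ]
  have key : ContDiff ℝ n (Ψ 1) := SteinFill.flow_contDiff n (ℝ × F) W hW hWc Ψ hΨ0 hΨ 1
  have h : (fun p : ℝ × F => Φ p.1 p.2) =ᶠ[𝓝 (s₀, x₀)] fun p => (Ψ 1 p).2 := by
    have : ∀ᶠ p : ℝ × F in 𝓝 (s₀, x₀), p.1 ∈ ball (0 : ℝ) (|s₀| + 1) := by
      refine continuous_fst.continuousAt.eventually_mem ?_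
      exact isOpen_ball.mem_nhds (by simp)
    filter_upwards [this] with p hp
    have h3 : χ p.1 = 1 := χ.one_of_mem_closedBall (ball_subset_closedBall hp)
    simp [Ψ, h3]
  exact (contDiff_snd.comp key).contDiffAt.congr_of_eventuallyEq h

end Pool.Agent.PalF
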