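import Pool.Agent.PalF.Targets

/-!
# Smooth flows on compact manifolds
-/

set_option autoImplicit false
set_option linter.unusedSectionVars false

open scoped Manifold ContDiff Topology
open MeasureTheory Set Filter Bundle Pool.Agent.Palis

namespace Pool.Agent.PalF

namespace FLM_

section

variable {E : Type} [NormedAddCommGroup E] [NormedSpace ℝ E] [FiniteDimensional ℝ E]
  {M : Type} [TopologicalSpace M] [ChartedSpace E M] [IsManifold 𝓘(ℝ, E) ∞ M]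

set_option backward.isDefEq.respectTransparency false in
/-- A curve in the chart that solves the local equation gives an integral curve. -/
theorem curve_of_local {Y : ∀ x : M, TangentSpace 𝓘(ℝ, E) x} (x₀ : M) {β : ℝ → E} {t : ℝ}
    (hβ : HasDerivAt β (localRep E Y x₀ (β t)) t) (ht : β t ∈ (extChartAt 𝓘(ℝ, E) x₀).target) :
    HasMFDerivAt 𝓘(ℝ, ℝ) 𝓘(ℝ, E) (fun s => (extChartAt 𝓘(ℝ, E) x₀).symm (β s)) t
      ((1 : ℝ →L[ℝ] ℝ).smulRight (Y ((extChartAt 𝓘(ℝ, E) x₀).symm (β t)))) := by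
  have : IsManifold 𝓘(ℝ, E) 1 M := IsManifold.of_le (n := ∞) (by norm_cast)
  have h1 : MDifferentiableWithinAt 𝓘(ℝ, E) 𝓘(ℝ, E) (extChartAt 𝓘(ℝ, E) x₀).symm
      (range 𝓘(ℝ, E)) (β t) := mdifferentiableWithinAt_extChartAt_symm ht
  have h1' := h1.hasMFDerivWithinAt
  have hr : range 𝓘(ℝ, E) = univ := by simp
  have h2 := mfderivWithin_extChartAt_symm_comp_mfderiv_extChartAt (I := 𝓘(ℝ, E)) ht
  rw [hr] at h1' h2
  rw [hasMFDerivWithinAt_univ] at h1'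
  have h3 : HasMFDerivAt 𝓘(ℝ, ℝ) 𝓘(ℝ, E) β t
      ((1 : ℝ →L[ℝ] ℝ).smulRight (localRep E Y x₀ (β t))) :=
    hβ.hasFDerivAt.hasMFDerivAt
  have h4 := h1'.comp t h3
  have h5 := DFunLike.congr_fun h2 (Y ((extChartAt 𝓘(ℝ, E) x₀).symm (β t)))
  have h6 : (mfderivWithin 𝓘(ℝ, E) 𝓘(ℝ, E) (extChartAt 𝓘(ℝ, E) x₀).symm univ (β t)).comp
      ((1 : ℝ →L[ℝ] ℝ).smulRight (localRep E Y x₀ (β t))) =
      (1 : ℝ →L[ℝ] ℝ).smulRight (Y ((extChartAt 𝓘(ℝ, E) x₀).symm (β t))) := by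
    apply ContinuousLinearMap.ext_ring
    show mfderivWithin 𝓘(ℝ, E) 𝓘(ℝ, E) (extChartAt 𝓘(ℝ, E) x₀).symm univ (β t)
      ((1 : ℝ) • localRep E Y x₀ (β t)) = (1 : ℝ) • Y ((extChartAt 𝓘(ℝ, E) x₀).symm (β t))
    rw [one_smul, one_smul]
    exact h5
  rw [h6] at h4
  exact h4

/-- The cut off local representation. -/
theorem exists_cut {Y : ∀ x : M, TangentSpace 𝓘(ℝ, E) x} (hY : IsSmoothField E Y) (x₀ : M) :
    ∃ (Z : E → E) (W : Set E), ContDiff ℝ ∞ Z ∧ HasCompactSupport Z ∧ IsOpen W ∧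
      extChartAt 𝓘(ℝ, E) x₀ x₀ ∈ W ∧ W ⊆ (extChartAt 𝓘(ℝ, E) x₀).target ∧
      ∀ y ∈ W, Z y = localRep E Y x₀ y := by
  set y₀ := extChartAt 𝓘(ℝ, E) x₀ x₀ with hy₀
  obtain ⟨r, hr, hrs⟩ := Metric.nhds_basis_closedBall.mem_iff.1
    (extChartAt_target_mem_nhds (I := 𝓘(ℝ, E)) x₀)
  let χ : ContDiffBump y₀ := ⟨r / 2, r, by positivity, by linarith⟩
  have hloc : ContDiffOn ℝ ∞ (localRep E Y x₀) (extChartAt 𝓘(ℝ, E) x₀).target :=
    localRep_contDiffOn (k := ⊤) hY x₀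
  have hts : tsupport χ ⊆ (extChartAt 𝓘(ℝ, E) x₀).target := by
    rw [χ.tsupport_eq]
    exact hrs
  refine ⟨fun y => χ y • localRep E Y x₀ y, Metric.ball y₀ (r / 2), ?_, ?_, Metric.isOpen_ball,
    Metric.mem_ball_self (by positivity), ?_, ?_⟩
  · rw [contDiff_iff_contDiffAt]
    intro y
    by_cases hy : y ∈ tsupport χ
    · have h1 : (extChartAt 𝓘(ℝ, E) x₀).target ∈ 𝓝 y :=
        (isOpen_extChartAt_target x₀).mem_nhds (hts hy)
      exact χ.contDiffAt.smul (hloc.contDiffAt h1)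
    · have h1 : (fun y => χ y • localRep E Y x₀ y) =ᶠ[𝓝 y] fun _ => 0 := by
        filter_upwards [notMem_tsupport_iff_eventuallyEq.1 hy] with z hz
        rw [hz, Pi.zero_apply, zero_smul]
      exact contDiffAt_const.congr_of_eventuallyEq h1
  · exact χ.hasCompactSupport.smul_right
  · refine (Metric.ball_subset_closedBall.trans (Metric.closedBall_subset_closedBall ?_)).trans hrs
    linarith
  · intro y hy
    show χ y • localRep E Y x₀ y = _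
    rw [χ.one_of_mem_closedBall (Metric.ball_subset_closedBall hy), one_smul]

/-- The flow is smooth near `(0, x₀)`. -/
theorem local_smooth [T2Space M] (h : T_FLJ) {Y : ∀ x : M, TangentSpace 𝓘(ℝ, E) x}
    (hY : IsSmoothField E Y) {φ : ℝ → M → M} (hφ0 : ∀ x, φ 0 x = x)
    (hφ : ∀ x, IsMIntegralCurve (fun t => φ t x) Y) (x₀ : M) :
    ∃ (U : Set M) (ε : ℝ), IsOpen U ∧ x₀ ∈ U ∧ 0 < ε ∧
      ContMDiffOn (𝓘(ℝ, ℝ).prod 𝓘(ℝ, E)) 𝓘(ℝ, E) ∞ (fun p : ℝ × M => φ p.1 p.2)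
        (Ioo (-ε) ε ×ˢ U) := by
  have : IsManifold 𝓘(ℝ, E) 1 M := IsManifold.of_le (n := ∞) (by norm_cast)
  have hY1 : ContMDiff 𝓘(ℝ, E) 𝓘(ℝ, E).tangent 1
      (fun x => (⟨x, Y x⟩ : TangentBundle 𝓘(ℝ, E) M)) := ContMDiff.of_le hY (by norm_cast)
  obtain ⟨Z, W, hZ, hZc, hWo, hy₀, hWt, hZW⟩ := exists_cut hY x₀
  obtain ⟨Φ, hΦ0, hΦd, hΦs⟩ := h E Z hZ hZc
  set e := extChartAt 𝓘(ℝ, E) x₀ with he
  have hcont : ContinuousAt (fun p : ℝ × E => Φ p.1 p.2) (0, e x₀) := hΦs.continuous.continuousAt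
  have hpre : (fun p : ℝ × E => Φ p.1 p.2) ⁻¹' W ∈ 𝓝 ((0 : ℝ), e x₀) := by
    apply hcont.preimage_mem_nhds
    show W ∈ 𝓝 (Φ 0 (e x₀))
    rw [hΦ0]
    exact hWo.mem_nhds hy₀
  rw [nhds_prod_eq, Filter.mem_prod_iff] at hpre
  obtain ⟨B, hB, A, hA, hBA⟩ := hpre
  obtain ⟨ε, hε, hεB⟩ := Metric.mem_nhds_iff.1 hB
  obtain ⟨A', hA'A, hA'o, hA'y⟩ := mem_nhds_iff.1 hA
  have key : ∀ t ∈ Ioo (-ε) ε, ∀ y ∈ A', Φ t y ∈ W := by
    intro t ht y hy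
    have h1 : (t, y) ∈ B ×ˢ A := by
      refine ⟨hεB ?_, hA'A hy⟩
      rw [Real.ball_eq_Ioo]
      simpa using ht
    exact hBA h1
  refine ⟨e.source ∩ e ⁻¹' A', ε, ?_, ⟨mem_extChartAt_source x₀, hA'y⟩, hε, ?_⟩
  · exact (continuousOn_extChartAt x₀).isOpen_inter_preimage (isOpen_extChartAt_source x₀) hA'o
  have heq : ∀ p ∈ Ioo (-ε) ε ×ˢ (e.source ∩ e ⁻¹' A'), φ p.1 p.2 = e.symm (Φ p.1 (e p.2)) := by
    rintro ⟨t, x⟩ ⟨ht, hxs, hxA⟩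
    have h1 : IsMIntegralCurveOn (fun t => e.symm (Φ t (e x))) Y (Ioo (-ε) ε) := by
      intro s hs
      apply HasMFDerivAt.hasMFDerivWithinAt
      have hsW := key s hs (e x) hxA
      have hd : HasDerivAt (fun s => Φ s (e x)) (localRep E Y x₀ (Φ s (e x))) s := by
        rw [← hZW _ hsW]
        exact hΦd s (e x)
      exact curve_of_local x₀ hd (hWt hsW)
    have h2 : IsMIntegralCurveOn (fun t => φ t x) Y (Ioo (-ε) ε) := (hφ x).isMIntegralCurveOn _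
    have h0 : (0 : ℝ) ∈ Ioo (-ε) ε := ⟨by linarith, hε⟩
    have h3 : (fun t => φ t x) 0 = (fun t => e.symm (Φ t (e x))) 0 := by
      show φ 0 x = e.symm (Φ 0 (e x))
      rw [hφ0, hΦ0]
      exact (e.left_inv hxs).symm
    exact isMIntegralCurveOn_Ioo_eqOn_of_contMDiff_boundaryless h0 hY1 h2 h1 h3 ht
  refine ContMDiffOn.congr ?_ heq
  have hsymm : ContMDiffOn 𝓘(ℝ, E) 𝓘(ℝ, E) ∞ e.symm e.target := contMDiffOn_extChartAt_symm x₀
  have hee : ContMDiffOn 𝓘(ℝ, E) 𝓘(ℝ, E) ∞ e e.source := by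
    rw [he, extChartAt_source]
    exact contMDiffOn_extChartAt
  have hmap : ContMDiffOn (𝓘(ℝ, ℝ).prod 𝓘(ℝ, E)) 𝓘(ℝ, ℝ × E) ∞
      (fun p : ℝ × M => ((p.1, e p.2) : ℝ × E)) (Ioo (-ε) ε ×ˢ (e.source ∩ e ⁻¹' A')) := by
    apply ContMDiffOn.prodMk_space
    · exact contMDiffOn_fst
    · exact hee.comp contMDiffOn_snd (fun p hp => hp.2.1)
  have hΦm : ContMDiff 𝓘(ℝ, ℝ × E) 𝓘(ℝ, E) ∞ (fun p : ℝ × E => Φ p.1 p.2) := hΦs.contMDiff
  have h4 := hΦm.comp_contMDiffOn hmap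
  refine hsymm.comp h4 ?_
  rintro ⟨t, x⟩ ⟨ht, hxs, hxA⟩
  exact hWt (key t ht _ hxA)

end

end FLM_

theorem flm1 (h : T_FLJ) : T_FLM := by
  intro E _ _ _ M _ _ _ _ _ Y hY
  have : IsManifold 𝓘(ℝ, E) 1 M := IsManifold.of_le (n := ∞) (by norm_cast)
  have hY1 : ContMDiff 𝓘(ℝ, E) 𝓘(ℝ, E).tangent 1
      (fun x => (⟨x, Y x⟩ : TangentBundle 𝓘(ℝ, E) M)) := ContMDiff.of_le hY (by norm_cast)
  choose γ hγ0 hγ using exists_global (E := E) hY1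
  set φ : ℝ → M → M := fun t x => γ x t with hφd
  have hφ0 : ∀ x, φ 0 x = x := hγ0
  have hφ : ∀ x, IsMIntegralCurve (fun t => φ t x) Y := hγ
  have hadd : ∀ s t x, φ s (φ t x) = φ (s + t) x := by
    intro s t x
    have h1 : IsMIntegralCurve ((fun u => φ u x) ∘ (· + t)) Y := (hφ x).comp_add t
    have h2 := isMIntegralCurve_Ioo_eq_of_contMDiff_boundaryless (t₀ := 0) hY1 (hφ (φ t x)) h1 (by
      show φ 0 (φ t x) = φ (0 + t) x
      rw [hφ0, zero_add])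
    exact congrFun h2 s
  -- uniform local smoothness
  choose U ε hUo hxU hε hsm using FLM_.local_smooth h hY hφ0 hφ
  obtain ⟨ε₀, hε₀, hsm0⟩ : ∃ ε₀ : ℝ, 0 < ε₀ ∧
      ContMDiffOn (𝓘(ℝ, ℝ).prod 𝓘(ℝ, E)) 𝓘(ℝ, E) ∞ (fun p : ℝ × M => φ p.1 p.2)
        (Ioo (-ε₀) ε₀ ×ˢ univ) := by
    rcases isEmpty_or_nonempty M with hM | hM
    · exact ⟨1, one_pos, fun p => (hM.false p.2).elim⟩
    obtain ⟨t, ht⟩ := CompactSpace.elim_nhds_subcover U (fun x => (hUo x).mem_nhds (hxU x))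
    have hne : t.Nonempty := by
      by_contra hcon
      rw [Finset.not_nonempty_iff_eq_empty] at hcon
      subst hcon
      obtain ⟨x⟩ := hM
      have : x ∈ (⊤ : Set M) := trivial
      rw [← ht] at this
      simp at this
    obtain ⟨i, hi, hmin⟩ := Finset.exists_min_image t ε hne
    refine ⟨ε i, hε i, ?_⟩
    rintro ⟨s, x⟩ ⟨hs, -⟩
    have hx : x ∈ (⊤ : Set M) := trivial
    rw [← ht] at hx
    simp only [mem_iUnion] at hx
    obtain ⟨j, hj, hxj⟩ := hx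
    have hmem : (s, x) ∈ Ioo (-ε j) (ε j) ×ˢ U j :=
      ⟨Ioo_subset_Ioo (neg_le_neg (hmin j hj)) (hmin j hj) hs, hxj⟩
    exact ((hsm j).contMDiffAt ((isOpen_Ioo.prod (hUo j)).mem_nhds hmem)).contMDiffWithinAt
  have hiter : ∀ (k : ℕ) (s : ℝ) (x : M), (φ s)^[k] x = φ (k * s) x := by
    intro k s x
    induction k with
    | zero => simp [hφ0]
    | succ k ih =>
      rw [Function.iterate_succ_apply', ih, hadd]
      congr 1
      push_cast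
      ring
  refine ⟨φ, hφ0, hadd, hφ, ?_⟩
  rintro ⟨t₀, x₀⟩
  obtain ⟨N, hN⟩ := exists_nat_gt (|t₀| / ε₀)
  have hN0 : (0 : ℝ) < N := lt_of_le_of_lt (by positivity) hN
  set S : Set (ℝ × M) := {p | p.1 / N ∈ Ioo (-ε₀) ε₀} with hS
  have hSo : IsOpen S := isOpen_Ioo.preimage (continuous_fst.div_const _)
  have hg : ∀ k : ℕ, ContMDiffOn (𝓘(ℝ, ℝ).prod 𝓘(ℝ, E)) 𝓘(ℝ, E) ∞
      (fun p : ℝ × M => (φ (p.1 / N))^[k] p.2) S := by
    intro k
    induction k with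
    | zero => exact contMDiffOn_snd
    | succ k ih =>
      have h1 : ContMDiffOn (𝓘(ℝ, ℝ).prod 𝓘(ℝ, E)) 𝓘(ℝ, ℝ) ∞ (fun p : ℝ × M => p.1 / (N : ℝ)) S := by
        have h2 : ContMDiff 𝓘(ℝ, ℝ) 𝓘(ℝ, ℝ) ∞ (fun t : ℝ => t / (N : ℝ)) :=
          (contDiff_id.div_const _).contMDiff
        exact h2.comp_contMDiffOn contMDiffOn_fst
      have h3 := hsm0.comp (h1.prodMk ih) (fun p hp => ⟨hp, trivial⟩)
      refine h3.congr fun p _ => ?_
      rw [Function.iterate_succ_apply']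
      rfl
  have hmem : (t₀, x₀) ∈ S := by
    have h1 : |t₀ / N| < ε₀ := by
      rw [abs_div, abs_of_pos hN0, div_lt_iff₀ hN0]
      rw [div_lt_iff₀ hε₀] at hN
      linarith
    exact abs_lt.1 h1
  have h1 := (hg N).contMDiffAt (hSo.mem_nhds hmem)
  refine h1.congr_of_eventuallyEq (Filter.Eventually.of_forall fun p => ?_)
  show φ p.1 p.2 = (φ (p.1 / N))^[N] p.2
  rw [hiter]
  congr 1
  field_simp

end Pool.Agent.PalF
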