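import Pool.Agent.PalF.Targets
import Pool.Agent.Palis.Main

/-!
# The gradient-like field
-/

set_option autoImplicit false

open scoped Manifold ContDiff Topology
open MeasureTheory Set Filter Bundle Asymptotics Metric Pool.Agent.Palis

namespace Pool.Agent.PalF

namespace GRD_

set_option linter.unusedSectionVars false

section Flat

variable {F : Type} [NormedAddCommGroup F] [NormedSpace ℝ F] [FiniteDimensional ℝ F]

/-- spanning vectors give an equivalent norm on the dual space, locally uniformly -/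
theorem dual_norm {ι : Type} [Fintype ι] (v : ι → F → F) (y₀ : F)
    (hv : ∀ j, ContinuousAt (v j) y₀)
    (hspan : ∀ α : F →L[ℝ] ℝ, (∀ j, α (v j y₀) = 0) → α = 0) :
    ∃ c : ℝ, 0 < c ∧ ∀ᶠ y in 𝓝 y₀, ∀ α : F →L[ℝ] ℝ, c * ‖α‖ ^ 2 ≤ ∑ j, (α (v j y)) ^ 2 := by
  let T : (F →L[ℝ] ℝ) →ₗ[ℝ] (ι → ℝ) :=
    { toFun := fun α j => α (v j y₀)
      map_add' := fun α β => rfl
      map_smul' := fun c α => rfl }
  have hT : LinearMap.ker T = ⊥ := by
    rw [LinearMap.ker_eq_bot']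
    intro α hα
    exact hspan α fun j => congrFun hα j
  obtain ⟨K, hK, hanti⟩ := T.exists_antilipschitzWith hT
  have hK' : (0 : ℝ) < K := hK
  refine ⟨1 / (4 * K ^ 2), by positivity, ?_⟩
  have h1 : ∀ᶠ y in 𝓝 y₀, ∀ j, ‖v j y - v j y₀‖ < 1 / (2 * K) := by
    rw [eventually_all]
    intro j
    have h2 : Tendsto (fun y => ‖v j y - v j y₀‖) (𝓝 y₀) (𝓝 0) := by
      have := ((hv j).sub (continuousAt_const (y := v j y₀))).norm
      simpa [ContinuousAt] using this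
    exact h2.eventually (gt_mem_nhds (by positivity))
  filter_upwards [h1] with y hy α
  have h2 : ‖α‖ ≤ K * ‖T α‖ := by
    have := hanti.le_mul_dist α 0
    simpa [dist_eq_norm] using this
  have h3 : ∀ j, |α (v j y)| ≤ Real.sqrt (∑ j, (α (v j y)) ^ 2) := by
    intro j
    apply Real.abs_le_sqrt
    exact Finset.single_le_sum (f := fun j => (α (v j y)) ^ 2) (fun i _ => sq_nonneg _)
      (Finset.mem_univ j)
  have h4 : ‖T α‖ ≤ Real.sqrt (∑ j, (α (v j y)) ^ 2) + ‖α‖ * (1 / (2 * K)) := by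
    rw [pi_norm_le_iff_of_nonneg (by positivity)]
    intro j
    have h5 : (T α) j = α (v j y) - α (v j y - v j y₀) := by
      show α (v j y₀) = _
      rw [map_sub]
      ring
    rw [h5]
    refine (norm_sub_le _ _).trans (add_le_add (h3 j) ?_)
    refine (α.le_opNorm _).trans ?_
    exact mul_le_mul_of_nonneg_left (hy j).le (norm_nonneg _)
  have h5 : ‖α‖ ≤ 2 * K * Real.sqrt (∑ j, (α (v j y)) ^ 2) := by
    have h6 : (K : ℝ) * ‖T α‖ ≤ K * (Real.sqrt (∑ j, (α (v j y)) ^ 2) + ‖α‖ * (1 / (2 * K))) :=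
      mul_le_mul_of_nonneg_left h4 hK'.le
    have h7 : (K : ℝ) * (‖α‖ * (1 / (2 * K))) = ‖α‖ / 2 := by
      field_simp
    nlinarith
  have h6 : ‖α‖ ^ 2 ≤ 4 * K ^ 2 * ∑ j, (α (v j y)) ^ 2 := by
    have h7 := pow_le_pow_left₀ (norm_nonneg α) h5 2
    rw [mul_pow, Real.sq_sqrt (Finset.sum_nonneg fun j _ => sq_nonneg _)] at h7
    linarith [h7, show (2 * (K : ℝ)) ^ 2 = 4 * K ^ 2 by ring]
  rw [div_mul_eq_mul_div, one_mul, div_le_iff₀ (by positivity)]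
  linarith

/-- the local estimate -/
theorem local_est {Ω : Set F} (hΩ : IsOpen Ω) {u : F → ℝ} (hu : ContDiffOn ℝ ∞ u Ω)
    (hu0 : ∀ y ∈ Ω, 0 ≤ u y) {A : Set F} (hA : A ⊆ Ω) (hA0 : ∀ z ∈ A, u z = 0) {y₀ : F}
    (hy₀ : y₀ ∈ A) {b : ℝ} (hb : 0 < b) (hlow : ∀ᶠ y in 𝓝 y₀, b * infDist y A ^ 2 ≤ u y)
    {ι : Type} [Fintype ι] (v : ι → F → F) (hv : ∀ j, ContinuousAt (v j) y₀)
    (hspan : ∀ α : F →L[ℝ] ℝ, (∀ j, α (v j y₀) = 0) → α = 0) :
    ∃ c : ℝ, 0 < c ∧ ∀ᶠ y in 𝓝 y₀, c * u y ≤ ∑ j, (fderiv ℝ u y (v j y)) ^ 2 := by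
  obtain ⟨c₂, hc₂, hdual⟩ := dual_norm v y₀ hv hspan
  have hΩ₀ : Ω ∈ 𝓝 y₀ := hΩ.mem_nhds (hA hy₀)
  have hD : ContDiffAt ℝ 1 (fderiv ℝ u) y₀ :=
    (hu.contDiffAt hΩ₀).fderiv_right (by norm_cast)
  obtain ⟨B, hB⟩ : ∃ B, B = fderiv ℝ (fderiv ℝ u) y₀ := ⟨_, rfl⟩
  have hstrict : HasStrictFDerivAt (fderiv ℝ u) B y₀ := by
    rw [hB]
    exact hD.hasStrictFDerivAt (by norm_num)
  obtain ⟨ε, hε⟩ : ∃ ε, ε = b / 8 := ⟨_, rfl⟩
  have hε0 : 0 < ε := by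
    rw [hε]
    positivity
  have h1 := (isLittleO_iff.1 hstrict.isLittleO) hε0
  obtain ⟨δ, hδ, hball⟩ := Metric.eventually_nhds_iff_ball.1 (h1.and (prod_mem_nhds hΩ₀ hΩ₀))
  have hb1 : ∀ y ∈ ball y₀ δ, y ∈ Ω := fun y hy => by
    have : (y, y) ∈ ball (y₀, y₀) δ := by
      rw [← ball_prod_same]
      exact ⟨hy, hy⟩
    exact (hball _ this).2.1
  have hb2 : ∀ y ∈ ball y₀ δ, ∀ z ∈ ball y₀ δ,
      ‖fderiv ℝ u y - fderiv ℝ u z - B (y - z)‖ ≤ ε * ‖y - z‖ := fun y hy z hz => by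
    have : (y, z) ∈ ball (y₀, y₀) δ := by
      rw [← ball_prod_same]
      exact ⟨hy, hz⟩
    exact (hball _ this).1
  have hAne : A.Nonempty := ⟨y₀, hy₀⟩
  refine ⟨b * c₂ / 4, by positivity, ?_⟩
  filter_upwards [hdual, hlow, ball_mem_nhds y₀ (show 0 < δ / 4 by positivity)] with y hy1 hy2 hy3
  have hS : 0 ≤ ∑ j, (fderiv ℝ u y (v j y)) ^ 2 := Finset.sum_nonneg fun j _ => sq_nonneg _
  have hyδ : y ∈ ball y₀ δ := ball_subset_ball (by linarith) hy3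
  rcases eq_or_lt_of_le (hu0 y (hb1 y hyδ)) with h0 | hpos
  · rw [← h0, mul_zero]
    exact hS
  -- the distance is positive
  have hinf : 0 < infDist y A := by
    refine lt_of_le_of_ne infDist_nonneg fun h => ?_
    have h2 : y ∈ closure A := (mem_closure_iff_infDist_zero hAne).2 h.symm
    have h3 : ContinuousAt u y := (hu.contDiffAt (hΩ.mem_nhds (hb1 y hyδ))).continuousAt
    obtain ⟨z, hz1, hz2⟩ := mem_closure_iff_nhds.1 h2 _ (h3.eventually (lt_mem_nhds hpos))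
    have h4 : 0 < u z := hz1
    rw [hA0 z hz2] at h4
    exact lt_irrefl _ h4
  obtain ⟨z, hz, hyz⟩ := (infDist_lt_iff hAne).1 (show infDist y A < 2 * infDist y A by linarith)
  have hle : infDist y A ≤ dist y y₀ := infDist_le_dist_of_mem hy₀
  have hzδ : z ∈ ball y₀ δ := by
    rw [mem_ball] at hy3 ⊢
    have := dist_triangle z y y₀
    rw [dist_comm z y] at this
    linarith
  obtain ⟨w, hw⟩ : ∃ w, w = y - z := ⟨_, rfl⟩
  have hwn : ‖w‖ < 2 * infDist y A := by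
    rw [hw, ← dist_eq_norm]
    exact hyz
  have hDz : fderiv ℝ u z = 0 := by
    apply IsLocalMin.fderiv_eq_zero
    filter_upwards [hΩ.mem_nhds (hA hz)] with y' hy'
    rw [hA0 z hz]
    exact hu0 y' hy'
  have hseg : ∀ t ∈ Icc (0 : ℝ) 1, z + t • w ∈ ball y₀ δ := by
    intro t ht
    have h2 := (convex_ball y₀ δ) hzδ hyδ (show (0 : ℝ) ≤ 1 - t by linarith [ht.2]) ht.1 (by ring)
    have h3 : (1 - t) • z + t • y = z + t • w := by
      rw [hw, smul_sub, sub_smul, one_smul]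
      abel
    rwa [h3] at h2
  have hDt : ∀ t ∈ Icc (0 : ℝ) 1, |fderiv ℝ u (z + t • w) w - t * B w w| ≤ ε * t * ‖w‖ ^ 2 := by
    intro t ht
    have h2 := hb2 _ (hseg t ht) z hzδ
    rw [hDz, sub_zero, add_sub_cancel_left, map_smul, norm_smul, Real.norm_eq_abs,
      abs_of_nonneg ht.1] at h2
    have h3 := (fderiv ℝ u (z + t • w) - t • B w).le_opNorm w
    have h4 : (fderiv ℝ u (z + t • w) - t • B w) w = fderiv ℝ u (z + t • w) w - t * B w w := rfl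
    rw [h4, Real.norm_eq_abs] at h3
    refine h3.trans ?_
    calc ‖fderiv ℝ u (z + t • w) - t • B w‖ * ‖w‖ ≤ (ε * (t * ‖w‖)) * ‖w‖ := by gcongr
      _ = ε * t * ‖w‖ ^ 2 := by ring
  have huy : 2 * u y ≤ B w w + ε * ‖w‖ ^ 2 := by
    have hder : ∀ t ∈ Icc (0 : ℝ) 1, HasDerivAt
        (fun t => u (z + t • w) - t ^ 2 / 2 * (B w w + ε * ‖w‖ ^ 2))
        (fderiv ℝ u (z + t • w) w - t * (B w w + ε * ‖w‖ ^ 2)) t := by
      intro t ht
      have h2 : HasFDerivAt u (fderiv ℝ u (z + t • w)) (z + t • w) :=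
        ((hu.contDiffAt (hΩ.mem_nhds (hb1 _ (hseg t ht)))).differentiableAt
          (by norm_num)).hasFDerivAt
      have h3 : HasDerivAt (fun t : ℝ => z + t • w) w t := by
        have := ((hasDerivAt_id t).smul_const w).const_add z
        simpa using this
      have h4 := h2.comp_hasDerivAt t h3
      have h5 : HasDerivAt (fun t : ℝ => t ^ 2 / 2 * (B w w + ε * ‖w‖ ^ 2))
          (t * (B w w + ε * ‖w‖ ^ 2)) t := by
        have := (((hasDerivAt_id t).pow 2).div_const 2).mul_const (B w w + ε * ‖w‖ ^ 2)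
        refine this.congr_deriv ?_
        simp
      exact h4.sub h5
    have hanti : AntitoneOn (fun t => u (z + t • w) - t ^ 2 / 2 * (B w w + ε * ‖w‖ ^ 2))
        (Icc (0 : ℝ) 1) := by
      refine antitoneOn_of_deriv_nonpos (convex_Icc 0 1)
        (fun t ht => (hder t ht).continuousAt.continuousWithinAt)
        (fun t ht => ?_) fun t ht => ?_
      · rw [interior_Icc] at ht
        exact (hder t ⟨ht.1.le, ht.2.le⟩).differentiableAt.differentiableWithinAt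
      · rw [interior_Icc] at ht
        have ht' : t ∈ Icc (0 : ℝ) 1 := ⟨ht.1.le, ht.2.le⟩
        rw [(hder t ht').deriv]
        have := (abs_le.1 (hDt t ht')).2
        nlinarith
    have h2 := hanti (left_mem_Icc.2 zero_le_one) (right_mem_Icc.2 zero_le_one) zero_le_one
    have h3 : z + (1 : ℝ) • w = y := by
      rw [one_smul, hw]
      abel
    simp only [zero_smul, add_zero, h3, hA0 z hz] at h2
    linarith
  have hDy : B w w - ε * ‖w‖ ^ 2 ≤ fderiv ℝ u y w := by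
    have h2 := (abs_le.1 (hDt 1 (right_mem_Icc.2 zero_le_one))).1
    have h3 : z + (1 : ℝ) • w = y := by
      rw [one_smul, hw]
      abel
    rw [h3] at h2
    linarith
  have hw2 : b * ‖w‖ ^ 2 ≤ 4 * u y := by
    have h2 : ‖w‖ ^ 2 ≤ (2 * infDist y A) ^ 2 := pow_le_pow_left₀ (norm_nonneg _) hwn.le 2
    nlinarith
  have hfin : u y ≤ fderiv ℝ u y w := by
    have h2 : 2 * (ε * ‖w‖ ^ 2) ≤ u y := by
      rw [hε]
      linarith
    linarith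
  have h2 : u y ^ 2 ≤ ‖fderiv ℝ u y‖ ^ 2 * ‖w‖ ^ 2 := by
    rw [← mul_pow]
    refine pow_le_pow_left₀ hpos.le (hfin.trans ?_) 2
    exact (le_abs_self _).trans ((fderiv ℝ u y).le_opNorm w)
  have h3 := hy1 (fderiv ℝ u y)
  obtain ⟨S, hSdef⟩ : ∃ S, S = ∑ j, (fderiv ℝ u y (v j y)) ^ 2 := ⟨_, rfl⟩
  rw [← hSdef] at h3 hS ⊢
  have h4 : b * c₂ * u y ^ 2 ≤ 4 * S * u y := by
    calc b * c₂ * u y ^ 2 ≤ b * c₂ * (‖fderiv ℝ u y‖ ^ 2 * ‖w‖ ^ 2) := by gcongr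
      _ = (c₂ * ‖fderiv ℝ u y‖ ^ 2) * (b * ‖w‖ ^ 2) := by ring
      _ ≤ S * (4 * u y) := by gcongr
      _ = 4 * S * u y := by ring
  have h5 : b * c₂ * u y ≤ 4 * S := by
    have h6 : (b * c₂ * u y) * u y ≤ (4 * S) * u y := by
      calc (b * c₂ * u y) * u y = b * c₂ * u y ^ 2 := by ring
        _ ≤ _ := h4
    exact le_of_mul_le_mul_right h6 hpos
  linarith

end Flat

section Mfd

variable {E : Type} [NormedAddCommGroup E] [NormedSpace ℝ E] [FiniteDimensional ℝ E]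
  {M : Type} [TopologicalSpace M] [ChartedSpace E M] [IsManifold 𝓘(ℝ, E) ∞ M]

theorem localRep_self (X : ∀ x : M, TangentSpace 𝓘(ℝ, E) x) {x₀ x : M}
    (hx : x ∈ (extChartAt 𝓘(ℝ, E) x₀).source) :
    localRep E X x₀ (extChartAt 𝓘(ℝ, E) x₀ x) =
      mfderiv 𝓘(ℝ, E) 𝓘(ℝ, E) (extChartAt 𝓘(ℝ, E) x₀) x (X x) := by
  unfold localRep
  rw [(extChartAt 𝓘(ℝ, E) x₀).left_inv hx]

/-- the derivative along a field in a chart -/
theorem lieD_chart {h : M → ℝ} (hh : ContMDiff 𝓘(ℝ, E) 𝓘(ℝ, ℝ) 1 h)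
    (X : ∀ x : M, TangentSpace 𝓘(ℝ, E) x) {x₀ x : M}
    (hx : x ∈ (extChartAt 𝓘(ℝ, E) x₀).source) :
    lieD h X x = fderiv ℝ (h ∘ (extChartAt 𝓘(ℝ, E) x₀).symm) (extChartAt 𝓘(ℝ, E) x₀ x)
      (localRep E X x₀ (extChartAt 𝓘(ℝ, E) x₀ x)) := by
  have hM1 : IsManifold 𝓘(ℝ, E) 1 M := IsManifold.of_le (n := ∞) (by norm_cast)
  rw [localRep_self X hx]
  have hy : extChartAt 𝓘(ℝ, E) x₀ x ∈ (extChartAt 𝓘(ℝ, E) x₀).target :=
    (extChartAt 𝓘(ℝ, E) x₀).map_source hx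
  have h1 : MDifferentiableAt 𝓘(ℝ, E) 𝓘(ℝ, E) (extChartAt 𝓘(ℝ, E) x₀) x :=
    mdifferentiableAt_extChartAt (by rwa [extChartAt_source] at hx)
  have h2 : ContMDiffAt 𝓘(ℝ, E) 𝓘(ℝ, E) 1 (extChartAt 𝓘(ℝ, E) x₀).symm
      (extChartAt 𝓘(ℝ, E) x₀ x) :=
    (contMDiffOn_extChartAt_symm (n := 1) x₀).contMDiffAt
      ((isOpen_extChartAt_target x₀).mem_nhds hy)
  have h3 : MDifferentiableAt 𝓘(ℝ, E) 𝓘(ℝ, ℝ) (h ∘ (extChartAt 𝓘(ℝ, E) x₀).symm)
      (extChartAt 𝓘(ℝ, E) x₀ x) :=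
    ((hh _).comp _ h2).mdifferentiableAt (by norm_num)
  have h4 : h =ᶠ[𝓝 x] (h ∘ (extChartAt 𝓘(ℝ, E) x₀).symm) ∘ (extChartAt 𝓘(ℝ, E) x₀) := by
    filter_upwards [(isOpen_extChartAt_source x₀).mem_nhds hx] with y hy
    simp only [Function.comp_apply]
    rw [(extChartAt 𝓘(ℝ, E) x₀).left_inv hy]
  have h5 : mfderiv 𝓘(ℝ, E) 𝓘(ℝ, ℝ) h x =
      (mfderiv 𝓘(ℝ, E) 𝓘(ℝ, ℝ) (h ∘ (extChartAt 𝓘(ℝ, E) x₀).symm)
        (extChartAt 𝓘(ℝ, E) x₀ x)).comp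
        (mfderiv 𝓘(ℝ, E) 𝓘(ℝ, E) (extChartAt 𝓘(ℝ, E) x₀) x) := by
    rw [h4.mfderiv_eq]
    exact mfderiv_comp x h3 h1
  unfold lieD
  rw [h5, mfderiv_eq_fderiv]
  rfl

theorem contDiffOn_chart {h : M → ℝ} (hh : ContMDiff 𝓘(ℝ, E) 𝓘(ℝ, ℝ) ∞ h) (x₀ : M) :
    ContDiffOn ℝ ∞ (h ∘ (extChartAt 𝓘(ℝ, E) x₀).symm) (extChartAt 𝓘(ℝ, E) x₀).target := by
  rw [← contMDiffOn_iff_contDiffOn]
  exact hh.comp_contMDiffOn (contMDiffOn_extChartAt_symm (n := ∞) x₀)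

/-- the spanning property in a chart -/
theorem span_chart {ι : Type} (V : ι → ∀ x : M, TangentSpace 𝓘(ℝ, E) x)
    (hV : ∀ (x : M) (α : TangentSpace 𝓘(ℝ, E) x →L[ℝ] ℝ), (∀ i, α (V i x) = 0) → α = 0) (q : M)
    (α : E →L[ℝ] ℝ)
    (hα : ∀ j, α (localRep E (V j) q (extChartAt 𝓘(ℝ, E) q q)) = 0) : α = 0 := by
  have hM1 : IsManifold 𝓘(ℝ, E) 1 M := IsManifold.of_le (n := ∞) (by norm_cast)
  have hq : q ∈ (extChartAt 𝓘(ℝ, E) q).source := mem_extChartAt_source q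
  have hinv : (mfderiv 𝓘(ℝ, E) 𝓘(ℝ, E) (extChartAt 𝓘(ℝ, E) q) q).IsInvertible :=
    isInvertible_mfderiv_extChartAt hq
  obtain ⟨e, he⟩ := hinv
  have h1 : (α : E →L[ℝ] ℝ).comp (mfderiv 𝓘(ℝ, E) 𝓘(ℝ, E) (extChartAt 𝓘(ℝ, E) q) q) = 0 := by
    refine hV q _ fun j => ?_
    have := hα j
    rw [localRep_self (V j) hq] at this
    exact this
  ext w
  have h2 := congrArg (fun f => f (e.symm w)) h1
  have h3 : mfderiv 𝓘(ℝ, E) 𝓘(ℝ, E) (extChartAt 𝓘(ℝ, E) q) q (e.symm w) = w := by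
    rw [← he]
    exact e.apply_symm_apply w
  have h4 : α (mfderiv 𝓘(ℝ, E) 𝓘(ℝ, E) (extChartAt 𝓘(ℝ, E) q) q (e.symm w)) = 0 := h2
  rw [h3] at h4
  exact h4

end Mfd

end GRD_

open GRD_

theorem grd1 (hNNG : T_NNG) : T_GRD := by
  intro E _ _ _ M _ _ _ _ _ Λ I hΛ hI hI0 hIΛ
  let _ : MeasurableSpace E := borel E
  have : BorelSpace E := ⟨rfl⟩
  obtain ⟨ι, hι, V, hVs, hVspan⟩ := exists_spanning_fields (E := E) (M := M)
  have hIs : ContMDiff 𝓘(ℝ, E) 𝓘(ℝ, ℝ) ∞ I := hI.1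
  have hIs1 : ContMDiff 𝓘(ℝ, E) 𝓘(ℝ, ℝ) 1 I := hIs.of_le (by norm_cast)
  -- the bound for the derivatives
  have hbd : ∀ (x₀ : M) (K : Set M), IsCompact K → K ⊆ (extChartAt 𝓘(ℝ, E) x₀).source →
      ∃ C : ℝ, 0 ≤ C ∧ ∀ x ∈ K, ∀ j, (lieD I (V j) x) ^ 2 ≤ C * I x := by
    intro x₀ K hK hKs
    have hc : ContinuousOn (extChartAt 𝓘(ℝ, E) x₀) K := (continuousOn_extChartAt x₀).mono hKs
    have hmaps : ∀ x ∈ K, extChartAt 𝓘(ℝ, E) x₀ x ∈ (extChartAt 𝓘(ℝ, E) x₀).target :=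
      fun x hx => (extChartAt 𝓘(ℝ, E) x₀).map_source (hKs hx)
    obtain ⟨C, hC, hC'⟩ := hNNG E (extChartAt 𝓘(ℝ, E) x₀).target (extChartAt 𝓘(ℝ, E) x₀ '' K)
      (I ∘ (extChartAt 𝓘(ℝ, E) x₀).symm) (isOpen_extChartAt_target x₀) (hK.image_of_continuousOn hc)
      (by rintro _ ⟨x, hx, rfl⟩; exact hmaps x hx) (contDiffOn_chart hIs x₀) (fun y _ => hI0 _)
    have hB : ∀ j, ∃ B : ℝ, ∀ x ∈ K, ‖localRep E (V j) x₀ (extChartAt 𝓘(ℝ, E) x₀ x)‖ ≤ B := by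
      intro j
      have h1 := localRep_contDiffOn (k := ⊤) (hVs j) x₀
      have h2 : ContinuousOn (fun x => localRep E (V j) x₀ (extChartAt 𝓘(ℝ, E) x₀ x)) K :=
        h1.continuousOn.comp hc hmaps
      exact hK.exists_bound_of_continuousOn h2
    choose B hB using hB
    refine ⟨C * ∑ j, (|B j|) ^ 2, by positivity, fun x hx j => ?_⟩
    have h1 := hC' _ ⟨x, hx, rfl⟩
    simp only [Function.comp_apply] at h1
    rw [(extChartAt 𝓘(ℝ, E) x₀).left_inv (hKs hx)] at h1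
    rw [lieD_chart hIs1 (V j) (hKs hx)]
    have h2 := (fderiv ℝ (I ∘ (extChartAt 𝓘(ℝ, E) x₀).symm)
      (extChartAt 𝓘(ℝ, E) x₀ x)).le_opNorm (localRep E (V j) x₀ (extChartAt 𝓘(ℝ, E) x₀ x))
    have h3 : ‖localRep E (V j) x₀ (extChartAt 𝓘(ℝ, E) x₀ x)‖ ≤ |B j| :=
      (hB j x hx).trans (le_abs_self _)
    have h4 := pow_le_pow_left₀ (norm_nonneg _) h2 2
    rw [Real.norm_eq_abs, sq_abs, mul_pow] at h4
    refine h4.trans ?_
    have h5 : ‖localRep E (V j) x₀ (extChartAt 𝓘(ℝ, E) x₀ x)‖ ^ 2 ≤ ∑ j, (|B j|) ^ 2 := by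
      refine (pow_le_pow_left₀ (norm_nonneg _) h3 2).trans ?_
      exact Finset.single_le_sum (f := fun j => (|B j|) ^ 2) (fun i _ => sq_nonneg _)
        (Finset.mem_univ j)
    calc _ ≤ (C * I x) * ∑ j, (|B j|) ^ 2 :=
          mul_le_mul h1 h5 (sq_nonneg _) (mul_nonneg hC (hI0 x))
      _ = C * (∑ j, (|B j|) ^ 2) * I x := by ring
  have hpair : ∀ x, lieD I (fun x => gForm V x (diff E I x)) x = ∑ j, (lieD I (V j) x) ^ 2 :=
    fun x => gForm_pair V x (diff E I x)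
  have hW : ∀ x, gForm V x (diff E I x) = ∑ j, lieD I (V j) x • V j x := fun x => rfl
  -- the local estimate
  have hloc : ∀ q ∈ Λ, ∃ c : ℝ, 0 < c ∧ ∀ᶠ x in 𝓝 q, c * I x ≤ ∑ j, (lieD I (V j) x) ^ 2 := by
    intro q hq
    have hqs : q ∈ (extChartAt 𝓘(ℝ, E) q).source := mem_extChartAt_source q
    obtain ⟨-, b, hb, hlow⟩ := hI.2 q hq
    have hΩ := isOpen_extChartAt_target (I := 𝓘(ℝ, E)) q
    have hsymm : ContinuousAt (extChartAt 𝓘(ℝ, E) q).symm (extChartAt 𝓘(ℝ, E) q q) :=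
      continuousAt_extChartAt_symm q
    have hsymm' : Tendsto (extChartAt 𝓘(ℝ, E) q).symm (𝓝 (extChartAt 𝓘(ℝ, E) q q)) (𝓝 q) := by
      have := hsymm.tendsto
      rwa [(extChartAt 𝓘(ℝ, E) q).left_inv hqs] at this
    have hlow' : ∀ᶠ y in 𝓝 (extChartAt 𝓘(ℝ, E) q q), b * infDist y
        (extChartAt 𝓘(ℝ, E) q '' (Λ ∩ (extChartAt 𝓘(ℝ, E) q).source)) ^ 2 ≤
          (I ∘ (extChartAt 𝓘(ℝ, E) q).symm) y := by
      filter_upwards [hsymm'.eventually hlow,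
        hΩ.mem_nhds (mem_extChartAt_target (I := 𝓘(ℝ, E)) q)] with y hy1 hy2
      rw [(extChartAt 𝓘(ℝ, E) q).right_inv hy2] at hy1
      exact hy1
    obtain ⟨c, hc, hest⟩ := local_est hΩ (contDiffOn_chart hIs q) (fun y _ => hI0 _)
      (A := extChartAt 𝓘(ℝ, E) q '' (Λ ∩ (extChartAt 𝓘(ℝ, E) q).source))
      (by rintro _ ⟨x, hx, rfl⟩; exact (extChartAt 𝓘(ℝ, E) q).map_source hx.2)
      (by
        rintro _ ⟨x, hx, rfl⟩
        simp only [Function.comp_apply]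
        rw [(extChartAt 𝓘(ℝ, E) q).left_inv hx.2]
        exact (hIΛ x).2 hx.1)
      ⟨q, ⟨hq, hqs⟩, rfl⟩ hb hlow' (fun j => localRep E (V j) q)
      (fun j => ((localRep_contDiffOn (k := ⊤) (hVs j) q).continuousOn).continuousAt
        (hΩ.mem_nhds (mem_extChartAt_target (I := 𝓘(ℝ, E)) q)))
      (fun α hα => span_chart V hVspan q α hα)
    refine ⟨c, hc, ?_⟩
    have hcont : Tendsto (extChartAt 𝓘(ℝ, E) q) (𝓝 q) (𝓝 (extChartAt 𝓘(ℝ, E) q q)) :=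
      (continuousAt_extChartAt q).tendsto
    filter_upwards [hcont.eventually hest, (isOpen_extChartAt_source q).mem_nhds hqs]
      with x hx1 hx2
    simp only [Function.comp_apply] at hx1
    rw [(extChartAt 𝓘(ℝ, E) q).left_inv hx2] at hx1
    refine hx1.trans (le_of_eq ?_)
    refine Finset.sum_congr rfl fun j _ => ?_
    rw [lieD_chart hIs1 (V j) hx2]
  -- the constants
  have hnb : ∃ c : ℝ, 0 < c ∧ ∀ᶠ x in 𝓝ˢ Λ, c * I x ≤ ∑ j, (lieD I (V j) x) ^ 2 := by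
    refine hΛ.induction_on (p := fun S => ∃ c : ℝ, 0 < c ∧
      ∀ᶠ x in 𝓝ˢ S, c * I x ≤ ∑ j, (lieD I (V j) x) ^ 2) ?_ ?_ ?_ ?_
    · exact ⟨1, one_pos, by simp⟩
    · rintro S T hST ⟨c, hc, h⟩
      exact ⟨c, hc, h.filter_mono (nhdsSet_mono hST)⟩
    · rintro S T ⟨c, hc, h⟩ ⟨c', hc', h'⟩
      refine ⟨min c c', lt_min hc hc', ?_⟩
      rw [nhdsSet_union, eventually_sup]
      constructor
      · filter_upwards [h] with x hx
        exact (mul_le_mul_of_nonneg_right (min_le_left _ _) (hI0 x)).trans hx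
      · filter_upwards [h'] with x hx
        exact (mul_le_mul_of_nonneg_right (min_le_right _ _) (hI0 x)).trans hx
    · intro q hq
      obtain ⟨c, hc, h⟩ := hloc q hq
      obtain ⟨U, hU, hUo, hqU⟩ := mem_nhds_iff.1 h
      refine ⟨U, mem_nhdsWithin_of_mem_nhds (hUo.mem_nhds hqU), c, hc, ?_⟩
      exact mem_nhdsSet_iff_exists.2 ⟨U, hUo, subset_rfl, hU⟩
  obtain ⟨c₁, hc₁, hc₁'⟩ := hnb
  obtain ⟨c₀, hc₀, hc₀'⟩ : ∃ c₀ : ℝ, 0 < c₀ ∧ ∀ x, I x ≤ c₀ →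
      c₁ * I x ≤ ∑ j, (lieD I (V j) x) ^ 2 := by
    obtain ⟨U, hUo, hΛU, hU⟩ := mem_nhdsSet_iff_exists.1 hc₁'
    rcases (Uᶜ : Set M).eq_empty_or_nonempty with h | h
    · refine ⟨1, one_pos, fun x _ => hU ?_⟩
      rw [compl_empty_iff] at h
      rw [h]
      trivial
    · obtain ⟨x₁, hx₁, hmin⟩ := hUo.isClosed_compl.isCompact.exists_isMinOn h
        hIs.continuous.continuousOn
      have hpos : 0 < I x₁ := by
        refine lt_of_le_of_ne (hI0 x₁) fun h => ?_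
        exact hx₁ (hΛU ((hIΛ x₁).1 h.symm))
      refine ⟨I x₁ / 2, by positivity, fun x hx => ?_⟩
      by_cases hxU : x ∈ U
      · exact hU hxU
      · exfalso
        have : I x₁ ≤ I x := hmin hxU
        linarith
  refine ⟨fun x => gForm V x (diff E I x), c₀, c₁, ?_, hc₀, hc₁, ?_, ?_, ?_, ?_⟩
  · exact gForm_smooth hVs ⊤ (hIs.of_le (by norm_cast))
  · intro x
    rw [hpair]
    exact Finset.sum_nonneg fun j _ => sq_nonneg _
  · intro x hx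
    obtain ⟨C, hC, hC'⟩ := hbd x {x} isCompact_singleton
      (singleton_subset_iff.2 (mem_extChartAt_source x))
    show gForm V x (diff E I x) = 0
    rw [hW]
    refine Finset.sum_eq_zero fun j _ => ?_
    have h1 := hC' x rfl j
    rw [(hIΛ x).2 hx, mul_zero] at h1
    have h2 : lieD I (V j) x = 0 := by
      have := le_antisymm h1 (sq_nonneg _)
      exact pow_eq_zero_iff (two_ne_zero) |>.1 this
    rw [h2, zero_smul]
  · intro x hx
    rw [hpair]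
    exact hc₀' x hx
  · intro x₀ K hK hKs
    obtain ⟨C, hC, hC'⟩ := hbd x₀ K hK hKs
    have hc : ContinuousOn (extChartAt 𝓘(ℝ, E) x₀) K := (continuousOn_extChartAt x₀).mono hKs
    have hmaps : ∀ x ∈ K, extChartAt 𝓘(ℝ, E) x₀ x ∈ (extChartAt 𝓘(ℝ, E) x₀).target :=
      fun x hx => (extChartAt 𝓘(ℝ, E) x₀).map_source (hKs hx)
    have hB : ∀ j, ∃ B : ℝ, ∀ x ∈ K, ‖localRep E (V j) x₀ (extChartAt 𝓘(ℝ, E) x₀ x)‖ ≤ B := by
      intro j
      have h1 := localRep_contDiffOn (k := ⊤) (hVs j) x₀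
      have h2 : ContinuousOn (fun x => localRep E (V j) x₀ (extChartAt 𝓘(ℝ, E) x₀ x)) K :=
        h1.continuousOn.comp hc hmaps
      exact hK.exists_bound_of_continuousOn h2
    choose B hB using hB
    refine ⟨(Fintype.card ι : ℝ) * C * ∑ j, (|B j|) ^ 2, fun x hx => ?_⟩
    have h1 : localRep E (fun x => gForm V x (diff E I x)) x₀ (extChartAt 𝓘(ℝ, E) x₀ x) =
        ∑ j, lieD I (V j) x • localRep E (V j) x₀ (extChartAt 𝓘(ℝ, E) x₀ x) := by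
      rw [localRep_self _ (hKs hx)]
      rw [hW, map_sum]
      refine Finset.sum_congr rfl fun j _ => ?_
      rw [map_smul, localRep_self (V j) (hKs hx)]
      rfl
    rw [h1]
    have h2 : ‖∑ j, lieD I (V j) x • localRep E (V j) x₀ (extChartAt 𝓘(ℝ, E) x₀ x)‖ ≤
        ∑ j, |lieD I (V j) x| * |B j| := by
      refine (norm_sum_le _ _).trans (Finset.sum_le_sum fun j _ => ?_)
      rw [norm_smul, Real.norm_eq_abs]
      exact mul_le_mul_of_nonneg_left ((hB j x hx).trans (le_abs_self _)) (abs_nonneg _)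
    refine (pow_le_pow_left₀ (norm_nonneg _) h2 2).trans ?_
    refine (Finset.sum_mul_sq_le_sq_mul_sq _ _ _).trans ?_
    have h3 : ∑ j, |lieD I (V j) x| ^ 2 ≤ (Fintype.card ι : ℝ) * (C * I x) := by
      have h4 : ∀ j ∈ (Finset.univ : Finset ι), |lieD I (V j) x| ^ 2 ≤ C * I x := fun j _ => by
        rw [sq_abs]
        exact hC' x hx j
      refine (Finset.sum_le_sum h4).trans ?_
      rw [Finset.sum_const, Finset.card_univ, nsmul_eq_mul]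
    calc _ ≤ ((Fintype.card ι : ℝ) * (C * I x)) * ∑ j, (|B j|) ^ 2 := by gcongr
      _ = (Fintype.card ι : ℝ) * C * (∑ j, (|B j|) ^ 2) * I x := by ring

end Pool.Agent.PalF
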