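import Pool.Agent.PalF.Targets

/-!
# Integration by parts in a vector space (job PALF-IBP)
-/

set_option autoImplicit false

open scoped Manifold ContDiff Topology
open MeasureTheory Set Filter

namespace Pool.Agent.PalF

namespace IBP_

variable {F : Type} [NormedAddCommGroup F] [NormedSpace ℝ F] [FiniteDimensional ℝ F]
  [MeasurableSpace F] [BorelSpace F]

/-- One coordinate. -/
theorem scalar (η c : F → ℝ) (v : F) (hη : ContDiff ℝ 1 η) (hc : ContDiff ℝ 1 c)
    (hs : HasCompactSupport c) :
    Integrable (fun y => fderiv ℝ η y v * c y) (Measure.addHaar : Measure F) ∧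
    Integrable (fun y => η y * fderiv ℝ c y v) (Measure.addHaar : Measure F) ∧
    ∫ y, η y * fderiv ℝ c y v ∂(Measure.addHaar : Measure F) =
      -∫ y, fderiv ℝ η y v * c y ∂(Measure.addHaar : Measure F) := by
  have h1 : Continuous (fun y => fderiv ℝ η y v) :=
    (hη.continuous_fderiv one_ne_zero).clm_apply continuous_const
  have h2 : Continuous (fun y => fderiv ℝ c y v) :=
    (hc.continuous_fderiv one_ne_zero).clm_apply continuous_const
  have s2 : HasCompactSupport (fun y => fderiv ℝ c y v) := hs.fderiv_apply (𝕜 := ℝ) v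
  have i1 : Integrable (fun y => fderiv ℝ η y v * c y) (Measure.addHaar : Measure F) :=
    (h1.mul hc.continuous).integrable_of_hasCompactSupport hs.mul_left
  have i2 : Integrable (fun y => η y * fderiv ℝ c y v) (Measure.addHaar : Measure F) :=
    (hη.continuous.mul h2).integrable_of_hasCompactSupport s2.mul_left
  have i3 : Integrable (fun y => η y * c y) (Measure.addHaar : Measure F) :=
    (hη.continuous.mul hc.continuous).integrable_of_hasCompactSupport hs.mul_left
  refine ⟨i1, i2, ?_⟩
  exact integral_mul_fderiv_eq_neg_fderiv_mul_of_integrable i1 i2 i3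
    (fun x _ => (hη.differentiable one_ne_zero) x) (fun x _ => (hc.differentiable one_ne_zero) x)

end IBP_

theorem ibp1 : T_IBP := by
  intro F _ _ _ _ _ η Z hη hZ hs
  let b := Module.finBasis ℝ F
  let l : Fin (Module.finrank ℝ F) → F →L[ℝ] ℝ := fun i => LinearMap.toContinuousLinearMap (b.coord i)
  have hl : ∀ i x, l i x = b.repr x i := fun i x => rfl
  let c : Fin (Module.finrank ℝ F) → F → ℝ := fun i y => l i (Z y)
  have hc : ∀ i, ContDiff ℝ 1 (c i) := fun i => (l i).contDiff.comp hZ
  have hcs : ∀ i, HasCompactSupport (c i) := fun i => hs.comp_left (map_zero (l i))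
  have hd : ∀ i y v, fderiv ℝ (c i) y v = l i (fderiv ℝ Z y v) := by
    intro i y v
    have h1 : HasFDerivAt Z (fderiv ℝ Z y) y :=
      ((hZ.differentiable one_ne_zero) y).hasFDerivAt
    have h2 : HasFDerivAt (c i) ((l i).comp (fderiv ℝ Z y)) y := (l i).hasFDerivAt.comp y h1
    rw [h2.fderiv]
    rfl
  have e1 : ∀ y, fderiv ℝ η y (Z y) = ∑ i, fderiv ℝ η y (b i) * c i y := by
    intro y
    have h1 : Z y = ∑ i, c i y • b i := (b.sum_repr (Z y)).symm
    conv_lhs => rw [h1]
    rw [map_sum]
    refine Finset.sum_congr rfl fun i _ => ?_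
    rw [map_smul, smul_eq_mul, mul_comm]
  have e2 : ∀ y, η y * LinearMap.trace ℝ F (fderiv ℝ Z y) =
      ∑ i, η y * fderiv ℝ (c i) y (b i) := by
    intro y
    rw [LinearMap.trace_eq_matrix_trace ℝ b, Matrix.trace, Finset.mul_sum]
    refine Finset.sum_congr rfl fun i _ => ?_
    rw [Matrix.diag_apply, LinearMap.toMatrix_apply, hd]
    rfl
  have hi := fun i => IBP_.scalar η (c i) (b i) hη (hc i) (hcs i)
  simp only [e1, e2]
  rw [integral_finsetSum _ fun i _ => (hi i).1, integral_finsetSum _ fun i _ => (hi i).2.1,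
    ← Finset.sum_neg_distrib]
  refine Finset.sum_congr rfl fun i _ => ?_
  rw [(hi i).2.2, neg_neg]

end Pool.Agent.PalF
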