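import Pool.Agent.PalF.Targets2

/-!
# The lower bound for the almost invariant function
-/

set_option autoImplicit false

open scoped Manifold ContDiff Topology
open MeasureTheory Set Filter Bundle Asymptotics Metric Pool.Agent.Palis

namespace Pool.Agent.PalF

namespace IVQ_

theorem bmp_of_mem {M : Type} [TopologicalSpace M] {Φ : OpenPartialHomeomorph M (ℝ × E2)}
    {f : ℝ × E2 → ℝ} {x : M} (hx : x ∈ Φ.source) : bmp Φ f x = f (Φ x) := by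
  unfold bmp
  rw [if_pos hx]

theorem bmp_of_notMem {M : Type} [TopologicalSpace M] {Φ : OpenPartialHomeomorph M (ℝ × E2)}
    {f : ℝ × E2 → ℝ} {x : M} (hx : x ∉ Φ.source) : bmp Φ f x = 0 := by
  unfold bmp
  rw [if_neg hx]

end IVQ_

open IVQ_

theorem ivq1 (hIVS : T_IVS) (hOSC : T_OSC) (hBXF : T_BXF) (hOBF : T_OBF) (hBMP : T_BMP) :
    T_IVQ := by
  intro E _ _ _ M _ _ _ _ _ _ μ X γ τ Φ h φ f₀ I₀ b θ H
  have hM1 : IsManifold 𝓘(ℝ, E) 1 M := IsManifold.of_le (n := ∞) (by norm_cast)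
  obtain ⟨hsm, hD⟩ := hIVS E M μ X γ τ Φ h φ f₀ I₀ b θ H
  obtain ⟨hφγ, hper, hγΦ, -⟩ := hOBF E M μ X γ τ Φ h φ H.field H.orbit H.box H.flow
  have hτ : 0 < τ := H.orbit.2.2.1
  have hbox : Box E μ X Φ h := H.box.1
  have hh : 0 < h := hbox.pos
  have hγ0 : γ 0 ∈ Φ.source := H.box.2.1
  have hΦγ0 : Φ (γ 0) = 0 := H.box.2.2.1
  have hγbox : ∀ s, γ s ∈ Φ.source → (Φ (γ s)).2 = 0 := H.box.2.2.2.1
  have hfI : ContDiff ℝ ∞ (fun z : ℝ × E2 => f₀ z * I₀ z.2) :=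
    H.f_smooth.mul (H.I_smooth.comp contDiff_snd)
  have hbmp : ContMDiff 𝓘(ℝ, E) 𝓘(ℝ, ℝ) ∞ (bmp Φ (fun z => f₀ z * I₀ z.2)) :=
    hBMP E M μ X Φ h _ hbox hfI fun z hz => H.f_supp z fun h0 => hz (by
      show f₀ z * I₀ z.2 = 0
      rw [h0, zero_mul])
  have hφc : ∀ x, Continuous fun s => φ s x := fun x =>
    H.flow.smooth.continuous.comp (by fun_prop : Continuous fun s : ℝ => (s, x))
  have hφx : ∀ s, Continuous (φ s) := fun s =>
    H.flow.smooth.continuous.comp (by fun_prop : Continuous fun x : M => (s, x))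
  have hgc : ∀ x, Continuous fun s => bmp Φ (fun z => f₀ z * I₀ z.2) (φ s x) := fun x =>
    hbmp.continuous.comp (hφc x)
  -- a bound for the density
  obtain ⟨C₀, hC₀⟩ : ∃ C₀ : ℝ, ∀ z, |f₀ z| ≤ C₀ := by
    have hK : IsCompact (closedBall (0 : ℝ × E2) (h / 4)) := isCompact_closedBall _ _
    obtain ⟨C, hC⟩ := hK.exists_bound_of_continuousOn H.f_smooth.continuous.continuousOn
    refine ⟨max C 0, fun z => ?_⟩
    by_cases hz : f₀ z = 0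
    · rw [hz, abs_zero]
      exact le_max_right _ _
    · obtain ⟨h1, h2⟩ := H.f_supp z hz
      refine (hC z ?_).trans (le_max_left _ _)
      rw [mem_closedBall, dist_zero_right, Prod.norm_def, Real.norm_eq_abs]
      exact max_le h1 h2
  have hC₀0 : 0 ≤ C₀ := (abs_nonneg _).trans (hC₀ 0)
  have hDle : ∀ x, avg φ τ (bmp Φ f₀) x ≤ C₀ * τ := by
    intro x
    have h1 : ‖∫ s in (0 : ℝ)..τ, bmp Φ f₀ (φ s x)‖ ≤ C₀ * |τ - 0| := by
      refine intervalIntegral.norm_integral_le_of_norm_le_const fun s _ => ?_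
      rw [Real.norm_eq_abs]
      by_cases hs : φ s x ∈ Φ.source
      · rw [bmp_of_mem hs]
        exact hC₀ _
      · rw [bmp_of_notMem hs, abs_zero]
        exact hC₀0
    rw [sub_zero, abs_of_pos hτ] at h1
    exact (le_abs_self _).trans h1
  refine ⟨hsm, ?_⟩
  rintro q ⟨σ, rfl⟩
  refine ⟨?_, ?_⟩
  · -- the value at the orbit
    have h1 : avg φ τ (bmp Φ fun z => f₀ z * I₀ z.2) (γ σ) = 0 := by
      unfold avg
      have h2 : ∀ s : ℝ, bmp Φ (fun z => f₀ z * I₀ z.2) (φ s (γ σ)) = 0 := by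
        intro s
        by_cases hs : φ s (γ σ) ∈ Φ.source
        · rw [bmp_of_mem hs]
          rw [hφγ] at hs ⊢
          rw [hγbox _ hs, H.I_zero, mul_zero]
        · exact bmp_of_notMem hs
      simp only [h2]
      simp
    unfold intI
    rw [h1, zero_div, mul_zero]
  -- the time
  obtain ⟨s₁, hs₁⟩ : ∃ s₁, s₁ = toIcoMod hτ 0 (-σ) := ⟨_, rfl⟩
  have hs₁m : s₁ ∈ Ico 0 τ := by
    have := toIcoMod_mem_Ico hτ 0 (-σ)
    rwa [zero_add, ← hs₁] at this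
  have hγs₁ : φ s₁ (γ σ) = γ 0 := by
    rw [hφγ]
    have h1 : -σ - s₁ = toIcoDiv hτ 0 (-σ) • τ := by
      rw [hs₁]
      exact self_sub_toIcoMod hτ 0 (-σ)
    have h2 : s₁ + σ = 0 - toIcoDiv hτ 0 (-σ) • τ := by linarith
    rw [h2]
    have hp : Function.Periodic γ τ := hper
    exact hp.sub_zsmul_eq _
  have hinv : ∀ x, φ (-s₁) (φ s₁ x) = x := fun x => by
    rw [H.flow.add, neg_add_cancel, H.flow.zero]
  have hback : φ (-s₁) (γ 0) = γ σ := by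
    rw [← hγs₁]
    exact hinv _
  -- the point in the box
  have hzt : Tendsto (fun x => Φ (φ s₁ x)) (𝓝 (γ σ)) (𝓝 0) := by
    have h1 : Tendsto (φ s₁) (𝓝 (γ σ)) (𝓝 (γ 0)) := by
      have := (hφx s₁).continuousAt (x := γ σ)
      rwa [ContinuousAt, hγs₁] at this
    have h2 : Tendsto Φ (𝓝 (γ 0)) (𝓝 0) := by
      have := Φ.continuousAt hγ0
      rwa [ContinuousAt, hΦγ0] at this
    exact h2.comp h1
  have hsrc : ∀ᶠ x in 𝓝 (γ σ), φ s₁ x ∈ Φ.source := by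
    have h1 : Tendsto (φ s₁) (𝓝 (γ σ)) (𝓝 (γ 0)) := by
      have := (hφx s₁).continuousAt (x := γ σ)
      rwa [ContinuousAt, hγs₁] at this
    exact h1.eventually (Φ.open_source.mem_nhds hγ0)
  have hΦsymm0 : Φ.symm 0 = γ 0 := by
    rw [← hΦγ0]
    exact Φ.left_inv hγ0
  have h0t : (0 : ℝ × E2) ∈ Φ.target := by
    rw [← hΦγ0]
    exact Φ.map_source hγ0
  -- the chart map
  have hΨ : ContDiffAt ℝ 1 (fun z => extChartAt 𝓘(ℝ, E) (γ σ) (φ (-s₁) (Φ.symm z))) 0 := by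
    rw [← contMDiffAt_iff_contDiffAt]
    have h1 : ContMDiffAt 𝓘(ℝ, ℝ × E2) 𝓘(ℝ, E) 1 Φ.symm 0 :=
      ((hbox.smooth_symm).contMDiffAt (Φ.open_target.mem_nhds h0t)).of_le (by norm_cast)
    have h2 : ContMDiff 𝓘(ℝ, E) 𝓘(ℝ, E) 1 (φ (-s₁)) := by
      have h3 : ContMDiff 𝓘(ℝ, E) (𝓘(ℝ, ℝ).prod 𝓘(ℝ, E)) 1 fun x : M => ((-s₁ : ℝ), x) :=
        contMDiff_const.prodMk contMDiff_id
      exact (H.flow.smooth.of_le (by norm_cast)).comp h3
    have h3 : ContMDiffAt 𝓘(ℝ, ℝ × E2) 𝓘(ℝ, E) 1 (fun z => φ (-s₁) (Φ.symm z)) 0 :=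
      (h2 _).comp (0 : ℝ × E2) h1
    have h4 : ContMDiffAt 𝓘(ℝ, E) 𝓘(ℝ, E) 1 (extChartAt 𝓘(ℝ, E) (γ σ))
        (φ (-s₁) (Φ.symm (0 : ℝ × E2))) := by
      rw [hΦsymm0, hback]
      exact contMDiffAt_extChartAt
    exact ContMDiffAt.comp (0 : ℝ × E2) h4 h3
  obtain ⟨K, T, hT, hLip⟩ := hΨ.exists_lipschitzOnWith
  have hV : ∀ᶠ z in 𝓝 (0 : ℝ × E2),
      z ∈ T ∧ φ (-s₁) (Φ.symm z) ∈ (extChartAt 𝓘(ℝ, E) (γ σ)).source := by
    refine Filter.Eventually.and hT ?_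
    have h1 : ContinuousAt (fun z => φ (-s₁) (Φ.symm z)) 0 :=
      (hφx (-s₁)).continuousAt.comp (Φ.symm.continuousAt h0t)
    have h2 : Tendsto (fun z => φ (-s₁) (Φ.symm z)) (𝓝 0) (𝓝 (γ σ)) := by
      have := h1.tendsto
      rwa [hΦsymm0, hback] at this
    exact h2.eventually ((isOpen_extChartAt_source (γ σ)).mem_nhds (mem_extChartAt_source _))
  have hpr : Tendsto (fun z : ℝ × E2 => ((z.1, 0) : ℝ × E2)) (𝓝 0) (𝓝 0) := by
    have : Continuous (fun z : ℝ × E2 => ((z.1, 0) : ℝ × E2)) := by fun_prop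
    exact this.tendsto' _ _ rfl
  -- positivity of the density
  have hf0 : 0 < f₀ 0 := H.f_pos.self_of_nhds
  have hfpos : ∀ᶠ z in 𝓝 (0 : ℝ × E2), f₀ 0 / 2 < f₀ z :=
    H.f_smooth.continuous.continuousAt.eventually (lt_mem_nhds (by linarith))
  obtain ⟨δ, hδ, hδ'⟩ := Metric.eventually_nhds_iff_ball.1 hfpos
  obtain ⟨δ₂, hδ₂, hδ₂δ, hδ₂h, hδ₂τ⟩ : ∃ δ₂ : ℝ, 0 < δ₂ ∧ δ₂ ≤ δ / 2 ∧ δ₂ ≤ h / 2 ∧
      s₁ + δ₂ ≤ τ := by
    refine ⟨min (min (δ / 2) (h / 2)) (τ - s₁), ?_, ?_, ?_, ?_⟩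
    · have := hs₁m.2
      exact lt_min (lt_min (by positivity) (by positivity)) (by linarith)
    · exact (min_le_left _ _).trans (min_le_left _ _)
    · exact (min_le_left _ _).trans (min_le_right _ _)
    · have := min_le_right (min (δ / 2) (h / 2)) (τ - s₁)
      linarith
  -- the positivity of `I₀`
  obtain ⟨η, hη, hη'⟩ := Metric.eventually_nhds_iff_ball.1 H.I_low
  have hosc : ∀ᶠ x in 𝓝 (γ σ), ∃ y : E2, ‖y‖ < η ∧ ‖pm φ Φ τ y‖ < η ∧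
      ∀ s ∈ Icc 0 τ, φ s x ∈ Φ.source → |(Φ (φ s x)).1| ≤ h / 4 → ‖(Φ (φ s x)).2‖ ≤ h / 4 →
      ((Φ (φ s x)).2 = y ∨ (Φ (φ s x)).2 = pm φ Φ τ y) :=
    (hOSC E M μ X γ τ Φ h φ H.field H.orbit H.box H.flow η hη).filter_mono
      (nhds_le_nhdsSet (mem_range_self σ))
  have hDpos : ∀ᶠ x in 𝓝 (γ σ), 0 < avg φ τ (bmp Φ f₀) x :=
    (hD.filter_mono (nhds_le_nhdsSet (mem_range_self σ))).mono fun x hx => hx.1
  have hθ : ∀ᶠ x in 𝓝 (γ σ), θ x = 1 := H.θ_one.filter_mono (nhds_le_nhdsSet (mem_range_self σ))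
  have hb := H.b_pos
  obtain ⟨c₃, hc₃⟩ : ∃ c₃, c₃ = δ₂ * (f₀ 0 / 2 * b) := ⟨_, rfl⟩
  have hc₃0 : 0 < c₃ := by
    rw [hc₃]
    positivity
  refine ⟨c₃ / (C₀ * τ + 1) / ((K : ℝ) ^ 2 + 1), by positivity, ?_⟩
  have hsmall : ∀ᶠ z in 𝓝 (0 : ℝ × E2), |z.1| < δ / 2 ∧ |z.1| < h / 2 ∧ ‖z.2‖ < δ ∧ ‖z.2‖ < η := by
    have h1 : ∀ᶠ z in 𝓝 (0 : ℝ × E2), ‖z‖ < min (min (δ / 2) (h / 2)) (min δ η) := by
      have : Tendsto (fun z : ℝ × E2 => ‖z‖) (𝓝 0) (𝓝 0) := by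
        have h2 : Continuous fun z : ℝ × E2 => ‖z‖ := continuous_norm
        exact h2.tendsto' _ _ norm_zero
      exact this.eventually (gt_mem_nhds (by positivity))
    filter_upwards [h1] with z hz
    have h2 : |z.1| ≤ ‖z‖ := by
      rw [← Real.norm_eq_abs]
      exact norm_fst_le z
    have h3 : ‖z.2‖ ≤ ‖z‖ := norm_snd_le z
    have h4 := (lt_min_iff.1 hz)
    have h5 := lt_min_iff.1 h4.1
    have h6 := lt_min_iff.1 h4.2
    exact ⟨by linarith, by linarith, by linarith, by linarith⟩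
  filter_upwards [hosc, hDpos, hθ, hsrc, hzt.eventually hsmall, hzt.eventually hV,
    (hpr.comp hzt).eventually hV] with x hx1 hx2 hx3 hx4 hx5 hx6 hx7
  obtain ⟨t, y, hty⟩ : ∃ t y, Φ (φ s₁ x) = (t, y) := ⟨_, _, rfl⟩
  simp only [Function.comp_apply] at hx7
  rw [hty] at hx5 hx6 hx7
  simp only at hx5 hx6 hx7
  obtain ⟨htδ, hth, hyδ, hyη⟩ := hx5
  -- the distance
  have hdist : infDist (extChartAt 𝓘(ℝ, E) (γ σ) x)
      (extChartAt 𝓘(ℝ, E) (γ σ) '' (range γ ∩ (extChartAt 𝓘(ℝ, E) (γ σ)).source)) ≤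
        K * ‖y‖ := by
    have e1 : Φ.symm (t, y) = φ s₁ x := by
      rw [← hty]
      exact Φ.left_inv hx4
    have e2 : Φ.symm (t, 0) = γ t := by
      obtain ⟨h1, h2⟩ := hγΦ t (by linarith)
      rw [← h2]
      exact Φ.left_inv h1
    have h1 := hLip.dist_le_mul _ hx6.1 _ hx7.1
    rw [e1, hinv, e2, hφγ] at h1
    have h2 : dist (t, y) ((t, 0) : ℝ × E2) = ‖y‖ := by
      rw [Prod.dist_eq]
      simp
    rw [h2] at h1
    refine (infDist_le_dist_of_mem ?_).trans h1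
    refine ⟨γ (-s₁ + t), ⟨⟨_, rfl⟩, ?_⟩, rfl⟩
    have := hx7.2
    rwa [e2, hφγ] at this
  -- the numerator
  have hnonneg : ∀ s ∈ Icc (0 : ℝ) τ, 0 ≤ bmp Φ (fun z => f₀ z * I₀ z.2) (φ s x) := by
    intro s hs
    by_cases hsx : φ s x ∈ Φ.source
    · rw [bmp_of_mem hsx]
      by_cases hf : f₀ (Φ (φ s x)) = 0
      · rw [hf, zero_mul]
      · obtain ⟨h1, h2⟩ := H.f_supp _ hf
        obtain ⟨y', hy'1, hy'2, hy'3⟩ := hx1
        have h3 : ‖(Φ (φ s x)).2‖ < η := by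
          rcases hy'3 s hs hsx h1 h2 with h4 | h4
          · rw [h4]
            exact hy'1
          · rw [h4]
            exact hy'2
        have h4 := hη' (Φ (φ s x)).2 (by rwa [mem_ball, dist_zero_right])
        exact mul_nonneg (H.f_nonneg _) ((by positivity : (0 : ℝ) ≤ _).trans h4)
    · rw [bmp_of_notMem hsx]
  have hIy : b * ‖y‖ ^ 2 ≤ I₀ y := hη' y (by rwa [mem_ball, dist_zero_right])
  have hlow : ∀ s ∈ Icc s₁ (s₁ + δ₂), f₀ 0 / 2 * b * ‖y‖ ^ 2 ≤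
      bmp Φ (fun z => f₀ z * I₀ z.2) (φ s x) := by
    intro s hs
    have hab : |t + (s - s₁)| < h := by
      have h1 := abs_add_le t (s - s₁)
      have h2 : |s - s₁| ≤ δ₂ := by
        rw [abs_of_nonneg (by linarith [hs.1])]
        linarith [hs.2]
      linarith
    have habδ : |t + (s - s₁)| < δ := by
      have h1 := abs_add_le t (s - s₁)
      have h2 : |s - s₁| ≤ δ₂ := by
        rw [abs_of_nonneg (by linarith [hs.1])]
        linarith [hs.2]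
      linarith
    have h1 := hBXF E M μ X Φ h _ φ H.field hbox H.flow (φ s₁ x) hx4 (s - s₁)
      (by rw [hty]; exact hab)
    rw [H.flow.add, sub_add_cancel, hty] at h1
    rw [bmp_of_mem h1.1, h1.2]
    have h2 : f₀ 0 / 2 < f₀ (t + (s - s₁), y) := by
      apply hδ'
      rw [mem_ball, dist_zero_right, Prod.norm_def, Real.norm_eq_abs]
      exact max_lt habδ hyδ
    calc f₀ 0 / 2 * b * ‖y‖ ^ 2 = f₀ 0 / 2 * (b * ‖y‖ ^ 2) := by ring
      _ ≤ f₀ (t + (s - s₁), y) * I₀ y :=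
        mul_le_mul h2.le hIy (by positivity) (by linarith)
  have hN : c₃ * ‖y‖ ^ 2 ≤ avg φ τ (bmp Φ fun z => f₀ z * I₀ z.2) x := by
    unfold avg
    have h1 : ∫ s in s₁..(s₁ + δ₂), bmp Φ (fun z => f₀ z * I₀ z.2) (φ s x) ≤
        ∫ s in (0 : ℝ)..τ, bmp Φ (fun z => f₀ z * I₀ z.2) (φ s x) := by
      refine intervalIntegral.integral_mono_interval hs₁m.1 (by linarith) hδ₂τ ?_
        ((hgc x).intervalIntegrable _ _)
      rw [Filter.EventuallyLE, ae_restrict_iff' measurableSet_Ioc]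
      exact Filter.Eventually.of_forall fun s hs => hnonneg s ⟨hs.1.le, hs.2⟩
    have h2 : ∫ _ in s₁..(s₁ + δ₂), f₀ 0 / 2 * b * ‖y‖ ^ 2 ≤
        ∫ s in s₁..(s₁ + δ₂), bmp Φ (fun z => f₀ z * I₀ z.2) (φ s x) :=
      intervalIntegral.integral_mono_on (by linarith) (by simp)
        ((hgc x).intervalIntegrable _ _) hlow
    rw [intervalIntegral.integral_const, smul_eq_mul, add_sub_cancel_left] at h2
    calc c₃ * ‖y‖ ^ 2 = δ₂ * (f₀ 0 / 2 * b * ‖y‖ ^ 2) := by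
          rw [hc₃]
          ring
      _ ≤ _ := h2.trans h1
  -- the conclusion
  unfold intI
  rw [hx3, one_mul]
  have hden : avg φ τ (bmp Φ f₀) x ≤ C₀ * τ + 1 := (hDle x).trans (by linarith)
  have hy0 : 0 ≤ c₃ * ‖y‖ ^ 2 := by positivity
  have h1 : c₃ * ‖y‖ ^ 2 / (C₀ * τ + 1) ≤
      avg φ τ (bmp Φ fun z => f₀ z * I₀ z.2) x / avg φ τ (bmp Φ f₀) x :=
    div_le_div₀ (hy0.trans hN) hN hx2 hden
  refine le_trans ?_ h1
  have h2 : infDist (extChartAt 𝓘(ℝ, E) (γ σ) x)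
      (extChartAt 𝓘(ℝ, E) (γ σ) '' (range γ ∩ (extChartAt 𝓘(ℝ, E) (γ σ)).source)) ^ 2 ≤
        ((K : ℝ) ^ 2 + 1) * ‖y‖ ^ 2 := by
    have h3 := pow_le_pow_left₀ infDist_nonneg hdist 2
    rw [mul_pow] at h3
    nlinarith [sq_nonneg ‖y‖]
  calc c₃ / (C₀ * τ + 1) / ((K : ℝ) ^ 2 + 1) * _ ^ 2
      ≤ c₃ / (C₀ * τ + 1) / ((K : ℝ) ^ 2 + 1) * (((K : ℝ) ^ 2 + 1) * ‖y‖ ^ 2) := by gcongr
    _ = c₃ * ‖y‖ ^ 2 / (C₀ * τ + 1) := by
      field_simp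

end Pool.Agent.PalF
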