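import Pool.Agent.PalF.Targets2
import Pool.Agent.Pal.LIN

/-!
# A small rotation makes a non-hyperbolic linear map nonresonant (job PALF-NRS)
-/

set_option autoImplicit false

open Set Filter Topology

namespace Pool.Agent.PalF

namespace NRS_

open Pool.Agent.Pal Pool.Agent.Pal.LIN_

theorem rot_comp (s t : ℝ) : rot s ∘L rot t = rot (s + t) := by
  refine ContinuousLinearMap.ext fun x => ext_e ?_ ?_
  · rw [ContinuousLinearMap.comp_apply, rot_zero, rot_zero, rot_one, rot_zero, Real.cos_add,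
      Real.sin_add]
    ring
  · rw [ContinuousLinearMap.comp_apply, rot_one, rot_zero, rot_one, rot_one, Real.cos_add,
      Real.sin_add]
    ring

theorem tr_rot (A : E 2 →L[ℝ] E 2) (t : ℝ) : tr (rot t ∘L A) =
    Real.cos t * tr A + Real.sin t * (A (e 1) 0 - A (e 0) 1) := by
  change rot t (A (e 0)) 0 + rot t (A (e 1)) 1 = _
  rw [rot_zero, rot_one, tr]
  ring

theorem det_rot (A : E 2 →L[ℝ] E 2) (hdet : A.det = 1) (t : ℝ) : (rot t ∘L A).det = 1 := by
  rw [det_eq] at hdet ⊢
  change rot t (A (e 0)) 0 * rot t (A (e 1)) 1 - rot t (A (e 1)) 0 * rot t (A (e 0)) 1 = 1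
  rw [rot_zero, rot_one, rot_zero, rot_one]
  have hsc := Real.sin_sq_add_cos_sq t
  linear_combination (A (e 0) 0 * A (e 1) 1 - A (e 1) 0 * A (e 0) 1) * hsc + hdet

/-- Roots of the characteristic polynomial are eigenvalues. -/
theorem eig_of_root (A : E 2 →L[ℝ] E 2) (l : ℝ) (h : l ^ 2 - tr A * l + A.det = 0) :
    ∃ v : E 2, v ≠ 0 ∧ A v = l • v := by
  rw [det_eq, tr] at h
  set a := A (e 0) 0 with ha
  set b := A (e 1) 0 with hb
  set c := A (e 0) 1 with hc
  set d := A (e 1) 1 with hd
  by_cases h0 : b = 0 ∧ l = a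
  · by_cases h1 : c = 0
    · have hv : e 0 ≠ 0 := by
        intro h1
        have := congrArg (fun x : E 2 => x 0) h1
        simp [e_apply] at this
      refine ⟨e 0, hv, ext_e ?_ ?_⟩
      · rw [← ha, h0.2]
        simp [e_apply]
      · rw [← hc, h1]
        simp [e_apply]
    · set v : E 2 := (l - d) • e 0 + c • e 1 with hv
      have hv0 : v 0 = l - d := by simp [hv, e_apply]
      have hv1 : v 1 = c := by simp [hv, e_apply]
      refine ⟨v, fun hz => h1 ?_, ext_e ?_ ?_⟩
      · rw [← hv1, hz]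
        rfl
      · rw [apply_eq, PiLp.smul_apply, hv0, hv1, smul_eq_mul, ← ha, ← hb]
        linear_combination -h
      · rw [apply_eq, PiLp.smul_apply, hv0, hv1, smul_eq_mul, ← hc, ← hd]
        ring
  · set v : E 2 := b • e 0 + (l - a) • e 1 with hv
    have hv0 : v 0 = b := by simp [hv, e_apply]
    have hv1 : v 1 = l - a := by simp [hv, e_apply]
    refine ⟨v, fun hz => h0 ⟨?_, ?_⟩, ext_e ?_ ?_⟩
    · rw [← hv0, hz]
      rfl
    · have : v 1 = 0 := by
        rw [hz]
        rfl
      rw [hv1] at this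
      linarith
    · rw [apply_eq, PiLp.smul_apply, hv0, hv1, smul_eq_mul, ← ha, ← hb]
      ring
    · rw [apply_eq, PiLp.smul_apply, hv0, hv1, smul_eq_mul, ← hc, ← hd]
      linear_combination -h

/-- Eigenvalues are roots of the characteristic polynomial. -/
theorem root_of_eig (A : E 2 →L[ℝ] E 2) (l : ℝ) (v : E 2) (hv : v ≠ 0) (hl : A v = l • v) :
    l ^ 2 - tr A * l + A.det = 0 := by
  rw [det_eq, tr]
  set a := A (e 0) 0 with ha
  set b := A (e 1) 0 with hb
  set c := A (e 0) 1 with hc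
  set d := A (e 1) 1 with hd
  have h0 : a * v 0 + b * v 1 = l * v 0 := by
    have := congrArg (fun x : E 2 => x 0) hl
    simpa [apply_eq A v 0, ← ha, ← hb] using this
  have h1 : c * v 0 + d * v 1 = l * v 1 := by
    have := congrArg (fun x : E 2 => x 1) hl
    simpa [apply_eq A v 1, ← hc, ← hd] using this
  have k0 : (l ^ 2 - (a + d) * l + (a * d - b * c)) * v 0 = 0 := by
    linear_combination (l - d) * (-h0) + (-b) * h1
  have k1 : (l ^ 2 - (a + d) * l + (a * d - b * c)) * v 1 = 0 := by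
    linear_combination (l - a) * (-h1) + (-c) * h0
  by_contra hne
  apply hv
  refine ext_e ?_ ?_
  · rcases mul_eq_zero.1 k0 with h | h
    · exact absurd h hne
    · exact h
  · rcases mul_eq_zero.1 k1 with h | h
    · exact absurd h hne
    · exact h

end NRS_

open Pool.Agent.Pal Pool.Agent.Pal.LIN_ NRS_ in
theorem nrs : T_NRS := by
  intro A c hdet hc hA t₀ R ht₀
  have hc2 : c * c = 1 := by rcases hc with rfl | rfl <;> norm_num
  by_cases hNR : NoRealEigenvalue A
  · have hd1 : A.det = 1 := by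
      rcases (abs_eq (by norm_num : (0 : ℝ) ≤ 1)).1 hdet with h | h
      · exact h
      · exfalso
        set D := tr A ^ 2 - 4 * A.det with hD
        have hDpos : 0 ≤ D := by rw [hD, h]; nlinarith [sq_nonneg (tr A)]
        have hs := Real.sq_sqrt hDpos
        obtain ⟨v, hv, hv2⟩ := eig_of_root A ((tr A + Real.sqrt D) / 2) (by
          rw [hD] at hs ⊢
          nlinarith)
        exact hNR v hv _ hv2
    exact nonres A t₀ R hNR hd1 ht₀
  -- the eigenvalue `c`
  have hex : ∃ v : E 2, v ≠ 0 ∧ A v = c • v := by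
    simp only [NoRealEigenvalue] at hNR
    push Not at hNR
    obtain ⟨v, hv, a, hva⟩ := hNR
    have := hA v a hv hva
    exact ⟨v, hv, this ▸ hva⟩
  obtain ⟨v, hv, hvc⟩ := hex
  have hroot := root_of_eig A c v hv hvc
  -- the other root is `tr A - c`
  have hroot2 : (tr A - c) ^ 2 - tr A * (tr A - c) + A.det = 0 := by linear_combination hroot
  obtain ⟨v', hv', hv'2⟩ := eig_of_root A (tr A - c) hroot2
  have htr : tr A = 2 * c := by
    have := hA v' _ hv' hv'2
    linarith
  have hd1 : A.det = 1 := by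
    rw [htr] at hroot
    linear_combination hroot + hc2
  set s := A (e 1) 0 - A (e 0) 1 with hs
  have hcabs : |c| = 1 := by rcases hc with rfl | rfl <;> norm_num
  -- a small angle of the right sign
  obtain ⟨t, ht0, ht1, htne, hsg⟩ : ∃ t : ℝ, |t| ≤ t₀ / 2 ∧ |t| * (1 + |s|) ≤ 1 ∧ t ≠ 0 ∧
      c * s * Real.sin t ≤ 0 := by
    set t1 := min (t₀ / 2) (1 / (1 + |s|)) with ht1
    have h1s : 0 < 1 + |s| := by positivity
    have ht1pos : 0 < t1 := lt_min (by linarith) (by positivity)
    have h1 : t1 ≤ t₀ / 2 := min_le_left _ _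
    have h2 : t1 * (1 + |s|) ≤ 1 := by
      calc t1 * (1 + |s|) ≤ 1 / (1 + |s|) * (1 + |s|) :=
            mul_le_mul_of_nonneg_right (min_le_right _ _) h1s.le
        _ = 1 := by field_simp
    have h3 : t1 ≤ 1 := by nlinarith [abs_nonneg s]
    have hsin : 0 < Real.sin t1 := Real.sin_pos_of_pos_of_le_one ht1pos h3
    rcases le_total (c * s) 0 with h | h
    · refine ⟨t1, by rw [abs_of_pos ht1pos]; exact h1, by rw [abs_of_pos ht1pos]; exact h2,
        ht1pos.ne', ?_⟩
      exact mul_nonpos_of_nonpos_of_nonneg h hsin.le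
    · refine ⟨-t1, by rw [abs_neg, abs_of_pos ht1pos]; exact h1,
        by rw [abs_neg, abs_of_pos ht1pos]; exact h2, by linarith, ?_⟩
      rw [Real.sin_neg]
      nlinarith [mul_nonneg h hsin.le]
  have htle1 : |t| ≤ 1 := by nlinarith [abs_nonneg s, abs_nonneg t]
  have hcos : 1 / 2 < Real.cos t := by
    have := Real.one_sub_sq_div_two_le_cos (x := t)
    have h2 : t ^ 2 ≤ 1 := by
      rw [← sq_abs]
      nlinarith [abs_nonneg t]
    have h3 : 1 - t ^ 2 / 2 < Real.cos t := Real.one_sub_sq_div_two_lt_cos htne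
    linarith
  have hcos1 : Real.cos t < 1 := by
    rcases (Real.cos_le_one t).lt_or_eq with h | h
    · exact h
    · exfalso
      have h4 := Real.sin_sq_add_cos_sq t
      rw [h] at h4
      have h5 : Real.sin t = 0 := by
        have : Real.sin t ^ 2 = 0 := by linarith
        exact pow_eq_zero_iff (two_ne_zero) |>.1 this
      rcases lt_or_gt_of_ne htne with h6 | h6
      · have h7 : 0 < Real.sin (-t) := Real.sin_pos_of_pos_of_le_one (by linarith)
          (by linarith [neg_le_abs t])
        rw [Real.sin_neg, h5] at h7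
        linarith
      · have h7 : 0 < Real.sin t := Real.sin_pos_of_pos_of_le_one h6 ((le_abs_self t).trans htle1)
        linarith
  have hsin : |s * Real.sin t| ≤ 1 := by
    rw [abs_mul]
    have h1 : |Real.sin t| ≤ |t| := Real.abs_sin_le_abs
    nlinarith [abs_nonneg s, abs_nonneg t, abs_nonneg (Real.sin t)]
  have htr2 : c * tr (rot t ∘L A) = 2 * Real.cos t + c * s * Real.sin t := by
    rw [tr_rot, htr]
    linear_combination 2 * Real.cos t * hc2
  have hbound : |c * s * Real.sin t| ≤ 1 := by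
    rw [mul_assoc, abs_mul, hcabs, one_mul]
    exact hsin
  have hlt : c * tr (rot t ∘L A) < 2 := by
    rw [htr2]
    linarith
  have hgt : -2 < c * tr (rot t ∘L A) := by
    rw [htr2]
    linarith [(abs_le.1 hbound).1]
  have hsq : tr (rot t ∘L A) ^ 2 < 4 := by
    have : (c * tr (rot t ∘L A)) ^ 2 = tr (rot t ∘L A) ^ 2 := by
      rw [mul_pow, pow_two c, hc2, one_mul]
    rw [← this]
    nlinarith
  have hdt := det_rot A hd1 t
  have hNR2 : NoRealEigenvalue (rot t ∘L A) := (no_iff _ hdt).2 hsq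
  obtain ⟨t', ht', h1, h2⟩ := nonres (rot t ∘L A) (t₀ / 2) R hNR2 hdt (by linarith)
  have hcomp : rot t' ∘L (rot t ∘L A) = rot (t' + t) ∘L A := by
    rw [← rot_comp]
    rfl
  rw [hcomp] at h1 h2
  refine ⟨t' + t, ?_, h1, h2⟩
  calc |t' + t| ≤ |t'| + |t| := abs_add_le _ _
    _ ≤ t₀ := by linarith

end Pool.Agent.PalF
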