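import Pool.Agent.PalF.Targets
import Pool.Agent.PalF.DVR
import Pool.Agent.PalF.DER

/-!
PALF-NUL: an invariant closed set on which the divergence is positive is a null set.
-/

set_option autoImplicit false

open scoped Manifold ContDiff Topology
open MeasureTheory Set Filter Bundle Pool.Agent.Palis

namespace Pool.Agent.PalF

namespace NUL_

open DVR_ DER_

/-- smooth functions decreasing to the indicator of a closed set -/
lemma exists_approx (E : Type) [NormedAddCommGroup E] [NormedSpace ℝ E] [FiniteDimensional ℝ E]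
    {M : Type} [TopologicalSpace M] [ChartedSpace E M] [IsManifold 𝓘(ℝ, E) ∞ M]
    [T2Space M] [CompactSpace M] {L : Set M} (hL : IsClosed L) :
    ∃ v : ℕ → M → ℝ, (∀ k, ContMDiff 𝓘(ℝ, E) 𝓘(ℝ, ℝ) ∞ (v k)) ∧ (∀ k x, 0 ≤ v k x) ∧
      (∀ k x, v k x ≤ 1) ∧ ∀ x, Tendsto (fun k => v k x) atTop (𝓝 (L.indicator 1 x)) := by
  obtain ⟨f, f1, f2, -, f4⟩ := exists_contMDiff_zero_iff_one_iff_of_isClosed 𝓘(ℝ, E) (n := ⊤)
    (isClosed_empty (X := M)) hL (disjoint_empty L).symm
  have h0 : ∀ x, 0 ≤ f x := fun x => (f2 (mem_range_self x)).1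
  have h1 : ∀ x, f x ≤ 1 := fun x => (f2 (mem_range_self x)).2
  refine ⟨fun k x => f x ^ k, fun k => ?_, fun k x => pow_nonneg (h0 x) k,
    fun k x => pow_le_one₀ (h0 x) (h1 x), fun x => ?_⟩
  · induction k with
    | zero => simpa using contMDiff_const
    | succ k ih =>
      simp only [pow_succ]
      exact ih.mul f1
  · by_cases hx : x ∈ L
    · rw [indicator_of_mem hx]
      simp [(f4 x).1 hx]
    · rw [indicator_of_notMem hx]
      exact tendsto_pow_atTop_nhds_zero_of_lt_one (h0 x)
        (lt_of_le_of_ne (h1 x) (fun h => hx ((f4 x).2 h)))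

end NUL_

open NUL_ DER_ DVR_

theorem nul1 : T_NUL := by
  intro E _ _ _ _ _ M _ _ _ _ _ _ _ μ _ Y D φ L hY hD hφ hL hinv hpos
  obtain ⟨v, v1, v2, v3, v4⟩ := exists_approx E hL
  have hflow : Continuous (fun p : ℝ × M => φ p.1 p.2) := continuous_flow hφ
  have hcont : ∀ s, Continuous (φ s) := fun s => (smooth_flow hφ s).continuous
  have hind : ∀ t x, L.indicator (1 : M → ℝ) (φ t x) = L.indicator 1 x := by
    intro t x
    by_cases hx : x ∈ L
    · rw [indicator_of_mem hx, indicator_of_mem (hinv t x hx)]; rfl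
    · rw [indicator_of_notMem hx, indicator_of_notMem]
      intro h
      apply hx
      have := hinv (-t) _ h
      rw [hφ.add, neg_add_cancel, hφ.zero] at this
      exact this
  obtain ⟨C, hC⟩ := isCompact_univ.exists_bound_of_continuousOn hD.1.continuousOn
  -- the derivative
  have hcd : ∀ k, Continuous (fun t => ∫ x, v k (φ t x) * D x ∂μ) := by
    intro k
    apply continuous_of_dominated (bound := fun _ => C)
    · intro t
      exact (((v1 k).continuous.comp (hcont t)).mul hD.1).aestronglyMeasurable
    · intro t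
      refine Eventually.of_forall fun x => ?_
      rw [norm_mul, Real.norm_of_nonneg (v2 k _)]
      calc _ ≤ 1 * ‖D x‖ := by gcongr; exact v3 k _
        _ ≤ C := by rw [one_mul]; exact hC x (mem_univ x)
    · exact integrable_const C
    · refine Eventually.of_forall fun x => ?_
      exact ((v1 k).continuous.comp (hflow.comp (by fun_prop : Continuous fun t : ℝ => (t, x)))).mul
        continuous_const
  have hint : ∀ k, ∫ t in (0 : ℝ)..1, (-∫ x, v k (φ t x) * D x ∂μ) =
      ∫ x, v k (φ 1 x) ∂μ - ∫ x, v k (φ 0 x) ∂μ := by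
    intro k
    apply intervalIntegral.integral_eq_sub_of_hasDerivAt (f := fun t => ∫ x, v k (φ t x) ∂μ)
    · intro t _
      exact der1 E M μ Y D φ (v k) t hY hD hφ (v1 k)
    · exact (hcd k).neg.intervalIntegrable _ _
  have lim1 : ∀ t, Tendsto (fun k => ∫ x, v k (φ t x) ∂μ) atTop
      (𝓝 (∫ x, L.indicator (1 : M → ℝ) x ∂μ)) := by
    intro t
    apply tendsto_integral_of_dominated_convergence (fun _ => (1 : ℝ))
    · intro k
      exact ((v1 k).continuous.comp (hcont t)).aestronglyMeasurable
    · exact integrable_const 1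
    · intro k
      refine Eventually.of_forall fun x => ?_
      rw [Real.norm_of_nonneg (v2 k _)]
      exact v3 k _
    · refine Eventually.of_forall fun x => ?_
      rw [← hind t x]
      exact v4 _
  have lim2 : ∀ t, Tendsto (fun k => -∫ x, v k (φ t x) * D x ∂μ) atTop
      (𝓝 (-∫ x, L.indicator (1 : M → ℝ) x * D x ∂μ)) := by
    intro t
    apply Tendsto.neg
    apply tendsto_integral_of_dominated_convergence (fun _ => C)
    · intro k
      exact (((v1 k).continuous.comp (hcont t)).mul hD.1).aestronglyMeasurable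
    · exact integrable_const C
    · intro k
      refine Eventually.of_forall fun x => ?_
      rw [norm_mul, Real.norm_of_nonneg (v2 k _)]
      calc _ ≤ 1 * ‖D x‖ := by gcongr; exact v3 k _
        _ ≤ C := by rw [one_mul]; exact hC x (mem_univ x)
    · refine Eventually.of_forall fun x => ?_
      rw [← hind t x]
      exact (v4 _).mul_const _
  have lim3 : Tendsto (fun k => ∫ t in (0 : ℝ)..1, (-∫ x, v k (φ t x) * D x ∂μ)) atTop
      (𝓝 (∫ t in (0 : ℝ)..1, (-∫ x, L.indicator (1 : M → ℝ) x * D x ∂μ))) := by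
    apply intervalIntegral.tendsto_integral_filter_of_dominated_convergence
      (fun _ => C * μ.real univ)
    · exact Eventually.of_forall fun k => (hcd k).neg.aestronglyMeasurable
    · refine Eventually.of_forall fun k => Eventually.of_forall fun t _ => ?_
      rw [norm_neg]
      apply norm_integral_le_of_norm_le_const
      refine Eventually.of_forall fun x => ?_
      rw [norm_mul, Real.norm_of_nonneg (v2 k _)]
      calc _ ≤ 1 * ‖D x‖ := by gcongr; exact v3 k _
        _ ≤ C := by rw [one_mul]; exact hC x (mem_univ x)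
    · exact intervalIntegrable_const
    · exact Eventually.of_forall fun t _ => lim2 t
  have lim4 : Tendsto (fun k => ∫ x, v k (φ 1 x) ∂μ - ∫ x, v k (φ 0 x) ∂μ) atTop
      (𝓝 (∫ x, L.indicator (1 : M → ℝ) x ∂μ - ∫ x, L.indicator (1 : M → ℝ) x ∂μ)) :=
    (lim1 1).sub (lim1 0)
  have key : (∫ t in (0 : ℝ)..1, (-∫ x, L.indicator (1 : M → ℝ) x * D x ∂μ)) = 0 := by
    have e : (fun k => ∫ t in (0 : ℝ)..1, (-∫ x, v k (φ t x) * D x ∂μ)) =
      (fun k => ∫ x, v k (φ 1 x) ∂μ - ∫ x, v k (φ 0 x) ∂μ) := by
      funext k; exact hint k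
    rw [e] at lim3
    have := tendsto_nhds_unique lim3 lim4
    rw [this, sub_self]
  rw [intervalIntegral.integral_const, sub_zero, one_smul, neg_eq_zero] at key
  have e2 : (fun x => L.indicator (1 : M → ℝ) x * D x) = L.indicator D := by
    funext x
    by_cases hx : x ∈ L
    · rw [indicator_of_mem hx, indicator_of_mem hx]; simp
    · rw [indicator_of_notMem hx, indicator_of_notMem hx]; simp
  have hDi : Integrable D μ := integrable_of_continuous μ hD.1
  rw [e2, integral_eq_zero_iff_of_nonneg] at key
  · have : ∀ᵐ x ∂μ, x ∉ L := by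
      filter_upwards [key] with x hx hxL
      rw [indicator_of_mem hxL] at hx
      exact (hpos x hxL).ne' hx
    rw [ae_iff] at this
    simpa using this
  · intro x
    by_cases hx : x ∈ L
    · simp only [Pi.zero_apply]; rw [indicator_of_mem hx]; exact (hpos x hx).le
    · simp only [Pi.zero_apply]; rw [indicator_of_notMem hx]
  · exact hDi.indicator hL.measurableSet

end Pool.Agent.PalF
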