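import Pool.Agent.PalF.Targets2
import Pool.Agent.PalF.ENG
import Pool.Agent.Pal.FINAL

/-!
# Closed orbits: assembly
-/

set_option autoImplicit false
set_option linter.unusedSectionVars false

open scoped Manifold ContDiff Topology
open MeasureTheory Set Filter Bundle Asymptotics Metric Pool.Agent.Palis

namespace Pool.Agent.PalF

namespace ORB_

variable {E : Type} [NormedAddCommGroup E] [NormedSpace ℝ E] [FiniteDimensional ℝ E]
  {M : Type} [TopologicalSpace M] [ChartedSpace E M] [IsManifold 𝓘(ℝ, E) ∞ M]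

theorem per_int {γ : ℝ → M} {τ : ℝ} (h : ∀ s, γ (s + τ) = γ s) (k : ℕ) (s : ℝ) :
    γ (s + k * τ) = γ s := by
  induction k with
  | zero => simp
  | succ k ih =>
    rw [← ih, ← h (s + k * τ)]
    congr 1
    push_cast
    ring

theorem per_intz {γ : ℝ → M} {τ : ℝ} (h : ∀ s, γ (s + τ) = γ s) (k : ℤ) (s : ℝ) :
    γ (s + k * τ) = γ s := by
  obtain ⟨n, rfl | rfl⟩ := k.eq_nat_or_neg
  · exact_mod_cast per_int h n s
  · have := per_int h n (s + ((-(n : ℤ) : ℤ) : ℝ) * τ)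
    rw [← this]
    congr 1
    push_cast
    ring

theorem range_compact {γ : ℝ → M} {τ : ℝ} (hτ : 0 < τ) (hγ : Continuous γ)
    (h : ∀ s, γ (s + τ) = γ s) : IsCompact (range γ) := by
  have : range γ = γ '' Icc 0 τ := by
    apply Subset.antisymm
    · rintro _ ⟨s, rfl⟩
      refine ⟨s + (-⌊s / τ⌋ : ℤ) * τ, ⟨?_, ?_⟩, per_intz h _ s⟩
      · have := Int.floor_le (s / τ)
        rw [le_div_iff₀ hτ] at this
        push_cast
        linarith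
      · have := (Int.lt_floor_add_one (s / τ)).le
        rw [div_le_iff₀ hτ] at this
        push_cast
        linarith
    · exact image_subset_range _ _
  rw [this]
  exact isCompact_Icc.image hγ

theorem curve_add {X : ∀ x : M, TangentSpace 𝓘(ℝ, E) x} {γ : ℝ → M}
    (h : IsMIntegralCurve γ X) (s : ℝ) : IsMIntegralCurve (fun t => γ (s + t)) X := by
  have := h.comp_add s
  convert this using 1
  funext t
  simp [add_comm]

theorem orbit_invariant [T2Space M] {X : ∀ x : M, TangentSpace 𝓘(ℝ, E) x}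
    (hX : IsSmoothField E X) {γ : ℝ → M} (h : IsMIntegralCurve γ X) :
    Invariant E X (range γ) := by
  rintro c hc ⟨s, hs⟩ t
  have := ENG_.curve_uniq hX hc (curve_add h s) (by simp [hs])
  rw [this]
  exact mem_range_self _

theorem orbit_transitive {X : ∀ x : M, TangentSpace 𝓘(ℝ, E) x} {γ : ℝ → M} {τ : ℝ}
    (hτ : 0 < τ) (h : IsMIntegralCurve γ X) (hp : ∀ s, γ (s + τ) = γ s) :
    Transitive E X (range γ) := by
  refine ⟨γ, h, mem_range_self _, ?_⟩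
  rintro _ ⟨s, rfl⟩
  apply subset_closure
  refine ⟨s + (⌈|s| / τ⌉ : ℤ) * τ, ?_, per_intz hp _ s⟩
  have h1 := Int.le_ceil (|s| / τ)
  rw [div_le_iff₀ hτ] at h1
  rw [mem_Ici]
  linarith [neg_abs_le s]

theorem hasDiv_of_divFree [MeasurableSpace M] {μ : Measure M}
    {X : ∀ x : M, TangentSpace 𝓘(ℝ, E) x} (h : DivFree E μ X) : HasDiv E μ X (fun _ => 0) := by
  refine ⟨continuous_const, fun η hη => ?_⟩
  simp only [mul_zero, add_zero]
  exact h η hη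

theorem divFree_of_hasDiv [MeasurableSpace M] {μ : Measure M}
    {X : ∀ x : M, TangentSpace 𝓘(ℝ, E) x} {D : M → ℝ} (h : HasDiv E μ X D)
    (hD : ∀ x, D x = 0) : DivFree E μ X := by
  intro η hη
  have := h.2 η hη
  simp only [hD, mul_zero, add_zero] at this
  exact this

theorem crNear_trans {r : ℕ} {X Y Z : ∀ x : M, TangentSpace 𝓘(ℝ, E) x} (hX : IsSmoothField E X)
    (hY : IsSmoothField E Y) (hZ : IsSmoothField E Z) {x₀ : M} {K : Set M} {a b : ℝ}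
    (hK : K ⊆ (extChartAt 𝓘(ℝ, E) x₀).source)
    (h1 : CrNear E r X Y x₀ K a) (h2 : CrNear E r Y Z x₀ K b) : CrNear E r X Z x₀ K (a + b) := by
  intro x hx k hk
  have hy : extChartAt 𝓘(ℝ, E) x₀ x ∈ (extChartAt 𝓘(ℝ, E) x₀).target :=
    (extChartAt 𝓘(ℝ, E) x₀).map_source (hK hx)
  let X' : VField E M ⊤ := ⟨X, hX⟩
  let Y' : VField E M ⊤ := ⟨Y, hY⟩
  let Z' : VField E M ⊤ := ⟨Z, hZ⟩
  have e : jetMap x₀ (k := k) (r := ⊤) le_top hy (Z' - X') =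
      jetMap x₀ le_top hy (Z' - Y') + jetMap x₀ le_top hy (Y' - X') := by
    rw [← map_add]
    congr 1
    abel
  have e1 : ‖jetMap x₀ (k := k) (r := ⊤) le_top hy (Z' - Y')‖ < b := h2 x hx k hk
  have e2 : ‖jetMap x₀ (k := k) (r := ⊤) le_top hy (Y' - X')‖ < a := h1 x hx k hk
  have e3 : iteratedFDeriv ℝ k (localRep E (fun z => Z z - X z) x₀) (extChartAt 𝓘(ℝ, E) x₀ x) =
      jetMap x₀ (k := k) (r := ⊤) le_top hy (Z' - X') := rfl
  rw [e3, e]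
  exact (norm_add_le _ _).trans_lt (by linarith)

theorem approx_mono {r r' : ℕ} (h : r ≤ r') {X : ∀ x : M, TangentSpace 𝓘(ℝ, E) x}
    {S : Set (∀ x : M, TangentSpace 𝓘(ℝ, E) x)} (hA : Approx E r' X S) : Approx E r X S := by
  intro N x₀ K ε hK hε
  obtain ⟨Y, hY, h1⟩ := hA N x₀ K ε hK hε
  exact ⟨Y, hY, fun i x hx k hk => h1 i x hx k (hk.trans h)⟩

end ORB_

open ORB_ ENG_

theorem orb1 (hFLM : T_FLM) (hVOL : T_VOL) (hDVR : T_DVR) (hBX1 : T_BX1) (hBX2 : T_BX2)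
    (hBX3 : T_BX3) (hOBX : T_OBX) (hOBF : T_OBF) (hPM1 : T_PM1) (hPM2 : T_PM2) (hPM3 : T_PM3)
    (hNRS : T_NRS) (hTWA : T_TWA) (hTWB : T_TWB) (hIVD : T_IVD) (hIVQ : T_IVQ) (hIVA : T_IVA)
    (hENG : T_ENG) : T_ORB := by
  intro E _ _ _ _ _ M _ _ _ _ _ _ _ _ μ X γ τ r₀ hdim hμ hX hdiv hγ hnh
  obtain ⟨hfin, hopen, -⟩ := hVOL E M μ hμ
  apply approx_mono (Nat.le_succ r₀)
  set r : ℕ := r₀ + 1 with hr
  have hr1 : 1 ≤ r := by omega
  obtain ⟨φ, hφ⟩ := hFLM E M X hX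
  obtain ⟨Φ₁, h₁, g, hpb, hp₁, hp₁'⟩ := hBX1 E M μ X (γ 0) hdim hμ hX hγ.2.1
  obtain ⟨Φ₂, h₂, hb, hp₂, hp₂'⟩ := hBX3 E M μ X (γ 0) Φ₁ h₁ g hpb
    (hBX2 E M μ X Φ₁ h₁ g hdiv hpb) hp₁ hp₁'
  obtain ⟨Φ, h, hob⟩ := hOBX E M μ X γ τ Φ₂ h₂ hX hγ hb hp₂ hp₂'
  obtain ⟨hP0, hPs, δ, hδ, hδh, hPδ⟩ := hPM1 E M μ X γ τ Φ h φ hX hγ hob hφ τ (Or.inl rfl)
  obtain ⟨U₁, hU₁, hPa⟩ := hPM2 E M μ X γ τ Φ h φ hX hdiv hγ hob hφ τ (Or.inl rfl)
  obtain ⟨c, hc, hPc⟩ := hPM3 E M μ X γ τ Φ h φ hX hγ hob hφ hnh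
  have hdet : |(fderiv ℝ (pm φ Φ τ) 0).det| = 1 := by
    refine Pal.jac 2 (pm φ Φ τ) (U₁ ∩ ball 0 δ) (inter_mem hU₁ (ball_mem_nhds _ hδ))
      (hPs.of_le (by norm_cast)) ?_ (fun A hA => hPa A (hA.trans inter_subset_left))
    intro y hy y' hy' he
    have e1 := (hPδ y (by simpa using hy.2)).2.2.2.2.1
    have e2 := (hPδ y' (by simpa using hy'.2)).2.2.2.2.1
    rw [he] at e1
    rw [← e1, e2]
  obtain ⟨T, β, χ, hT⟩ := hTWA E M μ X Φ h hob.1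
  obtain ⟨Φ', h', hTW⟩ := hTWB E M μ X T γ τ Φ h β χ φ hX hγ hob hφ hT
  intro N x₀ K ε hK hε
  choose BT hBT0 hBT using fun i => size_bound hT.smooth r (x₀ i) (hK i).1 (hK i).2
  set Bn : ℝ := 1 + ∑ i, BT i with hBn
  have hsum0 : 0 ≤ ∑ i, BT i := Finset.sum_nonneg fun i _ => hBT0 i
  have hBn0 : 0 < Bn := by linarith
  have hBTi : ∀ i, BT i < Bn := fun i => by
    have := Finset.single_le_sum (f := fun i => BT i) (fun i _ => hBT0 i) (Finset.mem_univ i)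
    rw [hBn]
    linarith
  obtain ⟨t, ht, hell, hnr⟩ := hNRS (fderiv ℝ (pm φ Φ τ) 0) c hdet hc
    (fun v a hv => hPc v a hv) (ε / (2 * Bn)) (r + 1) (by positivity)
  -- the twisted field
  obtain ⟨hγ', hob', hpm'⟩ := hTW t
  set X' : ∀ x : M, TangentSpace 𝓘(ℝ, E) x := fun x => X x + t • T x with hX'
  have hT0 := hasDiv_of_divFree hT.div
  have hTt := (hDVR E M μ T T _ _ hT.smooth hT.smooth hT0 hT0).2.2 (fun _ => t) contMDiff_const
  obtain ⟨hX's, hDX', -⟩ := hDVR E M μ X (fun x => t • T x) _ _ hX hTt.1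
    (hasDiv_of_divFree hdiv) hTt.2
  have hdiv' : DivFree E μ X' := by
    refine divFree_of_hasDiv hDX' fun x => ?_
    have : lieD (fun _ : M => t) T x = 0 := by
      unfold lieD
      rw [mfderiv_const]
      rfl
    simp only [this, mul_zero, add_zero]
  obtain ⟨φ', hφ'⟩ := hFLM E M X' hX's
  have hev := hpm' φ' hφ'
  obtain ⟨hQ0, hQs, δ₁, hδ₁, hδh₁, hQδ⟩ := hPM1 E M μ X' γ τ Φ' h' φ' hX's hγ' hob' hφ' τ
    (Or.inl rfl)
  obtain ⟨hR0, hRs, δ₂, hδ₂, hδh₂, hRδ⟩ := hPM1 E M μ X' γ τ Φ' h' φ' hX's hγ' hob' hφ' (-τ)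
    (Or.inr rfl)
  obtain ⟨V₁, hV₁, hQa⟩ := hPM2 E M μ X' γ τ Φ' h' φ' hX's hdiv' hγ' hob' hφ' τ (Or.inl rfl)
  obtain ⟨V₂, hV₂, hRa⟩ := hPM2 E M μ X' γ τ Φ' h' φ' hX's hdiv' hγ' hob' hφ' (-τ) (Or.inr rfl)
  have hder : fderiv ℝ (pm φ' Φ' τ) 0 = Pal.rot t ∘L fderiv ℝ (pm φ Φ τ) 0 := by
    rw [Filter.EventuallyEq.fderiv_eq (f := fun y => Pal.rot t (pm φ Φ τ y)) hev]
    have h1 : HasFDerivAt (pm φ Φ τ) (fderiv ℝ (pm φ Φ τ) 0) 0 :=
      (hPs.differentiableAt (by norm_num)).hasFDerivAt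
    exact ((Pal.rot t).hasFDerivAt.comp 0 h1).fderiv
  set U : Set E2 := ball 0 (min δ₁ δ₂) ∩ (V₁ ∩ V₂) with hU
  have hUn : U ∈ 𝓝 (0 : E2) :=
    inter_mem (ball_mem_nhds _ (lt_min hδ₁ hδ₂)) (inter_mem hV₁ hV₂)
  have hU1 : ∀ y ∈ U, ‖y‖ < δ₁ := fun y hy => by
    have := hy.1
    rw [mem_ball_zero_iff] at this
    exact this.trans_le (min_le_left _ _)
  have hU2 : ∀ y ∈ U, ‖y‖ < δ₂ := fun y hy => by
    have := hy.1
    rw [mem_ball_zero_iff] at this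
    exact this.trans_le (min_le_right _ _)
  obtain ⟨I₀, b, hI₀s, hI₀0, hb0, hI₀b, hI₀o⟩ := Pal.tBIRK r (pm φ' Φ' τ) (pm φ' Φ' (-τ)) U hr1
    hQ0 hR0 (hQs.of_le (by exact_mod_cast le_top)) hRs.continuousAt hUn
    (fun y hy => (hQδ y (hU1 y hy)).2.2.2.1.continuousAt.continuousWithinAt)
    (fun y hy => (hRδ y (hU2 y hy)).2.2.2.1.continuousAt.continuousWithinAt)
    (fun y hy => (hQδ y (hU1 y hy)).2.2.2.2.1)
    (fun y hy => by
      have := (hRδ y (hU2 y hy)).2.2.2.2.1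
      rwa [neg_neg] at this)
    (fun A hA => hQa A (hA.trans (inter_subset_right.trans inter_subset_left)))
    (fun A hA => hRa A (hA.trans (inter_subset_right.trans inter_subset_right)))
    (by rw [hder]; exact hell) (by rw [hder]; exact hnr)
  obtain ⟨f₀, θ, hdata⟩ := hIVD E M μ X' γ τ Φ' h' φ' I₀ b hX's hγ' hob' hφ' hI₀s hI₀0 hb0 hI₀b
  have hQM := hIVQ E M μ X' γ τ Φ' h' φ' f₀ I₀ b θ hdata
  have hAI := hIVA E M μ X' γ τ Φ' h' φ' f₀ I₀ b θ r hdata hI₀o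
  obtain ⟨-, hper, -⟩ := hOBF E M μ X' γ τ Φ' h' φ' hX's hγ' hob' hφ'
  have hγc : Continuous γ := hγ'.1.continuous
  have hA := hENG E M μ X' r (range γ) (intI Φ' φ' τ f₀ I₀ θ) hr1 hμ hX's hdiv'
    (range_compact hγ'.2.2.1 hγc hper) (range_nonempty γ) (orbit_invariant hX's hγ'.1)
    (orbit_transitive hγ'.2.2.1 hγ'.1 hper) hQM hAI
  obtain ⟨Y, ⟨hYs, hYX, hYA⟩, hYn⟩ := hA N x₀ K (ε / 2) hK (by positivity)
  refine ⟨Y, ⟨hYs, ?_, hYA⟩, fun i => ?_⟩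
  · refine ⟨transfer hYX hγ'.1 (fun t => mem_range_self t), ?_, hγ'.2.2⟩
    rw [hYX _ (mem_range_self 0)]
    exact hγ'.2.1
  · have h1 : CrNear E r X X' (x₀ i) (K i) (ε / 2) := by
      intro x hx k hk
      have hy : extChartAt 𝓘(ℝ, E) (x₀ i) x ∈ (extChartAt 𝓘(ℝ, E) (x₀ i)).target :=
        (extChartAt 𝓘(ℝ, E) (x₀ i)).map_source ((hK i).2 hx)
      have e1 : localRep E (fun z => X' z - X z) (x₀ i) = t • localRep E T (x₀ i) := by
        rw [← localRep_smul]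
        congr 1
        funext z
        show X z + t • T z - X z = t • T z
        abel
      have c1 : ContDiffAt ℝ k (localRep E T (x₀ i)) (extChartAt 𝓘(ℝ, E) (x₀ i) x) :=
        localRep_contDiffAt (r := ⊤) (⟨T, hT.smooth⟩ : VField E M ⊤) (x₀ i) le_top hy
      rw [e1, iteratedFDeriv_const_smul_apply c1, norm_smul, Real.norm_eq_abs]
      calc |t| * ‖iteratedFDeriv ℝ k (localRep E T (x₀ i)) (extChartAt 𝓘(ℝ, E) (x₀ i) x)‖
          ≤ (ε / (2 * Bn)) * BT i := mul_le_mul ht (hBT i x hx k hk) (norm_nonneg _)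
            (by positivity)
        _ < (ε / (2 * Bn)) * Bn := mul_lt_mul_of_pos_left (hBTi i) (by positivity)
        _ = ε / 2 := by field_simp
    have := crNear_trans hX hX's hYs (hK i).2 h1 (hYn i)
    rwa [add_halves] at this

end Pool.Agent.PalF
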