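import Pool.Agent.PalF.BXF
import Pool.Agent.PalF.ORB

/-!
# The closed orbit in an orbit box
-/

set_option autoImplicit false
set_option linter.unusedSectionVars false

open scoped Manifold ContDiff Topology
open MeasureTheory Set Filter Bundle Asymptotics Metric Pool.Agent.Palis

namespace Pool.Agent.PalF

theorem obf1 : T_OBF := by
  intro E _ _ _ M _ _ _ _ _ _ μ X γ τ Φ h φ hX hγ hob hφ
  obtain ⟨hc, hne, hτ, hγτ, hmin⟩ := hγ
  obtain ⟨hb, hp, hp0, hax, h8⟩ := hob
  have e1 : ∀ s t, φ s (γ t) = γ (s + t) := by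
    intro s t
    have h1 := ENG_.curve_uniq hX (hφ.curve (γ t)) (ORB_.curve_add hc t)
      (by
        show φ 0 (γ t) = γ (t + 0)
        rw [hφ.zero, add_zero])
    have h2 := congrFun h1 s
    rw [add_comm s t]
    exact h2
  have e2 : ∀ s, γ (s + τ) = γ s := by
    intro s
    rw [← e1 s τ, hγτ, e1, add_zero]
  have e3 : ∀ t, |t| < h → γ t ∈ Φ.source ∧ Φ (γ t) = (t, 0) := by
    intro t ht
    have h1 := bxf1 E M μ X Φ h (fun _ => 1) φ hX hb hφ (γ 0) hp t
      (by rw [hp0]; simpa using ht)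
    rw [e1, add_zero, hp0] at h1
    simpa using h1
  refine ⟨e1, e2, e3, fun s hs => ?_⟩
  set t := (Φ (γ s)).1 with ht
  have h2 : Φ (γ s) = (t, 0) := Prod.ext rfl (hax s hs)
  have ht' : |t| < h := by
    have := Φ.map_source hs
    rw [hb.target] at this
    exact abs_lt.mpr this.1
  have h3 : γ s = γ t := by
    rw [← Φ.left_inv hs, ← Φ.left_inv (e3 t ht').1, h2, (e3 t ht').2]
  have h4 : γ (s - t) = γ 0 := by
    have h5 : φ (-t) (γ s) = φ (-t) (γ t) := by rw [h3]
    rw [e1, e1] at h5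
    rw [show s - t = -t + s by ring, h5]
    congr 1
    ring
  set u := s - t with hu
  set k : ℤ := ⌊u / τ⌋ with hk
  have h5 : γ (u + ((-k : ℤ) : ℝ) * τ) = γ 0 := by
    rw [ORB_.per_intz e2, h4]
  have h6 : 0 ≤ u - k * τ := by
    have := Int.floor_le (u / τ)
    rw [le_div_iff₀ hτ] at this
    linarith
  have h7 : u - k * τ < τ := by
    have := Int.lt_floor_add_one (u / τ)
    rw [div_lt_iff₀ hτ] at this
    linarith
  have h8' : u + ((-k : ℤ) : ℝ) * τ = u - k * τ := by push_cast; ring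
  rw [h8'] at h5
  have h9 : u - k * τ = 0 := by
    by_contra hne'
    exact hmin _ (lt_of_le_of_ne h6 (Ne.symm hne')) h7 h5
  exact ⟨k, by linarith⟩

end Pool.Agent.PalF
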