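import Pool.Agent.PalF.BXF
import Pool.Agent.PalF.ORB

/-!
# Small boxes around a point of a closed orbit are orbit boxes
-/

set_option autoImplicit false
set_option linter.unusedSectionVars false

open scoped Manifold ContDiff Topology
open MeasureTheory Set Filter Bundle Asymptotics Metric Pool.Agent.Palis

namespace Pool.Agent.PalF

open BXF_ in
theorem obx1 : T_OBX := by
  intro E _ _ _ M _ _ _ _ _ _ μ X γ τ Φ h hX hγ hb hp hp0
  have : IsManifold 𝓘(ℝ, E) 1 M := IsManifold.of_le (n := ∞) (by norm_cast)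
  obtain ⟨hc, hne, hτ, hγτ, hmin⟩ := hγ
  have hh : 0 < h := hb.pos
  have e2 : ∀ s, γ (s + τ) = γ s := by
    intro s
    have h1 := ENG_.curve_uniq hX (ORB_.curve_add hc τ) hc
      (by
        show γ (τ + 0) = γ 0
        rw [add_zero, hγτ])
    have h2 := congrFun h1 s
    rw [add_comm s τ]
    exact h2
  have e3 : ∀ t, |t| < h → γ t ∈ Φ.source ∧ Φ (γ t) = (t, 0) := by
    intro t ht
    rw [abs_lt] at ht
    have h1 : IsMIntegralCurveOn (fun u => Φ.symm (0 + u, (0 : E2))) X (Ioo (-h - 0) (h - 0)) :=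
      line_curve hb (mem_ball_self hh)
    have h2 : IsMIntegralCurveOn γ X (Ioo (-h - 0) (h - 0)) := hc.isMIntegralCurveOn _
    have h3 := isMIntegralCurveOn_Ioo_eqOn_of_contMDiff_boundaryless (t₀ := 0)
      ⟨by linarith, by linarith⟩ (ContMDiff.of_le hX (by norm_cast)) h2 h1
      (by
        show γ 0 = Φ.symm (0 + 0, 0)
        rw [add_zero, ← Φ.left_inv hp, hp0]
        rfl)
    have h4 : γ t = Φ.symm (t, 0) := by
      have := h3 (show t ∈ Ioo (-h - 0) (h - 0) from ⟨by linarith, by linarith⟩)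
      simpa using this
    have hz : ((t, 0) : ℝ × E2) ∈ Φ.target := by
      rw [hb.target]
      exact ⟨⟨by linarith, by linarith⟩, mem_ball_self hh⟩
    rw [h4]
    exact ⟨Φ.map_target hz, Φ.right_inv hz⟩
  -- the compact piece of the orbit
  set h₁ : ℝ := min (h / 2) (τ / 4) with hh₁
  have h1pos : 0 < h₁ := lt_min (by linarith) (by linarith)
  have h1h : h₁ < h := lt_of_le_of_lt (min_le_left _ _) (by linarith)
  have h1τ : h₁ ≤ τ / 4 := min_le_right _ _
  have hcont : Continuous γ := hc.continuous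
  set K : Set M := γ '' Icc h₁ (τ - h₁) with hK
  have hKc : IsCompact K := isCompact_Icc.image hcont
  have hK0 : γ 0 ∉ K := by
    rintro ⟨t, ht, hteq⟩
    exact hmin t (lt_of_lt_of_le h1pos ht.1) (lt_of_le_of_lt ht.2 (by linarith)) hteq
  have h0t : (0 : ℝ × E2) ∈ Φ.target := by
    rw [← hp0]
    exact Φ.map_source hp
  have hsymm0 : Φ.symm 0 = γ 0 := by
    rw [← hp0]
    exact Φ.left_inv hp
  have hnb : Φ.symm ⁻¹' Kᶜ ∈ 𝓝 (0 : ℝ × E2) := by
    have hca : ContinuousAt Φ.symm 0 := Φ.continuousAt_symm h0t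
    refine hca.preimage_mem_nhds ?_
    rw [hsymm0]
    exact hKc.isClosed.isOpen_compl.mem_nhds hK0
  obtain ⟨ε, hε, hball⟩ := Metric.mem_nhds_iff.1 hnb
  set h' : ℝ := min ε (min h₁ (τ / 16)) with hh'
  have h'pos : 0 < h' := lt_min hε (lt_min h1pos (by linarith))
  have h'ε : h' ≤ ε := min_le_left _ _
  have h'1 : h' ≤ h₁ := (min_le_right _ _).trans (min_le_left _ _)
  have h'τ : h' ≤ τ / 16 := (min_le_right _ _).trans (min_le_right _ _)
  set s : Set (ℝ × E2) := Ioo (-h') h' ×ˢ ball 0 h' with hs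
  have hso : IsOpen s := isOpen_Ioo.prod isOpen_ball
  have hst : s ⊆ Φ.target := by
    rw [hb.target]
    exact prod_mono (Ioo_subset_Ioo (by linarith) (by linarith)) (ball_subset_ball (by linarith))
  have hsK : ∀ z ∈ s, Φ.symm z ∉ K := by
    intro z hz
    have hz' : z ∈ ball (0 : ℝ × E2) ε := by
      rw [mem_ball_zero_iff, Prod.norm_def, max_lt_iff]
      refine ⟨?_, ?_⟩
      · rw [Real.norm_eq_abs, abs_lt]
        exact ⟨by linarith [hz.1.1], by linarith [hz.1.2]⟩
      · have := hz.2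
        rw [mem_ball_zero_iff] at this
        linarith
    exact hball hz'
  set Φ' : OpenPartialHomeomorph M (ℝ × E2) := (Φ.symm.restrOpen s hso).symm with hΦ'
  have htar : Φ'.target = s := by
    show Φ.symm.source ∩ s = s
    exact inter_eq_right.2 hst
  have hsrc : Φ'.source ⊆ Φ.source := by
    intro x hx
    have h1 := Φ'.map_source hx
    rw [htar] at h1
    have h2 : Φ.symm (Φ' x) = x := Φ'.left_inv hx
    rw [← h2]
    exact Φ.map_target (hst h1)
  have htsub : Φ'.target ⊆ Φ.target := by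
    rw [htar]
    exact hst
  have hcoe : (Φ' : M → ℝ × E2) = Φ := rfl
  have hcoes : (Φ'.symm : ℝ × E2 → M) = Φ.symm := rfl
  have h0s : (0 : ℝ × E2) ∈ Φ'.target := by
    rw [htar]
    exact ⟨⟨by simpa using h'pos, by simpa using h'pos⟩, mem_ball_self h'pos⟩
  have hγ0 : γ 0 ∈ Φ'.source := by
    have := Φ'.map_target h0s
    rwa [hcoes, hsymm0] at this
  refine ⟨Φ', h', ⟨h'pos, htar, ?_, ?_, ?_, ?_, ?_, ?_⟩, hγ0, hp0, ?_, by linarith⟩
  · exact hb.smooth.mono hsrc
  · exact hb.smooth_symm.mono htsub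
  · intro x hx
    exact hb.field x (hsrc hx)
  · exact contDiffOn_const
  · intro z _
    exact one_pos
  · intro A hA hmA
    exact hb.meas A (hA.trans hsrc) hmA
  · intro u hu
    rw [hcoe]
    set k : ℤ := ⌊u / τ⌋ with hk
    set v : ℝ := u - k * τ with hv
    have h5 : γ u = γ v := by
      have h6 := ORB_.per_intz e2 k v
      rw [← h6, hv]
      congr 1
      ring
    have h6 : 0 ≤ v := by
      have := Int.floor_le (u / τ)
      rw [le_div_iff₀ hτ] at this
      linarith
    have h7 : v < τ := by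
      have := Int.lt_floor_add_one (u / τ)
      rw [div_lt_iff₀ hτ] at this
      linarith
    rw [h5]
    rcases lt_or_ge v h₁ with hv1 | hv1
    · rw [(e3 v (by rw [abs_of_nonneg h6]; linarith)).2]
    rcases lt_or_ge (τ - h₁) v with hv2 | hv2
    · have h8 : γ v = γ (v - τ) := by
        have := e2 (v - τ)
        rw [sub_add_cancel] at this
        exact this
      rw [h8, (e3 (v - τ) (by rw [abs_lt]; constructor <;> linarith)).2]
    · exfalso
      have h8 := Φ'.map_source hu
      rw [htar] at h8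
      have h9 : Φ.symm (Φ' (γ u)) = γ u := Φ'.left_inv hu
      refine hsK _ h8 ?_
      rw [h9, h5]
      exact ⟨v, ⟨hv1, hv2⟩, rfl⟩

end Pool.Agent.PalF
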