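import Pool.Agent.PalF.Targets

/-!
# Parametric integrals along a flow
-/

set_option autoImplicit false

open scoped Manifold ContDiff Topology
open MeasureTheory Set Filter Bundle Asymptotics Metric Pool.Agent.Palis

namespace Pool.Agent.PalF

namespace PIN_

/-- parametric integrals of functions of class `C^n` -/
theorem contDiff_param {E : Type} [NormedAddCommGroup E] [NormedSpace ℝ E]
    [FiniteDimensional ℝ E] (a b : ℝ) (n : ℕ) :
    ∀ (G : Type) [NormedAddCommGroup G] [NormedSpace ℝ G] [CompleteSpace G] (F : E × ℝ → G),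
    ContDiff ℝ n F → ContDiff ℝ n (fun x => ∫ s in a..b, F (x, s)) := by
  have : ProperSpace E := FiniteDimensional.proper ℝ E
  induction n with
  | zero =>
    intro G _ _ _ F hF
    rw [CharP.cast_eq_zero, contDiff_zero] at hF ⊢
    exact intervalIntegral.continuous_parametric_intervalIntegral_of_continuous'
      (f := fun x s => F (x, s)) hF a b
  | succ n ih =>
    intro G _ _ _ F hF
    have e : ((n + 1 : ℕ) : WithTop ℕ∞) = n + 1 := by push_cast; rfl
    rw [e] at hF ⊢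
    set F' : E × ℝ → E →L[ℝ] G := fun p => (fderiv ℝ F p).comp (ContinuousLinearMap.inl ℝ E ℝ)
      with hF'
    have hF'n : ContDiff ℝ n F' := (hF.fderiv_right le_rfl).clm_comp contDiff_const
    have hc : Continuous F' := hF'n.continuous
    rw [contDiff_succ_iff_hasFDerivAt]
    refine ⟨fun x => ∫ s in a..b, F' (x, s), ih _ F' hF'n, ?_⟩
    intro x₀
    obtain ⟨C, hC⟩ := ((isCompact_closedBall x₀ 1).prod
      (isCompact_uIcc (a := a) (b := b))).exists_bound_of_continuousOn (f := F')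
      hc.continuousOn
    refine intervalIntegral.hasFDerivAt_integral_of_dominated_of_fderiv_le
      (F := fun x s => F (x, s)) (F' := fun x s => F' (x, s)) (s := Metric.ball x₀ 1)
      (bound := fun _ => C) (Metric.ball_mem_nhds x₀ one_pos) ?_ ?_ ?_ ?_ ?_ ?_
    · refine Eventually.of_forall fun x => ?_
      exact (hF.continuous.comp (by fun_prop : Continuous fun s : ℝ => (x, s))).aestronglyMeasurable
    · exact (hF.continuous.comp
        (by fun_prop : Continuous fun s : ℝ => (x₀, s))).intervalIntegrable _ _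
    · exact (hc.comp (by fun_prop : Continuous fun s : ℝ => (x₀, s))).aestronglyMeasurable
    · refine Eventually.of_forall fun t ht x hx => hC (x, t) ⟨?_, ?_⟩
      · exact Metric.ball_subset_closedBall hx
      · exact uIoc_subset_uIcc ht
    · exact continuous_const.intervalIntegrable _ _
    · refine Eventually.of_forall fun t _ x _ => ?_
      have h1 : HasFDerivAt F (fderiv ℝ F (x, t)) (x, t) :=
        (hF.differentiable (by simp) (x, t)).hasFDerivAt
      have h2 : HasFDerivAt (fun y : E => (y, t)) (ContinuousLinearMap.inl ℝ E ℝ) x :=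
        hasFDerivAt_prodMk_left x t
      exact h1.comp x h2

theorem contDiff_param_infty {E : Type} [NormedAddCommGroup E] [NormedSpace ℝ E]
    [FiniteDimensional ℝ E] (a b : ℝ) {F : E × ℝ → ℝ} (hF : ContDiff ℝ ∞ F) :
    ContDiff ℝ ∞ (fun x => ∫ s in a..b, F (x, s)) := by
  rw [contDiff_infty] at hF ⊢
  exact fun n => contDiff_param a b n ℝ F (hF n)

section Mfd

variable {E : Type} [NormedAddCommGroup E] [NormedSpace ℝ E] [FiniteDimensional ℝ E]
  {M : Type} [TopologicalSpace M] [ChartedSpace E M] [IsManifold 𝓘(ℝ, E) ∞ M]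

theorem contMDiff_param (a b : ℝ) {G : ℝ × M → ℝ}
    (hG : ContMDiff (𝓘(ℝ, ℝ).prod 𝓘(ℝ, E)) 𝓘(ℝ, ℝ) ∞ G) :
    ContMDiff 𝓘(ℝ, E) 𝓘(ℝ, ℝ) ∞ (fun x => ∫ s in a..b, G (s, x)) := by
  intro x₀
  set e := extChartAt 𝓘(ℝ, E) x₀ with he
  have hopen : IsOpen e.target := isOpen_extChartAt_target x₀
  have hmem : e.target ∈ 𝓝 (e x₀) := hopen.mem_nhds (mem_extChartAt_target x₀)
  obtain ⟨r, hr, hrt⟩ := Metric.nhds_basis_closedBall.mem_iff.1 hmem
  let χ : ContDiffBump (e x₀) := ⟨r / 2, r, by positivity, by linarith⟩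
  have hχ : ContDiff ℝ ∞ (χ : E → ℝ) := χ.contDiff
  have hts : tsupport (χ : E → ℝ) = closedBall (e x₀) r := χ.tsupport_eq
  let F : E × ℝ → ℝ := fun p => χ p.1 * G (p.2, e.symm p.1)
  have hF : ContDiff ℝ ∞ F := by
    rw [contDiff_iff_contDiffAt]
    rintro ⟨y, s⟩
    by_cases hy : y ∈ e.target
    · have h1 : ContMDiffAt 𝓘(ℝ, E) 𝓘(ℝ, E) ∞ e.symm y :=
        (contMDiffOn_extChartAt_symm (n := ∞) x₀).contMDiffAt (hopen.mem_nhds hy)
      have h2 : ContMDiffAt 𝓘(ℝ, E × ℝ) 𝓘(ℝ, E) ∞ (fun p : E × ℝ => e.symm p.1) (y, s) :=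
        h1.comp (y, s) contDiff_fst.contMDiff.contMDiffAt
      have h3 : ContMDiffAt 𝓘(ℝ, E × ℝ) 𝓘(ℝ, ℝ) ∞ (fun p : E × ℝ => p.2) (y, s) :=
        contDiff_snd.contMDiff.contMDiffAt
      have h4 : ContMDiffAt 𝓘(ℝ, E × ℝ) 𝓘(ℝ, ℝ) ∞ (fun p : E × ℝ => G (p.2, e.symm p.1)) (y, s) :=
        hG.contMDiffAt.comp (y, s) (h3.prodMk h2)
      have h5 : ContDiffAt ℝ ∞ (fun p : E × ℝ => G (p.2, e.symm p.1)) (y, s) := h4.contDiffAt
      exact (hχ.comp contDiff_fst).contDiffAt.mul h5
    · have h1 : y ∉ tsupport (χ : E → ℝ) := by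
        rw [hts]
        exact fun h => hy (hrt h)
      have h2 : ∀ᶠ p : E × ℝ in 𝓝 (y, s), p.1 ∈ (tsupport (χ : E → ℝ))ᶜ :=
        continuous_fst.continuousAt.eventually_mem
          ((isClosed_tsupport _).isOpen_compl.mem_nhds h1)
      have h3 : F =ᶠ[𝓝 (y, s)] fun _ => 0 := by
        filter_upwards [h2] with p hp
        have : χ p.1 = 0 := image_eq_zero_of_notMem_tsupport hp
        simp [F, this]
      exact contDiffAt_const.congr_of_eventuallyEq h3
  have h1 : ContMDiffAt 𝓘(ℝ, E) 𝓘(ℝ, ℝ) ∞ (fun x => ∫ s in a..b, F (e x, s)) x₀ :=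
    ((contDiff_param_infty a b hF).contMDiff.contMDiffAt (x := e x₀)).comp x₀
      (contMDiffAt_extChartAt (n := ∞))
  refine h1.congr_of_eventuallyEq ?_
  have h2 : ∀ᶠ x in 𝓝 x₀, x ∈ e.source := extChartAt_source_mem_nhds x₀
  have h3 : ∀ᶠ x in 𝓝 x₀, e x ∈ closedBall (e x₀) (r / 2) :=
    (continuousAt_extChartAt x₀).eventually_mem (closedBall_mem_nhds _ (by positivity))
  filter_upwards [h2, h3] with x hx hx'
  have h4 : χ (e x) = 1 := χ.one_of_mem_closedBall hx'
  refine intervalIntegral.integral_congr fun s _ => ?_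
  simp only [F, h4, one_mul, e.left_inv hx]

end Mfd

end PIN_

open PIN_ in
theorem pin1 : T_PIN := by
  intro E _ _ _ M _ _ _ _ _ Y φ f τ hY hφ hf
  have hG : ContMDiff (𝓘(ℝ, ℝ).prod 𝓘(ℝ, E)) 𝓘(ℝ, ℝ) ∞ (fun p : ℝ × M => f (φ p.1 p.2)) :=
    hf.comp hφ.smooth
  have h1 : ContMDiff 𝓘(ℝ, E) 𝓘(ℝ, ℝ) ∞ (fun x => ∫ s in (0 : ℝ)..τ, f (φ s x)) :=
    contMDiff_param 0 τ hG
  refine ⟨h1, fun x => ?_⟩
  have h2 := hasDerivAt_comp_curve (h1.of_le (by norm_cast : (1 : WithTop ℕ∞) ≤ ∞)) (hφ.curve x) 0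
  rw [hφ.zero] at h2
  have hcont : Continuous (fun s => f (φ s x)) := by
    have h := hG.continuous.comp (by fun_prop : Continuous fun s : ℝ => (s, x))
    exact h
  have h3 : (fun u => ∫ s in (0 : ℝ)..τ, f (φ s (φ u x))) =
      fun u => ∫ s in u..(τ + u), f (φ s x) := by
    funext u
    simp only [hφ.add]
    have := intervalIntegral.integral_comp_add_right (a := 0) (b := τ) (fun s => f (φ s x)) u
    rw [this, zero_add]
  rw [h3] at h2
  have hint : ∀ a b : ℝ, IntervalIntegrable (fun s => f (φ s x)) volume a b :=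
    fun a b => hcont.intervalIntegrable a b
  have h4 : HasDerivAt (fun u => ∫ s in u..(τ + u), f (φ s x)) (f (φ τ x) - f x) 0 := by
    have e1 : (fun u => ∫ s in u..(τ + u), f (φ s x)) = fun u =>
        (∫ s in (0 : ℝ)..(τ + u), f (φ s x)) - ∫ s in (0 : ℝ)..u, f (φ s x) := by
      funext u
      rw [intervalIntegral.integral_interval_sub_left (hint _ _) (hint _ _)]
    rw [e1]
    have hd : ∀ v, HasDerivAt (fun v => ∫ s in (0 : ℝ)..v, f (φ s x)) (f (φ v x)) v := fun v =>
      intervalIntegral.integral_hasDerivAt_right (hint _ _)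
        hcont.aestronglyMeasurable.stronglyMeasurableAtFilter hcont.continuousAt
    have h5 := (hd (τ + 0)).comp_const_add τ 0
    have h6 := h5.sub (hd 0)
    rw [hφ.zero, add_zero] at h6
    exact h6
  exact h2.unique h4

end Pool.Agent.PalF
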