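import Pool.Agent.PalF.Targets2

/-!
# The return map preserves the area
-/

set_option autoImplicit false

open scoped Manifold ContDiff Topology
open MeasureTheory Set Filter Bundle Asymptotics Metric Pool.Agent.Palis

namespace Pool.Agent.PalF

namespace PM2_

/-- preimages of measurable sets under a local homeomorphism are measurable -/
theorem meas_pre {X Y : Type} [TopologicalSpace X] [TopologicalSpace Y] [MeasurableSpace X]
    [MeasurableSpace Y] [OpensMeasurableSpace X] [BorelSpace Y]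
    (Φ : OpenPartialHomeomorph X Y) (S : Set Y) (hS : MeasurableSet S) :
    MeasurableSet (Φ.source ∩ Φ ⁻¹' S) := by
  have h1 : Continuous (Φ.source.domRestrict Φ) := Φ.continuousOn.domRestrict
  have h2 : MeasurableSet ((Φ.source.domRestrict Φ) ⁻¹' S) := h1.measurable hS
  have h3 := Φ.open_source.measurableSet.subtype_image h2
  have h4 : Subtype.val '' ((Φ.source.domRestrict Φ) ⁻¹' S) = Φ.source ∩ Φ ⁻¹' S := by
    ext x
    constructor
    · rintro ⟨⟨y, hy⟩, hyS, rfl⟩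
      exact ⟨hy, hyS⟩
    · rintro ⟨hx, hxS⟩
      exact ⟨⟨x, hx⟩, hxS, rfl⟩
  rwa [h4] at h3

/-- area of a sheared product -/
theorem vol_shear (A : Set E2) (θ : E2 → ℝ) (P : E2 → E2) (a : ℝ) (S' : Set (ℝ × E2))
    (hinj : InjOn P A) (hPA : MeasurableSet (P '' A)) (hS' : MeasurableSet S')
    (hS : ∀ z : ℝ × E2, z ∈ S' ↔ ∃ y ∈ A, ∃ t ∈ Icc 0 a, z = (θ y + t, P y)) :
    volume S' = ENNReal.ofReal a * volume (P '' A) := by
  rw [Measure.volume_eq_prod, Measure.prod_apply_symm hS']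
  have h : ∀ y' : E2, (volume : Measure ℝ) ((fun x => (x, y')) ⁻¹' S') =
      (P '' A).indicator (fun _ => ENNReal.ofReal a) y' := by
    intro y'
    by_cases hy : y' ∈ P '' A
    · rw [indicator_of_mem hy]
      obtain ⟨y, hyA, rfl⟩ := hy
      have : (fun x => (x, P y)) ⁻¹' S' = Icc (θ y) (θ y + a) := by
        ext x
        simp only [mem_preimage, hS, mem_Icc]
        constructor
        · rintro ⟨y₁, hy₁, t, ht, he⟩
          have h1 := (Prod.ext_iff.mp he).1
          have h2 := (Prod.ext_iff.mp he).2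
          simp only at h1 h2
          have := hinj hyA hy₁ h2
          subst this
          constructor <;> linarith [ht.1, ht.2]
        · rintro ⟨h1, h2⟩
          exact ⟨y, hyA, x - θ y, ⟨by linarith, by linarith⟩, by simp⟩
      rw [this, Real.volume_Icc]
      congr 1
      ring
    · rw [indicator_of_notMem hy]
      have : (fun x => (x, y')) ⁻¹' S' = ∅ := by
        ext x
        simp only [mem_preimage, hS, mem_empty_iff_false, iff_false]
        rintro ⟨y₁, hy₁, t, ht, he⟩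
        exact hy ⟨y₁, hy₁, (Prod.ext_iff.mp he).2.symm⟩
      rw [this, measure_empty]
  simp_rw [h]
  rw [lintegral_indicator hPA, lintegral_const, Measure.restrict_apply MeasurableSet.univ,
    univ_inter]

end PM2_

open PM2_ in
theorem pm21 (hPM1 : T_PM1) (hPRS : T_PRS) : T_PM2 := by
  intro E _ _ _ _ _ M _ _ _ _ _ _ _ μ _ X γ τ Φ h φ hX hdiv hγ hob hφ τ' hτ'
  obtain ⟨hP0, hPs, δ, hδ, hδh, hPδ⟩ := hPM1 E M μ X γ τ Φ h φ hX hγ hob hφ τ' hτ'
  have hbox : Box E μ X Φ h := hob.1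
  have hh : 0 < h := hbox.pos
  refine ⟨ball 0 δ, ball_mem_nhds _ hδ, ?_⟩
  intro A hA hAm
  have hAδ : ∀ y ∈ A, ‖y‖ < δ := fun y hy => mem_ball_zero_iff.mp (hA hy)
  set P := pm φ Φ τ' with hP
  have hinj : InjOn P A := by
    intro y hy y₁ hy₁ he
    have h1 := (hPδ y (hAδ y hy)).2.2.2.2.1
    have h2 := (hPδ y₁ (hAδ y₁ hy₁)).2.2.2.2.1
    rw [← h1, ← h2]
    exact congrArg _ he
  have hcont : ContinuousOn P A := by
    intro y hy
    exact (hPδ y (hAδ y hy)).2.2.2.1.continuousAt.continuousWithinAt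
  have hPA : MeasurableSet (P '' A) := hAm.image_of_continuousOn_injOn hcont hinj
  set a : ℝ := h / 2 with ha
  have ha0 : 0 < a := by positivity
  set S : Set (ℝ × E2) := Icc 0 a ×ˢ A with hS
  have hSt : S ⊆ Φ.target := by
    rintro ⟨t, y⟩ ⟨ht, hy⟩
    rw [hbox.target]
    refine ⟨⟨?_, ?_⟩, ?_⟩
    · have := ht.1; simp only at this ⊢; linarith
    · have := ht.2; simp only at this ⊢; rw [ha] at this; linarith
    · rw [mem_ball_zero_iff]; exact lt_of_lt_of_le (hAδ y hy) hδh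
  set B : Set M := Φ.source ∩ Φ ⁻¹' S with hB
  have hBm : MeasurableSet B := meas_pre Φ S (measurableSet_Icc.prod hAm)
  have hΦB : Φ '' B = S := by
    ext z
    constructor
    · rintro ⟨x, ⟨_, hx⟩, rfl⟩; exact hx
    · intro hz
      exact ⟨Φ.symm z, ⟨Φ.map_target (hSt hz), by
        rw [mem_preimage, Φ.right_inv (hSt hz)]; exact hz⟩, Φ.right_inv (hSt hz)⟩
  have hμB : μ B = ENNReal.ofReal a * volume A := by
    rw [hbox.meas B inter_subset_left hBm, hΦB]
    simp only [ENNReal.ofReal_one]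
    rw [lintegral_one, Measure.restrict_apply MeasurableSet.univ, univ_inter, hS,
      Measure.volume_eq_prod, Measure.prod_prod, Real.volume_Icc, sub_zero]
  -- the image under the flow
  have hinv : ∀ x, φ (-τ') (φ τ' x) = x := by
    intro x; rw [hφ.add, neg_add_cancel, hφ.zero]
  have hinv' : ∀ x, φ τ' (φ (-τ') x) = x := by
    intro x; rw [hφ.add, add_neg_cancel, hφ.zero]
  have himg : φ τ' '' B = (φ (-τ')) ⁻¹' B := by
    ext x
    constructor
    · rintro ⟨y, hy, rfl⟩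
      rw [mem_preimage, hinv]; exact hy
    · intro hx
      exact ⟨φ (-τ') x, hx, hinv' x⟩
  have hmp := hPRS E M μ X φ hX hdiv hφ (-τ')
  have hCm : MeasurableSet (φ τ' '' B) := by
    rw [himg]; exact hmp.measurable hBm
  have hμC : μ (φ τ' '' B) = μ B := by
    rw [himg]; exact hmp.measure_preimage hBm.nullMeasurableSet
  have hmem : ∀ t y, t ∈ Icc 0 a → y ∈ A → φ τ' (Φ.symm (t, y)) ∈ Φ.source ∧
      Φ (φ τ' (Φ.symm (t, y))) = ((Φ (φ τ' (Φ.symm (0, y)))).1 + t, P y) := by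
    intro t y ht hy
    refine (hPδ y (hAδ y hy)).2.2.2.2.2 t ?_
    rw [abs_of_nonneg ht.1]
    have := ht.2
    rw [ha] at this
    linarith
  have hBmem : ∀ x ∈ B, ∃ t ∈ Icc 0 a, ∃ y ∈ A, x = Φ.symm (t, y) := by
    rintro x ⟨hx, hxS⟩
    refine ⟨(Φ x).1, hxS.1, (Φ x).2, hxS.2, ?_⟩
    exact (Φ.left_inv hx).symm
  have hCs : φ τ' '' B ⊆ Φ.source := by
    rintro _ ⟨x, hx, rfl⟩
    obtain ⟨t, ht, y, hy, rfl⟩ := hBmem x hx
    exact (hmem t y ht hy).1
  have hΦC : Φ '' (φ τ' '' B) = Φ.target ∩ Φ.symm ⁻¹' (φ τ' '' B) := by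
    ext z
    constructor
    · rintro ⟨x, hx, rfl⟩
      refine ⟨Φ.map_source (hCs hx), ?_⟩
      rw [mem_preimage, Φ.left_inv (hCs hx)]
      exact hx
    · rintro ⟨hz, hz'⟩
      exact ⟨_, hz', Φ.right_inv hz⟩
  have hΦCm : MeasurableSet (Φ '' (φ τ' '' B)) := by
    rw [hΦC]
    exact meas_pre Φ.symm _ hCm
  have hvol := vol_shear A (fun y => (Φ (φ τ' (Φ.symm (0, y)))).1) P a (Φ '' (φ τ' '' B)) hinj hPA
    hΦCm (by
      intro z
      constructor
      · rintro ⟨_, ⟨x, hx, rfl⟩, rfl⟩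
        obtain ⟨t, ht, y, hy, rfl⟩ := hBmem x hx
        exact ⟨y, hy, t, ht, (hmem t y ht hy).2⟩
      · rintro ⟨y, hy, t, ht, rfl⟩
        refine ⟨_, ⟨Φ.symm (t, y), ?_, rfl⟩, (hmem t y ht hy).2⟩
        have hmS : (t, y) ∈ S := ⟨ht, hy⟩
        exact ⟨Φ.map_target (hSt hmS), by rw [mem_preimage, Φ.right_inv (hSt hmS)]; exact hmS⟩)
  have hμC' : μ (φ τ' '' B) = volume (Φ '' (φ τ' '' B)) := by
    rw [hbox.meas _ hCs hCm]
    simp only [ENNReal.ofReal_one]
    rw [lintegral_one, Measure.restrict_apply MeasurableSet.univ, univ_inter]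
  have hfin : ENNReal.ofReal a * volume (P '' A) = ENNReal.ofReal a * volume A := by
    rw [← hvol, ← hμC', hμC, hμB]
  exact (ENNReal.mul_right_inj (by simpa using ha0) ENNReal.ofReal_ne_top).mp hfin

end Pool.Agent.PalF
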