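import Pool.Agent.PalF.Targets2

/-!
# The eigenvalues of the derivative of the return map (PALF-PM3)
-/

set_option autoImplicit false
set_option linter.unusedSectionVars false

open scoped Manifold ContDiff Topology
open MeasureTheory Set Filter Bundle Asymptotics Metric Pool.Agent.Palis

namespace Pool.Agent.PalF

namespace PM3_

variable {E : Type} [NormedAddCommGroup E] [NormedSpace ℝ E] {M : Type}
  [TopologicalSpace M] [ChartedSpace E M]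

set_option backward.isDefEq.respectTransparency false in
theorem cast1 {f : M → M} {q p : M} (h : q = p) {A : E →L[ℝ] E}
    (hA : HasMFDerivAt 𝓘(ℝ, E) 𝓘(ℝ, E) f p A) : HasMFDerivAt 𝓘(ℝ, E) 𝓘(ℝ, E) f q A := by
  subst h
  exact hA

set_option backward.isDefEq.respectTransparency false in
theorem cast2 {f : M → ℝ × E2} {q p : M} (h : q = p) {A : E →L[ℝ] ℝ × E2}
    (hA : HasMFDerivAt 𝓘(ℝ, E) 𝓘(ℝ, ℝ × E2) f p A) :
    HasMFDerivAt 𝓘(ℝ, E) 𝓘(ℝ, ℝ × E2) f q A := by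
  subst h
  exact hA

set_option backward.isDefEq.respectTransparency false in
/-- The derivative of a map with a fixed point in the coordinates `Φ`. -/
theorem core (f : M → M) (Φ : OpenPartialHomeomorph M (ℝ × E2)) (p : M) (hp : p ∈ Φ.source)
    (h0 : Φ p = 0) (hfix : f p = p) (hf : MDifferentiableAt 𝓘(ℝ, E) 𝓘(ℝ, E) f p)
    (hΦ : Φ.MDifferentiable 𝓘(ℝ, E) 𝓘(ℝ, ℝ × E2)) :
    ∃ (S : ℝ × E2 →L[ℝ] E) (T : E →L[ℝ] ℝ × E2), (∀ z, T (S z) = z) ∧ (∀ v, S (T v) = v) ∧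
      (∀ v : TangentSpace 𝓘(ℝ, E) p, T v = (mfderiv 𝓘(ℝ, E) 𝓘(ℝ, ℝ × E2) Φ p v : ℝ × E2)) ∧
      HasFDerivAt (fun z => Φ (f (Φ.symm z))) (T ∘L (der E f p) ∘L S) 0 := by
  have h1 := hΦ.symm_comp_deriv hp
  have h2 := hΦ.mfderiv_bijective hp
  let T : E →L[ℝ] ℝ × E2 := mfderiv 𝓘(ℝ, E) 𝓘(ℝ, ℝ × E2) Φ p
  let S : ℝ × E2 →L[ℝ] E := mfderiv 𝓘(ℝ, ℝ × E2) 𝓘(ℝ, E) Φ.symm (Φ p)
  have hST : ∀ v, S (T v) = v := fun v => congrArg (fun L => L v) h1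
  refine ⟨S, T, ?_, hST, fun v => rfl, ?_⟩
  · intro z
    obtain ⟨v, hv⟩ := h2.2 z
    have hv' : T v = z := hv
    rw [← hv', hST]
  · have hl : Φ.symm (Φ p) = p := Φ.left_inv hp
    have e1 : HasMFDerivAt 𝓘(ℝ, ℝ × E2) 𝓘(ℝ, E) Φ.symm (Φ p) S :=
      (hΦ.mdifferentiableAt_symm (Φ.map_source hp)).hasMFDerivAt
    have e2 : HasMFDerivAt 𝓘(ℝ, E) 𝓘(ℝ, E) f (Φ.symm (Φ p)) (der E f p) :=
      cast1 hl hf.hasMFDerivAt
    have e3 : HasMFDerivAt 𝓘(ℝ, E) 𝓘(ℝ, ℝ × E2) Φ ((f ∘ Φ.symm) (Φ p)) T :=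
      cast2 (by show f (Φ.symm (Φ p)) = p; rw [hl, hfix]) (hΦ.mdifferentiableAt hp).hasMFDerivAt
    have e4 := e3.comp (Φ p) (e2.comp (Φ p) e1)
    have e5 := e4.hasFDerivAt
    rw [h0] at e5
    exact e5

end PM3_

open PM3_

theorem pm31 : T_PM3 := by
  intro E _ _ _ M _ _ _ _ _ _ μ X γ τ Φ h φ hX hγ hbox hφ hnh
  obtain ⟨F, c, hF, hc, hev⟩ := hnh
  obtain ⟨hb, hp, h0, -, -⟩ := hbox
  have hX1 : ContMDiff 𝓘(ℝ, E) 𝓘(ℝ, E).tangent 1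
      (fun x => (⟨x, X x⟩ : TangentBundle 𝓘(ℝ, E) M)) := hX.of_le (by norm_cast)
  have hcurve : ∀ (x : M) (c : ℝ → M), IsMIntegralCurve c X → c 0 = x → ∀ t, c t = φ t x := by
    intro x c hc h0 t
    have hm : IsManifold 𝓘(ℝ, E) 1 M := IsManifold.of_le (n := ∞) (by norm_cast)
    have := isMIntegralCurve_Ioo_eq_of_contMDiff_boundaryless (t₀ := 0) hX1 hc (hφ.curve x)
      (by rw [h0, hφ.zero])
    exact congrFun this t
  have hFφ : F = φ τ := by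
    funext x
    obtain ⟨c, h1, h2, h3⟩ := hF x
    rw [← h3, hcurve x c h1 h2 τ]
  have hfix : φ τ (γ 0) = γ 0 := by
    rw [← hcurve (γ 0) γ hγ.1 rfl τ]
    exact hγ.2.2.2.1
  have hsm : ContMDiff 𝓘(ℝ, E) 𝓘(ℝ, E) ∞ (φ τ) :=
    hφ.smooth.comp (contMDiff_const.prodMk contMDiff_id)
  have hdiff : MDifferentiableAt 𝓘(ℝ, E) 𝓘(ℝ, E) (φ τ) (γ 0) :=
    (hsm (γ 0)).mdifferentiableAt (by norm_num)
  have hΦ : Φ.MDifferentiable 𝓘(ℝ, E) 𝓘(ℝ, ℝ × E2) :=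
    ⟨hb.smooth.mdifferentiableOn (by norm_num), hb.smooth_symm.mdifferentiableOn (by norm_num)⟩
  obtain ⟨S, T, hTS, hST, hT, hd⟩ := core (φ τ) Φ (γ 0) hp h0 hfix hdiff hΦ
  have hTX : T (val E X (γ 0)) = (1, 0) := (hT _).trans (hb.field _ hp)
  have hSX : S (1, 0) = val E X (γ 0) := by rw [← hTX, hST]
  refine ⟨c, hc, fun v a hv hva => ?_⟩
  have hpm : HasFDerivAt (pm φ Φ τ) ((ContinuousLinearMap.snd ℝ ℝ E2) ∘L
      (T ∘L (der E (φ τ) (γ 0)) ∘L S) ∘L (ContinuousLinearMap.inr ℝ ℝ E2)) 0 := by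
    have e1 : HasFDerivAt (fun y : E2 => ((0 : ℝ), y)) (ContinuousLinearMap.inr ℝ ℝ E2) 0 :=
      (ContinuousLinearMap.inr ℝ ℝ E2).hasFDerivAt
    have e2 : HasFDerivAt (fun z => Φ (φ τ (Φ.symm z))) (T ∘L (der E (φ τ) (γ 0)) ∘L S)
        ((fun y : E2 => ((0 : ℝ), y)) 0) := hd
    have e3 := e2.comp (0 : E2) e1
    exact ((ContinuousLinearMap.snd ℝ ℝ E2).hasFDerivAt).comp (0 : E2) e3
  rw [hpm.fderiv] at hva
  have hv2 : (T (der E (φ τ) (γ 0) (S (0, v)))).2 = a • v := hva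
  refine hev (S (0, v)) a (T (der E (φ τ) (γ 0) (S (0, v)))).1 ?_ ?_
  · intro d hd'
    have h1 := congrArg T hd'
    rw [hTS, map_smul, hTX] at h1
    have h2 := congrArg Prod.snd h1
    simp at h2
    exact hv h2
  · rw [hFφ]
    set u := T (der E (φ τ) (γ 0) (S (0, v))) with hu
    have h1 : der E (φ τ) (γ 0) (S (0, v)) = S u := by rw [hu, hST]
    have h2 : u = a • ((0 : ℝ), v) + u.1 • ((1 : ℝ), (0 : E2)) := by
      refine Prod.ext ?_ ?_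
      · simp
      · simp [hv2]
    rw [h1]
    conv_lhs => rw [h2]
    rw [map_add, map_smul, map_smul, hSX]

end Pool.Agent.PalF
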