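import Pool.Agent.PalF.Targets

/-!
# PALF-PRF: the profile
-/

set_option autoImplicit false

open scoped Manifold ContDiff Topology
open MeasureTheory Set Filter Bundle Pool.Agent.Palis

namespace Pool.Agent.PalF

namespace PRF_

/-- The derivative of `expNegInvGlue`. -/
theorem glue_deriv (x : ℝ) : HasDerivAt expNegInvGlue (x⁻¹ ^ 2 * expNegInvGlue x) x := by
  have h := expNegInvGlue.hasDerivAt_polynomial_eval_inv_mul 1 x
  simpa using h

/-- The profile. -/
noncomputable def pr (C : ℝ) (t : ℝ) : ℝ := expNegInvGlue ((4 - t) / C)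

theorem pr_deriv (C t : ℝ) :
    HasDerivAt (pr C) (-(1 / C * ((4 - t) / C)⁻¹ ^ 2 * pr C t)) t := by
  have h1 : HasDerivAt (fun t : ℝ => (4 - t) / C) (-(1 / C)) t := by
    have := ((hasDerivAt_id t).const_sub 4).div_const C
    simpa [neg_div] using this
  have h2 := (glue_deriv ((4 - t) / C)).comp t h1
  refine h2.congr_deriv ?_
  simp only [pr]
  ring

end PRF_

open PRF_ in
theorem prf1 : T_PRF := by
  intro c₁ C₂ hc hC
  set C : ℝ := 9 * C₂ / c₁ with hCdef
  have hC0 : 0 < C := by positivity
  refine ⟨pr C, ?_, fun t => expNegInvGlue.nonneg _, ?_, ?_, ?_, ?_⟩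
  · refine expNegInvGlue.contDiff.comp ?_
    exact (contDiff_const.sub contDiff_id).div_const C
  · intro t ht
    exact expNegInvGlue.zero_of_nonpos (div_nonpos_of_nonpos_of_nonneg (by linarith) hC0.le)
  · intro t ht
    exact expNegInvGlue.pos_of_pos (div_pos (by linarith) hC0)
  · intro s t hst
    exact expNegInvGlue.monotone (by gcongr)
  · intro t ht
    rw [(pr_deriv C t).deriv]
    rcases le_or_gt 4 t with h | h
    · have : pr C t = 0 :=
        expNegInvGlue.zero_of_nonpos (div_nonpos_of_nonpos_of_nonneg (by linarith) hC0.le)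
      rw [this]
      simp
    · have hp : 0 ≤ pr C t := expNegInvGlue.nonneg _
      have h4 : 0 < 4 - t := by linarith
      have e : c₁ * t * -(1 / C * ((4 - t) / C)⁻¹ ^ 2 * pr C t) =
          -(c₁ * t * (C / (4 - t) ^ 2) * pr C t) := by
        field_simp
      rw [e, neg_neg]
      refine mul_le_mul_of_nonneg_right ?_ hp
      have e2 : C₂ = c₁ * 1 * (C / 9) := by
        rw [hCdef]
        field_simp
      rw [e2]
      have h9 : (4 - t) ^ 2 ≤ 9 := by nlinarith
      gcongr

end Pool.Agent.PalF
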