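import Pool.Agent.PalF.Targets

/-!
PALF-PRS: the flow of a divergence free field preserves the volume.
-/

set_option autoImplicit false

open scoped Manifold ContDiff Topology
open MeasureTheory Set Filter Bundle Pool.Agent.Palis

namespace Pool.Agent.PalF

namespace PRS_

/-- The integrals of the powers of a function with values in `[0,1]` converge to the measure of
the set where the function is `1`. -/
theorem tendsto_pow {M : Type} [MeasurableSpace M] (μ : Measure M) [IsFiniteMeasure μ]
    (f : M → ℝ) (hf : Measurable f) (h0 : ∀ x, f x ∈ Icc (0 : ℝ) 1) (L : Set M)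
    (hL : MeasurableSet L) (hfL : ∀ x, x ∈ L ↔ f x = 1) :
    Tendsto (fun k : ℕ => ∫ x, f x ^ k ∂μ) atTop (𝓝 (μ.real L)) := by
  have h1 : ∫ x, L.indicator (fun _ => (1 : ℝ)) x ∂μ = μ.real L := by
    rw [integral_indicator hL]
    simp
  rw [← h1]
  refine tendsto_integral_of_dominated_convergence (fun _ => (1 : ℝ))
    (fun k => (hf.pow_const k).aestronglyMeasurable) (integrable_const _) ?_ ?_
  · intro k
    filter_upwards with x
    rw [Real.norm_eq_abs, abs_of_nonneg (pow_nonneg (h0 x).1 k)]
    exact pow_le_one₀ (h0 x).1 (h0 x).2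
  · filter_upwards with x
    by_cases hx : x ∈ L
    · rw [indicator_of_mem hx, (hfL x).mp hx]
      simp
    · rw [indicator_of_notMem hx]
      have h2 : f x < 1 := lt_of_le_of_ne (h0 x).2 fun h => hx ((hfL x).mpr h)
      exact tendsto_pow_atTop_nhds_zero_of_lt_one (h0 x).1 h2

end PRS_

open PRS_

theorem prs1 (hDER : T_DER) : T_PRS := by
  intro E _ _ _ _ _ M _ _ _ _ _ _ _ μ _ X φ hX hdiv hφ t
  have hcont : ∀ t, Continuous (φ t) := fun t =>
    hφ.smooth.continuous.comp (Continuous.prodMk_right t)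
  have hD : HasDiv E μ X (fun _ => (0 : ℝ)) := by
    refine ⟨continuous_const, fun η hη => ?_⟩
    simp only [mul_zero, add_zero]
    exact hdiv η hη
  have hinv : ∀ v : M → ℝ, ContMDiff 𝓘(ℝ, E) 𝓘(ℝ, ℝ) ∞ v →
      ∫ x, v (φ t x) ∂μ = ∫ x, v x ∂μ := by
    intro v hv
    have h1 : ∀ s, HasDerivAt (fun t => ∫ x, v (φ t x) ∂μ) 0 s := by
      intro s
      have := hDER E M μ X (fun _ => 0) φ v s hX hD hφ hv
      simpa using this
    have h2 := is_const_of_deriv_eq_zero (fun s => (h1 s).differentiableAt)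
      (fun s => (h1 s).deriv) t 0
    simp only [hφ.zero] at h2
    exact h2
  have hcl : ∀ L : Set M, IsClosed L → (μ.map (φ t)) L = μ L := by
    intro L hL
    obtain ⟨f, hf, hf1, -, hf3⟩ := exists_contMDiff_zero_iff_one_iff_of_isClosed (n := ⊤)
      𝓘(ℝ, E) isClosed_empty hL (empty_disjoint L)
    have h0 : ∀ x, f x ∈ Icc (0 : ℝ) 1 := fun x => hf1 (mem_range_self x)
    rw [Measure.map_apply (hcont t).measurable hL.measurableSet]
    have h1 := tendsto_pow μ f hf.continuous.measurable h0 L hL.measurableSet hf3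
    have h2 := tendsto_pow μ (fun x => f (φ t x)) (hf.continuous.comp (hcont t)).measurable
      (fun x => h0 _) (φ t ⁻¹' L) (hL.preimage (hcont t)).measurableSet (fun x => hf3 (φ t x))
    have h3 : ∀ k : ℕ, ∫ x, f (φ t x) ^ k ∂μ = ∫ x, f x ^ k ∂μ := fun k =>
      hinv (fun x => f x ^ k) (hf.pow k)
    simp only [h3] at h2
    have h4 := tendsto_nhds_unique h2 h1
    exact (measureReal_eq_measureReal_iff).mp h4
  refine ⟨(hcont t).measurable, ?_⟩
  refine ext_of_generate_finite {s | IsClosed s} ?_ isPiSystem_isClosed (fun L hL => hcl L hL)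
    (hcl _ isClosed_univ)
  rw [BorelSpace.measurable_eq (α := M), borel_eq_generateFrom_isClosed]

end Pool.Agent.PalF
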