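import Pool.Agent.PalF.Targets

/-!
# PALF-PUL: fields from charts with values in an arbitrary model space
-/

set_option autoImplicit false

open scoped Manifold ContDiff Topology
open MeasureTheory Set Filter Bundle Pool.Agent.Palis

namespace Pool.Agent.PalF

namespace PUL_

variable {E : Type} [NormedAddCommGroup E] [NormedSpace ℝ E] {M : Type} [TopologicalSpace M]
  [ChartedSpace E M]

lemma mk_eq {a b : M} (h : a = b) (v : E) :
    ((⟨a, v⟩ : TotalSpace E (TangentSpace 𝓘(ℝ, E) : M → Type)) : TangentBundle 𝓘(ℝ, E) M) =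
      (⟨b, v⟩ : TotalSpace E (TangentSpace 𝓘(ℝ, E) : M → Type)) := by
  cases h; rfl

end PUL_

open PUL_ in
open scoped Classical in
theorem pul1 : T_PUL := by
  intro E _ _ _ M _ _ _ _ F _ _ _ Φ Z hΦ hΦs hZ hZc hZt
  set R : ∀ x : M, TangentSpace 𝓘(ℝ, E) x := fun x =>
    if x ∈ Φ.source then
      ((mfderiv 𝓘(ℝ, F) 𝓘(ℝ, E) Φ.symm (Φ x) (Z (Φ x)) : E) : TangentSpace 𝓘(ℝ, E) x)
    else (0 : E) with hR
  have hRs : ∀ x ∈ Φ.source, R x =
      ((mfderiv 𝓘(ℝ, F) 𝓘(ℝ, E) Φ.symm (Φ x) (Z (Φ x)) : E) : TangentSpace 𝓘(ℝ, E) x) := by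
    intro x hx
    exact if_pos hx
  have hzero : ∀ x, (x ∉ Φ.source ∨ Φ x ∉ tsupport Z) → R x = 0 := by
    intro x hx
    by_cases hs : x ∈ Φ.source
    · rw [hRs x hs]
      have h0 : Z (Φ x) = 0 := image_eq_zero_of_notMem_tsupport (hx.resolve_left (not_not.2 hs))
      rw [h0]
      exact map_zero (mfderiv 𝓘(ℝ, F) 𝓘(ℝ, E) Φ.symm (Φ x))
    · exact if_neg hs
  refine ⟨R, ?_, ?_, hzero⟩
  · -- smoothness
    set K : Set M := Φ.symm '' tsupport Z with hK
    have hKc : IsCompact K := by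
      refine hZc.isCompact.image_of_continuousOn ?_
      exact Φ.continuousOn_symm.mono hZt
    have hKs : K ⊆ Φ.source := by
      rintro x ⟨y, hy, rfl⟩
      exact Φ.map_target (hZt hy)
    intro x
    by_cases hx : x ∈ Φ.source
    · -- near a point of the source
      have h1 : ContMDiffOn 𝓘(ℝ, F).tangent 𝓘(ℝ, E).tangent ∞
          (tangentMapWithin 𝓘(ℝ, F) 𝓘(ℝ, E) Φ.symm Φ.target)
          (TotalSpace.proj ⁻¹' Φ.target) :=
        hΦs.contMDiffOn_tangentMapWithin le_rfl Φ.open_target.uniqueMDiffOn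
      have h2 : ContMDiff 𝓘(ℝ, F) 𝓘(ℝ, F).tangent ∞
          (fun y : F => (⟨y, Z y⟩ : TangentBundle 𝓘(ℝ, F) F)) :=
        contMDiff_vectorSpace_iff_contDiff.2 hZ
      have h3 : ContMDiffOn 𝓘(ℝ, E) 𝓘(ℝ, F).tangent ∞
          (fun x : M => (⟨Φ x, Z (Φ x)⟩ : TangentBundle 𝓘(ℝ, F) F)) Φ.source :=
        h2.comp_contMDiffOn hΦ
      have h4 := h1.comp h3 (fun x hx => Φ.map_source hx)
      have h5 : ContMDiffOn 𝓘(ℝ, E) 𝓘(ℝ, E).tangent ∞
          (fun x => (⟨x, R x⟩ : TangentBundle 𝓘(ℝ, E) M)) Φ.source := by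
        refine h4.congr fun z hz => ?_
        simp only [Function.comp_apply, tangentMapWithin]
        rw [mfderivWithin_of_isOpen Φ.open_target (Φ.map_source hz)]
        rw [hRs z hz]
        exact mk_eq (Φ.left_inv hz).symm _
      exact (h5 x hx).contMDiffAt (Φ.open_source.mem_nhds hx)
    · -- near a point outside the support
      have hxK : x ∉ K := fun h => hx (hKs h)
      have h6 : ContMDiffAt 𝓘(ℝ, E) 𝓘(ℝ, E).tangent ∞
          (zeroSection E (TangentSpace 𝓘(ℝ, E) : M → Type)) x :=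
        Bundle.contMDiff_zeroSection ℝ (TangentSpace 𝓘(ℝ, E) : M → Type) x
      refine h6.congr_of_eventuallyEq ?_
      filter_upwards [hKc.isClosed.isOpen_compl.mem_nhds hxK] with z hz
      have : R z = 0 := by
        refine hzero z ?_
        by_cases hzs : z ∈ Φ.source
        · right
          intro h
          exact hz ⟨Φ z, h, Φ.left_inv hzs⟩
        · exact Or.inl hzs
      rw [this]
      rfl
  · intro x hx
    have he : Φ.MDifferentiable 𝓘(ℝ, E) 𝓘(ℝ, F) :=
      ⟨hΦ.mdifferentiableOn (by simp), hΦs.mdifferentiableOn (by simp)⟩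
    rw [hRs x hx]
    exact (he.mfderiv hx).right_inv (Z (Φ x))

end Pool.Agent.PalF
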