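import Pool.Agent.PalF.Targets

/-!
# The function `I` can be made globally nonnegative
-/

set_option autoImplicit false

open scoped Manifold ContDiff Topology
open MeasureTheory Set Filter Bundle Asymptotics Metric Pool.Agent.Palis

namespace Pool.Agent.PalF

namespace REP_

lemma near_zero {E : Type} [NormedAddCommGroup E] [NormedSpace ℝ E] {M : Type}
    [TopologicalSpace M] [ChartedSpace E M] {Λ : Set M} (hΛ : IsClosed Λ) {q x : M} (hq : q ∈ Λ)
    (hx : x ∈ (extChartAt 𝓘(ℝ, E) q).source)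
    (h0 : Metric.infDist (extChartAt 𝓘(ℝ, E) q x)
      (extChartAt 𝓘(ℝ, E) q '' (Λ ∩ (extChartAt 𝓘(ℝ, E) q).source)) = 0) : x ∈ Λ := by
  set e := extChartAt 𝓘(ℝ, E) q with he
  have hne : (e '' (Λ ∩ e.source)).Nonempty :=
    ⟨e q, Set.mem_image_of_mem _ ⟨hq, mem_extChartAt_source q⟩⟩
  have h1 : e x ∈ closure (e '' (Λ ∩ e.source)) := (Metric.mem_closure_iff_infDist_zero hne).2 h0
  have h2 : ContinuousAt e.symm (e x) := continuousAt_extChartAt_symm' hx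
  have h3 := mem_closure_image h2 h1
  rw [e.left_inv hx] at h3
  have h4 : e.symm '' (e '' (Λ ∩ e.source)) ⊆ Λ := by
    rintro _ ⟨_, ⟨y, hy, rfl⟩, rfl⟩
    rw [e.left_inv hy.2]
    exact hy.1
  exact hΛ.closure_subset_iff.2 h4 h3

end REP_

open REP_ in
theorem rep1 : T_REP := by
  intro E _ _ _ M _ _ _ _ _ X r Λ I₀ hΛ hQ hA
  have hΛc : IsClosed Λ := hΛ.isClosed
  set U₀ : Set M := {x | 0 ≤ I₀ x ∧ (I₀ x = 0 → x ∈ Λ)} with hU₀
  have hint : Λ ⊆ interior U₀ := by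
    intro q hq
    rw [mem_interior_iff_mem_nhds]
    obtain ⟨-, b, hb, hev⟩ := hQ.2 q hq
    filter_upwards [hev, extChartAt_source_mem_nhds (I := 𝓘(ℝ, E)) q] with x hx hxs
    refine ⟨le_trans (by positivity) hx, fun h0 => near_zero hΛc hq hxs ?_⟩
    rw [h0] at hx
    have h1 : Metric.infDist (extChartAt 𝓘(ℝ, E) q x)
      (extChartAt 𝓘(ℝ, E) q '' (Λ ∩ (extChartAt 𝓘(ℝ, E) q).source)) ^ 2 ≤ 0 := by
      by_contra hcon
      push Not at hcon
      have := mul_pos hb hcon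
      linarith
    exact pow_eq_zero_iff (two_ne_zero) |>.1 (le_antisymm h1 (sq_nonneg _))
  obtain ⟨θ, hθ1, hθ0, hθ⟩ := exists_contMDiffMap_one_nhds_of_subset_interior 𝓘(ℝ, E) (n := (⊤ : ℕ∞))
    hΛc hint
  set I : M → ℝ := fun x => θ x * I₀ x + (1 - θ x) with hI
  have hsm : ContMDiff 𝓘(ℝ, E) 𝓘(ℝ, ℝ) ∞ I :=
    (θ.contMDiff.mul hQ.1).add (contMDiff_const.sub θ.contMDiff)
  have hnear : ∀ᶠ x in 𝓝ˢ Λ, I =ᶠ[𝓝 x] I₀ := by
    filter_upwards [hθ1.eventually_nhdsSet] with x hx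
    filter_upwards [hx] with y hy
    show θ y * I₀ y + (1 - θ y) = I₀ y
    rw [hy]; ring
  have hnn : ∀ x, 0 ≤ I x := by
    intro x
    have h1 := (hθ x).1
    have h2 := (hθ x).2
    by_cases hx : x ∈ U₀
    · show 0 ≤ θ x * I₀ x + (1 - θ x)
      have := mul_nonneg h1 hx.1
      linarith
    · show 0 ≤ θ x * I₀ x + (1 - θ x)
      rw [hθ0 x hx]; norm_num
  refine ⟨I, ⟨hsm, fun q hq => ?_⟩, fun ε hε => ?_, hnn, fun x => ⟨fun h0 => ?_, fun hx => ?_⟩⟩
  · have hq' : I =ᶠ[𝓝 q] I₀ := eventually_nhdsSet_iff_forall.1 hnear q hq |>.self_of_nhds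
    obtain ⟨h0, b, hb, hev⟩ := hQ.2 q hq
    refine ⟨by rw [hq'.self_of_nhds]; exact h0, b, hb, ?_⟩
    filter_upwards [hev, hq'] with x hx hx'
    rw [hx']; exact hx
  · filter_upwards [hA ε hε, hnear] with x hx hx'
    have h1 : diff E I x = diff E I₀ x := Filter.EventuallyEq.mfderiv_eq hx'
    rw [h1, hx'.self_of_nhds]
    exact hx
  · have h0' : θ x * I₀ x + (1 - θ x) = 0 := h0
    by_cases hx : x ∈ U₀
    · have h1 := mul_nonneg (hθ x).1 hx.1
      have h2 := (hθ x).2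
      have h3 : θ x = 1 := by linarith
      rw [h3] at h0'
      exact hx.2 (by linarith)
    · rw [hθ0 x hx] at h0'
      norm_num at h0'
  · have hq' : I =ᶠ[𝓝 x] I₀ := eventually_nhdsSet_iff_forall.1 hnear x hx |>.self_of_nhds
    rw [hq'.self_of_nhds]
    exact (hQ.2 x hx).1

end Pool.Agent.PalF
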