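import Pool.Agent.PalF.Targets

/-!
# The size of the contracting field, in a vector space
-/

set_option autoImplicit false

open scoped ContDiff Topology
open Set Filter

namespace Pool.Agent.PalF

namespace SZE_

/-- Bound for the derivatives of order at most `r` on a compact set. -/
theorem exists_bound {F G : Type} [NormedAddCommGroup F] [NormedSpace ℝ F]
    [NormedAddCommGroup G] [NormedSpace ℝ G] {Ω K : Set F} {f : F → G} (hΩ : UniqueDiffOn ℝ Ω)
    (hK : IsCompact K) (hKΩ : K ⊆ Ω) (hf : ContDiffOn ℝ ∞ f Ω) (r : ℕ) :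
    ∃ C : ℝ, 1 ≤ C ∧ ∀ i ≤ r, ∀ y ∈ K, ‖iteratedFDerivWithin ℝ i f Ω y‖ ≤ C := by
  induction r with
  | zero =>
    obtain ⟨C, hC⟩ := hK.exists_bound_of_continuousOn
      ((hf.continuousOn_iteratedFDerivWithin (m := 0) (by exact_mod_cast le_top) hΩ).mono hKΩ)
    refine ⟨max C 1, le_max_right _ _, fun i hi y hy => ?_⟩
    have : i = 0 := by omega
    subst this
    exact (hC y hy).trans (le_max_left _ _)
  | succ r ih =>
    obtain ⟨C, hC1, hC⟩ := ih
    obtain ⟨C', hC'⟩ := hK.exists_bound_of_continuousOn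
      ((hf.continuousOn_iteratedFDerivWithin (m := r + 1) (by exact_mod_cast le_top) hΩ).mono hKΩ)
    refine ⟨max C C', hC1.trans (le_max_left _ _), fun i hi y hy => ?_⟩
    rcases Nat.lt_or_ge r i with h | h
    · have : i = r + 1 := by omega
      subst this
      exact (hC' y hy).trans (le_max_right _ _)
    · exact (hC i h y hy).trans (le_max_left _ _)

/-- the arithmetic of one term of the Leibniz formula -/
theorem term_le {ρ A Cw c₀ a b : ℝ} {r n i : ℕ} (hr : 1 ≤ r) (hn : n ≤ r) (hi : i ≤ n)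
    (hρ : 0 < ρ) (hρ1 : ρ ≤ 1) (hb : 0 ≤ b) (hA : 0 ≤ A) (hCw : 0 ≤ Cw) (hc₀ : 0 ≤ c₀)
    (haρ : a * ρ ^ i ≤ A) (hbn : i = n → b ≤ c₀ * ρ) (hbw : b ≤ Cw) :
    ρ ^ (r - 1) * (a * b) ≤ A * (Cw + c₀) := by
  rcases Nat.eq_or_lt_of_le hi with h | h
  · subst h
    have h1 : ρ ^ (r - 1) * ρ = ρ ^ (r - i) * ρ ^ i := by
      rw [← pow_succ, ← pow_add]
      congr 1
      omega
    have h2 : ρ ^ (r - i) ≤ 1 := pow_le_one₀ hρ.le hρ1
    have h0 : 0 ≤ ρ ^ (r - i) := by positivity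
    rcases le_total 0 a with ha | ha
    · calc ρ ^ (r - 1) * (a * b) ≤ ρ ^ (r - 1) * (a * (c₀ * ρ)) := by
            refine mul_le_mul_of_nonneg_left ?_ (by positivity)
            exact mul_le_mul_of_nonneg_left (hbn rfl) ha
        _ = (ρ ^ (r - 1) * ρ) * a * c₀ := by ring
        _ = ρ ^ (r - i) * (a * ρ ^ i) * c₀ := by rw [h1]; ring
        _ ≤ 1 * A * c₀ := by
            refine mul_le_mul_of_nonneg_right ?_ hc₀
            exact mul_le_mul h2 haρ (mul_nonneg ha (by positivity)) (by norm_num)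
        _ ≤ A * (Cw + c₀) := by nlinarith [mul_nonneg hA hCw]
    · have h3 : ρ ^ (r - 1) * (a * b) ≤ 0 :=
        mul_nonpos_of_nonneg_of_nonpos (by positivity) (mul_nonpos_of_nonpos_of_nonneg ha hb)
      have h4 : 0 ≤ A * (Cw + c₀) := mul_nonneg hA (add_nonneg hCw hc₀)
      exact h3.trans h4
  · have h1 : ρ ^ (r - 1) = ρ ^ (r - 1 - i) * ρ ^ i := by
      rw [← pow_add]
      congr 1
      omega
    have h2 : ρ ^ (r - 1 - i) ≤ 1 := pow_le_one₀ hρ.le hρ1
    have h0 : 0 ≤ ρ ^ (r - 1 - i) := by positivity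
    rcases le_total 0 a with ha | ha
    · calc ρ ^ (r - 1) * (a * b) ≤ ρ ^ (r - 1) * (a * Cw) := by
            refine mul_le_mul_of_nonneg_left ?_ (by positivity)
            exact mul_le_mul_of_nonneg_left hbw ha
        _ = ρ ^ (r - 1 - i) * (a * ρ ^ i) * Cw := by rw [h1]; ring
        _ ≤ 1 * A * Cw := by
            refine mul_le_mul_of_nonneg_right ?_ hCw
            exact mul_le_mul h2 haρ (mul_nonneg ha (by positivity)) (by norm_num)
        _ ≤ A * (Cw + c₀) := by nlinarith [mul_nonneg hA hc₀]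
    · have h3 : ρ ^ (r - 1) * (a * b) ≤ 0 :=
        mul_nonpos_of_nonneg_of_nonpos (by positivity) (mul_nonpos_of_nonpos_of_nonneg ha hb)
      have h4 : 0 ≤ A * (Cw + c₀) := mul_nonneg hA (add_nonneg hCw hc₀)
      exact h3.trans h4

end SZE_

open SZE_ in
theorem sze1 (hNNG : T_NNG) : T_SZE := by
  intro F _ _ _ Ω K u w χ r C hr hΩ hK hKΩ hu hw hu0 hwC hχ hχ4
  have hUD : UniqueDiffOn ℝ Ω := hΩ.uniqueDiffOn
  obtain ⟨C₂, hC₂, hnng⟩ := hNNG F Ω K u hΩ hK hKΩ hu hu0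
  obtain ⟨Cu, hCu1, hCu⟩ := exists_bound hUD hK hKΩ hu r
  obtain ⟨Cw, hCw1, hCw⟩ := exists_bound hUD hK hKΩ hw r
  obtain ⟨Cχ, hCχ1, hCχ⟩ := exists_bound (f := χ) uniqueDiffOn_univ
    (isCompact_Icc (a := (0 : ℝ)) (b := 4)) (subset_univ _) hχ.contDiffOn r
  set D : ℝ := max (2 * Real.sqrt C₂) Cu with hD
  have hD1 : 1 ≤ D := hCu1.trans (le_max_right _ _)
  set c₀ : ℝ := 2 * Real.sqrt |C| with hc₀
  set A : ℝ := (r.factorial : ℝ) * Cχ * D ^ r with hA
  have hA0 : 0 ≤ A := by positivity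
  refine ⟨(r + 1) * (2 ^ r * (A * (Cw + c₀))), fun ρ hρ hρ1 y hy k hk => ?_⟩
  have hyΩ := hKΩ hy
  have hB0 : 0 ≤ ((r : ℝ) + 1) * (2 ^ r * (A * (Cw + c₀))) := by
    have : 0 ≤ Cw := by linarith
    positivity
  rcases lt_or_ge (4 * ρ ^ 2) (u y) with hbig | hsmall
  · -- the function vanishes near `y`
    have h1 : ∀ᶠ z in 𝓝 y, 4 * ρ ^ 2 < u z :=
      (hu.continuousOn.continuousAt (hΩ.mem_nhds hyΩ)).eventually (lt_mem_nhds hbig)
    have h2 : (fun z => χ (u z / ρ ^ 2) • w z) =ᶠ[𝓝 y] fun _ => 0 := by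
      filter_upwards [h1] with z hz
      have : 4 ≤ u z / ρ ^ 2 := by
        rw [le_div_iff₀ (by positivity)]
        exact hz.le
      rw [hχ4 _ this, zero_smul]
    have h3 := (h2.iteratedFDeriv ℝ k).eq_of_nhds
    rw [h3, iteratedFDeriv_fun_zero]
    simpa using hB0
  · rw [← iteratedFDerivWithin_of_isOpen k hΩ hyΩ]
    -- the inner function
    have hscale : ∀ i : ℕ, ‖iteratedFDerivWithin ℝ i (fun z => (ρ ^ 2)⁻¹ • u z) Ω y‖ =
        (ρ ^ 2)⁻¹ * ‖iteratedFDerivWithin ℝ i u Ω y‖ := by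
      intro i
      have h1 := iteratedFDerivWithin_const_smul_apply (𝕜 := ℝ) (i := i) (a := (ρ ^ 2)⁻¹)
        ((hu y hyΩ).of_le (by exact_mod_cast le_top)) hUD hyΩ
      have h2 : ((ρ ^ 2)⁻¹ • u) = (fun z => (ρ ^ 2)⁻¹ • u z) := rfl
      rw [h2] at h1
      rw [h1, norm_smul, Real.norm_of_nonneg (by positivity)]
    have hDi : ∀ i : ℕ, 1 ≤ i → i ≤ k →
        ‖iteratedFDerivWithin ℝ i (fun z => (ρ ^ 2)⁻¹ • u z) Ω y‖ ≤ (D / ρ) ^ i := by
      intro i hi hik
      rw [hscale i, div_pow]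
      rcases Nat.eq_or_lt_of_le hi with h | h
      · rw [← h, pow_one, pow_one, norm_iteratedFDerivWithin_one u (hUD y hyΩ),
          fderivWithin_of_isOpen hΩ hyΩ]
        have h1 := hnng y hy
        have h2 : ‖fderiv ℝ u y‖ ≤ 2 * Real.sqrt C₂ * ρ := by
          refine abs_le_of_sq_le_sq' ?_ (by positivity) |>.2
          calc ‖fderiv ℝ u y‖ ^ 2 ≤ C₂ * u y := h1
            _ ≤ C₂ * (4 * ρ ^ 2) := mul_le_mul_of_nonneg_left hsmall hC₂
            _ = (2 * Real.sqrt C₂ * ρ) ^ 2 := by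
                rw [mul_pow, mul_pow, Real.sq_sqrt hC₂]; ring
        have h3 : ‖fderiv ℝ u y‖ ≤ D * ρ :=
          h2.trans (mul_le_mul_of_nonneg_right (le_max_left _ _) hρ.le)
        calc (ρ ^ 2)⁻¹ * ‖fderiv ℝ u y‖ ≤ (ρ ^ 2)⁻¹ * (D * ρ) :=
              mul_le_mul_of_nonneg_left h3 (by positivity)
          _ = D / ρ := by field_simp
      · have h1 : ‖iteratedFDerivWithin ℝ i u Ω y‖ ≤ D ^ i :=
          ((hCu i (hik.trans hk) y hy).trans (le_max_right _ _)).trans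
            (le_self_pow₀ hD1 (by omega))
        have h2 : (ρ ^ 2)⁻¹ ≤ (ρ ^ i)⁻¹ := by
          apply inv_anti₀ (by positivity)
          exact pow_le_pow_of_le_one hρ.le hρ1 h
        calc (ρ ^ 2)⁻¹ * ‖iteratedFDerivWithin ℝ i u Ω y‖ ≤ (ρ ^ i)⁻¹ * D ^ i :=
              mul_le_mul h2 h1 (norm_nonneg _) (by positivity)
          _ = D ^ i / ρ ^ i := by rw [div_eq_inv_mul]
    have hval : (ρ ^ 2)⁻¹ • u y ∈ Icc (0 : ℝ) 4 := by
      rw [smul_eq_mul, ← div_eq_inv_mul]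
      constructor
      · exact div_nonneg (hu0 y hyΩ) (by positivity)
      · rw [div_le_iff₀ (by positivity)]
        exact hsmall
    have hcd : ContDiffOn ℝ ∞ (fun z => (ρ ^ 2)⁻¹ • u z) Ω := hu.const_smul _
    have hcomp : ∀ i ≤ k, ‖iteratedFDerivWithin ℝ i (χ ∘ fun z => (ρ ^ 2)⁻¹ • u z) Ω y‖ ≤
        i.factorial * Cχ * (D / ρ) ^ i := by
      intro i hi
      refine norm_iteratedFDerivWithin_comp_le (N := ∞) (t := univ) hχ.contDiffOn hcd
        (by exact_mod_cast le_top) uniqueDiffOn_univ hUD (mapsTo_univ _ _) hyΩ ?_ ?_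
      · intro j hj
        exact hCχ j (by omega) _ hval
      · intro j hj1 hj
        exact hDi j hj1 (by omega)
    have hcd2 : ContDiffOn ℝ ∞ (χ ∘ fun z => (ρ ^ 2)⁻¹ • u z) Ω := hχ.comp_contDiffOn hcd
    have hfun : (fun z => χ (u z / ρ ^ 2) • w z) =
        fun z => (χ ∘ fun z => (ρ ^ 2)⁻¹ • u z) z • w z := by
      funext z
      simp only [Function.comp, smul_eq_mul, ← div_eq_inv_mul]
    rw [hfun]
    have hLeib := norm_iteratedFDerivWithin_smul_le (N := ∞) hcd2 hw hUD hyΩ (n := k)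
      (by exact_mod_cast le_top)
    have hw0 : ‖w y‖ ≤ c₀ * ρ := by
      refine abs_le_of_sq_le_sq' ?_ (by positivity) |>.2
      calc ‖w y‖ ^ 2 ≤ C * u y := hwC y hy
        _ ≤ |C| * u y := mul_le_mul_of_nonneg_right (le_abs_self C) (hu0 y hyΩ)
        _ ≤ |C| * (4 * ρ ^ 2) := mul_le_mul_of_nonneg_left hsmall (abs_nonneg C)
        _ = (c₀ * ρ) ^ 2 := by
            rw [hc₀, mul_pow, mul_pow, Real.sq_sqrt (abs_nonneg C)]; ring
    have hterm : ∀ i ∈ Finset.range (k + 1), ρ ^ (r - 1) * ((k.choose i : ℝ) *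
        ‖iteratedFDerivWithin ℝ i (χ ∘ fun z => (ρ ^ 2)⁻¹ • u z) Ω y‖ *
        ‖iteratedFDerivWithin ℝ (k - i) w Ω y‖) ≤ 2 ^ r * (A * (Cw + c₀)) := by
      intro i hi
      have hik : i ≤ k := by
        have := Finset.mem_range.1 hi
        omega
      have h1 : ‖iteratedFDerivWithin ℝ i (χ ∘ fun z => (ρ ^ 2)⁻¹ • u z) Ω y‖ * ρ ^ i ≤ A := by
        calc _ ≤ (i.factorial * Cχ * (D / ρ) ^ i) * ρ ^ i :=
              mul_le_mul_of_nonneg_right (hcomp i hik) (by positivity)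
          _ = i.factorial * Cχ * D ^ i := by
              rw [div_pow]
              field_simp
          _ ≤ r.factorial * Cχ * D ^ r := by
              have e1 : (i.factorial : ℝ) ≤ r.factorial := by
                exact_mod_cast Nat.factorial_le (by omega)
              have e2 : D ^ i ≤ D ^ r := pow_le_pow_right₀ hD1 (by omega)
              have e3 : 0 ≤ Cχ := by linarith
              gcongr
      have h2 := term_le (a := ‖iteratedFDerivWithin ℝ i (χ ∘ fun z => (ρ ^ 2)⁻¹ • u z) Ω y‖)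
        (b := ‖iteratedFDerivWithin ℝ (k - i) w Ω y‖) (Cw := Cw) (c₀ := c₀) hr hk hik hρ hρ1
        (norm_nonneg _) hA0 (by linarith) (by positivity) h1
        (fun h => by rw [h, Nat.sub_self, norm_iteratedFDerivWithin_zero]; exact hw0)
        (hCw _ (by omega) y hy)
      have h3 : (k.choose i : ℝ) ≤ 2 ^ r := by
        have e1 : k.choose i ≤ 2 ^ k := Nat.choose_le_two_pow _ _
        have e2 : (2 : ℕ) ^ k ≤ 2 ^ r := Nat.pow_le_pow_right (by norm_num) hk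
        exact_mod_cast e1.trans e2
      have h4 : 0 ≤ ρ ^ (r - 1) * (‖iteratedFDerivWithin ℝ i
          (χ ∘ fun z => (ρ ^ 2)⁻¹ • u z) Ω y‖ * ‖iteratedFDerivWithin ℝ (k - i) w Ω y‖) := by
        positivity
      calc _ = (k.choose i : ℝ) * (ρ ^ (r - 1) * (‖iteratedFDerivWithin ℝ i
          (χ ∘ fun z => (ρ ^ 2)⁻¹ • u z) Ω y‖ * ‖iteratedFDerivWithin ℝ (k - i) w Ω y‖)) := by
            ring
        _ ≤ 2 ^ r * (A * (Cw + c₀)) := mul_le_mul h3 h2 h4 (by positivity)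
    calc ρ ^ (r - 1) * ‖iteratedFDerivWithin ℝ k
          (fun z => (χ ∘ fun z => (ρ ^ 2)⁻¹ • u z) z • w z) Ω y‖
        ≤ ρ ^ (r - 1) * ∑ i ∈ Finset.range (k + 1), (k.choose i : ℝ) *
          ‖iteratedFDerivWithin ℝ i (χ ∘ fun z => (ρ ^ 2)⁻¹ • u z) Ω y‖ *
          ‖iteratedFDerivWithin ℝ (k - i) w Ω y‖ :=
          mul_le_mul_of_nonneg_left hLeib (by positivity)
      _ = ∑ i ∈ Finset.range (k + 1), ρ ^ (r - 1) * ((k.choose i : ℝ) *
          ‖iteratedFDerivWithin ℝ i (χ ∘ fun z => (ρ ^ 2)⁻¹ • u z) Ω y‖ *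
          ‖iteratedFDerivWithin ℝ (k - i) w Ω y‖) := Finset.mul_sum _ _ _
      _ ≤ ∑ _i ∈ Finset.range (k + 1), 2 ^ r * (A * (Cw + c₀)) := Finset.sum_le_sum hterm
      _ = (k + 1 : ℝ) * (2 ^ r * (A * (Cw + c₀))) := by simp
      _ ≤ (r + 1 : ℝ) * (2 ^ r * (A * (Cw + c₀))) := by
          refine mul_le_mul_of_nonneg_right ?_ ?_
          · have : (k : ℝ) ≤ r := by exact_mod_cast hk
            linarith
          · have : 0 ≤ Cw := by linarith
            positivity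

end Pool.Agent.PalF
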