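import Pool.Agent.PalF.Targets

/-!
# The size of the contracting field, on the manifold
-/

set_option autoImplicit false

open scoped Manifold ContDiff Topology
open Set Filter Pool.Agent.Palis

namespace Pool.Agent.PalF

theorem szm1 (hSZE : T_SZE) : T_SZM := by
  intro E _ _ _ M _ _ _ _ _ I W χ r C x₀ K hr hI hI0 hW hχ hχ4 hK hKs hWC
  set e := extChartAt 𝓘(ℝ, E) x₀ with he
  have hu : ContDiffOn ℝ ∞ (fun y => I (e.symm y)) e.target := by
    have h1 : ContMDiffOn 𝓘(ℝ, E) 𝓘(ℝ, E) ∞ e.symm e.target :=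
      contMDiffOn_extChartAt_symm (n := ∞) _
    exact contMDiffOn_iff_contDiffOn.1 (hI.comp_contMDiffOn h1)
  have hw : ContDiffOn ℝ ∞ (localRep E W x₀) e.target := localRep_contDiffOn (k := ⊤) hW x₀
  have hK' : IsCompact (e '' K) :=
    hK.image_of_continuousOn ((continuousOn_extChartAt x₀).mono hKs)
  have hK'Ω : e '' K ⊆ e.target := by
    rintro _ ⟨x, hx, rfl⟩
    exact e.map_source (hKs hx)
  obtain ⟨B, hB⟩ := hSZE E e.target (e '' K) (fun y => I (e.symm y)) (localRep E W x₀) χ r C hr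
    (isOpen_extChartAt_target x₀) hK' hK'Ω hu hw (fun y _ => hI0 _)
    (by
      rintro _ ⟨x, hx, rfl⟩
      have := hWC x hx
      rw [e.left_inv (hKs hx)]
      exact this) hχ hχ4
  refine ⟨B, fun ρ hρ hρ1 x hx k hk => ?_⟩
  have h1 := hB ρ hρ hρ1 (e x) (mem_image_of_mem _ hx) k hk
  have h2 : localRep E (fun z => χ (I z / ρ ^ 2) • W z) x₀ =
      fun z => χ (I (e.symm z) / ρ ^ 2) • localRep E W x₀ z := by
    funext y
    exact map_smul _ _ _
  rw [h2]
  exact h1

end Pool.Agent.PalF
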