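import Pool.Agent.PalF.Targets

/-!
# The trap at scale `ρ` (PALF-TRP)
-/

set_option autoImplicit false

open scoped Manifold ContDiff Topology
open MeasureTheory Set Filter Bundle Asymptotics Metric Pool.Agent.Palis

namespace Pool.Agent.PalF

namespace TRP_

theorem sub_nhds {M : Type} [TopologicalSpace M] [CompactSpace M] {I : M → ℝ} (hI : Continuous I)
    {Λ : Set M} (h0 : ∀ x, 0 ≤ I x) (hz : ∀ x, I x = 0 ↔ x ∈ Λ) {p : M → Prop}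
    (hp : ∀ᶠ x in 𝓝ˢ Λ, p x) : ∃ c : ℝ, 0 < c ∧ ∀ x, I x ≤ c → p x := by
  obtain ⟨V, hV, hΛ, hVp⟩ := mem_nhdsSet_iff_exists.1 hp
  rcases (Vᶜ).eq_empty_or_nonempty with he | hne
  · refine ⟨1, one_pos, fun x _ => hVp ?_⟩
    rw [compl_empty_iff] at he
    rw [he]
    exact mem_univ x
  · obtain ⟨x₀, hx₀, hmin⟩ := hV.isClosed_compl.isCompact.exists_isMinOn hne hI.continuousOn
    have hpos : 0 < I x₀ := by
      refine lt_of_le_of_ne (h0 x₀) fun h => hx₀ (hΛ ?_)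
      exact (hz x₀).1 h.symm
    refine ⟨I x₀ / 2, by positivity, fun x hx => hVp ?_⟩
    by_contra hxV
    have h1 : I x₀ ≤ I x := hmin hxV
    linarith

theorem rpow_split {a ρ : ℝ} {r : ℕ} (hr : 1 ≤ r) (ha : 0 < a) (hρ : 0 < ρ)
    (h : a ≤ 2 * ρ ^ 2) :
    |a| ^ (((r : ℝ) + 1) / 2) ≤ a * ((2 : ℝ) ^ (((r : ℝ) - 1) / 2) * ρ ^ (r - 1)) := by
  have hr1 : (1 : ℝ) ≤ r := by exact_mod_cast hr
  have he : 0 ≤ ((r : ℝ) - 1) / 2 := by linarith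
  have e1 : ((r : ℝ) + 1) / 2 = 1 + ((r : ℝ) - 1) / 2 := by ring
  rw [abs_of_pos ha, e1, Real.rpow_add ha, Real.rpow_one]
  refine mul_le_mul_of_nonneg_left ?_ ha.le
  refine (Real.rpow_le_rpow ha.le h he).trans (le_of_eq ?_)
  rw [Real.mul_rpow (by norm_num) (by positivity)]
  congr 1
  rw [← Real.rpow_natCast ρ 2, ← Real.rpow_mul hρ.le, ← Real.rpow_natCast ρ (r - 1)]
  congr 1
  rw [Nat.cast_sub hr]
  push_cast
  ring

end TRP_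

open TRP_

theorem trp1 : T_TRP := by
  intro E _ _ _ M _ _ _ _ _ X W r Λ I χ c₀ c₁ ε hr hI hAI h0 hz hc₀ hc₁ hW hχ0 hχ4 hanti hε
  set b : ℝ := (2 : ℝ) ^ (((r : ℝ) - 1) / 2) with hb
  have hb0 : 0 < b := Real.rpow_pos_of_pos (by norm_num) _
  have hχ2 : 0 < χ 2 := hχ4 2 (by norm_num)
  have hε' : 0 < ε * χ 2 * c₁ / (2 * b) := by positivity
  obtain ⟨c, hc, hcx⟩ := sub_nhds hI.continuous h0 hz (hAI _ hε')
  set m : ℝ := min c c₀ with hm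
  have hm0 : 0 < m := lt_min hc hc₀
  refine ⟨Real.sqrt (m / 2), Real.sqrt_pos.2 (by positivity), ?_⟩
  intro ρ hρ hρ1 x hx1 hx2
  have hρ2 : 2 * ρ ^ 2 ≤ m := by
    have h1 : ρ ^ 2 ≤ m / 2 := by
      have h2 : ρ ^ 2 ≤ Real.sqrt (m / 2) ^ 2 := pow_le_pow_left₀ hρ.le hρ1.le 2
      rwa [Real.sq_sqrt (by positivity)] at h2
    linarith
  have hxc : I x ≤ c := hx2.trans (hρ2.trans (min_le_left _ _))
  have hxc₀ : I x ≤ c₀ := hx2.trans (hρ2.trans (min_le_right _ _))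
  have e1 : lieD I (fun z => X z + (-(ε * ρ ^ (r - 1)) * χ (I z / ρ ^ 2)) • W z) x =
      lieD I X x + (-(ε * ρ ^ (r - 1)) * χ (I x / ρ ^ 2)) * lieD I W x := by
    have a1 : lieD I (fun z => X z + (-(ε * ρ ^ (r - 1)) * χ (I z / ρ ^ 2)) • W z) x =
      lieD I X x + lieD I (fun z => (-(ε * ρ ^ (r - 1)) * χ (I z / ρ ^ 2)) • W z) x :=
      map_add _ _ _
    have a2 : lieD I (fun z => (-(ε * ρ ^ (r - 1)) * χ (I z / ρ ^ 2)) • W z) x =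
        (-(ε * ρ ^ (r - 1)) * χ (I x / ρ ^ 2)) * lieD I W x := map_smul _ _ _
    rw [a1, a2]
  rw [e1]
  have h1 : |lieD I X x| ≤ ε * χ 2 * c₁ / (2 * b) * |I x| ^ (((r : ℝ) + 1) / 2) := hcx x hxc
  have h2 := rpow_split hr hx1 hρ hx2
  rw [← hb] at h2
  have h3 : lieD I X x ≤ ε * χ 2 * c₁ / (2 * b) * (I x * (b * ρ ^ (r - 1))) :=
    (le_abs_self _).trans (h1.trans (mul_le_mul_of_nonneg_left h2 hε'.le))
  have e2 : ε * χ 2 * c₁ / (2 * b) * (I x * (b * ρ ^ (r - 1))) =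
      ε * ρ ^ (r - 1) * χ 2 * (c₁ * I x) / 2 := by
    field_simp
  rw [e2] at h3
  have h4 : χ 2 ≤ χ (I x / ρ ^ 2) := by
    apply hanti
    rw [div_le_iff₀ (by positivity)]
    exact hx2
  have h5 : c₁ * I x ≤ lieD I W x := hW x hxc₀
  have h6 : χ 2 * (c₁ * I x) ≤ χ (I x / ρ ^ 2) * lieD I W x :=
    mul_le_mul h4 h5 (by positivity) (hχ0 _)
  have h7 : 0 < ε * ρ ^ (r - 1) := by positivity
  have h8 : 0 < ε * ρ ^ (r - 1) * (χ 2 * (c₁ * I x)) := by positivity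
  have h9 : ε * ρ ^ (r - 1) * (χ 2 * (c₁ * I x)) ≤
      ε * ρ ^ (r - 1) * (χ (I x / ρ ^ 2) * lieD I W x) := mul_le_mul_of_nonneg_left h6 h7.le
  have e3 : (-(ε * ρ ^ (r - 1)) * χ (I x / ρ ^ 2)) * lieD I W x =
      -(ε * ρ ^ (r - 1) * (χ (I x / ρ ^ 2) * lieD I W x)) := by ring
  have e4 : ε * ρ ^ (r - 1) * χ 2 * (c₁ * I x) / 2 =
      ε * ρ ^ (r - 1) * (χ 2 * (c₁ * I x)) / 2 := by ring
  rw [e4] at h3
  rw [e3]
  linarith

end Pool.Agent.PalF
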