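import Pool.Agent.PalF.Targets
import Pool.Agent.PalF.PIN

/-!
# PALF-TRV: a transport field in a vector space
-/

set_option autoImplicit false

open scoped Manifold ContDiff Topology
open MeasureTheory Set Filter Bundle Metric Pool.Agent.Palis

namespace Pool.Agent.PalF

namespace TRV_

variable {F : Type} [NormedAddCommGroup F] [NormedSpace ℝ F] [FiniteDimensional ℝ F]

/-- The integral of `β` along the segment from `y₀` with direction `v`. -/
noncomputable def gg (β : F → ℝ) (y₀ v : F) (y : F) : ℝ :=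
  ∫ θ in (0 : ℝ)..1, β (y - y₀ - θ • v)

theorem contDiff_gg {β : F → ℝ} (hβ : ContDiff ℝ ∞ β) (y₀ v : F) :
    ContDiff ℝ ∞ (gg β y₀ v) := by
  refine PIN_.contDiff_param_infty 0 1 (F := fun p : F × ℝ => β (p.1 - y₀ - p.2 • v)) ?_
  exact hβ.comp ((contDiff_fst.sub contDiff_const).sub (contDiff_snd.smul contDiff_const))

omit [FiniteDimensional ℝ F] in
theorem hasDerivAt_gg {β : F → ℝ} (hβ : Continuous β) (y₀ v y : F) :
    HasDerivAt (fun t : ℝ => gg β y₀ v (y + t • v)) (β (y - y₀) - β (y - (y₀ + v))) 0 := by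
  set φ : ℝ → ℝ := fun θ => β (y - y₀ - θ • v) with hφ
  have hφc : Continuous φ := hβ.comp (by fun_prop)
  have h1 : ∀ t : ℝ, gg β y₀ v (y + t • v) = (∫ x in (0 : ℝ)..(1 - t), φ x) -
      ∫ x in (0 : ℝ)..(0 - t), φ x := by
    intro t
    have e1 : gg β y₀ v (y + t • v) = ∫ θ in (0 : ℝ)..1, φ (θ - t) := by
      unfold gg
      refine intervalIntegral.integral_congr fun θ _ => ?_
      simp only [hφ]
      congr 1
      rw [sub_smul]
      abel
    rw [e1, intervalIntegral.integral_comp_sub_right φ t,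
      intervalIntegral.integral_interval_sub_left (hφc.intervalIntegrable _ _)
        (hφc.intervalIntegrable _ _)]
  have h2 : ∀ x, HasDerivAt (fun x => ∫ s in (0 : ℝ)..x, φ s) (φ x) x := fun x =>
    intervalIntegral.integral_hasDerivAt_right (hφc.intervalIntegrable _ _)
      (hφc.stronglyMeasurableAtFilter _ _) hφc.continuousAt
  have h3 : HasDerivAt (fun t : ℝ => ∫ s in (0 : ℝ)..(1 - t), φ s) (φ (1 - 0) * (-1)) 0 := by
    have ha : HasDerivAt (fun t : ℝ => 1 - t) (-1) 0 := by
      simpa using (hasDerivAt_id (0 : ℝ)).const_sub 1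
    exact (h2 (1 - 0)).comp (0 : ℝ) ha
  have h4 : HasDerivAt (fun t : ℝ => ∫ s in (0 : ℝ)..(0 - t), φ s) (φ (0 - 0) * (-1)) 0 := by
    have ha : HasDerivAt (fun t : ℝ => 0 - t) (-1) 0 := by
      simpa using (hasDerivAt_id (0 : ℝ)).const_sub 0
    exact (h2 (0 - 0)).comp (0 : ℝ) ha
  have h5 := h3.sub h4
  have h6 : (fun t : ℝ => gg β y₀ v (y + t • v)) = fun t => (∫ x in (0 : ℝ)..(1 - t), φ x) -
      ∫ x in (0 : ℝ)..(0 - t), φ x := funext h1
  rw [h6]
  have h7 : φ (1 - 0) * (-1) - φ (0 - 0) * (-1) = β (y - y₀) - β (y - (y₀ + v)) := by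
    simp only [hφ, sub_zero, zero_smul, one_smul]
    rw [← sub_sub y y₀ v]
    ring
  rw [← h7]
  exact h5

theorem fderiv_gg {β : F → ℝ} (hβ : ContDiff ℝ ∞ β) (y₀ v y : F) :
    fderiv ℝ (gg β y₀ v) y v = β (y - y₀) - β (y - (y₀ + v)) := by
  have h1 : HasFDerivAt (gg β y₀ v) (fderiv ℝ (gg β y₀ v) y) y :=
    ((contDiff_gg hβ y₀ v).differentiable (by simp) y).hasFDerivAt
  have h2 : HasDerivAt (fun t : ℝ => y + t • v) v 0 := by
    simpa using ((hasDerivAt_id (0 : ℝ)).smul_const v).const_add y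
  have h3 : HasDerivAt (fun t : ℝ => gg β y₀ v (y + t • v)) (fderiv ℝ (gg β y₀ v) y v) 0 := by
    have h1' : HasFDerivAt (gg β y₀ v) (fderiv ℝ (gg β y₀ v) y) (y + (0 : ℝ) • v) := by
      simpa using h1
    exact h1'.comp_hasDerivAt (0 : ℝ) h2
  exact h3.unique (hasDerivAt_gg hβ.continuous y₀ v y)

end TRV_

open TRV_

/-- A transport field in a vector space. -/
theorem trv1 : T_TRV := by
  intro F _ _ _ y₀ y₁ s hs
  have hprop : ProperSpace F := FiniteDimensional.proper ℝ F
  let b : ContDiffBump (0 : F) := ⟨s / 2, s, by positivity, by linarith⟩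
  set β : F → ℝ := fun y => b y with hβ
  have hβs : ContDiff ℝ ∞ β := b.contDiff
  have hβz : ∀ y, s ≤ ‖y‖ → β y = 0 := by
    intro y hy
    refine b.zero_of_le_dist ?_
    rw [dist_zero_right]
    exact hy
  set v : F := y₁ - y₀ with hv
  have hyv : y₀ + v = y₁ := by rw [hv]; abel
  have hsupp : ∀ y, gg β y₀ v y ≠ 0 → y ∈ cthickening s (segment ℝ y₀ y₁) := by
    intro y hy
    by_contra hn
    apply hy
    unfold gg
    rw [intervalIntegral.integral_congr (g := fun _ => (0 : ℝ)), intervalIntegral.integral_zero]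
    intro θ hθ
    rw [uIcc_of_le zero_le_one] at hθ
    refine hβz _ ?_
    by_contra hlt
    push Not at hlt
    apply hn
    refine mem_cthickening_of_dist_le y (y₀ + θ • v) s _ ?_ ?_
    · rw [segment_eq_image']
      exact ⟨θ, hθ, rfl⟩
    · rw [dist_eq_norm, ← sub_sub]
      exact hlt.le
  have hK : IsCompact (cthickening s (segment ℝ y₀ y₁)) := by
    have h1 : IsCompact (segment ℝ y₀ y₁) := by
      rw [segment_eq_image']
      exact isCompact_Icc.image (by fun_prop)
    exact h1.cthickening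
  have hts : tsupport (fun y => gg β y₀ v y • v) ⊆ cthickening s (segment ℝ y₀ y₁) := by
    refine closure_minimal ?_ isClosed_cthickening
    intro y hy
    refine hsupp y fun h0 => hy ?_
    simp only
    rw [h0, zero_smul]
  refine ⟨fun y => gg β y₀ v y • v, β, (contDiff_gg hβs y₀ v).smul contDiff_const, ?_, ?_, hβs,
    fun y => b.nonneg, ?_, hβz, ?_⟩
  · exact hK.of_isClosed_subset (isClosed_tsupport _) hts
  · exact hts
  · have h1 : β 0 = 1 := b.one_of_mem_closedBall (mem_closedBall_self (by positivity))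
    rw [h1]
    exact one_pos
  · intro y
    rw [fderiv_smul_const ((contDiff_gg hβs y₀ v).differentiable (by simp) y)]
    have h1 := LinearMap.trace_smulRight ((fderiv ℝ (gg β y₀ v) y : F →L[ℝ] ℝ) : F →ₗ[ℝ] ℝ) v
    rw [← hyv, ← fderiv_gg hβs y₀ v y]
    exact h1

end Pool.Agent.PalF
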