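import Pool.Agent.PalF.BoxTools

/-!
# PALF-TWA: twist fields
-/

set_option autoImplicit false

open scoped Manifold ContDiff Topology
open MeasureTheory Set Filter Bundle Asymptotics Metric Pool.Agent.Palis

namespace Pool.Agent.PalF

namespace TWA_

/-- the rotation by a right angle -/
noncomputable abbrev J : E2 →L[ℝ] E2 := Pal.rot (Real.pi / 2)

lemma rot_apply0 (t : ℝ) (y : E2) : Pal.rot t y 0 = Real.cos t * y 0 - Real.sin t * y 1 := by
  simp [Pal.rot, Matrix.toEuclideanLin_apply, dotProduct, Fin.sum_univ_two]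
  ring

lemma rot_apply1 (t : ℝ) (y : E2) : Pal.rot t y 1 = Real.sin t * y 0 + Real.cos t * y 1 := by
  simp [Pal.rot, Matrix.toEuclideanLin_apply, dotProduct, Fin.sum_univ_two]

lemma inner_J (y : E2) : inner ℝ y (J y) = 0 := by
  rw [PiLp.inner_apply]
  simp only [Fin.sum_univ_two, rot_apply0, rot_apply1, Real.cos_pi_div_two, Real.sin_pi_div_two]
  simp
  ring

lemma trace_J : LinearMap.trace ℝ E2 (J : E2 →ₗ[ℝ] E2) = 0 := by
  rw [LinearMap.trace_eq_matrix_trace ℝ (EuclideanSpace.basisFun (Fin 2) ℝ).toBasis]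
  simp only [Matrix.trace, Matrix.diag, LinearMap.toMatrix_apply, Fin.sum_univ_two]
  have h0 : ((EuclideanSpace.basisFun (Fin 2) ℝ).toBasis.repr
      ((J : E2 →ₗ[ℝ] E2) ((EuclideanSpace.basisFun (Fin 2) ℝ).toBasis 0))) 0 = 0 := by
    show Pal.rot (Real.pi / 2) _ 0 = 0
    rw [rot_apply0]
    simp
  have h1 : ((EuclideanSpace.basisFun (Fin 2) ℝ).toBasis.repr
      ((J : E2 →ₗ[ℝ] E2) ((EuclideanSpace.basisFun (Fin 2) ℝ).toBasis 1))) 1 = 0 := by
    show Pal.rot (Real.pi / 2) _ 1 = 0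
    rw [rot_apply1]
    simp
  rw [h0, h1, add_zero]

/-- the field in the coordinates -/
noncomputable def Zf (β χ : ℝ → ℝ) (z : ℝ × E2) : ℝ × E2 :=
  (0, (β z.1 * χ (‖z.2‖ ^ 2)) • J z.2)

lemma Zf_contDiff {β χ : ℝ → ℝ} (hβ : ContDiff ℝ ∞ β) (hχ : ContDiff ℝ ∞ χ) :
    ContDiff ℝ ∞ (Zf β χ) := by
  unfold Zf
  refine contDiff_const.prodMk ?_
  refine ((hβ.comp contDiff_fst).mul (hχ.comp (contDiff_snd.norm_sq ℝ))).smul ?_
  exact J.contDiff.comp contDiff_snd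

lemma trace_Zf {β χ : ℝ → ℝ} (hβ : ContDiff ℝ ∞ β) (hχ : ContDiff ℝ ∞ χ) (z : ℝ × E2) :
    LinearMap.trace ℝ (ℝ × E2) (fderiv ℝ (Zf β χ) z : ℝ × E2 →L[ℝ] ℝ × E2) = 0 := by
  have hb : HasFDerivAt (fun z : ℝ × E2 => β z.1)
      ((deriv β z.1) • (ContinuousLinearMap.fst ℝ ℝ E2)) z :=
    ((hβ.differentiable (by simp) z.1).hasDerivAt).comp_hasFDerivAt z hasFDerivAt_fst
  have hn : HasFDerivAt (fun z : ℝ × E2 => ‖z.2‖ ^ 2)
      ((2 • (innerSL ℝ z.2)) ∘L (ContinuousLinearMap.snd ℝ ℝ E2)) z :=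
    HasFDerivAt.comp z (hasStrictFDerivAt_norm_sq z.2).hasFDerivAt hasFDerivAt_snd
  have hc : HasFDerivAt (fun z : ℝ × E2 => χ (‖z.2‖ ^ 2))
      ((deriv χ (‖z.2‖ ^ 2)) • ((2 • (innerSL ℝ z.2)) ∘L (ContinuousLinearMap.snd ℝ ℝ E2))) z :=
    ((hχ.differentiable (by simp) (‖z.2‖ ^ 2)).hasDerivAt).comp_hasFDerivAt z hn
  have ha := hb.mul hc
  have hJ : HasFDerivAt (fun z : ℝ × E2 => ((0, J z.2) : ℝ × E2))
      ((ContinuousLinearMap.inr ℝ ℝ E2) ∘L J ∘L (ContinuousLinearMap.snd ℝ ℝ E2)) z :=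
    ((ContinuousLinearMap.inr ℝ ℝ E2) ∘L J ∘L (ContinuousLinearMap.snd ℝ ℝ E2)).hasFDerivAt
  have hZ := ha.smul hJ
  have hZ' : HasFDerivAt (Zf β χ) _ z := hZ.congr_of_eventuallyEq (by
    filter_upwards with w
    unfold Zf
    ext1
    · simp
    · simp)
  rw [hZ'.fderiv]
  simp only [ContinuousLinearMap.toLinearMap_add, ContinuousLinearMap.toLinearMap_smul, map_add, map_smul]
  have t1 : LinearMap.trace ℝ (ℝ × E2) (((ContinuousLinearMap.inr ℝ ℝ E2) ∘L J ∘L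
      (ContinuousLinearMap.snd ℝ ℝ E2) : ℝ × E2 →L[ℝ] ℝ × E2) : ℝ × E2 →ₗ[ℝ] ℝ × E2) = 0 := by
    have h1 : (((ContinuousLinearMap.inr ℝ ℝ E2) ∘L J ∘L
      (ContinuousLinearMap.snd ℝ ℝ E2) : ℝ × E2 →L[ℝ] ℝ × E2) : ℝ × E2 →ₗ[ℝ] ℝ × E2) =
        LinearMap.prodMap 0 (J : E2 →ₗ[ℝ] E2) := by
      ext x <;> simp
    rw [h1, LinearMap.trace_prodMap', trace_J]
    simp
  have t2 : ∀ (ℓ : ℝ × E2 →L[ℝ] ℝ) (v : ℝ × E2), LinearMap.trace ℝ (ℝ × E2)
      ((ℓ.smulRight v : ℝ × E2 →L[ℝ] ℝ × E2) : ℝ × E2 →ₗ[ℝ] ℝ × E2) = ℓ v := by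
    intro ℓ v
    exact LinearMap.trace_smulRight (ℓ : ℝ × E2 →ₗ[ℝ] ℝ) v
  rw [t1, t2]
  simp [inner_J]

end TWA_

open TWA_ in
theorem twa1 (hPUL : T_PUL) (hIBP : T_IBP) : T_TWA := by
  intro E _ _ _ _ _ M _ _ _ _ _ _ _ μ _ X Φ h hB
  have hh := hB.pos
  let b : ContDiffBump (-(h / 2) : ℝ) := ⟨h / 16, h / 8, by positivity, by linarith⟩
  obtain ⟨β, hβ⟩ : ∃ β : ℝ → ℝ, β = b.normed volume := ⟨_, rfl⟩
  obtain ⟨χ, hχ⟩ : ∃ χ : ℝ → ℝ, χ = fun s =>
    Real.smoothTransition (((h / 2) ^ 2 - s) / ((h / 2) ^ 2 - (h / 4) ^ 2)) := ⟨_, rfl⟩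
  have hβs : ContDiff ℝ ∞ β := by rw [hβ]; exact b.contDiff_normed
  have hχs : ContDiff ℝ ∞ χ := by
    rw [hχ]
    exact Real.smoothTransition.contDiff.comp ((contDiff_const.sub contDiff_id).div_const _)
  have hβ0 : ∀ t, (t ≤ -(5 * h / 8) ∨ -(3 * h / 8) ≤ t) → β t = 0 := by
    intro t ht
    by_contra hne
    have h1 : t ∈ Function.support (b.normed volume) := by rw [← hβ]; exact hne
    rw [b.support_normed_eq, Metric.mem_ball, Real.dist_eq, abs_lt] at h1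
    have h2 : b.rOut = h / 8 := rfl
    rw [h2] at h1
    rcases ht with ht | ht
    · linarith [h1.1]
    · linarith [h1.2]
  have hd : 0 < (h / 2) ^ 2 - (h / 4) ^ 2 := by nlinarith
  have hχ0 : ∀ t, (h / 2) ^ 2 ≤ t → χ t = 0 := by
    intro t ht
    rw [hχ]
    apply Real.smoothTransition.zero_of_nonpos
    exact div_nonpos_of_nonpos_of_nonneg (by linarith) hd.le
  have hχ1 : ∀ t, 0 ≤ t → t ≤ (h / 4) ^ 2 → χ t = 1 := by
    intro t _ ht
    rw [hχ]
    apply Real.smoothTransition.one_of_one_le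
    rw [le_div_iff₀ hd]
    linarith
  have hK : IsCompact (Icc (-(5 * h / 8)) (-(3 * h / 8)) ×ˢ closedBall (0 : E2) (h / 2)) :=
    isCompact_Icc.prod (isCompact_closedBall _ _)
  have hKt : Icc (-(5 * h / 8)) (-(3 * h / 8)) ×ˢ closedBall (0 : E2) (h / 2) ⊆ Φ.target := by
    rw [hB.target]
    rintro ⟨t, y⟩ ⟨ht, hy⟩
    rw [mem_closedBall] at hy
    refine ⟨⟨by have := ht.1; simp only at this; simp only; linarith,
      by have := ht.2; simp only at this; simp only; linarith⟩, ?_⟩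
    rw [mem_ball]
    simp only at hy ⊢
    linarith
  have hZ0 : ∀ z, z ∉ Icc (-(5 * h / 8)) (-(3 * h / 8)) ×ˢ closedBall (0 : E2) (h / 2) →
      Zf β χ z = 0 := by
    intro z hz
    unfold Zf
    by_cases h1 : z.1 ∈ Icc (-(5 * h / 8)) (-(3 * h / 8))
    · have h2 : z.2 ∉ closedBall (0 : E2) (h / 2) := fun h2 => hz ⟨h1, h2⟩
      rw [mem_closedBall, dist_zero_right, not_le] at h2
      rw [hχ0 _ (by gcongr), mul_zero, zero_smul]
      rfl
    · rw [mem_Icc, not_and_or, not_le, not_le] at h1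
      rw [hβ0 _ (by rcases h1 with h1 | h1 <;> [left; right] <;> exact h1.le), zero_mul, zero_smul]
      rfl
  have hZs := Zf_contDiff hβs hχs
  have hZc : HasCompactSupport (Zf β χ) := HasCompactSupport.intro hK hZ0
  have hZt : tsupport (Zf β χ) ⊆ Icc (-(5 * h / 8)) (-(3 * h / 8)) ×ˢ
      closedBall (0 : E2) (h / 2) := by
    apply closure_minimal _ hK.isClosed
    intro z hz
    by_contra hcon
    exact hz (hZ0 z hcon)
  obtain ⟨R, hR1, hR2, hR3⟩ := hPUL E M (ℝ × E2) Φ (Zf β χ) hB.smooth hB.smooth_symm hZs hZc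
    (hZt.trans hKt)
  refine ⟨R, β, χ, hR1, ?_, hβs, hβ0, ?_, hχ1, hχ0, hR2, fun x hx => hR3 x (Or.inl hx)⟩
  · intro η hη
    show ∫ x, lieD η R x ∂μ = 0
    have hlc : Continuous (lieD η R) := (contMDiff_lieD hη (k := ∞) (by simp) hR1).continuous
    have hl0 : ∀ x ∉ Φ.source, lieD η R x = 0 := by
      intro x hx
      unfold lieD
      rw [hR3 x (Or.inl hx), map_zero]
      rfl
    rw [← setIntegral_eq_integral_of_forall_compl_eq_zero (s := Φ.source) hl0,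
      BoxT_.integral_box (ν := (volume : Measure (ℝ × E2))) hB.gsmooth.continuousOn hB.gpos
        hB.meas hlc]
    obtain ⟨η', hη's, hη'e⟩ := BoxT_.cutoff Φ.open_target (isClosed_tsupport (Zf β χ))
      (hZt.trans hKt) (BoxT_.pull_contDiffOn hB.smooth_symm hη)
    have hpt : ∀ z ∈ Φ.target, (1 : ℝ) * lieD η R (Φ.symm z) = fderiv ℝ η' z (Zf β χ z) := by
      intro z hz
      rw [one_mul, BoxT_.lieD_box hB.smooth hB.smooth_symm hη R hz,
        hR2 _ (Φ.map_target hz), Φ.right_inv hz]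
      by_cases hzs : z ∈ tsupport (Zf β χ)
      · rw [(hη'e z hzs).fderiv_eq]
      · rw [image_eq_zero_of_notMem_tsupport hzs, map_zero, map_zero]
    rw [setIntegral_congr_fun Φ.open_target.measurableSet hpt,
      setIntegral_eq_integral_of_forall_compl_eq_zero (by
        intro z hz
        rw [hZ0 z (fun h' => hz (hKt h')), map_zero])]
    have hHaar : (volume : Measure (ℝ × E2)).IsAddHaarMeasure := by
      rw [Measure.volume_eq_prod]; infer_instance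
    have hsm := Measure.isAddLeftInvariant_eq_smul (volume : Measure (ℝ × E2)) Measure.addHaar
    rw [hsm, integral_smul_nnreal_measure,
      hIBP (ℝ × E2) η' (Zf β χ) (hη's.of_le (by simp)) (hZs.of_le (by simp)) hZc]
    simp only [trace_Zf hβs hχs, mul_zero, integral_zero, neg_zero, smul_zero]
  · rw [intervalIntegral.integral_eq_integral_of_support_subset, hβ]
    · exact b.integral_normed
    · intro t ht
      by_contra hcon
      apply ht
      apply hβ0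
      rw [mem_Ioc, not_and_or, not_lt, not_le] at hcon
      rcases hcon with hcon | hcon
      · left; linarith
      · right; linarith

end Pool.Agent.PalF
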