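import Pool.Agent.PalF.Targets

/-!
# Basic facts about smooth volumes
-/

set_option autoImplicit false

open scoped Manifold ContDiff Topology
open MeasureTheory Set Filter Bundle Asymptotics Metric Pool.Agent.Palis

namespace Pool.Agent.PalF

namespace VOL_

/-- A set over which the integral of a positive function vanishes is a null set. -/
theorem zero_of {E : Type} [TopologicalSpace E] [MeasurableSpace E] [BorelSpace E]
    {ν : Measure E} {g : E → ℝ} {O B : Set E} (hO : IsOpen O) (hg : ContinuousOn g O)
    (hpos : ∀ y ∈ O, 0 < g y) (hB : B ⊆ O)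
    (h : ∫⁻ y in B, ENNReal.ofReal (g y) ∂ν = 0) : ν B = 0 := by
  have h1 : AEMeasurable (fun y => ENNReal.ofReal (g y)) (ν.restrict B) := by
    have h2 : AEMeasurable g (ν.restrict O) := hg.aemeasurable hO.measurableSet
    exact (h2.mono_set hB).ennreal_ofReal
  rw [lintegral_eq_zero_iff' h1] at h
  have h3 : ∀ᵐ y ∂ν.restrict B, y ∈ O :=
    ae_restrict_of_ae_restrict_of_subset hB (ae_restrict_mem hO.measurableSet)
  have h4 : ∀ᵐ y ∂ν.restrict B, False := by
    filter_upwards [h, h3] with y hy hy2
    have := hpos y hy2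
    simp only [Pi.zero_apply, ENNReal.ofReal_eq_zero] at hy
    linarith
  have h5 : ν.restrict B = 0 := by
    rw [← ae_eq_bot]
    rw [← eventually_false_iff_eq_bot]
    exact h4
  have h6 := congrArg (fun m : Measure E => m univ) h5
  simpa using h6

end VOL_

open VOL_ in
theorem vol1 : T_VOL := by
  intro E _ _ _ _ _ M _ _ _ _ _ _ _ μ hμ
  refine ⟨?_, ?_, ?_⟩
  · have hloc : IsLocallyFiniteMeasure μ := by
      refine ⟨fun x₀ => ?_⟩
      obtain ⟨g, hg, hpos, hA⟩ := hμ x₀
      set e := extChartAt 𝓘(ℝ, E) x₀ with he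
      have ht : e.target ∈ 𝓝 (e x₀) := (isOpen_extChartAt_target x₀).mem_nhds
        (mem_extChartAt_target x₀)
      obtain ⟨r, hr, hball⟩ := Metric.nhds_basis_closedBall.mem_iff.1 ht
      have hc : ContinuousOn g (closedBall (e x₀) r) := hg.continuousOn.mono hball
      have hopen : IsOpen (e.source ∩ e ⁻¹' ball (e x₀) r) :=
        (continuousOn_extChartAt x₀).isOpen_inter_preimage (isOpen_extChartAt_source x₀)
          isOpen_ball
      refine ⟨e.source ∩ e ⁻¹' ball (e x₀) r, hopen.mem_nhds
        ⟨mem_extChartAt_source x₀, mem_ball_self hr⟩, ?_⟩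
      rw [hA _ inter_subset_left hopen.measurableSet]
      have hsub : e '' (e.source ∩ e ⁻¹' ball (e x₀) r) ⊆ closedBall (e x₀) r := by
        rintro _ ⟨y, hy, rfl⟩
        exact ball_subset_closedBall hy.2
      refine (lintegral_mono_set hsub).trans_lt ?_
      have hint : IntegrableOn g (closedBall (e x₀) r) (Measure.addHaar : Measure E) :=
        hc.integrableOn_compact (isCompact_closedBall _ _)
      exact (lintegral_ofReal_le_lintegral_enorm g).trans_lt hint.2
    infer_instance
  · rintro U hU ⟨x₀, hx₀⟩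
    obtain ⟨g, hg, hpos, hA⟩ := hμ x₀
    set e := extChartAt 𝓘(ℝ, E) x₀ with he
    have hV : IsOpen (e.source ∩ U) := (isOpen_extChartAt_source x₀).inter hU
    have himg : IsOpen (e '' (e.source ∩ U)) := by
      rw [e.image_source_inter_eq']
      exact (continuousOn_extChartAt_symm x₀).isOpen_inter_preimage
        (isOpen_extChartAt_target x₀) hU
    refine lt_of_lt_of_le (pos_iff_ne_zero.2 ?_) (measure_mono (inter_subset_right : e.source ∩ U ⊆ U))
    intro h0
    rw [hA _ inter_subset_left hV.measurableSet] at h0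
    have h1 : (Measure.addHaar : Measure E) (e '' (e.source ∩ U)) = 0 := by
      refine zero_of (isOpen_extChartAt_target x₀) hg.continuousOn hpos ?_ h0
      rintro _ ⟨y, hy, rfl⟩
      exact e.map_source hy.1
    have h2 := himg.measure_pos (Measure.addHaar : Measure E)
      ⟨e x₀, x₀, ⟨mem_extChartAt_source x₀, hx₀⟩, rfl⟩
    exact h2.ne' h1
  · intro S hS x₀
    obtain ⟨g, hg, hpos, hA⟩ := hμ x₀
    set e := extChartAt 𝓘(ℝ, E) x₀ with he
    have h0 : μ (e.source ∩ toMeasurable μ S) = 0 :=
      measure_mono_null inter_subset_right (by rw [measure_toMeasurable]; exact hS)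
    rw [hA _ inter_subset_left
      ((isOpen_extChartAt_source x₀).measurableSet.inter (measurableSet_toMeasurable μ S))] at h0
    have h1 : (Measure.addHaar : Measure E) (e '' (e.source ∩ toMeasurable μ S)) = 0 := by
      refine zero_of (isOpen_extChartAt_target x₀) hg.continuousOn hpos ?_ h0
      rintro _ ⟨y, hy, rfl⟩
      exact e.map_source hy.1
    refine measure_mono_null (image_mono ?_) h1
    rintro y ⟨hy1, hy2⟩
    exact ⟨hy2, subset_toMeasurable μ S hy1⟩

end Pool.Agent.PalF
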