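import Pool.Agent.PalF.ORB
import Pool.Agent.PalF.CLO
import Pool.Agent.PalF.FLJ
import Pool.Agent.PalF.FLM
import Pool.Agent.PalF.PIN
import Pool.Agent.PalF.PUL
import Pool.Agent.PalF.VOL
import Pool.Agent.PalF.IBP
import Pool.Agent.PalF.DVF
import Pool.Agent.PalF.DVX
import Pool.Agent.PalF.DVR
import Pool.Agent.PalF.DER
import Pool.Agent.PalF.NULS
import Pool.Agent.PalF.PRS
import Pool.Agent.PalF.TRV
import Pool.Agent.PalF.PRF
import Pool.Agent.PalF.REP
import Pool.Agent.PalF.NNG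
import Pool.Agent.PalF.GRD
import Pool.Agent.PalF.SZE
import Pool.Agent.PalF.SZM
import Pool.Agent.PalF.TRP
import Pool.Agent.PalF.DVP
import Pool.Agent.PalF.DYN
import Pool.Agent.PalF.BXF
import Pool.Agent.PalF.OBF
import Pool.Agent.PalF.PM1
import Pool.Agent.PalF.PM2
import Pool.Agent.PalF.NRS
import Pool.Agent.PalF.IVD
import Pool.Agent.PalF.IVS
import Pool.Agent.PalF.OSC
import Pool.Agent.PalF.IVQ
import Pool.Agent.PalF.IVA
import Pool.Agent.PalF.EXP
import Pool.Agent.PalF.BX1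
import Pool.Agent.PalF.BX2
import Pool.Agent.PalF.BX3
import Pool.Agent.PalF.OBX
import Pool.Agent.PalF.PM3
import Pool.Agent.PalF.TWA
import Pool.Agent.PalF.BMP
import Pool.Agent.PalF.TWB

/-!
# Assembly of the two theorems
-/

set_option autoImplicit false

open scoped Manifold ContDiff Topology
open MeasureTheory Set Filter Bundle Asymptotics Metric Pool.Agent.Palis

namespace Pool.Agent.PalF

theorem tFLM : T_FLM := flm1 flj1
theorem tDVX : T_DVX := dvx1 ibp1 vol1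
theorem tDVF : T_DVF := dvf1 ibp1
theorem tSZM : T_SZM := szm1 (sze1 nng1)
theorem tPRS : T_PRS := prs1 der1
theorem tOSC : T_OSC := osc1 bxf1 obf1 pm11

theorem tEXP : T_EXP := exp1 vol1 pul1 tDVF tDVX dvr1 trv1

theorem tENG : T_ENG :=
  eng1 vol1 tDVX dvr1 tEXP prf1 rep1 (grd1 nng1) tSZM trp1 (dvp1 dvr1) (dyn1 tFLM vol1 nul1)

theorem tORB : T_ORB :=
  orb1 tFLM vol1 dvr1 (bx11 tFLM) bx21 bx31 obx1 obf1 pm11 (pm21 pm11 tPRS) pm31 nrs
    (twa1 pul1 ibp1) (twb1 pm11) (ivd1 bmp1 pin1) (ivq1 (ivs1 bmp1 pin1) tOSC bxf1 obf1 bmp1)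
    (iva1 bmp1 pin1 tOSC) tENG

end Pool.Agent.PalF
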