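import Pool.Agent.PalF.Targets

/-!
# The gradient of a nonnegative function (job PALF-NNG)
-/

set_option autoImplicit false

open scoped Manifold ContDiff Topology
open MeasureTheory Set Filter

namespace Pool.Agent.PalF

namespace NNG_

/-- The elementary optimisation. -/
theorem opt {l G δ C₂ a : ℝ} (hl : 0 ≤ l) (hG : l ≤ G) (hδ : 0 < δ) (hC : 0 ≤ C₂) (ha : 0 ≤ a)
    (h : ∀ s, 0 < s → s ≤ δ → l * s ≤ a + C₂ * s ^ 2) :
    l ^ 2 ≤ (4 * (C₂ + G / (2 * δ) + 1)) * a := by
  have hG0 : 0 ≤ G := hl.trans hG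
  have hq : 0 ≤ G / (2 * δ) := by positivity
  set c := C₂ + G / (2 * δ) + 1 with hc
  have hc0 : 0 < c := by linarith
  rcases hl.eq_or_lt with h0 | h0
  · rw [← h0]
    have : 0 ≤ 4 * c * a := by positivity
    simpa using this
  · have hs : 0 < l / (2 * c) := by positivity
    have hs' : l / (2 * c) ≤ δ := by
      rw [div_le_iff₀ (by positivity)]
      have h1 : G / (2 * δ) ≤ c := by linarith
      rw [div_le_iff₀ (by positivity)] at h1
      nlinarith
    have h1 := h _ hs hs'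
    have h2 : C₂ * (l / (2 * c)) ^ 2 ≤ c * (l / (2 * c)) ^ 2 := by
      apply mul_le_mul_of_nonneg_right _ (by positivity)
      linarith
    have h3 : l * (l / (2 * c)) = 2 * (l ^ 2 / (4 * c)) := by
      field_simp
      norm_num
    have h4 : c * (l / (2 * c)) ^ 2 = l ^ 2 / (4 * c) := by
      field_simp
      norm_num
    have h5 : l ^ 2 / (4 * c) ≤ a := by linarith
    rw [div_le_iff₀ (by positivity)] at h5
    linarith

end NNG_

theorem nng1 : T_NNG := by
  intro F _ _ _ Ω K u hΩ hK hKΩ hu hpos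
  obtain ⟨δ, hδ, hδΩ⟩ := hK.exists_cthickening_subset_open hΩ hKΩ
  have hK₁ : IsCompact (Metric.cthickening δ K) := hK.cthickening
  -- the first and second derivatives
  have hd : DifferentiableOn ℝ u Ω := hu.differentiableOn (by simp)
  have h1 : ContDiffOn ℝ ∞ (fderiv ℝ u) Ω := hu.fderiv_of_isOpen hΩ (by simp)
  have hd1 : DifferentiableOn ℝ (fderiv ℝ u) Ω := h1.differentiableOn (by simp)
  have h2 : ContDiffOn ℝ ∞ (fderiv ℝ (fderiv ℝ u)) Ω := h1.fderiv_of_isOpen hΩ (by simp)
  obtain ⟨C₂, hC₂⟩ := IsCompact.exists_bound_of_continuousOn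
    (E := F →L[ℝ] F →L[ℝ] ℝ) hK₁ (f := fderiv ℝ (fderiv ℝ u)) (h2.continuousOn.mono hδΩ)
  obtain ⟨G, hG⟩ := IsCompact.exists_bound_of_continuousOn
    (E := F →L[ℝ] ℝ) hK (f := fderiv ℝ u) (h1.continuousOn.mono hKΩ)
  have key : ∀ y ∈ K, ∀ v : F, ‖v‖ ≤ δ → ‖u (y + v) - u y - fderiv ℝ u y v‖ ≤ |C₂| * ‖v‖ ^ 2 := by
    intro y hy v hv
    have hsub : Metric.closedBall y ‖v‖ ⊆ Metric.cthickening δ K := by
      intro z hz
      exact Metric.closedBall_subset_cthickening hy δ
        (Metric.closedBall_subset_closedBall hv hz)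
    have hc : Convex ℝ (Metric.closedBall y ‖v‖) := convex_closedBall y _
    have hy' : y ∈ Metric.closedBall y ‖v‖ := Metric.mem_closedBall_self (norm_nonneg v)
    have hz' : y + v ∈ Metric.closedBall y ‖v‖ := by
      rw [mem_closedBall_iff_norm]
      simp
    have b1 : ∀ z ∈ Metric.closedBall y ‖v‖, ‖fderiv ℝ u z - fderiv ℝ u y‖ ≤ |C₂| * ‖v‖ := by
      intro z hz
      have h3 := hc.norm_image_sub_le_of_norm_fderiv_le (f := fderiv ℝ u) (C := |C₂|) (𝕜 := ℝ)
        (fun x hx => hd1.differentiableAt (hΩ.mem_nhds (hδΩ (hsub hx))))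
        (fun x hx => (hC₂ x (hsub hx)).trans (le_abs_self _)) hy' hz
      refine h3.trans (mul_le_mul_of_nonneg_left ?_ (abs_nonneg _))
      rwa [mem_closedBall_iff_norm] at hz
    have h4 := hc.norm_image_sub_le_of_norm_fderiv_le' (f := u) (C := |C₂| * ‖v‖) (𝕜 := ℝ)
      (φ := fderiv ℝ u y)
      (fun x hx => hd.differentiableAt (hΩ.mem_nhds (hδΩ (hsub hx)))) b1 hy' hz'
    rw [add_sub_cancel_left] at h4
    calc _ ≤ |C₂| * ‖v‖ * ‖v‖ := h4
      _ = _ := by ring
  refine ⟨4 * (|C₂| + |G| / (2 * δ) + 1), by positivity, fun y hy => ?_⟩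
  refine NNG_.opt (norm_nonneg _) ((hG y hy).trans (le_abs_self _)) hδ (abs_nonneg _)
    (hpos y (hKΩ hy)) ?_
  intro s hs hsδ
  have h5 : ‖fderiv ℝ u y‖ ≤ (u y + |C₂| * s ^ 2) / s := by
    refine ContinuousLinearMap.opNorm_le_of_unit_norm ?_ ?_
    · have := hpos y (hKΩ hy)
      positivity
    · intro x hx
      rw [le_div_iff₀ hs]
      have aux : ∀ t : ℝ, |t| = s → 0 ≤ u y + t * fderiv ℝ u y x + |C₂| * s ^ 2 := by
        intro t ht
        have hn : ‖t • x‖ = s := by rw [norm_smul, hx, mul_one, Real.norm_eq_abs, ht]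
        have h6 := key y hy (t • x) (by rw [hn]; exact hsδ)
        rw [hn, Real.norm_eq_abs, map_smul, smul_eq_mul] at h6
        have h7 := (abs_le.1 h6).2
        have h8 : y + t • x ∈ Ω := by
          apply hδΩ
          apply Metric.closedBall_subset_cthickening hy δ
          rw [mem_closedBall_iff_norm, add_sub_cancel_left, hn]
          exact hsδ
        have h9 := hpos _ h8
        linarith
      rw [Real.norm_eq_abs]
      rcases abs_cases (fderiv ℝ u y x) with ⟨h6, _⟩ | ⟨h6, _⟩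
      · rw [h6]
        have := aux (-s) (by rw [abs_neg, abs_of_pos hs])
        linarith
      · rw [h6]
        have := aux s (abs_of_pos hs)
        linarith
  rwa [le_div_iff₀ hs] at h5

end Pool.Agent.PalF
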