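import Pool.Agent.PalF.Core

/-!
# The targets of the jobs
-/

set_option autoImplicit false

open scoped Manifold ContDiff Topology
open MeasureTheory Set Filter Bundle Asymptotics Metric Pool.Agent.Palis

namespace Pool.Agent.PalF

/-! ## Flows -/

/-- Smooth flows of compactly supported fields, jointly in time and space. -/
def T_FLJ : Prop := ∀ (F : Type) [NormedAddCommGroup F] [NormedSpace ℝ F]
  [FiniteDimensional ℝ F] (Z : F → F), ContDiff ℝ ∞ Z → HasCompactSupport Z →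
  ∃ Φ : ℝ → F → F, (∀ x, Φ 0 x = x) ∧ (∀ t x, HasDerivAt (fun s => Φ s x) (Z (Φ t x)) t) ∧
    ContDiff ℝ ∞ (fun p : ℝ × F => Φ p.1 p.2)

/-- Smooth flows on compact manifolds. -/
def T_FLM : Prop := ∀ (E : Type) [NormedAddCommGroup E] [NormedSpace ℝ E]
  [FiniteDimensional ℝ E] (M : Type) [TopologicalSpace M] [ChartedSpace E M]
  [IsManifold 𝓘(ℝ, E) ∞ M] [T2Space M] [CompactSpace M]
  (Y : ∀ x : M, TangentSpace 𝓘(ℝ, E) x), IsSmoothField E Y → ∃ φ, IsFlow E Y φ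

/-- Parametric integrals along a flow. -/
def T_PIN : Prop := ∀ (E : Type) [NormedAddCommGroup E] [NormedSpace ℝ E]
  [FiniteDimensional ℝ E] (M : Type) [TopologicalSpace M] [ChartedSpace E M]
  [IsManifold 𝓘(ℝ, E) ∞ M] [T2Space M] [CompactSpace M]
  (Y : ∀ x : M, TangentSpace 𝓘(ℝ, E) x) (φ : ℝ → M → M) (f : M → ℝ) (τ : ℝ),
  IsSmoothField E Y → IsFlow E Y φ → ContMDiff 𝓘(ℝ, E) 𝓘(ℝ, ℝ) ∞ f →
  ContMDiff 𝓘(ℝ, E) 𝓘(ℝ, ℝ) ∞ (fun x => ∫ s in (0 : ℝ)..τ, f (φ s x)) ∧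
    ∀ x, lieD (fun x => ∫ s in (0 : ℝ)..τ, f (φ s x)) Y x = f (φ τ x) - f x

/-! ## Fields and divergence -/

/-- Fields from charts with values in an arbitrary model space. -/
def T_PUL : Prop := ∀ (E : Type) [NormedAddCommGroup E] [NormedSpace ℝ E]
  [FiniteDimensional ℝ E] (M : Type) [TopologicalSpace M] [ChartedSpace E M]
  [IsManifold 𝓘(ℝ, E) ∞ M] [T2Space M] (F : Type) [NormedAddCommGroup F] [NormedSpace ℝ F]
  [FiniteDimensional ℝ F] (Φ : OpenPartialHomeomorph M F) (Z : F → F),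
  ContMDiffOn 𝓘(ℝ, E) 𝓘(ℝ, F) ∞ Φ Φ.source →
  ContMDiffOn 𝓘(ℝ, F) 𝓘(ℝ, E) ∞ Φ.symm Φ.target →
  ContDiff ℝ ∞ Z → HasCompactSupport Z → tsupport Z ⊆ Φ.target →
  ∃ R : ∀ x : M, TangentSpace 𝓘(ℝ, E) x, IsSmoothField E R ∧
    (∀ x ∈ Φ.source, (mfderiv 𝓘(ℝ, E) 𝓘(ℝ, F) Φ x (R x) : F) = Z (Φ x)) ∧
    ∀ x, (x ∉ Φ.source ∨ Φ x ∉ tsupport Z) → R x = 0

/-- Basic facts about smooth volumes. -/
def T_VOL : Prop := ∀ (E : Type) [NormedAddCommGroup E] [NormedSpace ℝ E]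
  [FiniteDimensional ℝ E] [MeasurableSpace E] [BorelSpace E] (M : Type) [TopologicalSpace M]
  [ChartedSpace E M] [IsManifold 𝓘(ℝ, E) ∞ M] [T2Space M] [CompactSpace M] [MeasurableSpace M]
  [BorelSpace M] (μ : Measure M), IsSmoothVolume E μ →
  IsFiniteMeasure μ ∧ (∀ U : Set M, IsOpen U → U.Nonempty → 0 < μ U) ∧
    ∀ S : Set M, μ S = 0 → Null E S

/-- Integration by parts in a vector space. -/
def T_IBP : Prop := ∀ (F : Type) [NormedAddCommGroup F] [NormedSpace ℝ F]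
  [FiniteDimensional ℝ F] [MeasurableSpace F] [BorelSpace F] (η : F → ℝ) (Z : F → F),
  ContDiff ℝ 1 η → ContDiff ℝ 1 Z → HasCompactSupport Z →
  ∫ y, fderiv ℝ η y (Z y) ∂(Measure.addHaar : Measure F) =
    -∫ y, η y * LinearMap.trace ℝ F (fderiv ℝ Z y) ∂(Measure.addHaar : Measure F)

/-- The formula for the divergence in charts. -/
def T_DVF : Prop := ∀ (E : Type) [NormedAddCommGroup E] [NormedSpace ℝ E]
  [FiniteDimensional ℝ E] [MeasurableSpace E] [BorelSpace E] (M : Type) [TopologicalSpace M]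
  [ChartedSpace E M] [IsManifold 𝓘(ℝ, E) ∞ M] [T2Space M] [CompactSpace M] [MeasurableSpace M]
  [BorelSpace M] (μ : Measure M) (Y : ∀ x : M, TangentSpace 𝓘(ℝ, E) x) (D : M → ℝ) (x₀ : M)
  (g : E → ℝ), IsSmoothVolume E μ → IsSmoothField E Y → HasDiv E μ Y D → IsDensity E μ x₀ g →
  ∀ y ∈ (extChartAt 𝓘(ℝ, E) x₀).target,
    D ((extChartAt 𝓘(ℝ, E) x₀).symm y) * g y =
      LinearMap.trace ℝ E (fderiv ℝ (fun z => g z • localRep E Y x₀ z) y)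

/-- Every smooth field has a divergence. -/
def T_DVX : Prop := ∀ (E : Type) [NormedAddCommGroup E] [NormedSpace ℝ E]
  [FiniteDimensional ℝ E] [MeasurableSpace E] [BorelSpace E] (M : Type) [TopologicalSpace M]
  [ChartedSpace E M] [IsManifold 𝓘(ℝ, E) ∞ M] [T2Space M] [CompactSpace M] [MeasurableSpace M]
  [BorelSpace M] (μ : Measure M) (Y : ∀ x : M, TangentSpace 𝓘(ℝ, E) x),
  IsSmoothVolume E μ → IsSmoothField E Y → ∃ D, HasDiv E μ Y D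

/-- Rules for the divergence. -/
def T_DVR : Prop := ∀ (E : Type) [NormedAddCommGroup E] [NormedSpace ℝ E]
  [FiniteDimensional ℝ E] [MeasurableSpace E] [BorelSpace E] (M : Type) [TopologicalSpace M]
  [ChartedSpace E M] [IsManifold 𝓘(ℝ, E) ∞ M] [T2Space M] [CompactSpace M] [MeasurableSpace M]
  [BorelSpace M] (μ : Measure M) [IsFiniteMeasure μ] (Y Z : ∀ x : M, TangentSpace 𝓘(ℝ, E) x)
  (D D' : M → ℝ), IsSmoothField E Y → IsSmoothField E Z → HasDiv E μ Y D → HasDiv E μ Z D' →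
  IsSmoothField E (fun x => Y x + Z x) ∧
    HasDiv E μ (fun x => Y x + Z x) (fun x => D x + D' x) ∧
    ∀ g : M → ℝ, ContMDiff 𝓘(ℝ, E) 𝓘(ℝ, ℝ) ∞ g →
      IsSmoothField E (fun x => g x • Y x) ∧
        HasDiv E μ (fun x => g x • Y x) (fun x => g x * D x + lieD g Y x)

/-- Transport of a function along the flow. -/
def T_DER : Prop := ∀ (E : Type) [NormedAddCommGroup E] [NormedSpace ℝ E]
  [FiniteDimensional ℝ E] [MeasurableSpace E] [BorelSpace E] (M : Type) [TopologicalSpace M]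
  [ChartedSpace E M] [IsManifold 𝓘(ℝ, E) ∞ M] [T2Space M] [CompactSpace M] [MeasurableSpace M]
  [BorelSpace M] (μ : Measure M) [IsFiniteMeasure μ] (Y : ∀ x : M, TangentSpace 𝓘(ℝ, E) x)
  (D : M → ℝ) (φ : ℝ → M → M) (v : M → ℝ) (t : ℝ), IsSmoothField E Y → HasDiv E μ Y D →
  IsFlow E Y φ → ContMDiff 𝓘(ℝ, E) 𝓘(ℝ, ℝ) ∞ v →
  HasDerivAt (fun t => ∫ x, v (φ t x) ∂μ) (-∫ x, v (φ t x) * D x ∂μ) t

/-- An invariant closed set on which the divergence is positive is a null set. -/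
def T_NUL : Prop := ∀ (E : Type) [NormedAddCommGroup E] [NormedSpace ℝ E]
  [FiniteDimensional ℝ E] [MeasurableSpace E] [BorelSpace E] (M : Type) [TopologicalSpace M]
  [ChartedSpace E M] [IsManifold 𝓘(ℝ, E) ∞ M] [T2Space M] [CompactSpace M] [MeasurableSpace M]
  [BorelSpace M] (μ : Measure M) [IsFiniteMeasure μ] (Y : ∀ x : M, TangentSpace 𝓘(ℝ, E) x)
  (D : M → ℝ) (φ : ℝ → M → M) (L : Set M), IsSmoothField E Y → HasDiv E μ Y D →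
  IsFlow E Y φ → IsClosed L → (∀ t, ∀ x ∈ L, φ t x ∈ L) → (∀ x ∈ L, 0 < D x) → μ L = 0

/-- The flow of a divergence free field preserves the volume. -/
def T_PRS : Prop := ∀ (E : Type) [NormedAddCommGroup E] [NormedSpace ℝ E]
  [FiniteDimensional ℝ E] [MeasurableSpace E] [BorelSpace E] (M : Type) [TopologicalSpace M]
  [ChartedSpace E M] [IsManifold 𝓘(ℝ, E) ∞ M] [T2Space M] [CompactSpace M] [MeasurableSpace M]
  [BorelSpace M] (μ : Measure M) [IsFiniteMeasure μ] (X : ∀ x : M, TangentSpace 𝓘(ℝ, E) x)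
  (φ : ℝ → M → M), IsSmoothField E X → DivFree E μ X → IsFlow E X φ →
  ∀ t, MeasurePreserving (φ t) μ μ

/-- Fields with positive divergence off an open set, vanishing on a nonempty closed set. -/
def T_EXP : Prop := ∀ (E : Type) [NormedAddCommGroup E] [NormedSpace ℝ E]
  [FiniteDimensional ℝ E] [MeasurableSpace E] [BorelSpace E] (M : Type) [TopologicalSpace M]
  [ChartedSpace E M] [IsManifold 𝓘(ℝ, E) ∞ M] [T2Space M] [CompactSpace M] [ConnectedSpace M]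
  [MeasurableSpace M] [BorelSpace M] (μ : Measure M) (A O : Set M), IsSmoothVolume E μ →
  IsClosed A → A.Nonempty → IsOpen O → A ⊆ O →
  ∃ (R : ∀ x : M, TangentSpace 𝓘(ℝ, E) x) (D : M → ℝ), IsSmoothField E R ∧ HasDiv E μ R D ∧
    (∀ x ∈ A, R x = 0) ∧ ∀ x, x ∉ O → 0 < D x

/-! ## The contracting field -/

/-- A transport field in a vector space. -/
def T_TRV : Prop := ∀ (F : Type) [NormedAddCommGroup F] [NormedSpace ℝ F]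
  [FiniteDimensional ℝ F] (y₀ y₁ : F) (s : ℝ), 0 < s →
  ∃ (Z : F → F) (β : F → ℝ), ContDiff ℝ ∞ Z ∧ HasCompactSupport Z ∧
    tsupport Z ⊆ cthickening s (segment ℝ y₀ y₁) ∧ ContDiff ℝ ∞ β ∧ (∀ y, 0 ≤ β y) ∧
    0 < β 0 ∧ (∀ y, s ≤ ‖y‖ → β y = 0) ∧
    ∀ y, LinearMap.trace ℝ F (fderiv ℝ Z y) = β (y - y₀) - β (y - y₁)

/-- The profile. -/
def T_PRF : Prop := ∀ c₁ C₂ : ℝ, 0 < c₁ → 0 < C₂ → ∃ χ : ℝ → ℝ, ContDiff ℝ ∞ χ ∧
  (∀ t, 0 ≤ χ t) ∧ (∀ t, 4 ≤ t → χ t = 0) ∧ (∀ t, t < 4 → 0 < χ t) ∧ Antitone χ ∧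
  ∀ t, 1 ≤ t → C₂ * χ t ≤ -(c₁ * t * deriv χ t)

/-- The function `I` can be made globally nonnegative with zero set `Λ`. -/
def T_REP : Prop := ∀ (E : Type) [NormedAddCommGroup E] [NormedSpace ℝ E]
  [FiniteDimensional ℝ E] (M : Type) [TopologicalSpace M] [ChartedSpace E M]
  [IsManifold 𝓘(ℝ, E) ∞ M] [T2Space M] [CompactSpace M]
  (X : ∀ x : M, TangentSpace 𝓘(ℝ, E) x) (r : ℕ) (Λ : Set M) (I₀ : M → ℝ), IsCompact Λ →
  QuadMin E I₀ Λ → AlmostInvariant E r X I₀ Λ →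
  ∃ I : M → ℝ, QuadMin E I Λ ∧ AlmostInvariant E r X I Λ ∧ (∀ x, 0 ≤ I x) ∧
    ∀ x, I x = 0 ↔ x ∈ Λ

/-- The gradient of a nonnegative function. -/
def T_NNG : Prop := ∀ (F : Type) [NormedAddCommGroup F] [NormedSpace ℝ F]
  [FiniteDimensional ℝ F] (Ω K : Set F) (u : F → ℝ), IsOpen Ω → IsCompact K → K ⊆ Ω →
  ContDiffOn ℝ ∞ u Ω → (∀ y ∈ Ω, 0 ≤ u y) → ∃ C : ℝ, 0 ≤ C ∧ ∀ y ∈ K, ‖fderiv ℝ u y‖ ^ 2 ≤ C * u y

/-- The gradient-like field. -/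
def T_GRD : Prop := ∀ (E : Type) [NormedAddCommGroup E] [NormedSpace ℝ E]
  [FiniteDimensional ℝ E] (M : Type) [TopologicalSpace M] [ChartedSpace E M]
  [IsManifold 𝓘(ℝ, E) ∞ M] [T2Space M] [CompactSpace M] (Λ : Set M) (I : M → ℝ),
  IsCompact Λ → QuadMin E I Λ → (∀ x, 0 ≤ I x) → (∀ x, I x = 0 ↔ x ∈ Λ) →
  ∃ (W : ∀ x : M, TangentSpace 𝓘(ℝ, E) x) (c₀ c₁ : ℝ), IsSmoothField E W ∧ 0 < c₀ ∧ 0 < c₁ ∧
    (∀ x, 0 ≤ lieD I W x) ∧ (∀ x ∈ Λ, W x = 0) ∧ (∀ x, I x ≤ c₀ → c₁ * I x ≤ lieD I W x) ∧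
    ∀ (x₀ : M) (K : Set M), IsCompact K → K ⊆ (extChartAt 𝓘(ℝ, E) x₀).source →
      ∃ C : ℝ, ∀ x ∈ K, ‖localRep E W x₀ (extChartAt 𝓘(ℝ, E) x₀ x)‖ ^ 2 ≤ C * I x

/-- The size of the contracting field, in a vector space. -/
def T_SZE : Prop := ∀ (F : Type) [NormedAddCommGroup F] [NormedSpace ℝ F]
  [FiniteDimensional ℝ F] (Ω K : Set F) (u : F → ℝ) (w : F → F) (χ : ℝ → ℝ) (r : ℕ) (C : ℝ),
  1 ≤ r → IsOpen Ω → IsCompact K → K ⊆ Ω → ContDiffOn ℝ ∞ u Ω → ContDiffOn ℝ ∞ w Ω →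
  (∀ y ∈ Ω, 0 ≤ u y) → (∀ y ∈ K, ‖w y‖ ^ 2 ≤ C * u y) → ContDiff ℝ ∞ χ →
  (∀ t, 4 ≤ t → χ t = 0) →
  ∃ B : ℝ, ∀ ρ : ℝ, 0 < ρ → ρ ≤ 1 → ∀ y ∈ K, ∀ k ≤ r,
    ρ ^ (r - 1) * ‖iteratedFDeriv ℝ k (fun z => χ (u z / ρ ^ 2) • w z) y‖ ≤ B

/-- The size of the contracting field, on the manifold. -/
def T_SZM : Prop := ∀ (E : Type) [NormedAddCommGroup E] [NormedSpace ℝ E]
  [FiniteDimensional ℝ E] (M : Type) [TopologicalSpace M] [ChartedSpace E M]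
  [IsManifold 𝓘(ℝ, E) ∞ M] [T2Space M] [CompactSpace M] (I : M → ℝ)
  (W : ∀ x : M, TangentSpace 𝓘(ℝ, E) x) (χ : ℝ → ℝ) (r : ℕ) (C : ℝ) (x₀ : M) (K : Set M),
  1 ≤ r → ContMDiff 𝓘(ℝ, E) 𝓘(ℝ, ℝ) ∞ I → (∀ x, 0 ≤ I x) → IsSmoothField E W →
  ContDiff ℝ ∞ χ → (∀ t, 4 ≤ t → χ t = 0) → IsCompact K →
  K ⊆ (extChartAt 𝓘(ℝ, E) x₀).source →
  (∀ x ∈ K, ‖localRep E W x₀ (extChartAt 𝓘(ℝ, E) x₀ x)‖ ^ 2 ≤ C * I x) →
  ∃ B : ℝ, ∀ ρ : ℝ, 0 < ρ → ρ ≤ 1 → ∀ x ∈ K, ∀ k ≤ r,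
    ρ ^ (r - 1) * ‖iteratedFDeriv ℝ k (localRep E (fun z => χ (I z / ρ ^ 2) • W z) x₀)
      (extChartAt 𝓘(ℝ, E) x₀ x)‖ ≤ B

/-- The trap at scale `ρ`. -/
def T_TRP : Prop := ∀ (E : Type) [NormedAddCommGroup E] [NormedSpace ℝ E]
  [FiniteDimensional ℝ E] (M : Type) [TopologicalSpace M] [ChartedSpace E M]
  [IsManifold 𝓘(ℝ, E) ∞ M] [T2Space M] [CompactSpace M]
  (X W : ∀ x : M, TangentSpace 𝓘(ℝ, E) x) (r : ℕ) (Λ : Set M) (I : M → ℝ) (χ : ℝ → ℝ)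
  (c₀ c₁ ε : ℝ), 1 ≤ r → ContMDiff 𝓘(ℝ, E) 𝓘(ℝ, ℝ) ∞ I → AlmostInvariant E r X I Λ →
  (∀ x, 0 ≤ I x) → (∀ x, I x = 0 ↔ x ∈ Λ) → 0 < c₀ → 0 < c₁ →
  (∀ x, I x ≤ c₀ → c₁ * I x ≤ lieD I W x) → (∀ t, 0 ≤ χ t) → (∀ t, t < 4 → 0 < χ t) →
  Antitone χ → 0 < ε →
  ∃ ρ₀ : ℝ, 0 < ρ₀ ∧ ∀ ρ : ℝ, 0 < ρ → ρ < ρ₀ → ∀ x, 0 < I x → I x ≤ 2 * ρ ^ 2 →
    lieD I (fun z => X z + (-(ε * ρ ^ (r - 1)) * χ (I z / ρ ^ 2)) • W z) x < 0

/-- The divergence of the contracting field. -/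
def T_DVP : Prop := ∀ (E : Type) [NormedAddCommGroup E] [NormedSpace ℝ E]
  [FiniteDimensional ℝ E] [MeasurableSpace E] [BorelSpace E] (M : Type) [TopologicalSpace M]
  [ChartedSpace E M] [IsManifold 𝓘(ℝ, E) ∞ M] [T2Space M] [CompactSpace M] [MeasurableSpace M]
  [BorelSpace M] (μ : Measure M) [IsFiniteMeasure μ] (X W : ∀ x : M, TangentSpace 𝓘(ℝ, E) x)
  (DW : M → ℝ) (I : M → ℝ) (χ : ℝ → ℝ) (c₀ c₁ C₂ κ ρ : ℝ), IsSmoothField E X →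
  IsSmoothField E W → ContMDiff 𝓘(ℝ, E) 𝓘(ℝ, ℝ) ∞ I → DivFree E μ X → HasDiv E μ W DW →
  (∀ x, |DW x| ≤ C₂) → (∀ x, 0 ≤ lieD I W x) → (∀ x, I x ≤ c₀ → c₁ * I x ≤ lieD I W x) →
  ContDiff ℝ ∞ χ → (∀ t, 0 ≤ χ t) → (∀ t, 4 ≤ t → χ t = 0) → Antitone χ →
  (∀ t, 1 ≤ t → C₂ * χ t ≤ -(c₁ * t * deriv χ t)) → 0 ≤ κ → 0 < ρ → 4 * ρ ^ 2 ≤ c₀ →
  IsSmoothField E (fun z => X z + (-κ * χ (I z / ρ ^ 2)) • W z) ∧
  ∃ D, HasDiv E μ (fun z => X z + (-κ * χ (I z / ρ ^ 2)) • W z) D ∧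
    ∀ x, ρ ^ 2 ≤ I x → 0 ≤ D x

/-- The dynamics of a field with a Lyapunov function near `Λ` and positive divergence elsewhere. -/
def T_DYN : Prop := ∀ (E : Type) [NormedAddCommGroup E] [NormedSpace ℝ E]
  [FiniteDimensional ℝ E] [MeasurableSpace E] [BorelSpace E] (M : Type) [TopologicalSpace M]
  [ChartedSpace E M] [IsManifold 𝓘(ℝ, E) ∞ M] [T2Space M] [CompactSpace M] [MeasurableSpace M]
  [BorelSpace M] (μ : Measure M) (Y : ∀ x : M, TangentSpace 𝓘(ℝ, E) x) (D : M → ℝ)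
  (Λ : Set M) (I : M → ℝ) (c : ℝ), IsSmoothVolume E μ → IsSmoothField E Y → HasDiv E μ Y D →
  Λ.Nonempty → Invariant E Y Λ → Transitive E Y Λ → ContMDiff 𝓘(ℝ, E) 𝓘(ℝ, ℝ) ∞ I →
  (∀ x, 0 ≤ I x) → (∀ x, I x = 0 ↔ x ∈ Λ) → 0 < c →
  (∀ x, 0 < I x → I x ≤ c → lieD I Y x < 0) → (∀ x, c ≤ I x → 0 < D x) →
  AttractsAlmostAll E Y Λ

/-- From approximation to closure. -/
def T_CLO : Prop := ∀ (E : Type) [NormedAddCommGroup E] [NormedSpace ℝ E]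
  [FiniteDimensional ℝ E] (M : Type) [TopologicalSpace M] [ChartedSpace E M]
  [IsManifold 𝓘(ℝ, E) ∞ M] [T2Space M] [CompactSpace M] (r : ℕ∞) (X : VField E M ⊤)
  (S : Set (∀ x : M, TangentSpace 𝓘(ℝ, E) x)), (∀ Y ∈ S, IsSmoothField E Y) →
  (∀ k : ℕ, (k : ℕ∞) ≤ r → Approx E k X S) →
  toCr E M r X ∈ @closure _ (crTopology E M r) {Y : VField E M r | (Y : ∀ x : M, _) ∈ S}

/-- The main theorem with an almost invariant function. -/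
def T_ENG : Prop := ∀ (E : Type) [NormedAddCommGroup E] [NormedSpace ℝ E]
  [FiniteDimensional ℝ E] [MeasurableSpace E] [BorelSpace E] (M : Type) [TopologicalSpace M]
  [ChartedSpace E M] [IsManifold 𝓘(ℝ, E) ∞ M] [T2Space M] [CompactSpace M] [ConnectedSpace M]
  [MeasurableSpace M] [BorelSpace M] (μ : Measure M) (X : ∀ x : M, TangentSpace 𝓘(ℝ, E) x)
  (r : ℕ) (Λ : Set M) (I : M → ℝ), 1 ≤ r → IsSmoothVolume E μ → IsSmoothField E X →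
  DivFree E μ X → IsCompact Λ → Λ.Nonempty → Invariant E X Λ → Transitive E X Λ →
  QuadMin E I Λ → AlmostInvariant E r X I Λ →
  Approx E r X {Y | IsSmoothField E Y ∧ (∀ x ∈ Λ, Y x = X x) ∧ AttractsAlmostAll E Y Λ}

end Pool.Agent.PalF
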