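import Pool.Agent.PalF.Targets

/-!
# The targets of the jobs, second part: closed orbits of conservative fields in dimension 3
-/

set_option autoImplicit false

open scoped Manifold ContDiff Topology
open MeasureTheory Set Filter Bundle Asymptotics Metric Pool.Agent.Palis

namespace Pool.Agent.PalF

/-! ## Flow boxes -/

/-- A flow box with a smooth density. -/
def T_BX1 : Prop := ∀ (E : Type) [NormedAddCommGroup E] [NormedSpace ℝ E]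
  [FiniteDimensional ℝ E] [MeasurableSpace E] [BorelSpace E] (M : Type) [TopologicalSpace M]
  [ChartedSpace E M] [IsManifold 𝓘(ℝ, E) ∞ M] [T2Space M] [CompactSpace M] [MeasurableSpace M]
  [BorelSpace M] (μ : Measure M) (X : ∀ x : M, TangentSpace 𝓘(ℝ, E) x) (p : M),
  Module.finrank ℝ E = 3 → IsSmoothVolume E μ → IsSmoothField E X → X p ≠ 0 →
  ∃ (Φ : OpenPartialHomeomorph M (ℝ × E2)) (h : ℝ) (g : ℝ × E2 → ℝ), PreBox E μ X Φ h g ∧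
    p ∈ Φ.source ∧ Φ p = 0

/-- The density does not depend on the time if the field is divergence free. -/
def T_BX2 : Prop := ∀ (E : Type) [NormedAddCommGroup E] [NormedSpace ℝ E]
  [FiniteDimensional ℝ E] [MeasurableSpace E] [BorelSpace E] (M : Type) [TopologicalSpace M]
  [ChartedSpace E M] [IsManifold 𝓘(ℝ, E) ∞ M] [T2Space M] [CompactSpace M] [MeasurableSpace M]
  [BorelSpace M] (μ : Measure M) (X : ∀ x : M, TangentSpace 𝓘(ℝ, E) x)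
  (Φ : OpenPartialHomeomorph M (ℝ × E2)) (h : ℝ) (g : ℝ × E2 → ℝ), DivFree E μ X →
  PreBox E μ X Φ h g → ∀ z ∈ Φ.target, g z = g (0, z.2)

/-- Straightening of the area. -/
def T_BX3 : Prop := ∀ (E : Type) [NormedAddCommGroup E] [NormedSpace ℝ E]
  [FiniteDimensional ℝ E] [MeasurableSpace E] [BorelSpace E] (M : Type) [TopologicalSpace M]
  [ChartedSpace E M] [IsManifold 𝓘(ℝ, E) ∞ M] [T2Space M] [CompactSpace M] [MeasurableSpace M]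
  [BorelSpace M] (μ : Measure M) (X : ∀ x : M, TangentSpace 𝓘(ℝ, E) x) (p : M)
  (Φ : OpenPartialHomeomorph M (ℝ × E2)) (h : ℝ) (g : ℝ × E2 → ℝ), PreBox E μ X Φ h g →
  (∀ z ∈ Φ.target, g z = g (0, z.2)) → p ∈ Φ.source → Φ p = 0 →
  ∃ (Φ' : OpenPartialHomeomorph M (ℝ × E2)) (h' : ℝ), Box E μ X Φ' h' ∧ p ∈ Φ'.source ∧ Φ' p = 0

/-- The flow in a flow box is a translation. -/
def T_BXF : Prop := ∀ (E : Type) [NormedAddCommGroup E] [NormedSpace ℝ E]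
  [FiniteDimensional ℝ E] (M : Type) [TopologicalSpace M] [ChartedSpace E M]
  [IsManifold 𝓘(ℝ, E) ∞ M] [T2Space M] [CompactSpace M] [MeasurableSpace M] (μ : Measure M)
  (X : ∀ x : M, TangentSpace 𝓘(ℝ, E) x) (Φ : OpenPartialHomeomorph M (ℝ × E2)) (h : ℝ)
  (g : ℝ × E2 → ℝ) (φ : ℝ → M → M), IsSmoothField E X → PreBox E μ X Φ h g → IsFlow E X φ →
  ∀ x ∈ Φ.source, ∀ s : ℝ, |(Φ x).1 + s| < h →
    φ s x ∈ Φ.source ∧ Φ (φ s x) = ((Φ x).1 + s, (Φ x).2)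

/-- Small boxes around a point of a closed orbit are orbit boxes. -/
def T_OBX : Prop := ∀ (E : Type) [NormedAddCommGroup E] [NormedSpace ℝ E]
  [FiniteDimensional ℝ E] (M : Type) [TopologicalSpace M] [ChartedSpace E M]
  [IsManifold 𝓘(ℝ, E) ∞ M] [T2Space M] [CompactSpace M] [MeasurableSpace M] (μ : Measure M)
  (X : ∀ x : M, TangentSpace 𝓘(ℝ, E) x) (γ : ℝ → M) (τ : ℝ)
  (Φ : OpenPartialHomeomorph M (ℝ × E2)) (h : ℝ), IsSmoothField E X → IsClosedOrbit E X γ τ →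
  Box E μ X Φ h → γ 0 ∈ Φ.source → Φ (γ 0) = 0 →
  ∃ (Φ' : OpenPartialHomeomorph M (ℝ × E2)) (h' : ℝ), OrbitBox E μ X γ τ Φ' h'

/-- The closed orbit in an orbit box. -/
def T_OBF : Prop := ∀ (E : Type) [NormedAddCommGroup E] [NormedSpace ℝ E]
  [FiniteDimensional ℝ E] (M : Type) [TopologicalSpace M] [ChartedSpace E M]
  [IsManifold 𝓘(ℝ, E) ∞ M] [T2Space M] [CompactSpace M] [MeasurableSpace M] (μ : Measure M)
  (X : ∀ x : M, TangentSpace 𝓘(ℝ, E) x) (γ : ℝ → M) (τ : ℝ)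
  (Φ : OpenPartialHomeomorph M (ℝ × E2)) (h : ℝ) (φ : ℝ → M → M), IsSmoothField E X →
  IsClosedOrbit E X γ τ → OrbitBox E μ X γ τ Φ h → IsFlow E X φ →
  (∀ s t, φ s (γ t) = γ (s + t)) ∧ (∀ s, γ (s + τ) = γ s) ∧
    (∀ t, |t| < h → γ t ∈ Φ.source ∧ Φ (γ t) = (t, 0)) ∧
    ∀ s, γ s ∈ Φ.source → ∃ k : ℤ, s = k * τ + (Φ (γ s)).1

/-! ## The return map -/

/-- The return map is a local diffeomorphism. -/
def T_PM1 : Prop := ∀ (E : Type) [NormedAddCommGroup E] [NormedSpace ℝ E]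
  [FiniteDimensional ℝ E] (M : Type) [TopologicalSpace M] [ChartedSpace E M]
  [IsManifold 𝓘(ℝ, E) ∞ M] [T2Space M] [CompactSpace M] [MeasurableSpace M] (μ : Measure M)
  (X : ∀ x : M, TangentSpace 𝓘(ℝ, E) x) (γ : ℝ → M) (τ : ℝ)
  (Φ : OpenPartialHomeomorph M (ℝ × E2)) (h : ℝ) (φ : ℝ → M → M), IsSmoothField E X →
  IsClosedOrbit E X γ τ → OrbitBox E μ X γ τ Φ h → IsFlow E X φ →
  ∀ τ' : ℝ, (τ' = τ ∨ τ' = -τ) → pm φ Φ τ' 0 = 0 ∧ ContDiffAt ℝ ∞ (pm φ Φ τ') 0 ∧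
    ∃ δ : ℝ, 0 < δ ∧ δ ≤ h ∧ ∀ y : E2, ‖y‖ < δ → φ τ' (Φ.symm (0, y)) ∈ Φ.source ∧
      |(Φ (φ τ' (Φ.symm (0, y)))).1| < h / 16 ∧ ‖pm φ Φ τ' y‖ < h ∧
      ContDiffAt ℝ ∞ (pm φ Φ τ') y ∧ pm φ Φ (-τ') (pm φ Φ τ' y) = y ∧
      ∀ t : ℝ, |t| ≤ 7 * h / 8 → φ τ' (Φ.symm (t, y)) ∈ Φ.source ∧
        Φ (φ τ' (Φ.symm (t, y))) = ((Φ (φ τ' (Φ.symm (0, y)))).1 + t, pm φ Φ τ' y)

/-- The return map preserves the area. -/
def T_PM2 : Prop := ∀ (E : Type) [NormedAddCommGroup E] [NormedSpace ℝ E]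
  [FiniteDimensional ℝ E] [MeasurableSpace E] [BorelSpace E] (M : Type) [TopologicalSpace M]
  [ChartedSpace E M] [IsManifold 𝓘(ℝ, E) ∞ M] [T2Space M] [CompactSpace M] [MeasurableSpace M]
  [BorelSpace M] (μ : Measure M) [IsFiniteMeasure μ] (X : ∀ x : M, TangentSpace 𝓘(ℝ, E) x)
  (γ : ℝ → M) (τ : ℝ) (Φ : OpenPartialHomeomorph M (ℝ × E2)) (h : ℝ) (φ : ℝ → M → M),
  IsSmoothField E X → DivFree E μ X → IsClosedOrbit E X γ τ → OrbitBox E μ X γ τ Φ h →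
  IsFlow E X φ → ∀ τ' : ℝ, (τ' = τ ∨ τ' = -τ) →
  ∃ U ∈ 𝓝 (0 : E2), ∀ A ⊆ U, MeasurableSet A → volume (pm φ Φ τ' '' A) = volume A

/-- The eigenvalues of the derivative of the return map. -/
def T_PM3 : Prop := ∀ (E : Type) [NormedAddCommGroup E] [NormedSpace ℝ E]
  [FiniteDimensional ℝ E] (M : Type) [TopologicalSpace M] [ChartedSpace E M]
  [IsManifold 𝓘(ℝ, E) ∞ M] [T2Space M] [CompactSpace M] [MeasurableSpace M] (μ : Measure M)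
  (X : ∀ x : M, TangentSpace 𝓘(ℝ, E) x) (γ : ℝ → M) (τ : ℝ)
  (Φ : OpenPartialHomeomorph M (ℝ × E2)) (h : ℝ) (φ : ℝ → M → M), IsSmoothField E X →
  IsClosedOrbit E X γ τ → OrbitBox E μ X γ τ Φ h → IsFlow E X φ → NonHyperbolic E X γ τ →
  ∃ c : ℝ, (c = 1 ∨ c = -1) ∧ ∀ (v : E2) (a : ℝ), v ≠ 0 →
    fderiv ℝ (pm φ Φ τ) 0 v = a • v → a = c

/-- A small rotation makes a non-hyperbolic area preserving linear map nonresonant. -/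
def T_NRS : Prop := ∀ (A : E2 →L[ℝ] E2) (c : ℝ), |A.det| = 1 → (c = 1 ∨ c = -1) →
  (∀ (v : E2) (a : ℝ), v ≠ 0 → A v = a • v → a = c) → ∀ (t₀ : ℝ) (R : ℕ), 0 < t₀ →
  ∃ t : ℝ, |t| ≤ t₀ ∧ Pal.NoRealEigenvalue (Pal.rot t ∘L A) ∧
    ∀ k, 1 ≤ k → k ≤ R → (Pal.rot t ∘L A) ^ k ≠ 1

/-! ## The twist -/

/-- The twist field in an orbit box. -/
structure Twist (E : Type) [NormedAddCommGroup E] [NormedSpace ℝ E] {M : Type}
    [TopologicalSpace M] [ChartedSpace E M] [IsManifold 𝓘(ℝ, E) ∞ M] [MeasurableSpace M]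
    (μ : Measure M) (Φ : OpenPartialHomeomorph M (ℝ × E2)) (h : ℝ)
    (T : ∀ x : M, TangentSpace 𝓘(ℝ, E) x) (β χ : ℝ → ℝ) : Prop where
  smooth : IsSmoothField E T
  div : DivFree E μ T
  beta_smooth : ContDiff ℝ ∞ β
  beta_supp : ∀ t, (t ≤ -(5 * h / 8) ∨ -(3 * h / 8) ≤ t) → β t = 0
  beta_int : ∫ t in (-h)..h, β t = 1
  chi_one : ∀ t, 0 ≤ t → t ≤ (h / 4) ^ 2 → χ t = 1
  chi_zero : ∀ t, (h / 2) ^ 2 ≤ t → χ t = 0
  on_box : ∀ x ∈ Φ.source, (mfderiv 𝓘(ℝ, E) 𝓘(ℝ, ℝ × E2) Φ x (T x) : ℝ × E2) =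
    (0, (β (Φ x).1 * χ (‖(Φ x).2‖ ^ 2)) • Pal.rot (Real.pi / 2) (Φ x).2)
  off_box : ∀ x ∉ Φ.source, T x = 0

/-- Twist fields exist. -/
def T_TWA : Prop := ∀ (E : Type) [NormedAddCommGroup E] [NormedSpace ℝ E]
  [FiniteDimensional ℝ E] [MeasurableSpace E] [BorelSpace E] (M : Type) [TopologicalSpace M]
  [ChartedSpace E M] [IsManifold 𝓘(ℝ, E) ∞ M] [T2Space M] [CompactSpace M] [MeasurableSpace M]
  [BorelSpace M] (μ : Measure M) [IsFiniteMeasure μ] (X : ∀ x : M, TangentSpace 𝓘(ℝ, E) x)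
  (Φ : OpenPartialHomeomorph M (ℝ × E2)) (h : ℝ), Box E μ X Φ h →
  ∃ T β χ, Twist E μ Φ h T β χ

/-- The effect of the twist. -/
def T_TWB : Prop := ∀ (E : Type) [NormedAddCommGroup E] [NormedSpace ℝ E]
  [FiniteDimensional ℝ E] (M : Type) [TopologicalSpace M] [ChartedSpace E M]
  [IsManifold 𝓘(ℝ, E) ∞ M] [T2Space M] [CompactSpace M] [MeasurableSpace M] [BorelSpace M]
  (μ : Measure M) (X T : ∀ x : M, TangentSpace 𝓘(ℝ, E) x) (γ : ℝ → M) (τ : ℝ)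
  (Φ : OpenPartialHomeomorph M (ℝ × E2)) (h : ℝ) (β χ : ℝ → ℝ) (φ : ℝ → M → M),
  IsSmoothField E X → IsClosedOrbit E X γ τ → OrbitBox E μ X γ τ Φ h → IsFlow E X φ →
  Twist E μ Φ h T β χ →
  ∃ (Φ' : OpenPartialHomeomorph M (ℝ × E2)) (h' : ℝ), ∀ c : ℝ,
    IsClosedOrbit E (fun x => X x + c • T x) γ τ ∧
    OrbitBox E μ (fun x => X x + c • T x) γ τ Φ' h' ∧
    ∀ φ', IsFlow E (fun x => X x + c • T x) φ' →
      ∀ᶠ y in 𝓝 (0 : E2), pm φ' Φ' τ y = Pal.rot c (pm φ Φ τ y)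

/-! ## The almost invariant function -/

open Classical in
/-- A function on `M` given in the coordinates `Φ`. -/
noncomputable def bmp {M : Type} [TopologicalSpace M] (Φ : OpenPartialHomeomorph M (ℝ × E2))
    (f : ℝ × E2 → ℝ) (x : M) : ℝ := if x ∈ Φ.source then f (Φ x) else 0

/-- The integral of `F` along the orbits up to the time `τ`. -/
noncomputable def avg {M : Type} (φ : ℝ → M → M) (τ : ℝ) (F : M → ℝ) (x : M) : ℝ :=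
  ∫ s in (0 : ℝ)..τ, F (φ s x)

/-- The almost invariant function. -/
noncomputable def intI {M : Type} [TopologicalSpace M] (Φ : OpenPartialHomeomorph M (ℝ × E2))
    (φ : ℝ → M → M) (τ : ℝ) (f₀ : ℝ × E2 → ℝ) (I₀ : E2 → ℝ) (θ : M → ℝ) (x : M) : ℝ :=
  θ x * (avg φ τ (bmp Φ (fun z => f₀ z * I₀ z.2)) x / avg φ τ (bmp Φ f₀) x)

/-- The data of the almost invariant function. -/
structure IntData (E : Type) [NormedAddCommGroup E] [NormedSpace ℝ E] {M : Type}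
    [TopologicalSpace M] [ChartedSpace E M] [IsManifold 𝓘(ℝ, E) ∞ M] [MeasurableSpace M]
    (μ : Measure M) (X : ∀ x : M, TangentSpace 𝓘(ℝ, E) x) (γ : ℝ → M) (τ : ℝ)
    (Φ : OpenPartialHomeomorph M (ℝ × E2)) (h : ℝ) (φ : ℝ → M → M) (f₀ : ℝ × E2 → ℝ)
    (I₀ : E2 → ℝ) (b : ℝ) (θ : M → ℝ) : Prop where
  field : IsSmoothField E X
  orbit : IsClosedOrbit E X γ τ
  box : OrbitBox E μ X γ τ Φ h
  flow : IsFlow E X φ
  f_smooth : ContDiff ℝ ∞ f₀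
  f_nonneg : ∀ z, 0 ≤ f₀ z
  f_supp : ∀ z, f₀ z ≠ 0 → |z.1| ≤ h / 4 ∧ ‖z.2‖ ≤ h / 4
  f_pos : ∀ᶠ z in 𝓝 (0 : ℝ × E2), 0 < f₀ z
  I_smooth : ContDiff ℝ ∞ I₀
  I_zero : I₀ 0 = 0
  b_pos : 0 < b
  I_low : ∀ᶠ y in 𝓝 (0 : E2), b * ‖y‖ ^ 2 ≤ I₀ y
  θ_smooth : ContMDiff 𝓘(ℝ, E) 𝓘(ℝ, ℝ) ∞ θ
  θ_one : ∀ᶠ x in 𝓝ˢ (range γ), θ x = 1
  θ_supp : tsupport θ ⊆ {x | 0 < avg φ τ (bmp Φ f₀) x}

/-- Functions given in the flow box are smooth on `M`. -/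
def T_BMP : Prop := ∀ (E : Type) [NormedAddCommGroup E] [NormedSpace ℝ E]
  [FiniteDimensional ℝ E] (M : Type) [TopologicalSpace M] [ChartedSpace E M]
  [IsManifold 𝓘(ℝ, E) ∞ M] [T2Space M] [CompactSpace M] [MeasurableSpace M] (μ : Measure M)
  (X : ∀ x : M, TangentSpace 𝓘(ℝ, E) x) (Φ : OpenPartialHomeomorph M (ℝ × E2)) (h : ℝ)
  (f : ℝ × E2 → ℝ), Box E μ X Φ h → ContDiff ℝ ∞ f →
  (∀ z, f z ≠ 0 → |z.1| ≤ h / 4 ∧ ‖z.2‖ ≤ h / 4) → ContMDiff 𝓘(ℝ, E) 𝓘(ℝ, ℝ) ∞ (bmp Φ f)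

/-- The data exist. -/
def T_IVD : Prop := ∀ (E : Type) [NormedAddCommGroup E] [NormedSpace ℝ E]
  [FiniteDimensional ℝ E] (M : Type) [TopologicalSpace M] [ChartedSpace E M]
  [IsManifold 𝓘(ℝ, E) ∞ M] [T2Space M] [CompactSpace M] [MeasurableSpace M] (μ : Measure M)
  (X : ∀ x : M, TangentSpace 𝓘(ℝ, E) x) (γ : ℝ → M) (τ : ℝ)
  (Φ : OpenPartialHomeomorph M (ℝ × E2)) (h : ℝ) (φ : ℝ → M → M) (I₀ : E2 → ℝ) (b : ℝ),
  IsSmoothField E X → IsClosedOrbit E X γ τ → OrbitBox E μ X γ τ Φ h → IsFlow E X φ →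
  ContDiff ℝ ∞ I₀ → I₀ 0 = 0 → 0 < b → (∀ᶠ y in 𝓝 (0 : E2), b * ‖y‖ ^ 2 ≤ I₀ y) →
  ∃ f₀ θ, IntData E μ X γ τ Φ h φ f₀ I₀ b θ

/-- The almost invariant function is smooth. -/
def T_IVS : Prop := ∀ (E : Type) [NormedAddCommGroup E] [NormedSpace ℝ E]
  [FiniteDimensional ℝ E] (M : Type) [TopologicalSpace M] [ChartedSpace E M]
  [IsManifold 𝓘(ℝ, E) ∞ M] [T2Space M] [CompactSpace M] [MeasurableSpace M] (μ : Measure M)
  (X : ∀ x : M, TangentSpace 𝓘(ℝ, E) x) (γ : ℝ → M) (τ : ℝ)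
  (Φ : OpenPartialHomeomorph M (ℝ × E2)) (h : ℝ) (φ : ℝ → M → M) (f₀ : ℝ × E2 → ℝ)
  (I₀ : E2 → ℝ) (b : ℝ) (θ : M → ℝ), IntData E μ X γ τ Φ h φ f₀ I₀ b θ →
  ContMDiff 𝓘(ℝ, E) 𝓘(ℝ, ℝ) ∞ (intI Φ φ τ f₀ I₀ θ) ∧
  ∀ᶠ x in 𝓝ˢ (range γ), 0 < avg φ τ (bmp Φ f₀) x ∧
    lieD (intI Φ φ τ f₀ I₀ θ) X x * avg φ τ (bmp Φ f₀) x =
      (bmp Φ (fun z => f₀ z * I₀ z.2) (φ τ x) - intI Φ φ τ f₀ I₀ θ x * bmp Φ f₀ (φ τ x)) -
      (bmp Φ (fun z => f₀ z * I₀ z.2) x - intI Φ φ τ f₀ I₀ θ x * bmp Φ f₀ x)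

/-- Orbits near the closed orbit. -/
def T_OSC : Prop := ∀ (E : Type) [NormedAddCommGroup E] [NormedSpace ℝ E]
  [FiniteDimensional ℝ E] (M : Type) [TopologicalSpace M] [ChartedSpace E M]
  [IsManifold 𝓘(ℝ, E) ∞ M] [T2Space M] [CompactSpace M] [MeasurableSpace M] (μ : Measure M)
  (X : ∀ x : M, TangentSpace 𝓘(ℝ, E) x) (γ : ℝ → M) (τ : ℝ)
  (Φ : OpenPartialHomeomorph M (ℝ × E2)) (h : ℝ) (φ : ℝ → M → M), IsSmoothField E X →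
  IsClosedOrbit E X γ τ → OrbitBox E μ X γ τ Φ h → IsFlow E X φ →
  ∀ η > (0 : ℝ), ∀ᶠ x in 𝓝ˢ (range γ), ∃ y : E2, ‖y‖ < η ∧ ‖pm φ Φ τ y‖ < η ∧
    ∀ s ∈ Icc 0 τ, φ s x ∈ Φ.source → |(Φ (φ s x)).1| ≤ h / 4 → ‖(Φ (φ s x)).2‖ ≤ h / 4 →
      ((Φ (φ s x)).2 = y ∨ (Φ (φ s x)).2 = pm φ Φ τ y)

/-- The lower bound for the almost invariant function. -/
def T_IVQ : Prop := ∀ (E : Type) [NormedAddCommGroup E] [NormedSpace ℝ E]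
  [FiniteDimensional ℝ E] (M : Type) [TopologicalSpace M] [ChartedSpace E M]
  [IsManifold 𝓘(ℝ, E) ∞ M] [T2Space M] [CompactSpace M] [MeasurableSpace M] (μ : Measure M)
  (X : ∀ x : M, TangentSpace 𝓘(ℝ, E) x) (γ : ℝ → M) (τ : ℝ)
  (Φ : OpenPartialHomeomorph M (ℝ × E2)) (h : ℝ) (φ : ℝ → M → M) (f₀ : ℝ × E2 → ℝ)
  (I₀ : E2 → ℝ) (b : ℝ) (θ : M → ℝ), IntData E μ X γ τ Φ h φ f₀ I₀ b θ →
  QuadMin E (intI Φ φ τ f₀ I₀ θ) (range γ)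

/-- The almost invariance. -/
def T_IVA : Prop := ∀ (E : Type) [NormedAddCommGroup E] [NormedSpace ℝ E]
  [FiniteDimensional ℝ E] (M : Type) [TopologicalSpace M] [ChartedSpace E M]
  [IsManifold 𝓘(ℝ, E) ∞ M] [T2Space M] [CompactSpace M] [MeasurableSpace M] (μ : Measure M)
  (X : ∀ x : M, TangentSpace 𝓘(ℝ, E) x) (γ : ℝ → M) (τ : ℝ)
  (Φ : OpenPartialHomeomorph M (ℝ × E2)) (h : ℝ) (φ : ℝ → M → M) (f₀ : ℝ × E2 → ℝ)
  (I₀ : E2 → ℝ) (b : ℝ) (θ : M → ℝ) (r : ℕ), IntData E μ X γ τ Φ h φ f₀ I₀ b θ →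
  (fun y => I₀ (pm φ Φ τ y) - I₀ y) =o[𝓝 0] (fun y => ‖y‖ ^ (r + 1)) →
  AlmostInvariant E r X (intI Φ φ τ f₀ I₀ θ) (range γ)

/-- The main theorem for closed orbits. -/
def T_ORB : Prop := ∀ (E : Type) [NormedAddCommGroup E] [NormedSpace ℝ E]
  [FiniteDimensional ℝ E] [MeasurableSpace E] [BorelSpace E] (M : Type) [TopologicalSpace M]
  [ChartedSpace E M] [IsManifold 𝓘(ℝ, E) ∞ M] [T2Space M] [CompactSpace M] [ConnectedSpace M]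
  [MeasurableSpace M] [BorelSpace M] (μ : Measure M) (X : ∀ x : M, TangentSpace 𝓘(ℝ, E) x)
  (γ : ℝ → M) (τ : ℝ) (r : ℕ), Module.finrank ℝ E = 3 → IsSmoothVolume E μ →
  IsSmoothField E X → DivFree E μ X → IsClosedOrbit E X γ τ → NonHyperbolic E X γ τ →
  Approx E r X {Y | IsSmoothField E Y ∧ IsClosedOrbit E Y γ τ ∧
    AttractsAlmostAll E Y (range γ)}

end Pool.Agent.PalF
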